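import Pool.Agent.Helper83.SV.FinalEA

/-!
# Closure properties: the scope of the theorem
-/

namespace Pool.Agent.Helper83.SV

open Pool.Agent.Helper32.SmallVar Pool.Agent.Helper13.PV

theorem ElemSol.of_equiv {G : Type} [Group G] (h : ElemSol G) {K : Type} [Group K]
    (e : G ≃* K) : ElemSol K := by
  induction h generalizing K with
  | comm G h =>
    refine ElemSol.comm K fun a b => ?_
    apply e.symm.injective
    rw [map_mul, map_mul, h]
  | ext G N h1 h2 ih1 ih2 =>
    have hn : (N.map e.toMonoidHom).Normal := Subgroup.Normal.map inferInstance _ e.surjective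
    exact ElemSol.ext K (N.map e.toMonoidHom) (ih1 (e.subgroupMap N))
      (ih2 (QuotientGroup.congr N (N.map e.toMonoidHom) e rfl))
  | loc G h ih =>
    refine ElemSol.loc K fun K' hK' => ?_
    have h1 : (K'.map e.symm.toMonoidHom).FG := by
      rw [← Group.fg_iff_subgroup_fg] at hK' ⊢
      have := hK'
      exact Group.fg_of_surjective
        (f := (e.symm.subgroupMap K').toMonoidHom) (e.symm.subgroupMap K').surjective
    exact ih _ h1 (e.symm.subgroupMap K').symm

theorem es_ext {G : Type} [Group G] (N : Subgroup G) [N.Normal] (hN : ElemSol N)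
    (h : ElemSolByFinite (G ⧸ N)) : ElemSolByFinite G := by
  obtain ⟨H', hn, hf, hH⟩ := h
  have hfi : (H'.comap (QuotientGroup.mk' N)).FiniteIndex := by
    constructor
    rw [Subgroup.index_comap_of_surjective _ (QuotientGroup.mk'_surjective N)]
    exact hf.index_ne_zero
  refine ⟨H'.comap (QuotientGroup.mk' N), inferInstance, hfi, ?_⟩
  set H := H'.comap (QuotientGroup.mk' N) with hHdef
  have hNH : N ≤ H := by
    intro x hx
    rw [hHdef, Subgroup.mem_comap]
    have : QuotientGroup.mk' N x = 1 := by
      rw [QuotientGroup.mk'_apply, QuotientGroup.eq_one_iff]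
      exact hx
    rw [this]
    exact H'.one_mem
  let f : H →* H' := ((QuotientGroup.mk' N).comp H.subtype).codRestrict H' (fun x => x.2)
  have hfs : Function.Surjective f := by
    rintro ⟨y, hy⟩
    obtain ⟨x, rfl⟩ := QuotientGroup.mk'_surjective N y
    exact ⟨⟨x, hy⟩, rfl⟩
  have hfk : f.ker = N.subgroupOf H := by
    ext x
    rw [MonoidHom.mem_ker, Subgroup.mem_subgroupOf, ← QuotientGroup.eq_one_iff]
    exact Subtype.ext_iff
  refine ElemSol.ext H (N.subgroupOf H) (hN.of_equiv (Subgroup.subgroupOfEquivOfLe hNH).symm) ?_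
  exact hH.of_equiv ((QuotientGroup.quotientMulEquivOfEq hfk).symm.trans
    (QuotientGroup.quotientKerEquivOfSurjective f hfs)).symm

theorem ds_succ' {G : Type} [Group G] (S : Subgroup G) (n : ℕ) :
    ds S (n + 1) = ds ⁅S, S⁆ n := by
  induction n with
  | zero => rfl
  | succ n ih =>
    show (⁅ds S (n + 1), ds S (n + 1)⁆ : Subgroup G) = ⁅ds ⁅S, S⁆ n, ds ⁅S, S⁆ n⁆
    rw [ih]

theorem elemSol_of_ds (n : ℕ) : ∀ (G : Type) [Group G], ds (⊤ : Subgroup G) n = ⊥ →
    ElemSol G := by
  induction n with
  | zero =>
    intro G _ h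
    refine ElemSol.comm G fun a b => ?_
    have h1 : ∀ g : G, g = 1 := fun g => by
      have : g ∈ (⊤ : Subgroup G) := Subgroup.mem_top g
      rw [show (⊤ : Subgroup G) = ⊥ from h] at this
      exact Subgroup.mem_bot.1 this
    rw [h1 a, h1 b]
  | succ n ih =>
    intro G _ h
    refine ElemSol.ext G (⁅(⊤ : Subgroup G), ⊤⁆) (ih _ ?_) (ElemSol.comm _ ?_)
    · rw [ds_succ', ← ds_derived] at h
      rw [← ds_derived]
      have h1 := (Subgroup.map_eq_bot_iff_of_injective _ (Subgroup.subtype_injective _)).1 h
      -- the derived series of the derived subgroup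
      have h2 : ∀ (K : Type) [Group K] (m : ℕ), derivedSeries K m = ⊥ →
          (derivedSeries (⊤ : Subgroup K) m).map (⊤ : Subgroup K).subtype = ⊥ := by
        intro K _ m hm
        rw [ds_derived]
        have h3 : ∀ m : ℕ, ds (⊤ : Subgroup K) m = derivedSeries K m := by
          intro m
          induction m with
          | zero => rfl
          | succ m ih =>
            rw [derivedSeries_succ, ← ih]
            rfl
        rw [h3, hm]
      exact h2 _ n h1
    · intro a b
      obtain ⟨a, rfl⟩ := QuotientGroup.mk'_surjective _ a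
      obtain ⟨b, rfl⟩ := QuotientGroup.mk'_surjective _ b
      rw [← commutatorElement_eq_one_iff_mul_comm, ← map_commutatorElement,
        QuotientGroup.mk'_apply, QuotientGroup.eq_one_iff]
      exact Subgroup.commutator_mem_commutator (Subgroup.mem_top a) (Subgroup.mem_top b)

theorem elemSol_of_solvable {G : Type} [Group G] (h : Group.IsSolvable G) : ElemSol G := by
  have h1 : Group.IsSolvable (⊤ : Subgroup G) := inferInstance
  obtain ⟨n, hn⟩ := (solvable_iff_ds (⊤ : Subgroup G)).1 h1
  exact elemSol_of_ds n G hn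

/-- The product of a variety of locally soluble groups and a variety of the kind considered is
again of this kind. -/
theorem esVariety_prod {LU LW : Set (FreeGroup ℕ)}
    (hU : ∀ (G : Type) [Group G], Group.FG G → SatisfiesLaws LU G → Group.IsSolvable G)
    (hW : ESVariety LW) : ESVariety (prodLaws LU LW) := by
  intro G _ hG hV
  obtain ⟨N, hN, h1, h2⟩ := prodLaws_iff.1 hV
  refine es_ext N (ElemSol.loc N fun K hK => elemSol_of_solvable ?_)
    (hW _ (QuotientGroup.fg N) h2)
  exact hU K ((Group.fg_iff_subgroup_fg K).2 hK) (laws_of_inj K.subtype K.subtype_injective h1)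

theorem esVariety_of_lf {LW : Set (FreeGroup ℕ)} (hW : LocallyFiniteVariety LW) :
    ESVariety LW := by
  intro G _ hG hV
  have := hW G hG hV
  refine ⟨⊥, inferInstance, inferInstance, ElemSol.comm _ fun a b => Subsingleton.elim _ _⟩

end Pool.Agent.Helper83.SV
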