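import Pool.Agent.Helper83.SV.Main

/-!
# Final form
-/

namespace Pool.Agent.Helper83.SV

open Pool.Agent.Helper32.SmallVar Pool.Agent.Helper13.PV

variable {L : Set (FreeGroup ℕ)}

/-- Small varieties consist of Hopfian groups (Helper32). -/
theorem hopfian_of_small (hL : IsSmallVariety L) : AllHopfian L := by
  intro G _ hfg hG
  by_contra hH
  obtain ⟨n, x, hx⟩ : ∃ (n : ℕ) (x : Fin n → G), Subgroup.closure (Set.range x) = ⊤ := by
    obtain ⟨S, hS⟩ := hfg.out
    refine ⟨S.card, fun i => (S.equivFin.symm i : G), ?_⟩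
    rw [← hS]
    congr 1
    ext g
    constructor
    · rintro ⟨i, rfl⟩
      exact (S.equivFin.symm i).2
    · intro hg
      exact ⟨S.equivFin ⟨g, hg⟩, by simp⟩
  unfold IsHopfian at hH
  push Not at hH
  obtain ⟨φ, hs, hi⟩ := hH
  obtain ⟨R, hR, hR2⟩ := main hx hs hi
  have : ∀ ε, (R ε).Normal := fun ε => (hR2 ε).1
  obtain ⟨c, hc⟩ := exists_noniso R hR
  obtain ⟨H', hH'⟩ := hL
  have h4 : ∀ ε : ℕ → Bool, ∃ i, Nonempty (FreeGroup (Fin n ⊕ Fin n) ⧸ R (c ε) ≃* H' i) := by
    intro ε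
    apply hH' (FreeGroup (Fin n ⊕ Fin n) ⧸ R (c ε)) (QuotientGroup.fg _)
    exact laws_quotient hG (psi x φ) (R (c ε)) (hR2 _).2
  choose i hi using h4
  have hinj : Function.Injective i := by
    intro ε δ h
    apply hc
    obtain ⟨e⟩ := hi ε
    obtain ⟨f⟩ := hi δ
    rw [← h] at f
    exact ⟨e.trans f.symm⟩
  have h7 : Cardinal.aleph0 < Cardinal.mk (ℕ → Bool) := by
    simpa using Cardinal.aleph0_lt_continuum
  have h5 : Countable (ℕ → Bool) := hinj.countable
  have h6 : Cardinal.mk (ℕ → Bool) ≤ Cardinal.aleph0 := Cardinal.mk_le_aleph0_iff.mpr h5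
  exact absurd h6 (not_le.mpr h7)

theorem final_fg (hL : AllHopfian L) {G : Type} [Group G] (hG : Group.FG G)
    (hV : SatisfiesLaws L G) (h : ElemSolByFinite G) :
    MaxN G ∧ ∃ S : Subgroup G, S.Normal ∧ S.FiniteIndex ∧ Group.IsSolvable S := by
  obtain ⟨N, hN, hNf, hNe⟩ := h
  have hfg : Group.FG N := Subgroup.fg_of_index_ne_zero N
  obtain ⟨h1, h2⟩ := main_eas hL (eas_of_elemSol hNe (MonoidHom.id N) Function.injective_id hfg)
    hfg (laws_of_inj N.subtype N.subtype_injective hV)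
  exact ⟨maxN_of_finite N hN hNf h2, N, hN, hNf, h1⟩

theorem hopfian_of_maxN {G : Type} [Group G] (h : MaxN G) : IsHopfian G := by
  intro φ hφ
  rw [← MonoidHom.ker_eq_bot_iff]
  -- the kernels of the iterates form an ascending chain of normal subgroups
  let φi : ℕ → G →* G := fun n => Nat.rec (MonoidHom.id G) (fun _ ψ => ψ.comp φ) n
  have hφi0 : φi 0 = MonoidHom.id G := rfl
  have hφis : ∀ n, φi (n + 1) = (φi n).comp φ := fun n => rfl
  have hcomm : ∀ n, (φi n).comp φ = φ.comp (φi n) := by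
    intro n
    induction n with
    | zero => rfl
    | succ n ih =>
      rw [hφis]
      conv_rhs => rw [← MonoidHom.comp_assoc, ← ih]
  have hsurj : ∀ n, Function.Surjective (φi n) := by
    intro n
    induction n with
    | zero => exact Function.surjective_id
    | succ n ih => exact ih.comp hφ
  obtain ⟨N, ⟨n, rfl⟩, hmax⟩ := h.exists_max (Set.range fun n => (φi n).ker)
    (by
      rintro _ ⟨n, rfl⟩
      infer_instance) ⟨_, 0, rfl⟩
  have h1 : (φi n).ker ≤ (φi (n + 1)).ker := by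
    intro g hg
    rw [MonoidHom.mem_ker, hφis, hcomm, MonoidHom.comp_apply, MonoidHom.mem_ker.1 hg, map_one]
  have h2 := hmax _ ⟨n + 1, rfl⟩ h1
  rw [eq_bot_iff]
  intro g hg
  obtain ⟨g', rfl⟩ := hsurj n g
  have h3 : g' ∈ (φi (n + 1)).ker := by
    rw [MonoidHom.mem_ker, hφis, hcomm, MonoidHom.comp_apply]
    exact hg
  rw [show (φi (n + 1)).ker = (φi n).ker from h2, MonoidHom.mem_ker] at h3
  rw [h3]
  exact Subgroup.one_mem _

theorem final_equiv
    (h : ∀ (G : Type) [Group G], Group.FG G → SatisfiesLaws L G → ElemSolByFinite G) :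
    (IsSmallVariety L ↔ AllHopfian L) ∧
      (AllHopfian L ↔ ∀ (G : Type) [Group G], Group.FG G → SatisfiesLaws L G → MaxN G) := by
  have h1 : AllHopfian L →
      ∀ (G : Type) [Group G], Group.FG G → SatisfiesLaws L G → MaxN G := fun hL G _ hG hV =>
    (final_fg hL hG hV (h G hG hV)).1
  exact ⟨⟨hopfian_of_small, fun hL => small_of_maxN (h1 hL)⟩,
    ⟨h1, fun hM G _ hG hV => hopfian_of_maxN (hM G hG hV)⟩⟩

end Pool.Agent.Helper83.SV
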