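import Pool.Agent.Helper83.SV.MainEA
import Pool.Agent.Helper83.SV.Final

/-!
# Final form for elementary amenable groups
-/

namespace Pool.Agent.Helper83.SV

open Pool.Agent.Helper32.SmallVar Pool.Agent.Helper13.PV

variable {L : Set (FreeGroup ℕ)}

/-- All finitely generated groups of the variety are elementary amenable. -/
def EAVariety (L : Set (FreeGroup ℕ)) : Prop :=
  ∀ (G : Type) [Group G], Group.FG G → SatisfiesLaws L G → ElemAmen G

/-- All finitely generated groups of the variety have a normal subgroup of finite index in the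
class `ElemSol`. -/
def ESVariety (L : Set (FreeGroup ℕ)) : Prop :=
  ∀ (G : Type) [Group G], Group.FG G → SatisfiesLaws L G → ElemSolByFinite G

/-- All finitely generated groups of the variety satisfy the maximal condition for normal
subgroups. -/
def AllMaxN (L : Set (FreeGroup ℕ)) : Prop :=
  ∀ (G : Type) [Group G], Group.FG G → SatisfiesLaws L G → MaxN G

theorem finalEA_fg (hL : AllHopfian L) (n : ℕ) (hbs : BddSimple L n) {G : Type} [Group G]
    (hG : Group.FG G) (hV : SatisfiesLaws L G) (h : ElemAmen G) : SolByFin G ∧ MaxN G :=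
  main_eaf hL n hbs (eaf_of_elemAmen h (MonoidHom.id G) Function.injective_id hG) hG hV

theorem finalEA_equiv (n : ℕ) (hbs : BddSimple L n) (h : EAVariety L) :
    (IsSmallVariety L ↔ AllHopfian L) ∧ (AllHopfian L ↔ AllMaxN L) := by
  have h1 : AllHopfian L → AllMaxN L := fun hL G _ hG hV =>
    (finalEA_fg hL n hbs hG hV (h G hG hV)).2
  exact ⟨⟨hopfian_of_small, fun hL => small_of_maxN (h1 hL)⟩,
    ⟨h1, fun hM G _ hG hV => hopfian_of_maxN (hM G hG hV)⟩⟩

/-- The product of varieties of locally elementary amenable groups is of the same kind. -/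
theorem eaVariety_prod {LU LW : Set (FreeGroup ℕ)} (hU : EAVariety LU) (hW : EAVariety LW) :
    EAVariety (prodLaws LU LW) := by
  intro G _ hG hV
  obtain ⟨N, hN, h1, h2⟩ := prodLaws_iff.1 hV
  refine ElemAmen.ext G N (ElemAmen.loc N fun K hK => ?_) (hW _ (QuotientGroup.fg N) h2)
  exact hU K ((Group.fg_iff_subgroup_fg K).2 hK) (laws_of_inj K.subtype K.subtype_injective h1)

theorem bddSimple_prod {LU LW : Set (FreeGroup ℕ)} {n m : ℕ} (hU : BddSimple LU n)
    (hW : BddSimple LW m) : BddSimple (prodLaws LU LW) (max n m) := by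
  intro S _ hSf hV hSs hSc
  obtain ⟨N, hN, h1, h2⟩ := prodLaws_iff.1 hV
  rcases hSs.eq_bot_or_eq_top_of_normal N hN with rfl | rfl
  · refine (hW S hSf ?_ hSs hSc).trans (le_max_right _ _)
    exact laws_of_inj (QuotientGroup.mk' (⊥ : Subgroup S)) (by
      rw [← MonoidHom.ker_eq_bot_iff, QuotientGroup.ker_mk']) h2
  · refine (hU S hSf ?_ hSs hSc).trans (le_max_left _ _)
    exact laws_of_inj (Subgroup.topEquiv (G := S)).symm.toMonoidHom
      (Subgroup.topEquiv (G := S)).symm.injective h1

end Pool.Agent.Helper83.SV
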