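import Pool.Agent.Helper83.SV.WinB

/-!
# SV-17: a normal subgroup of class at most two containing its centralizer

`exists_F`: let `F` be maximal among the normal subgroups of `Q` contained in `S` with
`⁅⁅F, F⁆, F⁆ = ⊥` (`MaxN.exists_max`; `⊥` is one). Let `C = centralizer F ⊓ S`, `Z = F ⊓ C` (the
centre of `F`). Suppose `C ≰ F`. The derived series of `C` (subgroups of `Q`: `C^(0) = C`,
`C^(i+1) = ⁅C^(i), C^(i)⁆`, all normal in `Q`) reaches `⊥`, so there is `i` with `C^(i) ≰ F` and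
`C^(i+1) ≤ F`, so `C^(i+1) ≤ Z`. Let `K = C^(i)`: `⁅K, K⁆ ≤ Z`, and `K` commutes with `F`. Then
`F ⊔ K` has class at most two: `⁅⁅F ⊔ K, F ⊔ K⁆, F ⊔ K⁆ = ⊥`, as `⁅F ⊔ K, F ⊔ K⁆ ≤ ⁅F, F⁆ ⊔ Z`,
which commutes with `F` and `K`. Contradiction to the maximality.
-/

namespace Pool.Agent.Helper83.SV

open scoped commutatorElement

/-- The derived series of a subgroup, as subgroups of the whole group. -/
private def Core2_ser {Q : Type} [Group Q] (C : Subgroup Q) : ℕ → Subgroup Q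
  | 0 => C
  | n + 1 => ⁅Core2_ser C n, Core2_ser C n⁆

private theorem Core2_normal {Q : Type} [Group Q] {C : Subgroup Q} (hC : C.Normal) (n : ℕ) :
    (Core2_ser C n).Normal := by
  induction n with
  | zero => exact hC
  | succ n ih =>
    have := ih
    change (⁅Core2_ser C n, Core2_ser C n⁆).Normal
    infer_instance

private theorem Core2_le {Q : Type} [Group Q] {C : Subgroup Q} (hC : C.Normal) (n : ℕ) :
    Core2_ser C n ≤ C := by
  induction n with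
  | zero => exact le_refl _
  | succ n ih =>
    have := Core2_normal hC n
    exact (Subgroup.commutator_le_left (Core2_ser C n) (Core2_ser C n)).trans ih

private theorem Core2_map {Q : Type} [Group Q] {C S : Subgroup Q} (hCS : C ≤ S) (n : ℕ) :
    Core2_ser C n ≤ (derivedSeries S n).map S.subtype := by
  induction n with
  | zero =>
    rw [derivedSeries_zero]
    intro x hx
    exact ⟨⟨x, hCS hx⟩, Subgroup.mem_top _, rfl⟩
  | succ n ih =>
    rw [derivedSeries_succ, Subgroup.map_commutator]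
    exact Subgroup.commutator_mono ih ih

theorem exists_F {Q : Type} [Group Q] (hM : MaxN Q) (S : Subgroup Q) (hS : S.Normal)
    (hSs : Group.IsSolvable S) :
    ∃ F : Subgroup Q, F.Normal ∧ F ≤ S ∧ ⁅⁅F, F⁆, F⁆ = ⊥ ∧
      Subgroup.centralizer (F : Set Q) ⊓ S ≤ F := by
  classical
  obtain ⟨F, ⟨hFn, hFS, hF2⟩, hmax⟩ := hM.exists_max
    {F : Subgroup Q | F.Normal ∧ F ≤ S ∧ ⁅⁅F, F⁆, F⁆ = ⊥} (fun N hN => hN.1)
    ⟨⊥, inferInstance, bot_le, by rw [Subgroup.commutator_bot_right]⟩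
  refine ⟨F, hFn, hFS, hF2, ?_⟩
  have hCn : (Subgroup.centralizer (F : Set Q) ⊓ S).Normal := by
    have : (Subgroup.centralizer (F : Set Q)).Normal := inferInstance
    infer_instance
  by_contra hC
  obtain ⟨m, hm⟩ := hSs.solvable
  have hex : ∃ n, Core2_ser (Subgroup.centralizer (F : Set Q) ⊓ S) n ≤ F := by
    refine ⟨m, (Core2_map inf_le_right m).trans ?_⟩
    rw [hm, Subgroup.map_bot]
    exact bot_le
  obtain ⟨i, hi1, hi2⟩ : ∃ i, ¬ Core2_ser (Subgroup.centralizer (F : Set Q) ⊓ S) i ≤ F ∧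
      Core2_ser (Subgroup.centralizer (F : Set Q) ⊓ S) (i + 1) ≤ F := by
    by_contra h
    push Not at h
    have hall : ∀ n, ¬ Core2_ser (Subgroup.centralizer (F : Set Q) ⊓ S) n ≤ F := by
      intro n
      induction n with
      | zero => exact hC
      | succ n ih => exact h n ih
    obtain ⟨n, hn⟩ := hex
    exact hall n hn
  set K : Subgroup Q := Core2_ser (Subgroup.centralizer (F : Set Q) ⊓ S) i with hK
  have hKn : K.Normal := Core2_normal hCn i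
  have hKC : K ≤ Subgroup.centralizer (F : Set Q) ⊓ S := Core2_le hCn i
  have hKK : ⁅K, K⁆ ≤ F := hi2
  have hKF : ∀ k ∈ K, ∀ f ∈ F, f * k = k * f := fun k hk f hf =>
    (Subgroup.mem_centralizer_iff.1 (hKC hk).1) f hf
  have hFF : ∀ f ∈ F, ∀ f' ∈ F, ∀ f'' ∈ F, f'' * ⁅f, f'⁆ = ⁅f, f'⁆ * f'' := by
    intro f hf f' hf' f'' hf''
    have h1 := Subgroup.commutator_eq_bot_iff_le_centralizer.1 hF2
      (Subgroup.commutator_mem_commutator hf hf')
    exact (Subgroup.mem_centralizer_iff.1 h1) f'' hf''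
  have hKKF : ∀ k ∈ K, ∀ k' ∈ K, ⁅k, k'⁆ ∈ F := fun k hk k' hk' =>
    hKK (Subgroup.commutator_mem_commutator hk hk')
  have hKKK : ∀ k ∈ K, ∀ k' ∈ K, ⁅k, k'⁆ ∈ K := fun k hk k' hk' =>
    (Subgroup.commutator_le_left K K) (Subgroup.commutator_mem_commutator hk hk')
  have hFFF : ∀ k ∈ F, ∀ k' ∈ F, ⁅k, k'⁆ ∈ F := fun k hk k' hk' =>
    (Subgroup.commutator_le_left F F) (Subgroup.commutator_mem_commutator hk hk')
  have hsup : ⁅⁅F ⊔ K, F ⊔ K⁆, F ⊔ K⁆ = ⊥ := by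
    rw [Subgroup.commutator_eq_bot_iff_le_centralizer, Subgroup.commutator_le]
    intro a ha b hb
    obtain ⟨f, hf, k, hk, rfl⟩ := Subgroup.mem_sup_of_normal_right.1 ha
    obtain ⟨f', hf', k', hk', rfl⟩ := Subgroup.mem_sup_of_normal_right.1 hb
    have h1 : ⁅f * k, f' * k'⁆ = ⁅f, f'⁆ * ⁅k, k'⁆ := by
      have c1 : f' * k = k * f' := hKF k hk f' hf'
      have c2 : k * k' * k⁻¹ ∈ K := K.mul_mem (K.mul_mem hk hk') (K.inv_mem hk)
      have c3 : k * k' * k⁻¹ * k'⁻¹ ∈ K := K.mul_mem c2 (K.inv_mem hk')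
      rw [commutatorElement_def, commutatorElement_def, commutatorElement_def]
      calc f * k * (f' * k') * (f * k)⁻¹ * (f' * k')⁻¹
          = f * (k * f') * k' * (k⁻¹ * f⁻¹) * (k'⁻¹ * f'⁻¹) := by group
        _ = f * (f' * k) * k' * (k⁻¹ * f⁻¹) * (k'⁻¹ * f'⁻¹) := by rw [← c1]
        _ = f * f' * ((k * k' * k⁻¹) * f⁻¹) * (k'⁻¹ * f'⁻¹) := by group
        _ = f * f' * (f⁻¹ * (k * k' * k⁻¹)) * (k'⁻¹ * f'⁻¹) := by
            rw [hKF _ c2 f⁻¹ (F.inv_mem hf)]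
        _ = f * f' * f⁻¹ * ((k * k' * k⁻¹ * k'⁻¹) * f'⁻¹) := by group
        _ = f * f' * f⁻¹ * (f'⁻¹ * (k * k' * k⁻¹ * k'⁻¹)) := by
            rw [hKF _ c3 f'⁻¹ (F.inv_mem hf')]
        _ = f * f' * f⁻¹ * f'⁻¹ * (k * k' * k⁻¹ * k'⁻¹) := by group
    rw [h1, Subgroup.mem_centralizer_iff]
    intro c hc
    obtain ⟨f'', hf'', k'', hk'', rfl⟩ := Subgroup.mem_sup_of_normal_right.1 hc
    have e1 : k'' * ⁅f, f'⁆ = ⁅f, f'⁆ * k'' := (hKF k'' hk'' _ (hFFF f hf f' hf')).symm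
    have e2 : k'' * ⁅k, k'⁆ = ⁅k, k'⁆ * k'' := (hKF k'' hk'' _ (hKKF k hk k' hk')).symm
    have e3 : f'' * ⁅f, f'⁆ = ⁅f, f'⁆ * f'' := hFF f hf f' hf' f'' hf''
    have e4 : f'' * ⁅k, k'⁆ = ⁅k, k'⁆ * f'' := hKF _ (hKKK k hk k' hk') f'' hf''
    calc f'' * k'' * (⁅f, f'⁆ * ⁅k, k'⁆)
        = f'' * (k'' * ⁅f, f'⁆) * ⁅k, k'⁆ := by group
      _ = f'' * ⁅f, f'⁆ * (k'' * ⁅k, k'⁆) := by rw [e1]; group
      _ = (⁅f, f'⁆ * f'') * (⁅k, k'⁆ * k'') := by rw [e2, e3]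
      _ = ⁅f, f'⁆ * (f'' * ⁅k, k'⁆) * k'' := by group
      _ = ⁅f, f'⁆ * ⁅k, k'⁆ * (f'' * k'') := by rw [e4]; group
  have hle : F ⊔ K = F := hmax (F ⊔ K)
    ⟨inferInstance, sup_le hFS (hKC.trans inf_le_right), hsup⟩ le_sup_left
  exact hi1 (le_sup_right.trans hle.le)

end Pool.Agent.Helper83.SV
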