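import Pool.Agent.Helper83.SV.UW
import Pool.Agent.Helper83.SV.Core2

/-!
# SV-20a: finite exponent, and nilpotency of the stabiliser

`finite_exp`: a finitely generated group `R` of finite exponent with a soluble normal subgroup `S`
of finite index is finite: all terms of the derived series of `S` are finitely generated of finite
index, as a finitely generated abelian torsion group is finite.

`nilp_stab`: let `N = U ⊓ S`, `F_j = lc F U j`. By the three subgroups lemma (modulo `F_(i+j+1)`)
`⁅F_i, lc N N j⁆ ≤ F_(i+j+1)` for all `i, j`. So `lc N N s` centralises `F_0 = F` (as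
`F_(s+1) ≤ F_s = ⊥`), so `lc N N s ≤ centralizer F ⊓ S ≤ F`, and `lc N N (s + i) ≤ lc F U i`.
-/

namespace Pool.Agent.Helper83.SV

open scoped commutatorElement

/-- one step of the derived series -/
private theorem Core5a_step {G : Type} [Group G] (hfg : Group.FG G) (m : ℕ) (hm : 1 ≤ m)
    (h : ∀ x : G, x ^ m = 1) (H : Subgroup G) (hH : H.index ≠ 0) : (⁅H, H⁆ : Subgroup G).index ≠ 0 := by
  have hHf : H.FiniteIndex := ⟨hH⟩
  have hHfg : Group.FG H := inferInstance
  have htor : IsMulTorsion (Abelianization H) := by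
    intro x
    obtain ⟨y, rfl⟩ : ∃ y : H, Abelianization.of y = x := QuotientGroup.mk_surjective x
    rw [isOfFinOrder_iff_pow_eq_one]
    refine ⟨m, hm, ?_⟩
    have hy : y ^ m = 1 := Subtype.ext (h y)
    rw [← map_pow, hy, map_one]
  have hfgA : Group.FG (Abelianization H) :=
    Group.fg_of_surjective (f := (Abelianization.of : H →* Abelianization H))
      QuotientGroup.mk_surjective
  have hfin : Finite (Abelianization H) := CommGroup.finite_of_fg_isMulTorsion _ htor
  have hfi : (commutator H).FiniteIndex := by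
    rw [Subgroup.finiteIndex_iff_finite_quotient]
    exact hfin
  have hrel : (⁅H, H⁆ : Subgroup G).relIndex H ≠ 0 := by
    have e : (⁅H, H⁆ : Subgroup G).subgroupOf H = commutator H := by
      rw [← Subgroup.map_subtype_commutator, Subgroup.subgroupOf,
        Subgroup.comap_map_eq_self_of_injective H.subtype_injective]
    rw [Subgroup.relIndex, e]
    exact hfi.index_ne_zero
  rw [← Subgroup.relIndex_mul_index (Subgroup.commutator_le_self H)]
  exact mul_ne_zero hrel hH

theorem finite_exp {R : Type} [Group R] (hfg : Group.FG R) (S : Subgroup R) (hS : S.Normal)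
    (hSf : S.FiniteIndex) (hSs : Group.IsSolvable S) (m : ℕ) (hm : 1 ≤ m) (h : ∀ x : R, x ^ m = 1) :
    Finite R := by
  have hSfg : Group.FG S := inferInstance
  have hSm : ∀ x : S, x ^ m = 1 := fun x => Subtype.ext (h x)
  obtain ⟨n, hn⟩ := hSs.solvable
  have hidx : ∀ i : ℕ, (derivedSeries S i).index ≠ 0 := by
    intro i
    induction i with
    | zero =>
      rw [derivedSeries_zero, Subgroup.index_top]
      exact one_ne_zero
    | succ i ih =>
      rw [derivedSeries_succ]
      exact Core5a_step hSfg m hm hSm _ ih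
  have h1 := hidx n
  rw [hn, Subgroup.index_bot] at h1
  have hSfin : Finite S := Nat.finite_of_card_ne_zero h1
  exact Finite.of_equiv _ (Subgroup.groupEquivQuotientProdSubgroup (s := S)).symm

private theorem Core5a_three {Q : Type} [Group Q] {A B C H : Subgroup Q} (hH : H.Normal)
    (h1 : ⁅⁅B, C⁆, A⁆ ≤ H) (h2 : ⁅⁅C, A⁆, B⁆ ≤ H) : ⁅⁅A, B⁆, C⁆ ≤ H := by
  have key : ∀ X Y Z : Subgroup Q, ⁅⁅X, Y⁆, Z⁆ ≤ H ↔
      ⁅⁅X.map (QuotientGroup.mk' H), Y.map (QuotientGroup.mk' H)⁆,
        Z.map (QuotientGroup.mk' H)⁆ = ⊥ := by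
    intro X Y Z
    rw [← Subgroup.map_commutator, ← Subgroup.map_commutator, Subgroup.map_eq_bot_iff,
      QuotientGroup.ker_mk']
  rw [key] at h1 h2 ⊢
  exact Subgroup.commutator_commutator_eq_bot_of_rotate h1 h2

theorem nilp_stab {Q : Type} [Group Q] (F U S : Subgroup Q) (hF : F.Normal) (hU : U.Normal)
    (hS : S.Normal) (hFU : F ≤ U) (s : ℕ) (h : lc F U s = ⊥)
    (hc : Subgroup.centralizer (F : Set Q) ⊓ S ≤ F) :
    ∃ s' : ℕ, lc (U ⊓ S) (U ⊓ S) s' = ⊥ := by
  set N : Subgroup Q := U ⊓ S with hN
  have hNn : N.Normal := Subgroup.normal_inf_normal U S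
  have hNU : N ≤ U := inf_le_left
  have key : ∀ j i : ℕ, (⁅lc F U i, lc N N j⁆ : Subgroup Q) ≤ lc F U (i + j + 1) := by
    intro j
    induction j with
    | zero =>
      intro i
      exact Subgroup.commutator_mono le_rfl hNU
    | succ j ih =>
      intro i
      show (⁅lc F U i, ⁅lc N N j, N⁆⁆ : Subgroup Q) ≤ lc F U (i + (j + 1) + 1)
      rw [Subgroup.commutator_comm]
      have hnorm : (lc F U (i + (j + 1) + 1)).Normal := lc_normal F U hF hU _
      refine Core5a_three hnorm ?_ ?_
      · have h1 : (⁅N, lc F U i⁆ : Subgroup Q) ≤ lc F U (i + 1) := by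
          rw [Subgroup.commutator_comm]
          exact Subgroup.commutator_mono le_rfl hNU
        have h2 := ih (i + 1)
        have e : i + 1 + j + 1 = i + (j + 1) + 1 := by omega
        rw [e] at h2
        exact (Subgroup.commutator_mono h1 le_rfl).trans h2
      · have h1 := ih i
        have h2 : (⁅lc F U (i + j + 1), N⁆ : Subgroup Q) ≤ lc F U (i + j + 1 + 1) :=
          Subgroup.commutator_mono le_rfl hNU
        have e : i + j + 1 + 1 = i + (j + 1) + 1 := by omega
        rw [e] at h2
        exact (Subgroup.commutator_mono h1 le_rfl).trans h2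
  have hcent : lc N N s ≤ Subgroup.centralizer (F : Set Q) := by
    rw [← Subgroup.commutator_eq_bot_iff_le_centralizer, Subgroup.commutator_comm, eq_bot_iff]
    have h1 := key s 0
    have h2 : lc F U (0 + s + 1) ≤ lc F U s := lc_anti F U hF hU (by omega)
    rw [h] at h2
    exact h1.trans h2
  have hNS : lc N N s ≤ S := (lc_anti N N hNn hNn (Nat.zero_le s)).trans inf_le_right
  have hle : lc N N s ≤ F := (le_inf hcent hNS).trans hc
  refine ⟨s + s, ?_⟩
  rw [lc_add, eq_bot_iff, ← h]
  exact lc_mono hle hNU s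

end Pool.Agent.Helper83.SV
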