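import Pool.Agent.Helper83.SV.Defs

/-!
# SV-1: the shift lemma

`hopf_shift`: `F ⧸ R` is finitely generated, satisfies `L` (`verb_le` in `Helper13/PV/Defs.lean`),
so it is Hopfian, and `α` induces a surjective endomorphism of it.

`shift`: `F` the free group on `Option (Option ι)` (variables `z`, `c`, `x`), `α` the endomorphism
`c ↦ c x`, `R = verb L F ⊔ normalClosure {w (z, c x ^ j) : j ≥ 1}`; `α` maps the generators of `R`
into `R` and `w (z, c)` to `w (z, c x)`. So `w (z, c) ∈ R`; by directedness `w (z, c)` is in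
`verb L F ⊔ normalClosure {w (z, c x ^ j) : 1 ≤ j ≤ M}` for some `M`; map to `H`.

`exists_id`: the same for the free group on `b, x, u`, the endomorphism `b ↦ x b x⁻¹`, and the
elements `[x ^ j b x ^ (-j), u]`, `j ≥ 1`: so `[b, u]` is a product of conjugates of these elements
and their inverses modulo `verb L F`. `D` is the list of the terms.
-/

namespace Pool.Agent.Helper83.SV

open Pool.Agent.Helper32.SmallVar Pool.Agent.Helper13.PV
open scoped commutatorElement

variable {L : Set (FreeGroup ℕ)}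

theorem hopf_shift (hL : AllHopfian L) {F : Type} [Group F] (hF : Group.FG F) (α : F →* F)
    (hα : Function.Surjective α) (R : Subgroup F) (hRn : R.Normal) (hv : verb L F ≤ R)
    (hR : ∀ r ∈ R, α r ∈ R) {f : F} (hf : α f ∈ R) : f ∈ R := by
  have h1 : SatisfiesLaws L (F ⧸ R) := verb_le.mp hv
  have h2 : Group.FG (F ⧸ R) := by
    have := hF
    exact Group.fg_of_surjective (QuotientGroup.mk'_surjective R)
  have h3 : IsHopfian (F ⧸ R) := hL _ h2 h1
  have hc : R ≤ R.comap α := fun r hr => hR r hr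
  have h4 := h3 (QuotientGroup.map R R α hc) (by
    intro y
    obtain ⟨y, rfl⟩ := QuotientGroup.mk'_surjective R y
    obtain ⟨g, rfl⟩ := hα y
    exact ⟨QuotientGroup.mk' R g, rfl⟩)
  have h5 : (QuotientGroup.mk' R f) = 1 := by
    apply h4
    rw [map_one]
    show QuotientGroup.mk' R (α f) = 1
    rw [QuotientGroup.mk'_apply, QuotientGroup.eq_one_iff]
    exact hf
  rwa [QuotientGroup.mk'_apply, QuotientGroup.eq_one_iff] at h5

private theorem Shift_map_ev {ι G H : Type} [Group G] [Group H] (φ : G →* H) (z : ι → G) (y : G)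
    (w : FreeGroup (Option ι)) : φ (ev z y w) = ev (fun i => φ (z i)) (φ y) w := by
  have : φ.comp (ev z y) = ev (fun i => φ (z i)) (φ y) := by
    ext o
    cases o <;> simp [ev]
  rw [← this]; rfl

private theorem Shift_verb_ker {G H : Type} [Group G] [Group H] (φ : G →* H)
    (hH : SatisfiesLaws L H) : verb L G ≤ φ.ker := by
  apply Subgroup.normalClosure_le_normal
  rintro g ⟨w, hw, a, rfl⟩
  rw [SetLike.mem_coe, MonoidHom.mem_ker, map_lift]
  exact hH w hw _

private theorem Shift_directed {F : Type} [Group F] (V : Subgroup F) [V.Normal] (c : ℕ → F) {f : F}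
    (hf : f ∈ V ⊔ Subgroup.normalClosure {g | ∃ j, 1 ≤ j ∧ c j = g}) :
    ∃ M : ℕ, f ∈ V ⊔ Subgroup.normalClosure {g | ∃ j, 1 ≤ j ∧ j ≤ M ∧ c j = g} := by
  set S : ℕ → Subgroup F := fun M =>
    V ⊔ Subgroup.normalClosure {g | ∃ j, 1 ≤ j ∧ j ≤ M ∧ c j = g} with hS
  have hmono : Monotone S := by
    intro M N hMN
    refine sup_le_sup le_rfl (Subgroup.normalClosure_mono ?_)
    rintro g ⟨j, h1, h2, h3⟩
    exact ⟨j, h1, h2.trans hMN, h3⟩
  have hn : ∀ M, (S M).Normal := fun M => inferInstance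
  let T : Subgroup F :=
    { carrier := {g | ∃ M, g ∈ S M}
      one_mem' := ⟨0, Subgroup.one_mem _⟩
      mul_mem' := by
        rintro a b ⟨M, hM⟩ ⟨N, hN⟩
        exact ⟨max M N, Subgroup.mul_mem _ (hmono (le_max_left _ _) hM)
          (hmono (le_max_right _ _) hN)⟩
      inv_mem' := by
        rintro a ⟨M, hM⟩
        exact ⟨M, Subgroup.inv_mem _ hM⟩ }
  have hTn : T.Normal := ⟨by
    rintro a ⟨M, hM⟩ g
    exact ⟨M, (hn M).conj_mem a hM g⟩⟩
  have hle : V ⊔ Subgroup.normalClosure {g | ∃ j, 1 ≤ j ∧ c j = g} ≤ T := by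
    refine sup_le ?_ (Subgroup.normalClosure_le_normal ?_)
    · intro v hv
      exact ⟨0, Subgroup.mem_sup_left hv⟩
    · rintro g ⟨j, h1, rfl⟩
      exact ⟨j, Subgroup.mem_sup_right (Subgroup.subset_normalClosure ⟨j, h1, le_rfl, rfl⟩)⟩
  exact hle hf

theorem shift (hL : AllHopfian L) {ι : Type} [Finite ι] (w : FreeGroup (Option ι)) :
    ∃ M : ℕ, ∀ (H : Type) [Group H], SatisfiesLaws L H → ∀ (z : ι → H) (c x : H),
      (∀ j : ℕ, 1 ≤ j → j ≤ M → ev z (c * x ^ j) w = 1) → ev z c w = 1 := by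
  let X : FreeGroup (Option (Option ι)) := FreeGroup.of none
  let C : FreeGroup (Option (Option ι)) := FreeGroup.of (some none)
  let Z : ι → FreeGroup (Option (Option ι)) := fun i => FreeGroup.of (some (some i))
  let W : FreeGroup (Option (Option ι)) → FreeGroup (Option (Option ι)) := fun y => ev Z y w
  let α : FreeGroup (Option (Option ι)) →* FreeGroup (Option (Option ι)) :=
    FreeGroup.lift fun o => o.elim X fun o' => o'.elim (C * X) Z
  have hX : α X = X := by simp [α, X]
  have hC : α C = C * X := by simp [α, C]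
  have hZ : ∀ i, α (Z i) = Z i := by intro i; simp [α, Z]
  have hαW : ∀ y, α (W y) = W (α y) := by
    intro y
    show α (ev Z y w) = ev Z (α y) w
    rw [Shift_map_ev]
    have : (fun i => α (Z i)) = Z := funext hZ
    rw [this]
  have hαs : Function.Surjective α := by
    rw [← MonoidHom.range_eq_top, eq_top_iff, ← FreeGroup.closure_range_of,
      Subgroup.closure_le]
    rintro _ ⟨o, rfl⟩
    rcases o with _ | _ | i
    · exact ⟨X, hX⟩
    · refine ⟨C * X⁻¹, ?_⟩
      rw [map_mul, map_inv, hX, hC, mul_inv_cancel_right]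
    · exact ⟨Z i, hZ i⟩
  have hfg : Group.FG (FreeGroup (Option (Option ι))) := inferInstance
  have key : W C ∈ verb L (FreeGroup (Option (Option ι))) ⊔
      Subgroup.normalClosure {g | ∃ j : ℕ, 1 ≤ j ∧ W (C * X ^ j) = g} := by
    apply hopf_shift hL hfg α hαs _ inferInstance le_sup_left
    · have h0 : verb L (FreeGroup (Option (Option ι))) ⊔
          Subgroup.normalClosure {g | ∃ j : ℕ, 1 ≤ j ∧ W (C * X ^ j) = g} ≤
          (verb L (FreeGroup (Option (Option ι))) ⊔
          Subgroup.normalClosure {g | ∃ j : ℕ, 1 ≤ j ∧ W (C * X ^ j) = g}).comap α := by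
        refine sup_le ?_ (Subgroup.normalClosure_le_normal ?_)
        · intro v hv
          exact Subgroup.mem_sup_left (map_verb_le α ⟨v, hv, rfl⟩)
        · rintro g ⟨j, h1, rfl⟩
          rw [SetLike.mem_coe, Subgroup.mem_comap, hαW, map_mul, map_pow, hX, hC, mul_assoc,
            ← pow_succ']
          exact Subgroup.mem_sup_right (Subgroup.subset_normalClosure ⟨j + 1, by omega, rfl⟩)
      exact fun r hr => h0 hr
    · rw [hαW, hC]
      exact Subgroup.mem_sup_right (Subgroup.subset_normalClosure ⟨1, le_rfl, by rw [pow_one]⟩)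
  obtain ⟨M, hM⟩ := Shift_directed _ (fun j => W (C * X ^ j)) key
  refine ⟨M, fun H _ hH z c x hj => ?_⟩
  let φ : FreeGroup (Option (Option ι)) →* H :=
    FreeGroup.lift fun o => o.elim x fun o' => o'.elim c z
  have pX : φ X = x := by simp [φ, X]
  have pC : φ C = c := by simp [φ, C]
  have pZ : ∀ i, φ (Z i) = z i := by intro i; simp [φ, Z]
  have pW : ∀ y, φ (W y) = ev z (φ y) w := by
    intro y
    show φ (ev Z y w) = ev z (φ y) w
    rw [Shift_map_ev]
    have : (fun i => φ (Z i)) = z := funext pZ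
    rw [this]
  have hker : verb L (FreeGroup (Option (Option ι))) ⊔
      Subgroup.normalClosure {g | ∃ j : ℕ, 1 ≤ j ∧ j ≤ M ∧ W (C * X ^ j) = g} ≤ φ.ker := by
    refine sup_le (Shift_verb_ker φ hH) (Subgroup.normalClosure_le_normal ?_)
    rintro g ⟨j, h1, h2, rfl⟩
    rw [SetLike.mem_coe, MonoidHom.mem_ker, pW, map_mul, map_pow, pC, pX]
    exact hj j h1 h2
  have h9 := hker hM
  rw [MonoidHom.mem_ker, pW, pC] at h9
  exact h9

private theorem Shift_lift3 {G H : Type} [Group G] [Group H] (φ : G →* H) (b x u : G)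
    (g : FreeGroup (Fin 3)) :
    φ (FreeGroup.lift ![b, x, u] g) = FreeGroup.lift ![φ b, φ x, φ u] g := by
  have : φ.comp (FreeGroup.lift ![b, x, u]) = FreeGroup.lift ![φ b, φ x, φ u] := by
    ext i
    fin_cases i <;> simp
  rw [← this]; rfl

private theorem Shift_map_tv {G H : Type} [Group G] [Group H] (φ : G →* H) (b x u : G) (t : Tm) :
    φ (tv b x u t) = tv (φ b) (φ x) (φ u) t := by
  unfold tv
  rw [map_mul, map_mul, map_inv, Shift_lift3]
  congr 2
  split_ifs
  · simp [commutatorElement_def]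
  · simp [commutatorElement_def]

private theorem Shift_lift_id (g : FreeGroup (Fin 3)) :
    FreeGroup.lift ![FreeGroup.of 0, FreeGroup.of 1, FreeGroup.of 2] g = g := by
  have : FreeGroup.lift ![FreeGroup.of (0 : Fin 3), FreeGroup.of 1, FreeGroup.of 2] =
      MonoidHom.id (FreeGroup (Fin 3)) := by
    ext i
    fin_cases i <;> simp
  rw [this]; rfl

private theorem Shift_tv_flip {Γ : Type} [Group Γ] (b x u : Γ) (t : Tm) :
    tv b x u (!t.1, t.2.1, t.2.2) = (tv b x u t)⁻¹ := by
  unfold tv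
  rcases t with ⟨_ | _, j, g⟩
  · simp [mul_assoc]
  · simp [mul_assoc]

theorem exists_id (hL : AllHopfian L) :
    ∃ D : List Tm, PosId D ∧ ∀ (Γ : Type) [Group Γ], SatisfiesLaws L Γ → HasId D Γ := by
  let B : FreeGroup (Fin 3) := FreeGroup.of 0
  let X : FreeGroup (Fin 3) := FreeGroup.of 1
  let U : FreeGroup (Fin 3) := FreeGroup.of 2
  let c : ℕ → FreeGroup (Fin 3) := fun j => ⁅X ^ j * B * (X ^ j)⁻¹, U⁆
  let α : FreeGroup (Fin 3) →* FreeGroup (Fin 3) := FreeGroup.lift ![X * B * X⁻¹, X, U]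
  have hB : α B = X * B * X⁻¹ := by simp [α, B]
  have hX : α X = X := by simp [α, X]
  have hU : α U = U := by simp [α, U]
  have hc : ∀ j, α (c j) = c (j + 1) := by
    intro j
    show α ⁅X ^ j * B * (X ^ j)⁻¹, U⁆ = ⁅X ^ (j + 1) * B * (X ^ (j + 1))⁻¹, U⁆
    rw [map_commutatorElement, hU, map_mul, map_mul, map_inv, map_pow, hX, hB]
    congr 1
    rw [pow_succ]
    group
  have hαs : Function.Surjective α := by
    rw [← MonoidHom.range_eq_top, eq_top_iff, ← FreeGroup.closure_range_of,
      Subgroup.closure_le]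
    rintro _ ⟨i, rfl⟩
    fin_cases i
    · refine ⟨X⁻¹ * B * X, ?_⟩
      rw [map_mul, map_mul, map_inv, hX, hB]
      show X⁻¹ * (X * B * X⁻¹) * X = B
      group
    · exact ⟨X, hX⟩
    · exact ⟨U, hU⟩
  have hfg : Group.FG (FreeGroup (Fin 3)) := inferInstance
  have key : c 0 ∈ verb L (FreeGroup (Fin 3)) ⊔
      Subgroup.normalClosure {g | ∃ j : ℕ, 1 ≤ j ∧ c j = g} := by
    apply hopf_shift hL hfg α hαs _ inferInstance le_sup_left
    · have h0 : verb L (FreeGroup (Fin 3)) ⊔
          Subgroup.normalClosure {g | ∃ j : ℕ, 1 ≤ j ∧ c j = g} ≤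
          (verb L (FreeGroup (Fin 3)) ⊔
          Subgroup.normalClosure {g | ∃ j : ℕ, 1 ≤ j ∧ c j = g}).comap α := by
        refine sup_le ?_ (Subgroup.normalClosure_le_normal ?_)
        · intro v hv
          exact Subgroup.mem_sup_left (map_verb_le α ⟨v, hv, rfl⟩)
        · rintro g ⟨j, h1, rfl⟩
          rw [SetLike.mem_coe, Subgroup.mem_comap, hc]
          exact Subgroup.mem_sup_right (Subgroup.subset_normalClosure ⟨j + 1, by omega, rfl⟩)
      exact fun r hr => h0 hr
    · rw [hc]
      exact Subgroup.mem_sup_right (Subgroup.subset_normalClosure ⟨1, le_rfl, rfl⟩)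
  have hD : ∀ n ∈ Subgroup.normalClosure {g | ∃ j : ℕ, 1 ≤ j ∧ c j = g},
      ∃ D : List Tm, PosId D ∧ n = (D.map (tv B X U)).prod := by
    intro n hn
    unfold Subgroup.normalClosure at hn
    induction hn using Subgroup.closure_induction with
    | mem y hy =>
      obtain ⟨a, ⟨j, hj, rfl⟩, ha⟩ := Group.mem_conjugatesOfSet_iff.mp hy
      obtain ⟨g, rfl⟩ := isConj_iff.mp ha
      refine ⟨[(true, j, g)], ?_, ?_⟩
      · intro t ht
        rw [List.mem_singleton] at ht
        rw [ht]; exact hj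
      · rw [List.map_singleton, List.prod_singleton]
        have h7 : tv B X U (true, j, g) = FreeGroup.lift ![B, X, U] g * c j *
            (FreeGroup.lift ![B, X, U] g)⁻¹ := by
          unfold tv
          rw [if_pos rfl]
        rw [h7, Shift_lift_id]
    | one => exact ⟨[], fun t ht => by simp at ht, by simp⟩
    | mul y z _ _ hy hz =>
      obtain ⟨D, hD1, rfl⟩ := hy
      obtain ⟨E, hE1, rfl⟩ := hz
      refine ⟨D ++ E, ?_, by rw [List.map_append, List.prod_append]⟩
      intro t ht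
      rcases List.mem_append.mp ht with h | h
      · exact hD1 t h
      · exact hE1 t h
    | inv y _ hy =>
      obtain ⟨D, hD1, rfl⟩ := hy
      refine ⟨(D.map fun t => (!t.1, t.2.1, t.2.2)).reverse, ?_, ?_⟩
      · intro t ht
        rw [List.mem_reverse, List.mem_map] at ht
        obtain ⟨s, hs, rfl⟩ := ht
        exact hD1 s hs
      · rw [List.prod_inv_reverse, List.map_map, List.map_reverse, List.map_map]
        congr 2
        apply List.map_congr_left
        intro t _
        exact (Shift_tv_flip B X U t).symm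
  obtain ⟨v, hv, n, hn, hvn⟩ := Subgroup.mem_sup_of_normal_left.mp key
  obtain ⟨D, hD1, rfl⟩ := hD n hn
  refine ⟨D, hD1, fun Γ _ hΓ b x u => ?_⟩
  let φ : FreeGroup (Fin 3) →* Γ := FreeGroup.lift ![b, x, u]
  have pB : φ B = b := by simp [φ, B]
  have pX : φ X = x := by simp [φ, X]
  have pU : φ U = u := by simp [φ, U]
  have h1 := congrArg φ hvn
  rw [map_mul, (Shift_verb_ker φ hΓ hv : φ v = 1), one_mul, map_list_prod, List.map_map] at h1
  have h2 : φ (c 0) = ⁅b, u⁆ := by
    show φ ⁅X ^ 0 * B * (X ^ 0)⁻¹, U⁆ = _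
    rw [map_commutatorElement, pU, map_mul, map_mul, map_inv, map_pow, pX, pB, pow_zero, one_mul,
      inv_one, mul_one]
  rw [h2] at h1
  rw [← h1]
  congr 1
  apply List.map_congr_left
  intro t _
  show φ (tv B X U t) = tv b x u t
  rw [Shift_map_tv, pB, pX, pU]

end Pool.Agent.Helper83.SV
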