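import Pool.Agent.Helper83.SV.WinB

/-!
# SV-24: existence of an abelian normal subgroup

Let `E₂ ⊆ H` be the finite set from tameness of `H` for the word `[z₀, y z₀ y⁻¹]` (one parameter),
choose `1 ≠ b ∈ H` and let `B` be generated by `E₂` and `b`. It is a nontrivial soluble group, so it
has a nontrivial abelian normal subgroup (the last nontrivial term of the derived series); let
`u ≠ 1` be an element of it. `⁅u, e u e⁻¹⁆ = 1` for `e ∈ E₂`, so (`φ = id`)
`⁅u, h u h⁻¹⁆ = 1` for all `h ∈ H`: the subgroup `D = closure {h u h⁻¹ : h ∈ H}` is abelian and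
normalised by `H`; the same holds for its conjugates `D_g = g D g⁻¹`, `g ∈ Γ`, all contained in `H`.
Let `E` be the window of `Win Γ`. Claim: for every finite set `E' ⊆ E` there is `1 ≠ v ∈ H`, in the
normal closure `T` of `u`, commuting with all elements of `D_e`, `e ∈ E'`. Induction on `E'`: if `v`
works for `E'` and commutes with `D_(e')` keep it; otherwise take `d ∈ D_(e')` with `⁅v, d⁆ ≠ 1`; it
is in `D_(e')` (normalised by `v ∈ H`), so it commutes with `D_(e')`, and commutes with the `D_e`,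
`e ∈ E'`, because `v` does and `d` normalises `D_e`. So there is `1 ≠ v ∈ T` with
`⁅v, e u e⁻¹⁆ = 1` for all `e ∈ E`, so by the window `v` commutes with all conjugates of `u`, and
`v` is in the centre of `T`, which is the required subgroup.
-/

namespace Pool.Agent.Helper83.SV

open Pool.Agent.Helper32.SmallVar Pool.Agent.Helper13.PV
open scoped commutatorElement

variable {L : Set (FreeGroup ℕ)}

def AN_w : FreeGroup (Option (Fin 1)) :=
  ⁅(FreeGroup.of (some 0) : FreeGroup (Option (Fin 1))),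
    (FreeGroup.of none : FreeGroup (Option (Fin 1))) * FreeGroup.of (some 0) *
      (FreeGroup.of none)⁻¹⁆

theorem AN_ev {H : Type} [Group H] (u y : H) :
    ev ![u] y AN_w = ⁅u, y * u * y⁻¹⁆ := by
  unfold AN_w
  rw [map_commutatorElement]
  simp [ev]

/-- A nontrivial soluble group has a nontrivial element commuting with all its conjugates. -/
theorem AN_sol {B : Type} [Group B] [Group.IsSolvable B] (h : ∃ b : B, b ≠ 1) :
    ∃ u : B, u ≠ 1 ∧ ∀ e : B, ⁅u, e * u * e⁻¹⁆ = 1 := by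
  classical
  have hs : ∃ n : ℕ, derivedSeries B n = ⊥ := Group.IsSolvable.solvable
  have h0 := Nat.find_spec hs
  have h1 : Nat.find hs ≠ 0 := by
    intro h2
    rw [h2, derivedSeries_zero] at h0
    obtain ⟨b, hb⟩ := h
    apply hb
    have : b ∈ (⊤ : Subgroup B) := Subgroup.mem_top b
    rw [h0] at this
    exact Subgroup.mem_bot.1 this
  obtain ⟨m, hm⟩ := Nat.exists_eq_succ_of_ne_zero h1
  have h3 : derivedSeries B m ≠ ⊥ := Nat.find_min hs (by omega)
  obtain ⟨⟨u, hu⟩, hu0⟩ := Subgroup.ne_bot_iff_exists_ne_one.1 h3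
  have hu1 : u ≠ 1 := fun h => hu0 (Subtype.ext h)
  refine ⟨u, hu1, fun e => ?_⟩
  rw [hm, derivedSeries_succ] at h0
  have h4 : e * u * e⁻¹ ∈ derivedSeries B m := (derivedSeries_normal B m).conj_mem u hu e
  have h5 := Subgroup.commutator_mem_commutator hu h4
  rw [h0] at h5
  exact Subgroup.mem_bot.1 h5

/-- The conjugate by `g` of the subgroup generated by the `H`-conjugates of `u`. -/
def AN_D {Γ : Type} [Group Γ] (H : Subgroup Γ) (u g : Γ) : Subgroup Γ :=
  Subgroup.closure {x | ∃ h ∈ H, x = g * (h * u * h⁻¹) * g⁻¹}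

theorem AN_D_mem {Γ : Type} [Group Γ] {H : Subgroup Γ} (u g : Γ) : g * u * g⁻¹ ∈ AN_D H u g :=
  Subgroup.subset_closure ⟨1, H.one_mem, by simp⟩

theorem AN_D_le {Γ : Type} [Group Γ] {H : Subgroup Γ} (hH : H.Normal) {u : Γ} (hu : u ∈ H)
    (g : Γ) : AN_D H u g ≤ H := by
  unfold AN_D
  rw [Subgroup.closure_le]
  rintro x ⟨h, _, rfl⟩
  exact hH.conj_mem _ (hH.conj_mem _ hu h) g

theorem AN_D_comm {Γ : Type} [Group Γ] {H : Subgroup Γ} {u : Γ}
    (hu : ∀ h ∈ H, ⁅u, h * u * h⁻¹⁆ = 1) (g : Γ) :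
    ∀ a ∈ AN_D H u g, ∀ b ∈ AN_D H u g, a * b = b * a := by
  have h1 : ∀ h ∈ H, ∀ k ∈ H, (g * (h * u * h⁻¹) * g⁻¹) * (g * (k * u * k⁻¹) * g⁻¹) =
      (g * (k * u * k⁻¹) * g⁻¹) * (g * (h * u * h⁻¹) * g⁻¹) := by
    intro h hh k hk
    have h2 := commutatorElement_eq_one_iff_mul_comm.1
      (hu (h⁻¹ * k) (H.mul_mem (H.inv_mem hh) hk))
    have h3 := congrArg (fun x => (g * h) * x * (g * h)⁻¹) h2
    calc (g * (h * u * h⁻¹) * g⁻¹) * (g * (k * u * k⁻¹) * g⁻¹)
        = (g * h) * (u * (h⁻¹ * k * u * (h⁻¹ * k)⁻¹)) * (g * h)⁻¹ := by group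
      _ = (g * h) * (h⁻¹ * k * u * (h⁻¹ * k)⁻¹ * u) * (g * h)⁻¹ := h3
      _ = _ := by group
  have h4 : AN_D H u g ≤
      Subgroup.centralizer {x | ∃ h ∈ H, x = g * (h * u * h⁻¹) * g⁻¹} := by
    unfold AN_D
    rw [Subgroup.closure_le]
    rintro x ⟨h, hh, rfl⟩
    rw [SetLike.mem_coe, Subgroup.mem_centralizer_iff]
    rintro y ⟨k, hk, rfl⟩
    exact h1 k hk h hh
  have h5 : AN_D H u g ≤ Subgroup.centralizer (AN_D H u g : Set Γ) := by
    conv_lhs => unfold AN_D
    rw [Subgroup.closure_le]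
    intro x hx
    rw [SetLike.mem_coe, Subgroup.mem_centralizer_iff]
    intro y hy
    exact (Subgroup.mem_centralizer_iff.1 (h4 hy) x hx).symm
  intro a ha b hb
  exact (Subgroup.mem_centralizer_iff.1 (h5 hb) a ha)

theorem AN_D_conj {Γ : Type} [Group Γ] {H : Subgroup Γ} (hH : H.Normal) {u : Γ} (g : Γ) {k : Γ}
    (hk : k ∈ H) {x : Γ} (hx : x ∈ AN_D H u g) : k * x * k⁻¹ ∈ AN_D H u g := by
  have h1 : AN_D H u g ≤ (AN_D H u g).comap (MulAut.conj k).toMonoidHom := by
    conv_lhs => unfold AN_D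
    rw [Subgroup.closure_le]
    rintro y ⟨h, hh, rfl⟩
    rw [SetLike.mem_coe, Subgroup.mem_comap]
    refine Subgroup.subset_closure ⟨g⁻¹ * k * g * h, ?_, ?_⟩
    · exact H.mul_mem (by simpa using hH.conj_mem k hk g⁻¹) hh
    · simp only [MulEquiv.coe_toMonoidHom, MulAut.conj_apply]
      group
  simpa using h1 hx

theorem exists_abelian {Γ : Type} [Group Γ] (hΓ : SatisfiesLaws L Γ) (hW : Win Γ)
    (H : Subgroup Γ) (hH : H.Normal) (hH0 : H ≠ ⊥) (hT : Tame L (H : Set Γ))
    (hB : ∀ B : Subgroup Γ, B ≤ H → B.FG → Group.IsSolvable B) :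
    ∃ A : Subgroup Γ, A.Normal ∧ A ≠ ⊥ ∧ A ≤ H ∧ ∀ a ∈ A, ∀ b ∈ A, a * b = b * a := by
  classical
  obtain ⟨E₂, hE₂H, hE₂⟩ := hT (Fin 1) AN_w
  obtain ⟨⟨b, hbH⟩, hb1⟩ := Subgroup.ne_bot_iff_exists_ne_one.1 hH0
  -- the element `u`
  obtain ⟨u, huH, hu1, hu⟩ : ∃ u ∈ H, u ≠ 1 ∧ ∀ h ∈ H, ⁅u, h * u * h⁻¹⁆ = 1 := by
    let S : Finset Γ := insert b E₂
    have hSH : Subgroup.closure (S : Set Γ) ≤ H := by
      rw [Subgroup.closure_le]
      intro x hx
      rcases Finset.mem_insert.1 (Finset.mem_coe.1 hx) with rfl | hx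
      · exact hbH
      · exact hE₂H hx
    have hsol := hB (Subgroup.closure (S : Set Γ)) hSH ⟨S, rfl⟩
    have hbS : b ∈ Subgroup.closure (S : Set Γ) :=
      Subgroup.subset_closure (Finset.mem_coe.2 (Finset.mem_insert_self _ _))
    obtain ⟨u, hu1, hu⟩ := AN_sol (B := Subgroup.closure (S : Set Γ))
      ⟨⟨b, hbS⟩, fun h => by
        have h0 : b = 1 := by simpa using congrArg Subtype.val h
        exact hb1 (Subtype.ext h0)⟩
    refine ⟨u.1, hSH u.2, fun h => hu1 (Subtype.ext h), ?_⟩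
    intro h hh
    have h1 := hE₂ Γ hΓ (MonoidHom.id Γ) ![u.1] (fun e he => by
      have heS : e ∈ Subgroup.closure (S : Set Γ) :=
        Subgroup.subset_closure (Finset.mem_coe.2 (Finset.mem_insert_of_mem he))
      have h2 := congrArg Subtype.val (hu ⟨e, heS⟩)
      rw [MonoidHom.id_apply, AN_ev]
      exact h2) h hh
    rwa [MonoidHom.id_apply, AN_ev] at h1
  obtain ⟨E, hE⟩ := hW
  set T : Subgroup Γ := Subgroup.normalClosure {u} with hTdef
  have hTn : T.Normal := Subgroup.normalClosure_normal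
  have hTH : T ≤ H := Subgroup.normalClosure_le_normal (by simpa using huH)
  have huT : u ∈ T := Subgroup.subset_normalClosure (Set.mem_singleton u)
  have key : ∀ E' : Finset Γ, ∃ v ∈ T, v ≠ 1 ∧ ∀ e ∈ E', ∀ x ∈ AN_D H u e, v * x = x * v := by
    intro E'
    induction E' using Finset.induction_on with
    | empty => exact ⟨u, huT, hu1, by simp⟩
    | insert e' E' _ ih =>
      obtain ⟨v, hvT, hv1, hv⟩ := ih
      by_cases hc : ∀ x ∈ AN_D H u e', v * x = x * v
      · refine ⟨v, hvT, hv1, ?_⟩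
        intro e he
        rcases Finset.mem_insert.1 he with rfl | he
        · exact hc
        · exact hv e he
      · push Not at hc
        obtain ⟨d, hd, hvd⟩ := hc
        have hdH : d ∈ H := AN_D_le hH huH e' hd
        have hw' : v * d * v⁻¹ * d⁻¹ ∈ AN_D H u e' :=
          Subgroup.mul_mem _ (AN_D_conj hH e' (hTH hvT) hd) (Subgroup.inv_mem _ hd)
        refine ⟨v * d * v⁻¹ * d⁻¹, ?_, ?_, ?_⟩
        · have h1 : v * d * v⁻¹ * d⁻¹ = v * (d * v⁻¹ * d⁻¹) := by group
          rw [h1]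
          exact T.mul_mem hvT (hTn.conj_mem _ (T.inv_mem hvT) d)
        · intro h1
          apply hvd
          have h2 : v * d = (v * d * v⁻¹ * d⁻¹) * (d * v) := by group
          rw [h2, h1, one_mul]
        · intro e he x hx
          rcases Finset.mem_insert.1 he with rfl | he
          · exact AN_D_comm hu e _ hw' _ hx
          · have hx' : d⁻¹ * x * d ∈ AN_D H u e := by
              simpa using AN_D_conj hH e (H.inv_mem hdH) hx
            have h1 := hv e he x hx
            have h2 := hv e he _ hx'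
            have h3 : v⁻¹ * (d⁻¹ * x * d) = (d⁻¹ * x * d) * v⁻¹ := by
              have := congrArg (fun y => v⁻¹ * y * v⁻¹) h2
              calc v⁻¹ * (d⁻¹ * x * d) = v⁻¹ * ((d⁻¹ * x * d) * v) * v⁻¹ := by group
                _ = v⁻¹ * (v * (d⁻¹ * x * d)) * v⁻¹ := this.symm
                _ = _ := by group
            calc v * d * v⁻¹ * d⁻¹ * x = v * d * (v⁻¹ * (d⁻¹ * x * d)) * d⁻¹ := by group
              _ = v * d * ((d⁻¹ * x * d) * v⁻¹) * d⁻¹ := by rw [h3]
              _ = (v * x) * (d * v⁻¹ * d⁻¹) := by group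
              _ = (x * v) * (d * v⁻¹ * d⁻¹) := by rw [h1]
              _ = _ := by group
  obtain ⟨v, hvT, hv1, hv⟩ := key E
  have hvc : ∀ g : Γ, ⁅v, g * u * g⁻¹⁆ ∈ (⊥ : Subgroup Γ) := by
    apply hE ⊥ inferInstance v u
    intro e he
    rw [Subgroup.mem_bot, commutatorElement_eq_one_iff_mul_comm]
    exact hv e he _ (AN_D_mem u e)
  have hvZ : v ∈ Subgroup.centralizer (T : Set Γ) := by
    have h1 : T ≤ Subgroup.centralizer {v} := by
      rw [hTdef]
      unfold Subgroup.normalClosure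
      rw [Subgroup.closure_le]
      intro x hx
      obtain ⟨a, ha, hc⟩ := Group.mem_conjugatesOfSet_iff.1 hx
      obtain ⟨k, rfl⟩ := isConj_iff.1 hc
      rw [Set.mem_singleton_iff] at ha
      subst ha
      rw [SetLike.mem_coe, Subgroup.mem_centralizer_iff]
      rintro y rfl
      exact commutatorElement_eq_one_iff_mul_comm.1 (Subgroup.mem_bot.1 (hvc k))
    rw [Subgroup.mem_centralizer_iff]
    intro y hy
    exact (Subgroup.mem_centralizer_iff.1 (h1 hy) v rfl).symm
  have hZn : (Subgroup.centralizer (T : Set Γ)).Normal := Subgroup.normal_centralizer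
  refine ⟨T ⊓ Subgroup.centralizer (T : Set Γ), inferInstance, ?_, inf_le_left.trans hTH, ?_⟩
  · intro h
    have h1 : v ∈ T ⊓ Subgroup.centralizer (T : Set Γ) := ⟨hvT, hvZ⟩
    rw [h] at h1
    exact hv1 (Subgroup.mem_bot.1 h1)
  · intro a ha b hb
    exact Subgroup.mem_centralizer_iff.1 hb.2 a ha.1

end Pool.Agent.Helper83.SV
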