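import Pool.Agent.Helper83.SV.AN

/-!
# An abelian normal subgroup from one element

The second half of the proof of `exists_abelian` (file `AN.lean`).
-/

namespace Pool.Agent.Helper83.SV

open scoped commutatorElement

theorem abelian_of_elt {Γ : Type} [Group Γ] (hW : Win Γ) (H : Subgroup Γ) (hH : H.Normal)
    {u : Γ} (huH : u ∈ H) (hu1 : u ≠ 1) (hu : ∀ h ∈ H, ⁅u, h * u * h⁻¹⁆ = 1) :
    ∃ A : Subgroup Γ, A.Normal ∧ A ≠ ⊥ ∧ A ≤ H ∧ ∀ a ∈ A, ∀ b ∈ A, a * b = b * a := by
  classical
  obtain ⟨E, hE⟩ := hW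
  set T : Subgroup Γ := Subgroup.normalClosure {u} with hTdef
  have hTn : T.Normal := Subgroup.normalClosure_normal
  have hTH : T ≤ H := Subgroup.normalClosure_le_normal (by simpa using huH)
  have huT : u ∈ T := Subgroup.subset_normalClosure (Set.mem_singleton u)
  have key : ∀ E' : Finset Γ, ∃ v ∈ T, v ≠ 1 ∧ ∀ e ∈ E', ∀ x ∈ AN_D H u e, v * x = x * v := by
    intro E'
    induction E' using Finset.induction_on with
    | empty => exact ⟨u, huT, hu1, by simp⟩
    | insert e' E' _ ih =>
      obtain ⟨v, hvT, hv1, hv⟩ := ih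
      by_cases hc : ∀ x ∈ AN_D H u e', v * x = x * v
      · refine ⟨v, hvT, hv1, ?_⟩
        intro e he
        rcases Finset.mem_insert.1 he with rfl | he
        · exact hc
        · exact hv e he
      · push Not at hc
        obtain ⟨d, hd, hvd⟩ := hc
        have hdH : d ∈ H := AN_D_le hH huH e' hd
        have hw' : v * d * v⁻¹ * d⁻¹ ∈ AN_D H u e' :=
          Subgroup.mul_mem _ (AN_D_conj hH e' (hTH hvT) hd) (Subgroup.inv_mem _ hd)
        refine ⟨v * d * v⁻¹ * d⁻¹, ?_, ?_, ?_⟩
        · have h1 : v * d * v⁻¹ * d⁻¹ = v * (d * v⁻¹ * d⁻¹) := by group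
          rw [h1]
          exact T.mul_mem hvT (hTn.conj_mem _ (T.inv_mem hvT) d)
        · intro h1
          apply hvd
          have h2 : v * d = (v * d * v⁻¹ * d⁻¹) * (d * v) := by group
          rw [h2, h1, one_mul]
        · intro e he x hx
          rcases Finset.mem_insert.1 he with rfl | he
          · exact AN_D_comm hu e _ hw' _ hx
          · have hx' : d⁻¹ * x * d ∈ AN_D H u e := by
              simpa using AN_D_conj hH e (H.inv_mem hdH) hx
            have h1 := hv e he x hx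
            have h2 := hv e he _ hx'
            have h3 : v⁻¹ * (d⁻¹ * x * d) = (d⁻¹ * x * d) * v⁻¹ := by
              have := congrArg (fun y => v⁻¹ * y * v⁻¹) h2
              calc v⁻¹ * (d⁻¹ * x * d) = v⁻¹ * ((d⁻¹ * x * d) * v) * v⁻¹ := by group
                _ = v⁻¹ * (v * (d⁻¹ * x * d)) * v⁻¹ := this.symm
                _ = _ := by group
            calc v * d * v⁻¹ * d⁻¹ * x = v * d * (v⁻¹ * (d⁻¹ * x * d)) * d⁻¹ := by group
              _ = v * d * ((d⁻¹ * x * d) * v⁻¹) * d⁻¹ := by rw [h3]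
              _ = (v * x) * (d * v⁻¹ * d⁻¹) := by group
              _ = (x * v) * (d * v⁻¹ * d⁻¹) := by rw [h1]
              _ = _ := by group
  obtain ⟨v, hvT, hv1, hv⟩ := key E
  have hvc : ∀ g : Γ, ⁅v, g * u * g⁻¹⁆ ∈ (⊥ : Subgroup Γ) := by
    apply hE ⊥ inferInstance v u
    intro e he
    rw [Subgroup.mem_bot, commutatorElement_eq_one_iff_mul_comm]
    exact hv e he _ (AN_D_mem u e)
  have hvZ : v ∈ Subgroup.centralizer (T : Set Γ) := by
    have h1 : T ≤ Subgroup.centralizer {v} := by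
      rw [hTdef]
      unfold Subgroup.normalClosure
      rw [Subgroup.closure_le]
      intro x hx
      obtain ⟨a, ha, hc⟩ := Group.mem_conjugatesOfSet_iff.1 hx
      obtain ⟨k, rfl⟩ := isConj_iff.1 hc
      rw [Set.mem_singleton_iff] at ha
      subst ha
      rw [SetLike.mem_coe, Subgroup.mem_centralizer_iff]
      rintro y rfl
      exact commutatorElement_eq_one_iff_mul_comm.1 (Subgroup.mem_bot.1 (hvc k))
    rw [Subgroup.mem_centralizer_iff]
    intro y hy
    exact (Subgroup.mem_centralizer_iff.1 (h1 hy) v rfl).symm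
  have hZn : (Subgroup.centralizer (T : Set Γ)).Normal := Subgroup.normal_centralizer
  refine ⟨T ⊓ Subgroup.centralizer (T : Set Γ), inferInstance, ?_, inf_le_left.trans hTH, ?_⟩
  · intro h
    have h1 : v ∈ T ⊓ Subgroup.centralizer (T : Set Γ) := ⟨hvT, hvZ⟩
    rw [h] at h1
    exact hv1 (Subgroup.mem_bot.1 h1)
  · intro a ha b hb
    exact Subgroup.mem_centralizer_iff.1 hb.2 a ha.1

end Pool.Agent.Helper83.SV
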