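import Pool.Agent.Helper83.SV.Defs

/-!
# SV-14: abelian normal sections as modules

For normal subgroups `B ≤ A` of `Γ` with `⁅A, A⁆ ≤ B` take `T = Additive (A ⧸ B.subgroupOf A)` (or
the image of `A` in `Γ ⧸ B`), with `Γ` acting by conjugation.
-/

namespace Pool.Agent.Helper83.SV

open scoped commutatorElement

/-- The section `A / B` as a module. -/
structure SecData {Γ : Type} [Group Γ] (A B : Subgroup Γ) where
  /-- the module -/
  T : Type
  [inst : AddCommGroup T]
  /-- the class of an element of `A` -/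
  π : Γ → T
  /-- the action by conjugation -/
  ρ : Γ →* (AddMonoid.End T)ˣ
  surj : ∀ t : T, ∃ a ∈ A, π a = t
  mul : ∀ a ∈ A, ∀ b ∈ A, π (a * b) = π a + π b
  zero_iff : ∀ a ∈ A, π a = 0 ↔ a ∈ B
  act : ∀ g : Γ, ∀ a ∈ A, (ρ g : AddMonoid.End T) (π a) = π (g * a * g⁻¹)

attribute [instance] SecData.inst

private def qAct {Γ : Type} [Group Γ] (A B : Subgroup Γ) [A.Normal] [B.Normal] (g : Γ) :
    (A ⧸ B.subgroupOf A) →* (A ⧸ B.subgroupOf A) :=
  QuotientGroup.map (B.subgroupOf A) (B.subgroupOf A) (MulAut.conjNormal g : A ≃* A).toMonoidHom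
    (by
      intro x hx
      rw [Subgroup.mem_subgroupOf] at hx
      rw [Subgroup.mem_comap, Subgroup.mem_subgroupOf]
      change ((MulAut.conjNormal g x : A) : Γ) ∈ B
      rw [MulAut.conjNormal_apply]
      exact Subgroup.Normal.conj_mem inferInstance _ hx g)

private theorem qAct_mk {Γ : Type} [Group Γ] (A B : Subgroup Γ) [A.Normal] [B.Normal] (g : Γ)
    (a : A) : qAct A B g (QuotientGroup.mk a) = QuotientGroup.mk (MulAut.conjNormal g a) := rfl

private theorem qAct_one {Γ : Type} [Group Γ] (A B : Subgroup Γ) [A.Normal] [B.Normal] :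
    qAct A B 1 = MonoidHom.id _ := by
  ext a
  change qAct A B 1 (QuotientGroup.mk a) = QuotientGroup.mk a
  rw [qAct_mk, map_one, MulAut.one_apply]

private theorem qAct_mul {Γ : Type} [Group Γ] (A B : Subgroup Γ) [A.Normal] [B.Normal]
    (g h : Γ) : qAct A B (g * h) = (qAct A B g).comp (qAct A B h) := by
  ext a
  change qAct A B (g * h) (QuotientGroup.mk a) = qAct A B g (qAct A B h (QuotientGroup.mk a))
  rw [qAct_mk, qAct_mk, qAct_mk, map_mul, MulAut.mul_apply]

theorem exists_secData {Γ : Type} [Group Γ] (A B : Subgroup Γ) (hA : A.Normal) (hB : B.Normal)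
    (hBA : B ≤ A) (hAA : ⁅A, A⁆ ≤ B) : Nonempty (SecData A B) := by
  classical
  letI : CommGroup (A ⧸ B.subgroupOf A) :=
    { (inferInstance : Group (A ⧸ B.subgroupOf A)) with
      mul_comm := by
        intro p q
        induction p using QuotientGroup.induction_on with
        | H a =>
        induction q using QuotientGroup.induction_on with
        | H b =>
        rw [← QuotientGroup.mk_mul, ← QuotientGroup.mk_mul, QuotientGroup.eq,
          Subgroup.mem_subgroupOf]
        have h1 : ⁅(b : Γ)⁻¹, (a : Γ)⁻¹⁆ ∈ B :=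
          hAA (Subgroup.commutator_mem_commutator (A.inv_mem b.2) (A.inv_mem a.2))
        have h2 : (((a * b)⁻¹ * (b * a) : A) : Γ) = ⁅(b : Γ)⁻¹, (a : Γ)⁻¹⁆ := by
          rw [commutatorElement_def]
          push_cast
          group
        rw [h2]
        exact h1 }
  refine ⟨{
    T := Additive (A ⧸ B.subgroupOf A)
    π := fun g => if h : g ∈ A then Additive.ofMul (QuotientGroup.mk (⟨g, h⟩ : A)) else 0
    ρ := MonoidHom.toHomUnits
      { toFun := fun g => (MonoidHom.toAdditive (qAct A B g) :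
          Additive (A ⧸ B.subgroupOf A) →+ Additive (A ⧸ B.subgroupOf A))
        map_one' := by
          rw [qAct_one]
          rfl
        map_mul' := by
          intro g h
          rw [qAct_mul]
          rfl }
    surj := ?_
    mul := ?_
    zero_iff := ?_
    act := ?_ }⟩
  · intro t
    obtain ⟨a, ha⟩ := QuotientGroup.mk_surjective (Additive.toMul t)
    refine ⟨a, a.2, ?_⟩
    rw [dif_pos a.2]
    change Additive.ofMul (QuotientGroup.mk a) = t
    rw [ha]
    rfl
  · intro a ha b hb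
    rw [dif_pos (A.mul_mem ha hb), dif_pos ha, dif_pos hb]
    rfl
  · intro a ha
    rw [dif_pos ha]
    change (QuotientGroup.mk (⟨a, ha⟩ : A) : A ⧸ B.subgroupOf A) = 1 ↔ a ∈ B
    rw [QuotientGroup.eq_one_iff, Subgroup.mem_subgroupOf]
  · intro g a ha
    rw [dif_pos ha, dif_pos (hA.conj_mem a ha g)]
    rfl

namespace SecData

variable {Γ : Type} [Group Γ] {A B : Subgroup Γ} (s : SecData A B)

theorem π_one : s.π 1 = 0 := by
  have h := s.mul 1 A.one_mem 1 A.one_mem
  rw [mul_one] at h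
  exact (left_eq_add.mp h)

theorem π_inv {a : Γ} (ha : a ∈ A) : s.π a⁻¹ = - s.π a := by
  have h := s.mul a ha a⁻¹ (A.inv_mem ha)
  rw [mul_inv_cancel, s.π_one] at h
  exact eq_neg_of_add_eq_zero_right h.symm

private noncomputable def toHom : A →* Multiplicative s.T where
  toFun a := Multiplicative.ofAdd (s.π a)
  map_one' := by
    rw [OneMemClass.coe_one, s.π_one]
    rfl
  map_mul' a b := by
    rw [Subgroup.coe_mul, s.mul a a.2 b b.2]
    rfl

theorem π_zpow {a : Γ} (ha : a ∈ A) (n : ℤ) : s.π (a ^ n) = n • s.π a := by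
  have h := map_zpow s.toHom ⟨a, ha⟩ n
  have h2 := congrArg Multiplicative.toAdd h
  exact h2

theorem π_eq_iff {a b : Γ} (ha : a ∈ A) (hb : b ∈ A) : s.π a = s.π b ↔ a * b⁻¹ ∈ B := by
  rw [← s.zero_iff _ (A.mul_mem ha (A.inv_mem hb)), s.mul a ha _ (A.inv_mem hb), s.π_inv hb,
    ← sub_eq_add_neg, sub_eq_zero]

theorem π_comm (hA : A.Normal) (x : Γ) {a : Γ} (ha : a ∈ A) :
    s.π ⁅x, a⁆ = (((s.ρ x : AddMonoid.End s.T)) - 1) (s.π a) := by
  rw [commutatorElement_def, s.mul _ (hA.conj_mem a ha x) _ (A.inv_mem ha), s.π_inv ha,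
    ← s.act x a ha, ← sub_eq_add_neg]
  rfl

private theorem comm_mem' (hA : A.Normal) (x : Γ) {a : Γ} (ha : a ∈ A) : ⁅x, a⁆ ∈ A := by
  rw [commutatorElement_def]
  exact A.mul_mem (hA.conj_mem a ha x) (A.inv_mem ha)

private theorem ec_mem' (hA : A.Normal) (x : Γ) (k : ℕ) {a : Γ} (ha : a ∈ A) :
    ec x k a ∈ A := by
  induction k with
  | zero => exact ha
  | succ k ih =>
    unfold ec at ih ⊢
    rw [Function.iterate_succ_apply']
    exact comm_mem' hA x ih

theorem π_ec (hA : A.Normal) (x : Γ) (k : ℕ) {a : Γ} (ha : a ∈ A) :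
    s.π (ec x k a) = (((s.ρ x : AddMonoid.End s.T) - 1) ^ k) (s.π a) := by
  induction k with
  | zero =>
    rw [pow_zero]
    rfl
  | succ k ih =>
    have h1 : ec x (k + 1) a = ⁅x, ec x k a⁆ := by
      unfold ec
      rw [Function.iterate_succ_apply']
    rw [h1, s.π_comm hA x (ec_mem' hA x k ha), ih, pow_succ']
    rfl

theorem ec_mem (hA : A.Normal) (x : Γ) (k : ℕ) {a : Γ} (ha : a ∈ A) : ec x k a ∈ A :=
  ec_mem' hA x k ha

private theorem π_list (l : List Γ) (hl : ∀ g ∈ l, g ∈ A) :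
    s.π l.prod = (l.map s.π).sum := by
  induction l with
  | nil => exact s.π_one
  | cons g l ih =>
    rw [List.prod_cons, List.map_cons, List.sum_cons,
      s.mul g (hl g List.mem_cons_self) _
        (Subgroup.list_prod_mem A fun h hh => hl h (List.mem_cons_of_mem _ hh)),
      ih fun h hh => hl h (List.mem_cons_of_mem _ hh)]

private theorem sum_list_range {M : Type} [AddCommMonoid M] (n : ℕ) (f : ℕ → M) :
    ((List.range n).map f).sum = ∑ i ∈ Finset.range n, f i := by
  induction n with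
  | zero => rfl
  | succ n ih =>
    rw [List.range_succ, List.map_append, List.sum_append, Finset.sum_range_succ, ih]
    simp

private theorem pact_list_mem (hA : A.Normal) (Δ : Polynomial ℤ) (x : Γ) {a : Γ} (ha : a ∈ A) :
    ∀ g ∈ (List.range (Δ.natDegree + 1)).map
      (fun i => (x ^ i * a * (x ^ i)⁻¹) ^ (Δ.coeff i)), g ∈ A := by
  intro g hg
  rw [List.mem_map] at hg
  obtain ⟨i, -, rfl⟩ := hg
  exact A.zpow_mem (hA.conj_mem a ha _) _

theorem π_pact (hA : A.Normal) (Δ : Polynomial ℤ) (x : Γ) {a : Γ} (ha : a ∈ A) :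
    s.π (pact Δ x a) = (Polynomial.aeval (s.ρ x : AddMonoid.End s.T) Δ) (s.π a) := by
  unfold pact
  rw [s.π_list _ (pact_list_mem hA Δ x ha), List.map_map, sum_list_range,
    Polynomial.aeval_eq_sum_range]
  have h1 : ∀ (F : ℕ → AddMonoid.End s.T) (n : ℕ) (t : s.T),
      (∑ i ∈ Finset.range n, F i) t = ∑ i ∈ Finset.range n, F i t := by
    intro F n t
    induction n with
    | zero => rfl
    | succ n ih =>
      rw [Finset.sum_range_succ, Finset.sum_range_succ, ← ih]
      rfl
  rw [h1]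
  refine Finset.sum_congr rfl fun i _ => ?_
  rw [Function.comp_apply, s.π_zpow (hA.conj_mem a ha _), ← s.act (x ^ i) a ha, map_pow,
    Units.val_pow_eq_pow_val]
  rfl

theorem pact_mem (hA : A.Normal) (Δ : Polynomial ℤ) (x : Γ) {a : Γ} (ha : a ∈ A) :
    pact Δ x a ∈ A :=
  Subgroup.list_prod_mem A (pact_list_mem hA Δ x ha)

/-- `b` centralises `A / B`. -/
theorem ρ_eq_one_iff (hA : A.Normal) (b : Γ) : s.ρ b = 1 ↔ ∀ a ∈ A, ⁅b, a⁆ ∈ B := by
  constructor
  · intro h a ha
    rw [← s.zero_iff _ (comm_mem' hA b ha), s.π_comm hA b ha, h]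
    change (1 - 1 : AddMonoid.End s.T) (s.π a) = 0
    rw [sub_self]
    rfl
  · intro h
    apply Units.ext
    refine AddMonoidHom.ext fun t => ?_
    obtain ⟨a, ha, rfl⟩ := s.surj t
    have h1 := h a ha
    rw [← s.zero_iff _ (comm_mem' hA b ha), s.π_comm hA b ha] at h1
    have h2 : (s.ρ b : AddMonoid.End s.T) (s.π a) - s.π a = 0 := h1
    exact sub_eq_zero.mp h2

/-- `b` acts unipotently on `A / B`. -/
theorem unip_iff (hA : A.Normal) (b : Γ) :
    IsNilpotent ((s.ρ b : AddMonoid.End s.T) - 1) ↔ ∃ k : ℕ, ∀ a ∈ A, ec b k a ∈ B := by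
  constructor
  · rintro ⟨k, hk⟩
    refine ⟨k, fun a ha => ?_⟩
    rw [← s.zero_iff _ (ec_mem' hA b k ha), s.π_ec hA b k ha, hk]
    rfl
  · rintro ⟨k, hk⟩
    refine ⟨k, AddMonoidHom.ext fun t => ?_⟩
    obtain ⟨a, ha, rfl⟩ := s.surj t
    have h1 := hk a ha
    rw [← s.zero_iff _ (ec_mem' hA b k ha), s.π_ec hA b k ha] at h1
    exact h1

end SecData

end Pool.Agent.Helper83.SV
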