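import Pool.Agent.Helper83.SV.Elim

/-!
# SV-11: elements acting unipotently, operators of finite exponent

Take `R₀`, `T` from `ring_cases`, `M` a bound for the `j_t`, `N = n ^ (n ^ M)` (with care if `M = 0`),
`m = (max R₀ N)!`. First alternative: `χ ∘ σ ^ a = χ` implies `χ ∘ σ ^ m = χ` as `a ∣ m`. Second
alternative: let `χ_i = χ ∘ σ ^ i`, `i ∈ ℤ`. If `χ_j β = 1` for `1 ≤ j ≤ M` then `χ_0 β = 1`; apply
this to `β = σ ^ i β'`: if `χ_j β = 1` for `1 ≤ j ≤ M` then `χ_i β = 1` for all `i ≤ 0` (downward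
induction); so if `χ_j β = χ_j β'` for `1 ≤ j ≤ M`, then `χ_i β = χ_i β'` for `i ≤ 0`. The values of
`χ_i` are among the at most `n` roots of `X ^ n - 1` in `L`. So `χ_i` for `i ≤ 0` is determined by a
function from `(roots) ^ M` to the roots, and among `χ_0, χ_(-1), …, χ_(-N)` two are equal. Hence
`χ ∘ σ ^ a = χ` for some `1 ≤ a ≤ N`, and `χ (σ ^ m β * β⁻¹) = 1`.
-/

namespace Pool.Agent.Helper83.SV

private theorem tors_iter {E L : Type} [CommGroup E] [CommRing L] (χ : E →* L) (σ : MulAut E)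
    (a : ℕ) (h : ∀ β, χ ((σ ^ a) β) = χ β) (q : ℕ) : ∀ β, χ ((σ ^ (a * q)) β) = χ β := by
  induction q with
  | zero =>
    intro β
    rw [mul_zero, pow_zero, MulAut.one_apply]
  | succ q ih =>
    intro β
    rw [mul_add, mul_one, pow_add, MulAut.mul_apply, ih, h]

private theorem tors_down {E L : Type} [CommGroup E] [CommRing L] (χ : E →* L) (σ : MulAut E)
    (M : ℕ) (h : ∀ β, (∀ j : ℕ, 1 ≤ j → j ≤ M → χ ((σ ^ j) β) = 1) → χ β = 1) (β : E)
    (hβ : ∀ j : ℕ, 1 ≤ j → j ≤ M → χ ((σ ^ j) β) = 1) :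
    ∀ k : ℕ, χ ((σ ^ (-(k : ℤ))) β) = 1 := by
  intro k
  induction k using Nat.strong_induction_on with
  | _ k ih =>
    apply h
    intro j hj1 hjM
    rw [← MulAut.mul_apply, ← zpow_natCast, ← zpow_add]
    by_cases hjk : j ≤ k
    · have h1 := ih (k - j) (by omega)
      have h2 : ((j : ℤ) + -(k : ℤ)) = -((k - j : ℕ) : ℤ) := by omega
      rw [h2]
      exact h1
    · have h1 := hβ (j - k) (by omega) (by omega)
      have h2 : ((j : ℤ) + -(k : ℤ)) = ((j - k : ℕ) : ℤ) := by omega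
      rw [h2, zpow_natCast]
      exact h1

private theorem tors_det {E L : Type} [CommGroup E] [CommRing L] (χ : E →* L) (σ : MulAut E)
    (M : ℕ) (h : ∀ β, (∀ j : ℕ, 1 ≤ j → j ≤ M → χ ((σ ^ j) β) = 1) → χ β = 1) (β β' : E)
    (hβ : ∀ j : ℕ, 1 ≤ j → j ≤ M → χ ((σ ^ j) β) = χ ((σ ^ j) β')) (k : ℕ) :
    χ ((σ ^ (-(k : ℤ))) β) = χ ((σ ^ (-(k : ℤ))) β') := by
  have h1 := tors_down χ σ M h (β * β'⁻¹) (fun j h1 h2 => by
    rw [map_mul, map_mul, hβ j h1 h2, ← map_mul, ← map_mul, mul_inv_cancel, map_one, map_one]) k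
  have h2 : β = (β * β'⁻¹) * β' := by group
  calc χ ((σ ^ (-(k : ℤ))) β) = χ ((σ ^ (-(k : ℤ))) ((β * β'⁻¹) * β')) := by rw [← h2]
    _ = χ ((σ ^ (-(k : ℤ))) (β * β'⁻¹)) * χ ((σ ^ (-(k : ℤ))) β') := by rw [map_mul, map_mul]
    _ = χ ((σ ^ (-(k : ℤ))) β') := by rw [h1, one_mul]

private theorem tors_pigeon {E L : Type} [CommGroup E] [CommRing L] [IsDomain L] (χ : E →* L)
    (σ : MulAut E) (M n : ℕ) (hn : 1 ≤ n) (hE : ∀ β : E, β ^ n = 1)
    (h : ∀ β, (∀ j : ℕ, 1 ≤ j → j ≤ M → χ ((σ ^ j) β) = 1) → χ β = 1) :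
    ∃ a : ℕ, 1 ≤ a ∧ a ≤ n ^ (n ^ M) ∧ ∀ β, χ ((σ ^ a) β) = χ β := by
  classical
  let μ : Finset L := Polynomial.nthRootsFinset n (1 : L)
  have hμ : ∀ β : E, χ β ∈ μ := by
    intro β
    rw [Polynomial.mem_nthRootsFinset (by omega)]
    rw [← map_pow, hE, map_one]
  have hcard : Fintype.card μ ≤ n := by
    rw [Fintype.card_coe]
    have h1 : μ.card ≤ Multiset.card (Polynomial.nthRoots n (1 : L)) := by
      change (Multiset.toFinset (Polynomial.nthRoots n (1 : L))).card ≤ _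
      exact Multiset.toFinset_card_le _
    exact h1.trans (Polynomial.card_nthRoots n 1)
  let tup : E → (Fin M → μ) := fun β j => ⟨χ ((σ ^ (j.val + 1)) β), hμ _⟩
  let Ψ : Fin (n ^ (n ^ M) + 1) → ((Fin M → μ) → μ) := fun k τ =>
    if hτ : ∃ β, tup β = τ then ⟨χ ((σ ^ (-(k.val : ℤ))) hτ.choose), hμ _⟩ else ⟨χ 1, hμ _⟩
  have hlt : Fintype.card ((Fin M → μ) → μ) < Fintype.card (Fin (n ^ (n ^ M) + 1)) := by
    rw [Fintype.card_fun, Fintype.card_fun, Fintype.card_fin, Fintype.card_fin, Nat.lt_succ_iff]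
    calc Fintype.card μ ^ Fintype.card μ ^ M ≤ n ^ Fintype.card μ ^ M :=
          Nat.pow_le_pow_left hcard _
      _ ≤ n ^ n ^ M := Nat.pow_le_pow_right hn (Nat.pow_le_pow_left hcard _)
  obtain ⟨x, y, hxy, hΨ⟩ := Fintype.exists_ne_map_eq_of_card_lt Ψ hlt
  have key : ∀ β, χ ((σ ^ (-(x.val : ℤ))) β) = χ ((σ ^ (-(y.val : ℤ))) β) := by
    intro β
    have hτ : ∃ β', tup β' = tup β := ⟨β, rfl⟩
    have h1 : Ψ x (tup β) = Ψ y (tup β) := by rw [hΨ]
    have hsp := hτ.choose_spec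
    have h2 : (Ψ x (tup β) : L) = χ ((σ ^ (-(x.val : ℤ))) hτ.choose) := by
      change ((if hτ : ∃ β', tup β' = tup β then _ else _ : μ) : L) = _
      rw [dif_pos hτ]
    have h3 : (Ψ y (tup β) : L) = χ ((σ ^ (-(y.val : ℤ))) hτ.choose) := by
      change ((if hτ : ∃ β', tup β' = tup β then _ else _ : μ) : L) = _
      rw [dif_pos hτ]
    have h4 : ∀ k : ℕ, χ ((σ ^ (-(k : ℤ))) β) = χ ((σ ^ (-(k : ℤ))) hτ.choose) := by
      intro k
      refine tors_det χ σ M h _ _ (fun j hj1 hjM => ?_) k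
      have h5 := congrArg Subtype.val (congrFun hsp ⟨j - 1, by omega⟩)
      have h6 : j - 1 + 1 = j := by omega
      change χ ((σ ^ (j - 1 + 1)) hτ.choose) = χ ((σ ^ (j - 1 + 1)) β) at h5
      rw [h6] at h5
      exact h5.symm
    rw [h4, h4, ← h2, ← h3, h1]
  have main : ∀ x y : Fin (n ^ (n ^ M) + 1), x < y →
      (∀ β, χ ((σ ^ (-(x.val : ℤ))) β) = χ ((σ ^ (-(y.val : ℤ))) β)) →
      ∃ a : ℕ, 1 ≤ a ∧ a ≤ n ^ (n ^ M) ∧ ∀ β, χ ((σ ^ a) β) = χ β := by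
    intro x y hxy hk
    have hxy' : x.val < y.val := hxy
    have hy := y.isLt
    refine ⟨y.val - x.val, by omega, by omega, fun β => ?_⟩
    have h1 := hk ((σ ^ (y.val : ℤ)) β)
    rw [← MulAut.mul_apply, ← MulAut.mul_apply, ← zpow_add, ← zpow_add, neg_add_cancel, zpow_zero,
      MulAut.one_apply] at h1
    have h2 : (-(x.val : ℤ) + (y.val : ℤ)) = ((y.val - x.val : ℕ) : ℤ) := by omega
    rw [h2, zpow_natCast] at h1
    exact h1
  rcases lt_or_gt_of_ne hxy with h' | h'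
  · exact main x y h' key
  · exact main y x h' fun β => (key β).symm

theorem rl2 (D : List Tm) (hD : PosId D) (n : ℕ) (hn : 1 ≤ n) :
    ∃ m : ℕ, 1 ≤ m ∧
      ∀ (R : Type) [Ring R] (E : Type) [CommGroup E] (f : E →* Rˣ) (σ : MulAut E) (ξ : Rˣ),
        (∀ e, ξ * f e * ξ⁻¹ = f (σ e)) → (∀ β, RId D (f β) ξ) → (∀ β : E, β ^ n = 1) →
        ∀ β : E, IsNilpotent (((f ((σ ^ m) β * β⁻¹) : Rˣ) : R) - 1) := by
  obtain ⟨R₀, T, hT, hmain⟩ := ring_cases D hD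
  obtain ⟨M, hM⟩ : ∃ M : ℕ, ∀ t ∈ T, t.2.1 ≤ M := by
    clear hT hmain
    induction T with
    | nil => exact ⟨0, by simp⟩
    | cons a T ih =>
      obtain ⟨M, hM⟩ := ih
      refine ⟨max a.2.1 M, fun t ht => ?_⟩
      rcases List.mem_cons.1 ht with h | h
      · rw [h]
        exact le_max_left _ _
      · exact (hM t h).trans (le_max_right _ _)
  refine ⟨Nat.factorial (max R₀ (n ^ (n ^ M))), Nat.factorial_pos _, ?_⟩
  intro R _ E _ f σ ξ hξ hR hE β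
  refine hmain R E f σ ξ hξ hR _ ?_
  intro L _ _ χ hχ
  obtain ⟨a, ha1, ha2, ha⟩ : ∃ a : ℕ, 1 ≤ a ∧ a ≤ max R₀ (n ^ (n ^ M)) ∧
      ∀ β, χ ((σ ^ a) β) = χ β := by
    rcases hχ with ⟨a, ha1, ha2, ha⟩ | hχ
    · exact ⟨a, ha1, ha2.trans (le_max_left _ _), ha⟩
    · obtain ⟨a, ha1, ha2, ha⟩ := tors_pigeon χ σ M n hn hE (fun β hβ => by
        have h1 := hχ β
        have h2 : (T.map fun t => (if t.1 then (1 : L) else -1) *
            χ (zact t.2.2 σ β) * (χ ((σ ^ t.2.1) β) - 1)) = T.map fun _ => (0 : L) := by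
          refine List.map_congr_left fun t ht => ?_
          rw [hβ t.2.1 (hT t ht) (hM t ht), sub_self, mul_zero]
        rw [h2] at h1
        have h3 : (T.map fun _ => (0 : L)).sum = 0 := by simp
        rw [h3] at h1
        exact sub_eq_zero.1 h1)
      exact ⟨a, ha1, ha2.trans (le_max_right _ _), ha⟩
  obtain ⟨q, hq⟩ := Nat.dvd_factorial ha1 ha2
  rw [map_mul, hq, tors_iter χ σ a ha q, ← map_mul, mul_inv_cancel, map_one]

end Pool.Agent.Helper83.SV
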