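import Pool.Agent.Helper83.SV.Char
import Pool.Agent.Helper83.SV.Tors
import Pool.Agent.Helper83.SV.Bridge

/-!
# SV-15: the results on operators for groups

Let `s : SecData A B`. `rid_of_hasId`: evaluate the identity at `b, x, a` with `a ∈ A` and apply `π`:
the word `g_t` evaluated at `b, x, a` acts on `T` as the word evaluated at `ρ b, ρ x, 1`, because
`ρ a = 1` (`⁅A, A⁆ ≤ B`).

`gl1`: let `E' = E.map s.ρ`, a commutative subgroup of `(AddMonoid.End s.T)ˣ` normalised by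
`ξ = ρ x`; apply `rl1` to the group `E'`, the inclusion `f`, and `σ` = conjugation by `ξ`;
`ρ (pact Δ x b) = f (sact Δ σ (ρ b))`. Then `SecData.unip_iff`. `gl2` similarly with `rl2`.

`unip_sub`: `b b' - 1 = (b - 1) b' + (b' - 1)` for commuting operators: nilpotent.
-/

namespace Pool.Agent.Helper83.SV

open scoped commutatorElement

private theorem act_comm_mem {Γ : Type} [Group Γ] {A : Subgroup Γ} (hA : A.Normal) (x : Γ) {a : Γ}
    (ha : a ∈ A) : ⁅x, a⁆ ∈ A := by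
  rw [commutatorElement_def]
  exact A.mul_mem (hA.conj_mem a ha x) (A.inv_mem ha)

private theorem act_π_list {Γ : Type} [Group Γ] {A B : Subgroup Γ} (s : SecData A B) {α : Type}
    (l : List α) (F : α → Γ) (hl : ∀ g ∈ l, F g ∈ A) :
    s.π (l.map F).prod = (l.map fun g => s.π (F g)).sum := by
  induction l with
  | nil => exact s.π_one
  | cons g l ih =>
    rw [List.map_cons, List.prod_cons, List.map_cons, List.sum_cons,
      s.mul (F g) (hl g List.mem_cons_self) _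
        (Subgroup.list_prod_mem A fun h hh => by
          obtain ⟨y, hy, rfl⟩ := List.mem_map.1 hh
          exact hl y (List.mem_cons_of_mem _ hy)),
      ih fun h hh => hl h (List.mem_cons_of_mem _ hh)]

private theorem act_sum_apply {T : Type} [AddCommGroup T] {α : Type} (l : List α)
    (F : α → AddMonoid.End T) (t : T) : (l.map F).sum t = (l.map fun g => F g t).sum := by
  induction l with
  | nil => rfl
  | cons g l ih =>
    rw [List.map_cons, List.sum_cons, List.map_cons, List.sum_cons, ← ih]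
    rfl

theorem rid_of_hasId {D : List Tm} {Γ : Type} [Group Γ] (h : HasId D Γ) {A B : Subgroup Γ}
    (hA : A.Normal) (hB : B.Normal) (hBA : B ≤ A) (hAA : ⁅A, A⁆ ≤ B) (s : SecData A B)
    (b x : Γ) : RId D (s.ρ b) (s.ρ x) := by
  unfold RId
  refine AddMonoidHom.ext fun t => ?_
  obtain ⟨a, ha, rfl⟩ := s.surj t
  have hρa : s.ρ a = 1 := by
    rw [s.ρ_eq_one_iff hA]
    intro a' ha'
    exact hAA (Subgroup.commutator_mem_commutator ha ha')
  have hlift : ∀ w : FreeGroup (Fin 3), s.ρ (FreeGroup.lift ![b, x, a] w) =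
      FreeGroup.lift ![s.ρ b, s.ρ x, 1] w := by
    intro w
    have h1 : s.ρ.comp (FreeGroup.lift ![b, x, a]) = FreeGroup.lift ![s.ρ b, s.ρ x, 1] := by
      apply FreeGroup.ext_hom
      intro i
      rw [MonoidHom.comp_apply, FreeGroup.lift_apply_of, FreeGroup.lift_apply_of]
      fin_cases i
      · rfl
      · rfl
      · exact hρa
    rw [← h1]
    rfl
  have htv : ∀ t : Tm, tv b x a t ∈ A := by
    intro t
    unfold tv
    apply hA.conj_mem
    split_ifs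
    · exact act_comm_mem hA _ ha
    · exact A.inv_mem (act_comm_mem hA _ ha)
  have hval : ∀ t : Tm, s.π (tv b x a t) =
      ((if t.1 then (1 : AddMonoid.End s.T) else -1) *
        ((FreeGroup.lift ![s.ρ b, s.ρ x, 1] t.2.2 : (AddMonoid.End s.T)ˣ) : AddMonoid.End s.T) *
        (((s.ρ x ^ t.2.1 * s.ρ b * (s.ρ x ^ t.2.1)⁻¹ : (AddMonoid.End s.T)ˣ) :
          AddMonoid.End s.T) - 1)) (s.π a) := by
    intro t
    have hc : s.ρ (x ^ t.2.1 * b * (x ^ t.2.1)⁻¹) =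
        s.ρ x ^ t.2.1 * s.ρ b * (s.ρ x ^ t.2.1)⁻¹ := by
      rw [map_mul, map_mul, map_inv, map_pow]
    rw [← hc, ← hlift]
    have h2 := s.π_comm hA (x ^ t.2.1 * b * (x ^ t.2.1)⁻¹) ha
    have h3 := act_comm_mem hA (x ^ t.2.1 * b * (x ^ t.2.1)⁻¹) ha
    unfold tv
    split_ifs with ht
    · rw [← s.act _ _ h3, h2, one_mul]
      rfl
    · rw [← s.act _ _ (A.inv_mem h3), s.π_inv h3, h2, neg_mul, one_mul, neg_mul, map_neg]
      rfl
  have h4 : s.π ⁅b, a⁆ = ((s.ρ b : AddMonoid.End s.T) - 1) (s.π a) := s.π_comm hA b ha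
  refine h4.symm.trans (Eq.trans ?_ (act_sum_apply D _ (s.π a)).symm)
  rw [h b x a, act_π_list s D (tv b x a) (fun t _ => htv t)]
  congr 1
  refine List.map_congr_left fun t _ => ?_
  exact hval t

private theorem act_emap_comm {Γ : Type} [Group Γ] {A B E : Subgroup Γ} (hA : A.Normal)
    (hEA : ⁅⁅E, E⁆, A⁆ ≤ B) (s : SecData A B) {b c : Γ} (hb : b ∈ E) (hc : c ∈ E) :
    s.ρ b * s.ρ c = s.ρ c * s.ρ b := by
  have h1 : s.ρ ⁅b, c⁆ = 1 := by
    rw [s.ρ_eq_one_iff hA]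
    intro a ha
    exact hEA (Subgroup.commutator_mem_commutator (Subgroup.commutator_mem_commutator hb hc) ha)
  rw [map_commutatorElement, commutatorElement_eq_one_iff_mul_comm] at h1
  exact h1

private noncomputable def actAut {Γ : Type} [Group Γ] {A B : Subgroup Γ} (E : Subgroup Γ)
    (hE : E.Normal) (s : SecData A B) (x : Γ) : E.map s.ρ ≃* E.map s.ρ where
  toFun e := ⟨s.ρ x * e.1 * (s.ρ x)⁻¹, by
    obtain ⟨p, b, hb, rfl⟩ := e
    exact ⟨x * b * x⁻¹, hE.conj_mem b hb x, by rw [map_mul, map_mul, map_inv]⟩⟩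
  invFun e := ⟨(s.ρ x)⁻¹ * e.1 * s.ρ x, by
    obtain ⟨p, b, hb, rfl⟩ := e
    refine ⟨x⁻¹ * b * (x⁻¹)⁻¹, hE.conj_mem b hb x⁻¹, ?_⟩
    rw [map_mul, map_mul, inv_inv, map_inv]⟩
  left_inv e := by
    apply Subtype.ext
    simp only
    group
  right_inv e := by
    apply Subtype.ext
    simp only
    group
  map_mul' e e' := by
    apply Subtype.ext
    simp only [Subgroup.coe_mul]
    group

private theorem act_pack {Γ : Type} [Group Γ] {A B : Subgroup Γ} (E : Subgroup Γ)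
    (hE : E.Normal) (s : SecData A B)
    (hc : ∀ b ∈ E, ∀ c ∈ E, s.ρ b * s.ρ c = s.ρ c * s.ρ b) (x : Γ) :
    ∃ (E' : Type) (_ : CommGroup E') (f : E' →* (AddMonoid.End s.T)ˣ) (σ : MulAut E'),
      (∀ e, s.ρ x * f e * (s.ρ x)⁻¹ = f (σ e)) ∧ (∀ e, ∃ b ∈ E, f e = s.ρ b) ∧
      (∀ b ∈ E, ∃ e, f e = s.ρ b) ∧ Function.Injective f := by
  let I : CommGroup (E.map s.ρ) :=
    { (inferInstance : Group (E.map s.ρ)) with
      mul_comm := by
        rintro ⟨p, b, hb, rfl⟩ ⟨q, c, hc', rfl⟩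
        apply Subtype.ext
        exact hc b hb c hc' }
  refine ⟨E.map s.ρ, I, (E.map s.ρ).subtype, actAut E hE s x, fun e => rfl, ?_, ?_, ?_⟩
  · rintro ⟨p, b, hb, rfl⟩
    exact ⟨b, hb, rfl⟩
  · intro b hb
    exact ⟨⟨s.ρ b, b, hb, rfl⟩, rfl⟩
  · exact Subtype.val_injective

private theorem act_pow {R : Type} [Ring R] {E : Type} [CommGroup E] (f : E →* Rˣ) (σ : MulAut E)
    (ξ : Rˣ) (h : ∀ e, ξ * f e * ξ⁻¹ = f (σ e)) (i : ℕ) (β : E) :
    f ((σ ^ i) β) = ξ ^ i * f β * (ξ ^ i)⁻¹ := by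
  induction i with
  | zero => simp
  | succ i ih =>
    rw [pow_succ', MulAut.mul_apply, ← h, ih]
    group

private theorem act_range {G : Type} [Group G] {E : Type} [CommGroup E] (f : E →* G)
    (g : ℕ → E) (n : ℕ) :
    f (∏ i ∈ Finset.range n, g i) = ((List.range n).map fun i => f (g i)).prod := by
  induction n with
  | zero => simp
  | succ n ih =>
    rw [Finset.prod_range_succ, map_mul, ih, List.range_succ, List.map_append, List.prod_append]
    simp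

private theorem act_sact {Γ : Type} [Group Γ] {A B : Subgroup Γ} (s : SecData A B) {E : Type}
    [CommGroup E] (f : E →* (AddMonoid.End s.T)ˣ) (σ : MulAut E) (x b : Γ)
    (h : ∀ e, s.ρ x * f e * (s.ρ x)⁻¹ = f (σ e)) (β : E) (hβ : f β = s.ρ b) (Δ : Polynomial ℤ) :
    f (sact Δ σ β) = s.ρ (pact Δ x b) := by
  unfold sact pact
  rw [act_range, map_list_prod, List.map_map]
  congr 1
  refine List.map_congr_left fun i _ => ?_
  rw [Function.comp_apply, map_zpow, map_zpow, act_pow f σ (s.ρ x) h, hβ, map_mul, map_mul,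
    map_inv, map_pow]

theorem gl1 (D : List Tm) (hD : PosId D) :
    ∃ Δ : Polynomial ℤ, Δ ≠ 0 ∧ ∀ (Γ : Type) [Group Γ], HasId D Γ → ∀ A B E : Subgroup Γ,
      A.Normal → B.Normal → E.Normal → B ≤ A → ⁅A, A⁆ ≤ B → ⁅⁅E, E⁆, A⁆ ≤ B →
      ∀ x : Γ, ∀ b ∈ E, ∃ k : ℕ, ∀ a ∈ A, ec (pact Δ x b) k a ∈ B := by
  obtain ⟨Δ, hΔ, hmain⟩ := rl1 D hD
  refine ⟨Δ, hΔ, ?_⟩
  intro Γ _ hId A B E hA hB hE hBA hAA hEA x b hb
  obtain ⟨s⟩ := exists_secData A B hA hB hBA hAA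
  obtain ⟨E', _, f, σ, h1, h2, h3, h4⟩ := act_pack E hE s
    (fun b hb c hc => act_emap_comm hA hEA s hb hc) x
  rw [← s.unip_iff hA]
  obtain ⟨β, hβ⟩ := h3 b hb
  have h5 := hmain (AddMonoid.End s.T) E' f σ (s.ρ x) h1 (fun β => by
    obtain ⟨c, hc, hβc⟩ := h2 β
    rw [hβc]
    exact rid_of_hasId hId hA hB hBA hAA s c x) β
  rw [act_sact s f σ x b h1 β hβ Δ] at h5
  exact h5

theorem gl2 (D : List Tm) (hD : PosId D) (n : ℕ) (hn : 1 ≤ n) :
    ∃ m : ℕ, 1 ≤ m ∧ ∀ (Γ : Type) [Group Γ], HasId D Γ → ∀ A B E : Subgroup Γ,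
      A.Normal → B.Normal → E.Normal → B ≤ A → ⁅A, A⁆ ≤ B → ⁅⁅E, E⁆, A⁆ ≤ B →
      (∀ b ∈ E, ∀ a ∈ A, ⁅b ^ n, a⁆ ∈ B) →
      ∀ x : Γ, ∀ b ∈ E, ∃ k : ℕ, ∀ a ∈ A, ec (x ^ m * b * (x ^ m)⁻¹ * b⁻¹) k a ∈ B := by
  obtain ⟨m, hm, hmain⟩ := rl2 D hD n hn
  refine ⟨m, hm, ?_⟩
  intro Γ _ hId A B E hA hB hE hBA hAA hEA hEn x b hb
  obtain ⟨s⟩ := exists_secData A B hA hB hBA hAA
  obtain ⟨E', _, f, σ, h1, h2, h3, h4⟩ := act_pack E hE s
    (fun b hb c hc => act_emap_comm hA hEA s hb hc) x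
  rw [← s.unip_iff hA]
  obtain ⟨β, hβ⟩ := h3 b hb
  have h5 := hmain (AddMonoid.End s.T) E' f σ (s.ρ x) h1 (fun β => by
    obtain ⟨c, hc, hβc⟩ := h2 β
    rw [hβc]
    exact rid_of_hasId hId hA hB hBA hAA s c x) (fun β => by
    obtain ⟨c, hc, hβc⟩ := h2 β
    apply h4
    rw [map_pow, hβc, map_one, ← map_pow, s.ρ_eq_one_iff hA]
    intro a ha
    exact hEn c hc a ha) β
  rw [map_mul, map_inv, act_pow f σ (s.ρ x) h1, hβ] at h5
  have h6 : s.ρ (x ^ m * b * (x ^ m)⁻¹ * b⁻¹) =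
      s.ρ x ^ m * s.ρ b * (s.ρ x ^ m)⁻¹ * (s.ρ b)⁻¹ := by
    rw [map_mul, map_mul, map_mul, map_inv, map_inv, map_pow]
  rw [h6]
  exact h5

/-- The elements of `E` acting unipotently on `A / B` form a normal subgroup. -/
theorem unip_sub {Γ : Type} [Group Γ] (A B E : Subgroup Γ) (hA : A.Normal) (hB : B.Normal)
    (hE : E.Normal) (hBA : B ≤ A) (hAA : ⁅A, A⁆ ≤ B) (hEA : ⁅⁅E, E⁆, A⁆ ≤ B) :
    ∃ K : Subgroup Γ, K.Normal ∧ K ≤ E ∧ ∀ b ∈ E, (b ∈ K ↔ ∃ k : ℕ, ∀ a ∈ A, ec b k a ∈ B) := by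
  obtain ⟨s⟩ := exists_secData A B hA hB hBA hAA
  have hcomm : ∀ b ∈ E, ∀ c ∈ E, Commute (s.ρ b : AddMonoid.End s.T) (s.ρ c) := by
    intro b hb c hc
    have h1 := act_emap_comm hA hEA s hb hc
    exact congrArg (fun u : (AddMonoid.End s.T)ˣ => (u : AddMonoid.End s.T)) h1
  refine ⟨{
    carrier := {b | b ∈ E ∧ IsNilpotent ((s.ρ b : AddMonoid.End s.T) - 1)}
    mul_mem' := ?_
    one_mem' := ?_
    inv_mem' := ?_ }, ⟨?_⟩, fun b hb => hb.1, fun b hb => ?_⟩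
  · rintro b c ⟨hb, hb'⟩ ⟨hc, hc'⟩
    refine ⟨E.mul_mem hb hc, ?_⟩
    have h1 : (s.ρ (b * c) : AddMonoid.End s.T) - 1 =
        ((s.ρ b : AddMonoid.End s.T) - 1) * (s.ρ c : AddMonoid.End s.T) +
          ((s.ρ c : AddMonoid.End s.T) - 1) := by
      rw [map_mul, Units.val_mul]
      noncomm_ring
    have hbc := hcomm b hb c hc
    have h2 : Commute ((s.ρ b : AddMonoid.End s.T) - 1) (s.ρ c : AddMonoid.End s.T) :=
      hbc.sub_left (Commute.one_left _)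
    have h3 : Commute ((s.ρ b : AddMonoid.End s.T) - 1) ((s.ρ c : AddMonoid.End s.T) - 1) :=
      h2.sub_right (Commute.one_right _)
    have h4 : Commute (s.ρ c : AddMonoid.End s.T) ((s.ρ c : AddMonoid.End s.T) - 1) :=
      (Commute.refl _).sub_right (Commute.one_right _)
    rw [h1]
    exact Commute.isNilpotent_add (h3.mul_left h4) (h2.isNilpotent_mul_right hb') hc'
  · refine ⟨E.one_mem, ?_⟩
    rw [map_one, Units.val_one, sub_self]
    exact IsNilpotent.zero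
  · rintro b ⟨hb, hb'⟩
    refine ⟨E.inv_mem hb, ?_⟩
    have h1 : (s.ρ b⁻¹ : AddMonoid.End s.T) - 1 =
        -(((s.ρ b : AddMonoid.End s.T) - 1) * (s.ρ b⁻¹ : AddMonoid.End s.T)) := by
      have h0 : (s.ρ b : AddMonoid.End s.T) * (s.ρ b⁻¹ : AddMonoid.End s.T) = 1 := by
        rw [← Units.val_mul, ← map_mul, mul_inv_cancel, map_one, Units.val_one]
      rw [sub_mul, h0]
      noncomm_ring
    have hbc := hcomm b hb b⁻¹ (E.inv_mem hb)
    have h2 : Commute ((s.ρ b : AddMonoid.End s.T) - 1) (s.ρ b⁻¹ : AddMonoid.End s.T) :=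
      hbc.sub_left (Commute.one_left _)
    rw [h1]
    exact (h2.isNilpotent_mul_right hb').neg
  · rintro b ⟨hb, k, hk⟩ g
    refine ⟨hE.conj_mem b hb g, k, ?_⟩
    have h1 : (s.ρ (g * b * g⁻¹) : AddMonoid.End s.T) - 1 =
        (s.ρ g : AddMonoid.End s.T) * ((s.ρ b : AddMonoid.End s.T) - 1) *
          (((s.ρ g)⁻¹ : (AddMonoid.End s.T)ˣ) : AddMonoid.End s.T) := by
      rw [map_mul, map_mul, map_inv, Units.val_mul, Units.val_mul, mul_sub, sub_mul, mul_one,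
        Units.mul_inv]
    rw [h1, Units.conj_pow, hk, mul_zero, zero_mul]
  · rw [← s.unip_iff hA]
    exact ⟨fun h => h.2, fun h => ⟨hb, h⟩⟩

end Pool.Agent.Helper83.SV
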