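import Pool.Agent.Helper83.SV.UW

/-!
# SV-23: chains for nilpotent groups

`Chain.comap'`: induction on the chain.

`chain_ext`: `Chain C K` and `K'` generated by `K` and a finite set `X` such that `⁅K', K'⁆ ≤ K`:
add the elements of `X` one by one (each intermediate group is `K ⊔ closure (finite set)`, normal in
`K'` since it contains `⁅K', K'⁆`).

`chain_of_lc`: let `N_i = lc N N i`, normal in `Q`. `⁅N_i, N⁆ = N_(i+1)`, `N` has finite index in
`Q`, and `N_i` is the normal closure in `Q` of a finite set; conjugation by `N` is trivial on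
`N_i / N_(i+1)`, so `N_i` is generated by `N_(i+1)` and the finitely many conjugates of the elements
of the finite set by representatives of `Q / N`. By `chain_ext`, `Chain ⊥ N_i` follows from
`Chain ⊥ N_(i+1)`. The last step from `N` to `⊤` is finite.
-/

namespace Pool.Agent.Helper83.SV

open scoped commutatorElement

theorem Chain.comap' {G Q : Type} [Group G] [Group Q] (f : G →* Q)
    (hf : Function.Surjective f) {K : Subgroup Q} (h : Chain (⊥ : Subgroup Q) K) :
    Chain f.ker (K.comap f) := by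
  classical
  induction h with
  | base =>
    rw [MonoidHom.comap_bot]
    exact Chain.base
  | cyc K K' x _ h1 h2 h3 h4 ih =>
    obtain ⟨y, rfl⟩ := hf x
    refine Chain.cyc (K.comap f) (K'.comap f) y ih (Subgroup.comap_mono h1) h2 ?_ ?_
    · intro g hg k hk
      rw [Subgroup.mem_comap, map_mul, map_mul, map_inv]
      exact h3 _ hg _ hk
    · intro g hg
      obtain ⟨n, k, hk, e⟩ := h4 (f g) hg
      refine ⟨n, (y ^ n)⁻¹ * g, ?_, by group⟩
      rw [Subgroup.mem_comap, map_mul, map_inv, map_zpow, e, inv_mul_cancel_left]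
      exact hk
  | fin K K' T _ h1 h2 h3 ih =>
    choose s hs using hf
    refine Chain.fin (K.comap f) (K'.comap f) (T.image s) ih (Subgroup.comap_mono h1) ?_ ?_
    · intro t ht
      obtain ⟨t', ht', rfl⟩ := Finset.mem_image.1 ht
      rw [Subgroup.mem_comap, hs]
      exact h2 _ ht'
    · intro g hg
      obtain ⟨t, ht, k, hk, e⟩ := h3 (f g) hg
      refine ⟨s t, Finset.mem_image_of_mem s ht, (s t)⁻¹ * g, ?_, by group⟩
      rw [Subgroup.mem_comap, map_mul, map_inv, hs, e, inv_mul_cancel_left]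
      exact hk

private theorem ChainN_conj {Q : Type} [Group Q] {K K' : Subgroup Q} (hK : K ≤ K')
    (hKK : ⁅K', K'⁆ ≤ K) {g k : Q} (hg : g ∈ K') (hk : k ∈ K) : g * k * g⁻¹ ∈ K := by
  have h1 : ⁅g, k⁆ ∈ K := hKK (Subgroup.commutator_mem_commutator hg (hK hk))
  have h2 : g * k * g⁻¹ = ⁅g, k⁆ * k := by
    rw [commutatorElement_def]
    group
  rw [h2]
  exact K.mul_mem h1 hk

theorem chain_ext {Q : Type} [Group Q] (C K K' : Subgroup Q) (h : Chain C K) (X : Finset Q)
    (hK : K ≤ K') (hX : K' ≤ K ⊔ Subgroup.closure (X : Set Q)) (hX' : (X : Set Q) ⊆ K')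
    (hKK : ⁅K', K'⁆ ≤ K) : Chain C K' := by
  classical
  induction X using Finset.induction_on generalizing K with
  | empty =>
    have e : K' = K := by
      apply le_antisymm _ hK
      refine hX.trans ?_
      rw [Finset.coe_empty, Subgroup.closure_empty, sup_bot_eq]
    rw [e]
    exact h
  | insert x X0 _ ih =>
    have hx : x ∈ K' := hX' (by simp)
    have hxn : ∀ n : ℤ, x ^ n ∈ K' := fun n => K'.zpow_mem hx n
    let K1 : Subgroup Q :=
      { carrier := {g | ∃ n : ℤ, ∃ k ∈ K, g = x ^ n * k}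
        one_mem' := ⟨0, 1, K.one_mem, by simp⟩
        mul_mem' := by
          rintro _ _ ⟨n, k, hk, rfl⟩ ⟨m, l, hl, rfl⟩
          refine ⟨n + m, (x ^ (-m) * k * (x ^ (-m))⁻¹) * l,
            K.mul_mem (ChainN_conj hK hKK (hxn (-m)) hk) hl, ?_⟩
          rw [zpow_add]
          group
        inv_mem' := by
          rintro _ ⟨n, k, hk, rfl⟩
          refine ⟨-n, x ^ n * k⁻¹ * (x ^ n)⁻¹,
            ChainN_conj hK hKK (hxn n) (K.inv_mem hk), ?_⟩
          group }
    have hmem : ∀ g : Q, g ∈ K1 ↔ ∃ n : ℤ, ∃ k ∈ K, g = x ^ n * k := fun g => Iff.rfl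
    have hKK1 : K ≤ K1 := fun k hk => (hmem k).2 ⟨0, k, hk, by simp⟩
    have hxK1 : x ∈ K1 := (hmem x).2 ⟨1, 1, K.one_mem, by simp⟩
    have hK1 : K1 ≤ K' := by
      intro g hg
      obtain ⟨n, k, hk, rfl⟩ := (hmem g).1 hg
      exact K'.mul_mem (hxn n) (hK hk)
    refine ih K1 ?_ hK1 ?_ ?_ (hKK.trans hKK1)
    · exact Chain.cyc K K1 x h hKK1 hxK1
        (fun g hg k hk => ChainN_conj hK hKK (hK1 hg) hk) (fun g hg => (hmem g).1 hg)
    · refine hX.trans (sup_le (hKK1.trans le_sup_left) ?_)
      rw [Subgroup.closure_le]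
      intro y hy
      rw [Finset.coe_insert] at hy
      rcases hy with rfl | hy
      · exact (le_sup_left : K1 ≤ _) hxK1
      · exact (le_sup_right : Subgroup.closure (X0 : Set Q) ≤ _) (Subgroup.subset_closure hy)
    · intro y hy
      apply hX'
      rw [Finset.coe_insert]
      exact Or.inr hy

theorem chain_of_lc {Q : Type} [Group Q] (hM : MaxN Q) (N : Subgroup Q) (hN : N.Normal)
    (hNf : N.FiniteIndex) (s : ℕ) (h : lc N N s = ⊥) : Chain (⊥ : Subgroup Q) ⊤ := by
  classical
  obtain ⟨R, hR⟩ : ∃ R : Finset Q, ∀ g : Q, ∃ r ∈ R, ∃ n ∈ N, g = r * n := by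
    have : Finite (Q ⧸ N) := Subgroup.finite_quotient_of_finiteIndex
    have := Fintype.ofFinite (Q ⧸ N)
    refine ⟨Finset.univ.image (fun q : Q ⧸ N => Quotient.out q), fun g =>
      ⟨Quotient.out (g : Q ⧸ N), Finset.mem_image_of_mem _ (Finset.mem_univ _),
        (Quotient.out (g : Q ⧸ N))⁻¹ * g, ?_, by group⟩⟩
    rw [← QuotientGroup.eq]
    exact Quotient.out_eq' (g : Q ⧸ N)
  have key : ∀ d i : ℕ, i + d = s → Chain (⊥ : Subgroup Q) (lc N N i) := by
    intro d
    induction d with
    | zero =>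
      intro i hi
      have : i = s := by omega
      rw [this, h]
      exact Chain.base
    | succ d ihd =>
      intro i hi
      have h1 := ihd (i + 1) (by omega)
      have hn : (lc N N i).Normal := lc_normal N N hN hN i
      have hle : lc N N i ≤ N := lc_anti N N hN hN (Nat.zero_le i)
      have hle1 : lc N N (i + 1) ≤ lc N N i := lc_anti N N hN hN (Nat.le_succ i)
      obtain ⟨t, ht⟩ := hM (lc N N i) hn
      have htm : ∀ x ∈ t, x ∈ lc N N i := by
        intro x hx
        rw [← ht]
        exact Subgroup.subset_normalClosure hx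
      refine chain_ext ⊥ (lc N N (i + 1)) (lc N N i) h1
        ((R ×ˢ t).image fun p : Q × Q => p.1 * p.2 * p.1⁻¹) hle1 ?_ ?_ ?_
      · rw [← ht]
        unfold Subgroup.normalClosure
        rw [Subgroup.closure_le]
        intro y hy
        obtain ⟨x, hx, hxy⟩ := Group.mem_conjugatesOfSet_iff.1 hy
        obtain ⟨g, rfl⟩ := isConj_iff.1 hxy
        obtain ⟨r, hr, n, hnN, e⟩ := hR g
        have hn' : r * n * r⁻¹ ∈ N := hN.conj_mem n hnN r
        have hrx : r * x * r⁻¹ ∈ lc N N i := hn.conj_mem x (htm x hx) r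
        have e2 : g * x * g⁻¹ = ⁅r * n * r⁻¹, r * x * r⁻¹⁆ * (r * x * r⁻¹) := by
          rw [commutatorElement_def, e]
          group
        have h3 : ⁅r * n * r⁻¹, r * x * r⁻¹⁆ ∈ lc N N (i + 1) := by
          have h4 : ⁅r * n * r⁻¹, r * x * r⁻¹⁆ ∈ ⁅N, lc N N i⁆ :=
            Subgroup.commutator_mem_commutator hn' hrx
          rw [Subgroup.commutator_comm] at h4
          exact h4
        show g * x * g⁻¹ ∈ (lc N N (i + 1) ⊔ _ : Subgroup Q)
        rw [e2]
        refine Subgroup.mul_mem _ ((le_sup_left : lc N N (i + 1) ≤ _) h3) ?_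
        refine (le_sup_right : Subgroup.closure _ ≤ _) (Subgroup.subset_closure ?_)
        rw [Finset.mem_coe]
        exact Finset.mem_image.2 ⟨(r, x), Finset.mem_product.2 ⟨hr, hx⟩, rfl⟩
      · intro y hy
        rw [Finset.mem_coe] at hy
        obtain ⟨p, hp, rfl⟩ := Finset.mem_image.1 hy
        exact hn.conj_mem _ (htm _ (Finset.mem_product.1 hp).2) _
      · exact Subgroup.commutator_mono (le_refl _) hle
  have h0 : Chain (⊥ : Subgroup Q) N := key s 0 (by omega)
  refine Chain.fin N ⊤ R h0 le_top (fun t _ => Subgroup.mem_top t) ?_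
  intro g _
  exact hR g

end Pool.Agent.Helper83.SV
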