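import Pool.Agent.Helper83.SV.Elim

/-!
# SV-10: elements acting unipotently, first result

Take `R₀`, `T` from `ring_cases`. For a homomorphism `χ : E →* L` to a domain and `m : ℤ →₀ ℤ` let
`χ_m β = χ (zact m σ β)`, again a homomorphism. In the second alternative of `ring_cases`,
`∑_m c_m χ_m = 0`, where `c : (ℤ →₀ ℤ) →₀ ℤ` is `[δ₀] - [0] - ∑_(t ∈ T) ε_t ([P_t + δ_(j_t)] - [P_t])`
(`δ_i = single i 1`). The sum of the `c_m` over the `m` with `m 0 = 1` is `1`, because `j_t ≥ 1`,
so `(P_t + δ_(j_t)) 0 = P_t 0`. If the `χ_m`, `m` in the support of `c`, were distinct, then by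
`linearIndependent_monoidHom` all `c_m` would be `0` in `L`, and `1 = 0` in `L`. So `χ_m = χ_m'` for
some `m ≠ m'` in the support of `c`, that is `χ (zact (m - m') σ β) = 1` for all `β`. Let `p_δ` be
the polynomial of `exists_poly` for `δ = m - m'`. Take
`Δ = ∏_(1 ≤ a ≤ R₀) (X ^ a - 1) * ∏_(m ≠ m' in the support of c) p_(m - m')` and use `sact_mul` (the
factors commute) to see `χ (sact Δ σ β) = 1` in both alternatives.
-/

namespace Pool.Agent.Helper83.SV

open Polynomial in
private theorem char_sact {E : Type} [CommGroup E] (σ : MulAut E) (β : E) (a : ℕ) :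
    sact (X ^ a - 1 : ℤ[X]) σ β = (σ ^ a) β * β⁻¹ := by
  have hd : (X ^ a - 1 : ℤ[X]).natDegree = a := by
    have h := Polynomial.natDegree_X_pow_sub_C (R := ℤ) (n := a) (r := 1)
    rwa [Polynomial.C_1] at h
  unfold sact
  rw [hd]
  have hc : ∀ i, (X ^ a - 1 : ℤ[X]).coeff i = (if i = a then 1 else 0) - (if i = 0 then 1 else 0) := by
    intro i
    rw [Polynomial.coeff_sub, Polynomial.coeff_X_pow, Polynomial.coeff_one]
  have h1 : ∀ i ∈ Finset.range (a + 1), ((σ ^ i) β) ^ ((X ^ a - 1 : ℤ[X]).coeff i) =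
      (if i = a then (σ ^ i) β else 1) * (if i = 0 then ((σ ^ i) β)⁻¹ else 1) := by
    intro i _
    rw [hc, zpow_sub]
    congr 1
    · split_ifs
      · rw [zpow_one]
      · rw [zpow_zero]
    · split_ifs
      · rw [zpow_one]
      · rw [zpow_zero, inv_one]
  rw [Finset.prod_congr rfl h1, Finset.prod_mul_distrib, Finset.prod_ite_eq', Finset.prod_ite_eq',
    if_pos (Finset.mem_range.2 (Nat.lt_succ_self a)),
    if_pos (Finset.mem_range.2 (Nat.succ_pos a)), pow_zero]
  rfl

/-- the homomorphism `β ↦ zact m σ β` -/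
private noncomputable def charHom {E : Type} [CommGroup E] (σ : MulAut E) (m : ℤ →₀ ℤ) : E →* E :=
  MonoidHom.mk' (fun β => zact m σ β) (zact_mul m σ)

private theorem char_zero {E : Type} [CommGroup E] (σ : MulAut E) (β : E) :
    zact 0 σ β = 1 := by
  have h := zact_add 0 0 σ β
  rw [add_zero] at h
  exact mul_eq_left.1 h.symm

/-- the combination of the second alternative -/
private noncomputable def charC (T : List (Bool × ℕ × (ℤ →₀ ℤ))) : (ℤ →₀ ℤ) →₀ ℤ :=
  Finsupp.single (Finsupp.single 0 1) 1 - Finsupp.single 0 1 -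
    (T.map fun t => (if t.1 then (1 : ℤ) else -1) •
      (Finsupp.single (t.2.2 + Finsupp.single (t.2.1 : ℤ) 1) 1 - Finsupp.single t.2.2 1)).sum

private theorem charC_count (T : List (Bool × ℕ × (ℤ →₀ ℤ))) (hT : ∀ t ∈ T, 1 ≤ t.2.1) :
    Finsupp.linearCombination ℤ (fun m : ℤ →₀ ℤ => if m 0 = 1 then (1 : ℤ) else 0) (charC T) = 1 := by
  have h1 : (T.map fun t => Finsupp.linearCombination ℤ
      (fun m : ℤ →₀ ℤ => if m 0 = 1 then (1 : ℤ) else 0) ((if t.1 then (1 : ℤ) else -1) •
      (Finsupp.single (t.2.2 + Finsupp.single (t.2.1 : ℤ) 1) 1 -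
        Finsupp.single t.2.2 1 : (ℤ →₀ ℤ) →₀ ℤ))).sum = 0 := by
    apply List.sum_eq_zero
    intro x hx
    obtain ⟨t, ht, rfl⟩ := List.mem_map.1 hx
    have h2 : (t.2.2 + Finsupp.single (t.2.1 : ℤ) 1 : ℤ →₀ ℤ) 0 = t.2.2 0 := by
      have h3 : ((t.2.1 : ℕ) : ℤ) ≠ 0 := by
        have := hT t ht
        omega
      rw [Finsupp.add_apply, Finsupp.single_eq_of_ne h3.symm, add_zero]
    rw [map_smul, map_sub, Finsupp.linearCombination_single, Finsupp.linearCombination_single, h2,
      sub_self, smul_zero]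
  unfold charC
  rw [map_sub, map_sub, map_list_sum, List.map_map]
  have h2 := h1
  simp only [Function.comp_def]
  rw [h2, Finsupp.linearCombination_single, Finsupp.linearCombination_single]
  simp

private theorem charC_zero {E : Type} [CommGroup E] (T : List (Bool × ℕ × (ℤ →₀ ℤ)))
    (σ : MulAut E) {L : Type} [CommRing L] (χ : E →* L) (β : E)
    (h : χ β - 1 = (T.map fun t => (if t.1 then (1 : L) else -1) *
              χ (zact t.2.2 σ β) * (χ ((σ ^ t.2.1) β) - 1)).sum) :
    Finsupp.linearCombination ℤ (fun m : ℤ →₀ ℤ => χ (zact m σ β)) (charC T) = 0 := by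
  unfold charC
  rw [map_sub, map_sub, map_list_sum, List.map_map, sub_eq_zero,
    Finsupp.linearCombination_single, Finsupp.linearCombination_single, one_smul, one_smul,
    zact_single, char_zero, map_one, zpow_one, zpow_zero]
  have e : (1 : MulAut E) β = β := rfl
  rw [e, h]
  congr 1
  apply List.map_congr_left
  intro t _
  rw [Function.comp_apply, map_smul, map_sub, Finsupp.linearCombination_single,
    Finsupp.linearCombination_single, one_smul, one_smul, zact_add, zact_single, zpow_one,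
    zpow_natCast, map_mul, zsmul_eq_mul, mul_assoc, mul_sub, mul_one]
  congr 1
  split_ifs <;> simp

theorem rl1 (D : List Tm) (hD : PosId D) :
    ∃ Δ : Polynomial ℤ, Δ ≠ 0 ∧
      ∀ (R : Type) [Ring R] (E : Type) [CommGroup E] (f : E →* Rˣ) (σ : MulAut E) (ξ : Rˣ),
        (∀ e, ξ * f e * ξ⁻¹ = f (σ e)) → (∀ β, RId D (f β) ξ) →
        ∀ β : E, IsNilpotent (((f (sact Δ σ β) : Rˣ) : R) - 1) := by
  classical
  obtain ⟨R₀, T, hT, hmain⟩ := ring_cases D hD
  have hp : ∀ δ : ℤ →₀ ℤ, ∃ (N : ℕ) (p : Polynomial ℤ), p ≠ 0 ∧ (δ ≠ 0 →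
      ∀ (E : Type) [CommGroup E] (σ : MulAut E) (β : E), sact p σ β = zact δ σ ((σ ^ N) β)) := by
    intro δ
    by_cases hδ : δ = 0
    · exact ⟨0, 1, one_ne_zero, fun h => absurd hδ h⟩
    · obtain ⟨N, p, h1, h2⟩ := exists_poly δ hδ
      exact ⟨N, p, h1, fun _ => h2⟩
  choose N p hp0 hp1 using hp
  let Δ₁ : Polynomial ℤ := ∏ a ∈ Finset.Icc 1 R₀, (Polynomial.X ^ a - 1)
  let Δ₂ : Polynomial ℤ := ∏ q ∈ (charC T).support.offDiag, p (q.1 - q.2)
  refine ⟨Δ₁ * Δ₂, ?_, ?_⟩
  · refine mul_ne_zero (Finset.prod_ne_zero_iff.2 fun a ha => ?_)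
      (Finset.prod_ne_zero_iff.2 fun q _ => hp0 _)
    have ha1 : a ≠ 0 := by
      have := (Finset.mem_Icc.1 ha).1
      omega
    have h := (Polynomial.monic_X_pow_sub_C (R := ℤ) 1 ha1).ne_zero
    rwa [Polynomial.C_1] at h
  · intro R _ E _ f σ ξ h1 h2 β
    refine hmain R E f σ ξ h1 h2 _ ?_
    intro L _ _ χ hχ
    have hdvd : ∀ F : Polynomial ℤ, F ∣ Δ₁ * Δ₂ → (∀ γ, χ (sact F σ γ) = 1) →
        χ (sact (Δ₁ * Δ₂) σ β) = 1 := by
      rintro F ⟨Q, hQ⟩ hF
      rw [hQ, sact_mul]
      exact hF _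
    rcases hχ with ⟨a, ha1, ha2, ha⟩ | hχ
    · refine hdvd (Polynomial.X ^ a - 1) (dvd_mul_of_dvd_left (Finset.dvd_prod_of_mem
        (fun a => (Polynomial.X ^ a - 1 : Polynomial ℤ)) (Finset.mem_Icc.2 ⟨ha1, ha2⟩)) _) ?_
      intro γ
      rw [char_sact σ γ a, map_mul, ha, ← map_mul, mul_inv_cancel, map_one]
    · -- two of the characters agree
      have hex : ∃ m ∈ (charC T).support, ∃ m' ∈ (charC T).support, m ≠ m' ∧
          ∀ γ, χ (zact m σ γ) = χ (zact m' σ γ) := by
        by_contra hno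
        push Not at hno
        have hinj : Function.Injective
            (fun m : (charC T).support => χ.comp (charHom σ (m : ℤ →₀ ℤ))) := by
          intro m m' hmm
          by_contra hne
          obtain ⟨γ, hγ⟩ := hno m m.2 m' m'.2 fun h => hne (Subtype.ext h)
          exact hγ (DFunLike.congr_fun hmm γ)
        have hli := (linearIndependent_monoidHom E L).comp _ hinj
        have h3 := Fintype.linearIndependent_iff.1 hli
          (fun m : (charC T).support => ((charC T m : ℤ) : L)) (by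
            funext γ
            have h4 := charC_zero T σ χ γ (hχ γ)
            rw [Finsupp.linearCombination_apply, Finsupp.sum] at h4
            rw [Finset.sum_apply, Pi.zero_apply, ← h4]
            rw [← Finset.sum_coe_sort (charC T).support
              (fun m => (charC T) m • χ (zact m σ γ))]
            refine Finset.sum_congr rfl fun m _ => ?_
            rw [Pi.smul_apply, zsmul_eq_mul, smul_eq_mul]
            rfl)
        have h4 := charC_count T hT
        rw [Finsupp.linearCombination_apply, Finsupp.sum] at h4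
        have h5 := congrArg (fun n : ℤ => (n : L)) h4
        simp only [Int.cast_sum, Int.cast_one] at h5
        have h6 : (0 : L) = 1 := by
          rw [← h5]
          symm
          apply Finset.sum_eq_zero
          intro m hm
          have h7 : (((charC T) m : ℤ) : L) = 0 := h3 ⟨m, hm⟩
          rw [smul_eq_mul, Int.cast_mul, h7, zero_mul]
        exact zero_ne_one h6
      obtain ⟨m, hm, m', hm', hne, heq⟩ := hex
      have hδ : m - m' ≠ 0 := sub_ne_zero.2 hne
      refine hdvd (p (m - m')) (dvd_mul_of_dvd_right (Finset.dvd_prod_of_mem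
        (fun q : (ℤ →₀ ℤ) × (ℤ →₀ ℤ) => p (q.1 - q.2))
        (a := (m, m')) (Finset.mem_offDiag.2 ⟨hm, hm', hne⟩)) _) ?_
      intro γ
      rw [hp1 _ hδ E σ γ]
      set γ' := (σ ^ N (m - m')) γ
      have h3 : zact m σ γ' = zact m' σ γ' * zact (m - m') σ γ' := by
        rw [← zact_add, add_sub_cancel]
      have h4 := heq γ'
      rw [h3, map_mul] at h4
      have h5 : χ (zact m' σ γ')⁻¹ * (χ (zact m' σ γ') * χ (zact (m - m') σ γ')) =
          χ (zact m' σ γ')⁻¹ * χ (zact m' σ γ') := by rw [h4]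
      rw [← mul_assoc, ← map_mul, inv_mul_cancel, map_one, one_mul] at h5
      exact h5

end Pool.Agent.Helper83.SV
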