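import Pool.Agent.Helper83.SV.Defs

/-!
# SV-13: operators on groups of finite exponent

Let `D = γ.natDegree * k` and `g = γ ^ k`, so `g.coeff 0 = 1`, `aeval σ g = 0`. If `τ = σ⁻¹` then
`τ` satisfies the monic polynomial `g.reverse`-like `X ^ D g (1 / X)` of degree `D` (leading
coefficient `g.coeff 0 = 1`). So each power `τ ^ i`, `i ≥ 0`, is an integer combination of
`1, τ, …, τ ^ (D - 1)`, and modulo `r` there are at most `r ^ D` different operators among the
powers of `τ`, so `τ ^ i = τ ^ j` for some `0 ≤ i < j ≤ r ^ D`, `τ ^ (j - i) = 1`. Take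
`n = (r ^ D)!`. (Alternatively: `τ` generates a quotient of the finite ring
`(ZMod r)[X] ⧸ (monic polynomial)`; `σ` and `τ` commute.)
-/

namespace Pool.Agent.Helper83.SV

open Polynomial

private theorem FT_reverse {R : Type} [Ring R] (g : Polynomial ℤ) {σ τ : R} (h1 : σ * τ = 1)
    (h2 : τ * σ = 1) (h : aeval σ g = 0) : aeval τ g.reverse = 0 := by
  have hN : g.reverse.natDegree < g.natDegree + 1 :=
    Nat.lt_succ_of_le (reverse_natDegree_le g)
  have h3 : aeval τ g.reverse * σ ^ g.natDegree = 0 := by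
    rw [aeval_eq_sum_range' hN, Finset.sum_mul]
    have h4 : ∀ i ∈ Finset.range (g.natDegree + 1),
        g.reverse.coeff i • τ ^ i * σ ^ g.natDegree =
          (fun j => g.coeff j • σ ^ j) (g.natDegree - i) := by
      intro i hi
      have hi' : i ≤ g.natDegree := Nat.lt_succ_iff.1 (Finset.mem_range.1 hi)
      have h5 : τ ^ i * σ ^ g.natDegree = σ ^ (g.natDegree - i) := by
        have h6 : ∀ i : ℕ, τ ^ i * σ ^ i = 1 := by
          intro i
          induction i with
          | zero => rw [pow_zero, pow_zero, mul_one]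
          | succ i ih => rw [pow_succ, pow_succ', mul_assoc, ← mul_assoc τ σ, h2, one_mul, ih]
        obtain ⟨m, hm⟩ := Nat.exists_eq_add_of_le hi'
        rw [hm, pow_add, ← mul_assoc, h6, one_mul, Nat.add_sub_cancel_left]
      rw [smul_mul_assoc, h5, coeff_reverse, revAt_le hi']
    rw [Finset.sum_congr rfl h4]
    have h7 := Finset.sum_flip (n := g.natDegree) (fun j => g.coeff j • σ ^ j)
    rw [← aeval_eq_sum_range, h] at h7
    exact h7
  have h6 : ∀ i : ℕ, σ ^ i * τ ^ i = 1 := by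
    intro i
    induction i with
    | zero => rw [pow_zero, pow_zero, mul_one]
    | succ i ih => rw [pow_succ, pow_succ', mul_assoc, ← mul_assoc σ τ, h1, one_mul, ih]
  calc aeval τ g.reverse = aeval τ g.reverse * (σ ^ g.natDegree * τ ^ g.natDegree) := by
        rw [h6, mul_one]
    _ = 0 := by rw [← mul_assoc, h3, zero_mul]

theorem ft_lemma (γ : Polynomial ℤ) (hγ : γ.coeff 0 = 1) (k r : ℕ) (hr : 1 ≤ r) :
    ∃ n : ℕ, 1 ≤ n ∧ ∀ (T : Type) [AddCommGroup T] (σ : AddMonoid.End T),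
      (∀ t : T, (r : ℤ) • t = 0) → IsUnit σ → (aeval σ γ) ^ k = 0 → σ ^ n = 1 := by
  classical
  haveI : NeZero r := ⟨by omega⟩
  have hg0 : (γ ^ k).coeff 0 = 1 := by
    rw [coeff_zero_eq_eval_zero, eval_pow, ← coeff_zero_eq_eval_zero, hγ, one_pow]
  set G : Polynomial ℤ := (γ ^ k).reverse with hG
  have hGm : G.Monic := by
    rw [Monic, hG, reverse_leadingCoeff, trailingCoeff]
    have h1 : (γ ^ k).natTrailingDegree = 0 := by
      apply Nat.eq_zero_of_le_zero
      apply natTrailingDegree_le_of_ne_zero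
      rw [hg0]
      exact one_ne_zero
    rw [h1, hg0]
  obtain ⟨i, j, hij, hf⟩ := Finite.exists_ne_map_eq_of_infinite
    (fun (i : ℕ) (l : Fin (G.natDegree + 1)) => (((X ^ i : Polynomial ℤ) %ₘ G).coeff l : ZMod r))
  wlog hlt : i < j generalizing i j
  · exact this j i (Ne.symm hij) hf.symm (lt_of_le_of_ne (not_lt.1 hlt) (Ne.symm hij))
  refine ⟨j - i, by omega, ?_⟩
  intro T _ σ hT hσ hk
  obtain ⟨u, rfl⟩ := hσ
  have h1 : (u : AddMonoid.End T) * ((u⁻¹ : (AddMonoid.End T)ˣ) : AddMonoid.End T) = 1 :=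
    u.mul_inv
  have h2 : ((u⁻¹ : (AddMonoid.End T)ˣ) : AddMonoid.End T) * (u : AddMonoid.End T) = 1 :=
    u.inv_mul
  set τ : AddMonoid.End T := ((u⁻¹ : (AddMonoid.End T)ˣ) : AddMonoid.End T) with hτ
  have h3 : aeval (u : AddMonoid.End T) (γ ^ k) = 0 := by rw [map_pow, hk]
  have h4 : aeval τ G = 0 := FT_reverse (γ ^ k) h1 h2 h3
  have hz : ∀ x : AddMonoid.End T, (r : ℤ) • x = 0 := by
    intro x
    ext t
    exact hT (x t)
  have h5 : ∀ m : ℕ, τ ^ m = ∑ l ∈ Finset.range (G.natDegree + 1),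
      ((X ^ m : Polynomial ℤ) %ₘ G).coeff l • τ ^ l := by
    intro m
    rw [← aeval_eq_sum_range' (Nat.lt_succ_of_le (natDegree_modByMonic_le _ hGm)),
      aeval_modByMonic_eq_self_of_root h4, map_pow, aeval_X]
  have h6 : τ ^ i = τ ^ j := by
    rw [h5 i, h5 j]
    refine Finset.sum_congr rfl fun l hl => ?_
    have h7 := congrFun hf ⟨l, Finset.mem_range.1 hl⟩
    have h8 : ((((X ^ i : Polynomial ℤ) %ₘ G).coeff l : ℤ) : ZMod r) =
        ((((X ^ j : Polynomial ℤ) %ₘ G).coeff l : ℤ) : ZMod r) := h7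
    rw [ZMod.intCast_eq_intCast_iff_dvd_sub] at h8
    obtain ⟨c, hc⟩ := h8
    have h9 : ((X ^ j : Polynomial ℤ) %ₘ G).coeff l =
        ((X ^ i : Polynomial ℤ) %ₘ G).coeff l + c * r := by linarith
    have h10 : (((X ^ i : Polynomial ℤ) %ₘ G).coeff l + c * r) • τ ^ l =
        ((X ^ i : Polynomial ℤ) %ₘ G).coeff l • τ ^ l + c • ((r : ℤ) • τ ^ l) := by
      rw [add_smul, mul_smul]
    rw [h9, h10, hz]
    simp
  have h7 : u⁻¹ ^ i = u⁻¹ ^ j := by
    apply Units.ext
    rw [Units.val_pow_eq_pow_val, Units.val_pow_eq_pow_val]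
    exact h6
  have h8 : u ^ (j - i) = 1 := by
    have h9 : u ^ i = u ^ j := by
      rw [inv_pow, inv_pow, inv_inj] at h7
      exact h7
    obtain ⟨m, hm⟩ := Nat.exists_eq_add_of_lt hlt
    have h10 : j - i = m + 1 := by omega
    have h11 : u ^ i * u ^ (m + 1) = u ^ i * 1 := by
      rw [← pow_add, mul_one, h9]
      congr 1
      omega
    rw [h10]
    exact mul_left_cancel h11
  rw [← Units.val_pow_eq_pow_val, h8, Units.val_one]

end Pool.Agent.Helper83.SV
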