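import Pool.Agent.Helper83.SV.Defs

/-!
# SV-12: operators with `Δ (σ ^ j) = 0` for all `j`

Let `d = Δ.natDegree`, `n = d !` (or the product of `1, …, d + 1`), `k = d`.
Let `J` be the ideal of the `g ∈ ℚ[X]` such that some nonzero integer multiple `N g` has integer
coefficients and kills `T` (`aeval σ (N g) = 0`). It contains `Δ (X ^ j)` for `j ≥ 1`, in particular
`Δ`. Let `μ` be a generator of `J`; `μ ≠ 0`, `natDegree μ ≤ d`. Let `π` be an irreducible factor of
`μ`. In the field `ℚ[X] ⧸ (π)` the class `α` of `X` has `Δ (α ^ j) = 0` for all `j ≥ 1`, so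
`α ^ i = α ^ j` for some `1 ≤ i < j ≤ d + 1`; `α ≠ 0`, because `X ∣ μ`, `μ = X ν` would imply
`ν ∈ J` as `σ` is invertible and `T` torsion-free. So `α ^ n = 1`, `π ∣ X ^ n - 1`. All irreducible
factors of `μ` divide `X ^ n - 1` and `μ` has at most `d` of them (with multiplicity), so
`μ ∣ (X ^ n - 1) ^ d` (induction on the degree). Hence `(X ^ n - 1) ^ d ∈ J` and
`(σ ^ n - 1) ^ d = 0` since `T` is torsion-free. (If `d = 0`, then `T = 0`.)
-/

namespace Pool.Agent.Helper83.SV

open Polynomial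

/-- The ideal of the rational polynomials with a nonzero integer multiple that has integer
coefficients and kills `σ`. -/
private noncomputable def QU_J {T : Type} [AddCommGroup T] (σ : AddMonoid.End T) :
    Ideal (Polynomial ℚ) where
  carrier := {g | ∃ (N : ℤ) (G : Polynomial ℤ), N ≠ 0 ∧
    G.map (algebraMap ℤ ℚ) = C (N : ℚ) * g ∧ aeval σ G = 0}
  zero_mem' := ⟨1, 0, one_ne_zero, by simp, by simp⟩
  add_mem' := by
    rintro a b ⟨N, G, hN, hG, h0⟩ ⟨N', G', hN', hG', h0'⟩
    refine ⟨N * N', C N' * G + C N * G', mul_ne_zero hN hN', ?_, ?_⟩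
    · rw [Polynomial.map_add, Polynomial.map_mul, Polynomial.map_mul, hG, hG', map_C, map_C]
      simp only [eq_intCast, Int.cast_mul, map_mul]
      ring
    · rw [map_add, map_mul, map_mul, h0, h0', mul_zero, mul_zero, add_zero]
  smul_mem' := by
    rintro f g ⟨N, G, hN, hG, h0⟩
    obtain ⟨b, hb, hb2⟩ := IsLocalization.integerNormalization_spec (nonZeroDivisors ℤ) f
    refine ⟨b * N, IsLocalization.integerNormalization (nonZeroDivisors ℤ) f * G,
      mul_ne_zero (nonZeroDivisors.ne_zero hb) hN, ?_, ?_⟩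
    · rw [Polynomial.map_mul, hb2, hG]
      rw [smul_eq_mul, ← algebraMap_smul ℚ b f, smul_eq_C_mul]
      simp only [eq_intCast, Int.cast_mul, map_mul]
      ring
    · rw [map_mul, h0, mul_zero]

private theorem QU_mem {T : Type} [AddCommGroup T] (σ : AddMonoid.End T) (g : Polynomial ℚ) :
    g ∈ QU_J σ ↔ ∃ (N : ℤ) (G : Polynomial ℤ), N ≠ 0 ∧
      G.map (algebraMap ℤ ℚ) = C (N : ℚ) * g ∧ aeval σ G = 0 := Iff.rfl

private theorem QU_of_aeval {T : Type} [AddCommGroup T] (σ : AddMonoid.End T)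
    (G : Polynomial ℤ) (h : aeval σ G = 0) : G.map (algebraMap ℤ ℚ) ∈ QU_J σ :=
  ⟨1, G, one_ne_zero, by simp, h⟩

private theorem QU_aeval {T : Type} [AddCommGroup T]
    (hT : ∀ (m : ℤ) (t : T), m ≠ 0 → m • t = 0 → t = 0) (σ : AddMonoid.End T)
    (G : Polynomial ℤ) (h : G.map (algebraMap ℤ ℚ) ∈ QU_J σ) : aeval σ G = 0 := by
  obtain ⟨N, G', hN, hG, h0⟩ := (QU_mem σ _).1 h
  have h1 : G' = C N * G := by
    apply Polynomial.map_injective (algebraMap ℤ ℚ) (RingHom.injective_int _)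
    rw [hG, Polynomial.map_mul, map_C]
    rfl
  rw [h1, map_mul, aeval_C] at h0
  ext t
  apply hT N _ hN
  have h2 := DFunLike.congr_fun h0 t
  rw [← Algebra.smul_def] at h2
  exact h2

/-- `X` does not divide a generator. -/
private theorem QU_X {T : Type} [AddCommGroup T] (σ : AddMonoid.End T) (hσ : IsUnit σ)
    (μ ν : Polynomial ℚ) (hμ : μ ∈ QU_J σ) (h : μ = X * ν) : ν ∈ QU_J σ := by
  obtain ⟨N, G, hN, hG, h0⟩ := (QU_mem σ _).1 hμ
  have h1 : G.coeff 0 = 0 := by
    have h2 := congrArg (fun q => coeff q 0) hG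
    simp only [coeff_map] at h2
    rw [h] at h2
    have h3 : (C (N : ℚ) * (X * ν)).coeff 0 = 0 := by
      rw [coeff_C_mul, mul_coeff_zero, coeff_X_zero, zero_mul, mul_zero]
    rw [h3] at h2
    exact (RingHom.injective_int (algebraMap ℤ ℚ)) (by rw [h2, map_zero])
  obtain ⟨G', rfl⟩ := X_dvd_iff.2 h1
  refine ⟨N, G', hN, ?_, ?_⟩
  · rw [Polynomial.map_mul, map_X, h] at hG
    have h2 : X * G'.map (algebraMap ℤ ℚ) = X * (C (N : ℚ) * ν) := by
      rw [hG]
      ring
    exact mul_left_cancel₀ X_ne_zero h2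
  · rw [map_mul, aeval_X] at h0
    exact (hσ.mul_right_eq_zero).1 h0

theorem qu_lemma (Δ : Polynomial ℤ) (hΔ : Δ ≠ 0) :
    ∃ n : ℕ, 1 ≤ n ∧ ∃ k : ℕ, ∀ (T : Type) [AddCommGroup T] (σ : AddMonoid.End T),
      (∀ (m : ℤ) (t : T), m ≠ 0 → m • t = 0 → t = 0) → IsUnit σ →
      (∀ j : ℕ, 1 ≤ j → aeval (σ ^ j) Δ = 0) → (σ ^ n - 1) ^ k = 0 := by
  refine ⟨(Δ.natDegree + 1).factorial, Nat.factorial_pos _, Δ.natDegree, ?_⟩
  intro T _ σ hT hσ hj
  set n := (Δ.natDegree + 1).factorial with hn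
  have hinj : Function.Injective (algebraMap ℤ ℚ) := RingHom.injective_int _
  have hΔQ : Δ.map (algebraMap ℤ ℚ) ≠ 0 := (Polynomial.map_ne_zero_iff hinj).2 hΔ
  have hexp : ∀ j : ℕ, 1 ≤ j → (expand ℤ j Δ).map (algebraMap ℤ ℚ) ∈ QU_J σ := by
    intro j hj1
    apply QU_of_aeval
    rw [expand_aeval]
    exact hj j hj1
  -- a generator
  obtain ⟨μ, hμ⟩ := (IsPrincipalIdealRing.principal (QU_J σ)).principal
  have hmem : ∀ g, g ∈ QU_J σ ↔ μ ∣ g := by
    intro g
    rw [hμ]
    exact Ideal.mem_span_singleton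
  have hμΔ : μ ∣ Δ.map (algebraMap ℤ ℚ) := by
    have h1 := (hmem _).1 (hexp 1 le_rfl)
    rwa [expand_one] at h1
  have hμ0 : μ ≠ 0 := fun h => hΔQ (zero_dvd_iff.1 (h ▸ hμΔ))
  have hdeg : μ.natDegree ≤ Δ.natDegree :=
    (natDegree_le_of_dvd hμΔ hΔQ).trans natDegree_map_le
  -- the roots
  have hroot : ∀ α : ℂ, (μ.map (algebraMap ℚ ℂ)).IsRoot α → α ^ n = 1 := by
    intro α hα
    have hα0 : α ≠ 0 := by
      rintro rfl
      have h1 : μ.coeff 0 = 0 := by
        have h2 : (μ.map (algebraMap ℚ ℂ)).coeff 0 = 0 := by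
          rw [coeff_zero_eq_eval_zero]
          exact hα
        rw [coeff_map] at h2
        exact (RingHom.injective (algebraMap ℚ ℂ)) (by rw [h2, map_zero])
      obtain ⟨ν, hν⟩ := X_dvd_iff.2 h1
      have h3 : μ ∣ ν := (hmem ν).1 (QU_X σ hσ μ ν ((hmem μ).2 dvd_rfl) hν)
      have hν0 : ν ≠ 0 := by
        rintro rfl
        rw [mul_zero] at hν
        exact hμ0 hν
      have h4 := natDegree_le_of_dvd h3 hν0
      rw [hν, natDegree_X_mul hν0] at h4
      omega
    have h5 : ∀ j : ℕ, 1 ≤ j → ((Δ.map (algebraMap ℤ ℂ))).IsRoot (α ^ j) := by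
      intro j hj1
      obtain ⟨q, hq⟩ := (hmem _).1 (hexp j hj1)
      have h6 : (expand ℤ j Δ).map (algebraMap ℤ ℂ) =
          μ.map (algebraMap ℚ ℂ) * q.map (algebraMap ℚ ℂ) := by
        rw [← Polynomial.map_mul, ← hq, Polynomial.map_map]
        congr 1
      have h7 : eval α ((expand ℤ j Δ).map (algebraMap ℤ ℂ)) = 0 := by
        rw [h6, eval_mul, hα.eq_zero, zero_mul]
      rw [IsRoot.def, eval_map]
      rw [eval_map, ← coe_eval₂RingHom, coe_eval₂RingHom] at h7
      rw [← aeval_def, expand_aeval] at h7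
      rw [← aeval_def]
      exact h7
    have hΔC : Δ.map (algebraMap ℤ ℂ) ≠ 0 :=
      (Polynomial.map_ne_zero_iff (RingHom.injective_int _)).2 hΔ
    -- two powers are equal
    have h8 : ¬ Function.Injective (fun i : Fin (Δ.natDegree + 1) => α ^ (i.1 + 1)) := by
      intro hi
      have h9 : (Finset.univ.image fun i : Fin (Δ.natDegree + 1) => α ^ (i.1 + 1)) ⊆
          (Δ.map (algebraMap ℤ ℂ)).roots.toFinset := by
        intro x hx
        obtain ⟨i, -, rfl⟩ := Finset.mem_image.1 hx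
        rw [Multiset.mem_toFinset, mem_roots hΔC]
        exact h5 _ (Nat.le_add_left 1 _)
      have h10 := Finset.card_le_card h9
      rw [Finset.card_image_of_injective _ hi, Finset.card_univ, Fintype.card_fin] at h10
      have h11 := (Multiset.toFinset_card_le (Δ.map (algebraMap ℤ ℂ)).roots).trans
        ((card_roots' _).trans (natDegree_map_le (f := algebraMap ℤ ℂ) (p := Δ)))
      omega
    rw [Function.Injective] at h8
    push Not at h8
    obtain ⟨i, j, hij, hne⟩ := h8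
    have key : ∀ a b : ℕ, a < b → b ≤ Δ.natDegree → α ^ (a + 1) = α ^ (b + 1) → α ^ n = 1 := by
      intro a b hab hb h
      have h12 : α ^ (b - a) = 1 := by
        have h13 : α ^ (b + 1) = α ^ (a + 1) * α ^ (b - a) := by
          rw [← pow_add]
          congr 1
          omega
        rw [h13] at h
        exact (mul_eq_left₀ (pow_ne_zero _ hα0)).1 h.symm
      obtain ⟨c, hc⟩ : (b - a) ∣ n := Nat.dvd_factorial (by omega) (by omega)
      rw [hc, pow_mul, h12, one_pow]
    rcases lt_trichotomy i.1 j.1 with hlt | heq | hlt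
    · exact key i.1 j.1 hlt (Nat.lt_succ_iff.1 j.2) hij
    · exact absurd (Fin.ext heq) hne
    · exact key j.1 i.1 hlt (Nat.lt_succ_iff.1 i.2) hij.symm
  -- so `μ` divides a power
  have hdvd : μ ∣ (X ^ n - 1) ^ μ.natDegree := by
    have h1 : μ.map (algebraMap ℚ ℂ) ∣
        ((X ^ n - 1 : Polynomial ℚ) ^ μ.natDegree).map (algebraMap ℚ ℂ) := by
      have h2 : (μ.map (algebraMap ℚ ℂ)).Splits := IsAlgClosed.splits _
      have h3 := h2.eq_prod_roots
      have h4 : Multiset.card (μ.map (algebraMap ℚ ℂ)).roots ≤ μ.natDegree :=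
        (card_roots' _).trans natDegree_map_le
      rw [h3]
      have hc : (μ.map (algebraMap ℚ ℂ)).leadingCoeff ≠ 0 := by
        rw [leadingCoeff_ne_zero]
        exact (Polynomial.map_ne_zero_iff (RingHom.injective _)).2 hμ0
      have h5 : IsUnit (C (μ.map (algebraMap ℚ ℂ)).leadingCoeff) :=
        isUnit_C.2 (isUnit_iff_ne_zero.2 hc)
      rw [h5.mul_left_dvd]
      have h6 : ((X ^ n - 1 : Polynomial ℚ) ^ μ.natDegree).map (algebraMap ℚ ℂ) =
          (X ^ n - 1) ^ μ.natDegree := by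
        simp
      rw [h6]
      refine Dvd.dvd.trans ?_ (pow_dvd_pow _ h4)
      have h7 : ∀ s : Multiset ℂ, (∀ a ∈ s, a ^ n = 1) →
          (s.map fun a => X - C a).prod ∣ (X ^ n - 1 : Polynomial ℂ) ^ Multiset.card s := by
        intro s
        induction s using Multiset.induction_on with
        | empty => intro _; simp
        | cons a s ih =>
          intro hs
          rw [Multiset.map_cons, Multiset.prod_cons, Multiset.card_cons, pow_succ']
          refine mul_dvd_mul ?_ (ih fun b hb => hs b (Multiset.mem_cons_of_mem hb))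
          rw [dvd_iff_isRoot, IsRoot.def, eval_sub, eval_pow, eval_X, eval_one,
            hs a (Multiset.mem_cons_self a s), sub_self]
      exact h7 _ fun a ha => hroot a (isRoot_of_mem_roots ha)
    exact (map_dvd_map' _).1 h1
  have hfin : ((X ^ n - 1 : Polynomial ℤ) ^ Δ.natDegree).map (algebraMap ℤ ℚ) ∈ QU_J σ := by
    rw [hmem]
    have h6 : ((X ^ n - 1 : Polynomial ℤ) ^ Δ.natDegree).map (algebraMap ℤ ℚ) =
        (X ^ n - 1) ^ Δ.natDegree := by
      simp
    rw [h6]
    exact hdvd.trans (pow_dvd_pow _ hdeg)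
  have hres := QU_aeval hT σ _ hfin
  rw [map_pow, map_sub, map_pow, aeval_X, map_one] at hres
  exact hres

end Pool.Agent.Helper83.SV
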