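import Pool.Agent.Helper83.SV.WinB
import Pool.Agent.Helper83.SV.Bridge
import Pool.Agent.Helper83.SV.QU
import Pool.Agent.Helper83.SV.FT

/-!
# SV-18: the action on a normal subgroup of class two

Let `Z = F ⊓ centralizer F`, an abelian normal subgroup of `Q`; `QUab` gives `n₀, k₀` with
`ec (x ^ n₀) k₀ b = 1` for `b ∈ Z`, all `x`. Let
`γ = 1 - ∑_(t ∈ D) ε_t X ^ (j_t) ∈ ℤ[X]`, so `γ.coeff 0 = 1` as `j_t ≥ 1`.

Pairing. For `b, u ∈ F` and `y = x ^ n₀` the identity `HasId D Q` for `b, y, u` gives in `Z`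
(`⁅b', u⁆ ∈ Z` for `b' ∈ F`; `g_t` acts on `Z` by conjugation as `y ^ (a_t)`, where `a_t` is the
exponent sum of the letter `x` in `g_t`, because `b` and `u` centralise `Z`)
`⁅b, u⁆ = ∑ ε_t ρ ^ (a_t + j_t) ⁅b, y ^ (-j_t) u y ^ (j_t)⁆`, where `ρ` is the conjugation by
`y` on `Z`, `(ρ - 1) ^ k₀ = 0`. Let `T = F / Z` (`SecData F Z`, `⁅F, F⁆ ≤ Z`), `Y` the action of
`y⁻¹` on `T` and `β_b : T → Z` (`Z` written additively, e.g. `SecData Z ⊥`) the homomorphism
`u ↦ ⁅b, u⁆`. In the additive group of homomorphisms `T → Z` with the commuting operators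
`P : φ ↦ ρ ∘ φ` and `R : φ ↦ φ ∘ Y`:
`β_b = ∑ ε_t P ^ (a_t + j_t) R ^ (j_t) β_b`, so `γ(R) β_b = (P - 1) Θ β_b` for an operator `Θ` in
`ℤ[P, P⁻¹, R]`, so `γ(R) ^ k₀ β_b = (P - 1) ^ k₀ Θ ^ k₀ β_b = 0`. That is
`⁅b, γ(Y) ^ k₀ u⁆ = 0` for all `b ∈ F`, so `γ(Y) ^ k₀ u ∈ Z`: `γ(Y) ^ k₀ = 0` on `T`. This
is `climb_gamma`: `(aeval (s.ρ (x ^ n₀)) γ) ^ k₀ = 0` on `s.T` for `s : SecData F Z` and all
`x ∈ Q` (replace `x` by `x⁻¹`).

`climb`: let `F_t ≤ F` be the normal subgroup of the elements with a power in `Z`; by `MaxN`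
`F_t / Z` has finite exponent `r`. `ft_lemma` for `SecData F_t Z` gives `n₁` with
`(x ^ n₀) ^ n₁` centralising `F_t / Z` for all `x`. `qu_lemma` for `Δ = γ ^ k₀`,
`σ` = the action of `x ^ n₀` on `SecData F F_t` (torsion-free; `x ^ (n₀ j) = (x ^ j) ^ n₀` so
`aeval (σ ^ j) Δ = 0`) gives `n₂, k₂` with `(σ ^ n₂ - 1) ^ k₂ = 0`. So
`ec (x ^ (n₀ n₁ n₂)) (k₂ + 1 + k₀) b = 1` for all `b ∈ F`, `x ∈ Q`.
-/

namespace Pool.Agent.Helper83.SV

open scoped commutatorElement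
open Polynomial

/-- The polynomial `1 - ∑ ε_t X ^ (j_t)`. -/
noncomputable def gam (D : List Tm) : Polynomial ℤ :=
  1 - (D.map fun t : Tm => (if t.1 then (1 : Polynomial ℤ) else -1) * X ^ t.2.1).sum

theorem gam_coeff {D : List Tm} (hD : PosId D) : (gam D).coeff 0 = 1 := by
  have h : ((D.map fun t : Tm =>
      (if t.1 then (1 : Polynomial ℤ) else -1) * X ^ t.2.1).sum).coeff 0 = 0 := by
    induction D with
    | nil => simp
    | cons t D ih =>
      have ht : 1 ≤ t.2.1 := hD t (List.mem_cons_self)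
      rw [List.map_cons, List.sum_cons, coeff_add,
        ih (fun s hs => hD s (List.mem_cons_of_mem _ hs)), coeff_mul_X_pow', if_neg (by omega),
        add_zero]
  rw [gam, coeff_sub, coeff_one_zero, h, sub_zero]

/-! ### Operators -/

private theorem core3_geom {R : Type} [Ring R] (P : Rˣ) (n : ℤ) :
    ∃ q : R, ((P ^ n : Rˣ) : R) - 1 = ((P : R) - 1) * q ∧
      ∀ x : R, Commute x (P : R) → Commute x q := by
  have hPP : ∀ m : ℤ, Commute ((P : R) - 1) ((P ^ m : Rˣ) : R) := by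
    intro m
    have h1 : Commute (P : R) ((P ^ m : Rˣ) : R) := Commute.units_zpow_right (Commute.refl _) m
    exact h1.sub_left (Commute.one_left _)
  induction n using Int.induction_on with
  | zero => exact ⟨0, by simp, fun x _ => Commute.zero_right x⟩
  | succ n ih =>
    obtain ⟨q, hq, hc⟩ := ih
    refine ⟨((P ^ (n : ℤ) : Rˣ) : R) + q, ?_, fun x hx =>
      (Commute.units_zpow_right hx _).add_right (hc x hx)⟩
    rw [mul_add, ← hq, (hPP n).eq, zpow_add_one, Units.val_mul, mul_sub, mul_one]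
    abel
  | pred n ih =>
    obtain ⟨q, hq, hc⟩ := ih
    refine ⟨q - ((P ^ (-(n : ℤ) - 1) : Rˣ) : R), ?_, fun x hx =>
      (hc x hx).sub_right (Commute.units_zpow_right hx _)⟩
    have h1 : ((P ^ (-(n : ℤ) - 1) : Rˣ) : R) * (P : R) = ((P ^ (-(n : ℤ)) : Rˣ) : R) := by
      rw [← Units.val_mul, ← zpow_add_one, sub_add_cancel]
    rw [mul_sub, ← hq, (hPP _).eq, mul_sub, mul_one, h1]
    abel

private def core3_eps {R : Type} [Ring R] (t : Tm) : R := if t.1 then 1 else -1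

private theorem core3_eps_comm {R : Type} [Ring R] (t : Tm) (x : R) :
    Commute x (core3_eps t : R) := by
  unfold core3_eps
  split_ifs
  · exact Commute.one_right x
  · exact (Commute.one_right x).neg_right

private theorem core3_theta {R : Type} [Ring R] (P : Rˣ) (r : R) (hr : Commute r (P : R))
    (D : List Tm) (a : Tm → ℤ) :
    ∃ θ : R, (D.map fun t : Tm => core3_eps t * ((P ^ a t : Rˣ) : R) * r ^ t.2.1).sum
        - (D.map fun t : Tm => core3_eps t * r ^ t.2.1).sum = ((P : R) - 1) * θ ∧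
      Commute θ (P : R) ∧ Commute θ r := by
  induction D with
  | nil => exact ⟨0, by simp, Commute.zero_left _, Commute.zero_left _⟩
  | cons t D ih =>
    obtain ⟨θ, h1, h2, h3⟩ := ih
    obtain ⟨q, hq, hc⟩ := core3_geom P (a t)
    have hrr : Commute r (r ^ t.2.1) := Commute.pow_right (Commute.refl r) _
    have hPr : Commute (P : R) (r ^ t.2.1) := Commute.pow_right hr.symm _
    refine ⟨core3_eps t * q * r ^ t.2.1 + θ, ?_, ?_, ?_⟩
    · rw [List.map_cons, List.sum_cons, List.map_cons, List.sum_cons, mul_add, ← h1]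
      have h4 : ((P : R) - 1) * (core3_eps t * q * r ^ t.2.1)
          = core3_eps t * ((P ^ a t : Rˣ) : R) * r ^ t.2.1 - core3_eps t * r ^ t.2.1 := by
        rw [← mul_assoc, ← mul_assoc, (core3_eps_comm t ((P : R) - 1)).eq, mul_assoc (core3_eps t),
          ← hq, mul_sub, mul_one, sub_mul]
      rw [h4]
      abel
    · have h5 : Commute (P : R) (core3_eps t * q * r ^ t.2.1) :=
        ((core3_eps_comm t _).mul_right (hc _ (Commute.refl _))).mul_right hPr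
      exact h5.symm.add_left h2
    · have h5 : Commute r (core3_eps t * q * r ^ t.2.1) :=
        ((core3_eps_comm t _).mul_right (hc _ hr)).mul_right hrr
      exact h5.symm.add_left h3

private theorem core3_aeval {R : Type} [Ring R] (r : R) (D : List Tm) :
    aeval r (gam D) = 1 - (D.map fun t : Tm => core3_eps t * r ^ t.2.1).sum := by
  rw [gam, map_sub, map_one, map_list_sum, List.map_map]
  congr 2
  refine List.map_congr_left fun t _ => ?_
  rw [Function.comp_apply, map_mul, map_pow, aeval_X]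
  unfold core3_eps
  split_ifs
  · rw [map_one]
  · rw [map_neg, map_one]

private theorem core3_list_comm {R : Type} [Ring R] (x : R) (L : List R)
    (h : ∀ y ∈ L, Commute x y) : Commute x L.sum := by
  induction L with
  | nil => simp
  | cons y L ih =>
    rw [List.sum_cons]
    exact (h y List.mem_cons_self).add_right (ih fun z hz => h z (List.mem_cons_of_mem _ hz))

private theorem core3_op {M : Type} [AddCommGroup M] (P : (AddMonoid.End M)ˣ)
    (r : AddMonoid.End M) (hr : Commute r (P : AddMonoid.End M)) (D : List Tm) (a : Tm → ℤ)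
    (β : M)
    (h : β = (D.map fun t : Tm => core3_eps t * ((P ^ a t : (AddMonoid.End M)ˣ) :
      AddMonoid.End M) * r ^ t.2.1).sum β) (k : ℕ)
    (hk : ((P : AddMonoid.End M) - 1) ^ k = 0) : ((aeval r (gam D)) ^ k) β = 0 := by
  obtain ⟨θ, h1, h2, h3⟩ := core3_theta P r hr D a
  set S1 := (D.map fun t : Tm => core3_eps t * ((P ^ a t : (AddMonoid.End M)ˣ) :
      AddMonoid.End M) * r ^ t.2.1).sum with hS1
  set S0 := (D.map fun t : Tm => (core3_eps t : AddMonoid.End M) * r ^ t.2.1).sum with hS0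
  set G := aeval r (gam D) with hG
  have hG1 : G = 1 - S0 := core3_aeval r D
  have hGβ : G β = (((P : AddMonoid.End M) - 1) * θ) β := by
    rw [hG1, ← h1]
    show β - S0 β = S1 β - S0 β
    rw [← h]
  set W := ((P : AddMonoid.End M) - 1) * θ with hW
  have hWr : Commute W r := by
    have h4 : Commute ((P : AddMonoid.End M) - 1) r := hr.symm.sub_left (Commute.one_left _)
    exact h4.mul_left h3
  have hWG : Commute W G := by
    rw [hG1]
    refine (Commute.one_right W).sub_right (core3_list_comm W _ ?_)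
    intro y hy
    obtain ⟨t, _, rfl⟩ := List.mem_map.1 hy
    exact (core3_eps_comm t W).mul_right (hWr.pow_right _)
  have hpow : ∀ n : ℕ, (G ^ n) β = (W ^ n) β := by
    intro n
    induction n with
    | zero => rfl
    | succ n ih =>
      have e1 : (G ^ (n + 1)) β = G ((G ^ n) β) := by
        rw [pow_succ']
        rfl
      have e2 : G ((W ^ n) β) = (W ^ n) (G β) := by
        have := (hWG.pow_left n).eq
        exact (DFunLike.congr_fun this β).symm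
      rw [e1, ih, e2, hGβ, pow_succ]
      rfl
  have hWk : W ^ k = 0 := by
    have h4 : Commute ((P : AddMonoid.End M) - 1) θ := h2.symm.sub_left (Commute.one_left _)
    rw [hW, h4.mul_pow, hk, zero_mul]
  rw [hpow, hWk]
  rfl

/-- Composition on the left. -/
private def core3_L (A B : Type) [AddCommGroup A] [AddCommGroup B] :
    AddMonoid.End B →+* AddMonoid.End (A →+ B) where
  toFun a := AddMonoidHom.mk' (fun φ => AddMonoidHom.comp a φ) fun φ ψ => by
    ext x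
    exact map_add a (φ x) (ψ x)
  map_one' := rfl
  map_mul' _ _ := rfl
  map_zero' := rfl
  map_add' _ _ := rfl

/-- Composition on the right. -/
private def core3_R {A B : Type} [AddCommGroup A] [AddCommGroup B] (σ : AddMonoid.End A) :
    AddMonoid.End (A →+ B) :=
  AddMonoidHom.mk' (fun φ => AddMonoidHom.comp φ σ) fun _ _ => rfl

private theorem core3_R_pow {A B : Type} [AddCommGroup A] [AddCommGroup B] (σ : AddMonoid.End A)
    (n : ℕ) (φ : A →+ B) : ((core3_R (B := B) σ) ^ n) φ = AddMonoidHom.comp φ (σ ^ n) := by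
  induction n generalizing φ with
  | zero => rfl
  | succ n ih =>
    have e1 : ((core3_R (B := B) σ) ^ (n + 1)) φ
        = ((core3_R (B := B) σ) ^ n) (core3_R σ φ) := by
      rw [pow_succ]
      rfl
    rw [e1, ih, pow_succ']
    rfl

private theorem core3_R_aeval {A B : Type} [AddCommGroup A] [AddCommGroup B]
    (σ : AddMonoid.End A) (D : List Tm) (φ : A →+ B) :
    (aeval (core3_R (B := B) σ) (gam D)) φ = AddMonoidHom.comp φ (aeval σ (gam D)) := by
  rw [core3_aeval, core3_aeval]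
  have h : ∀ D : List Tm,
      ((D.map fun t : Tm => (core3_eps t : AddMonoid.End (A →+ B)) *
        (core3_R (B := B) σ) ^ t.2.1).sum) φ
      = AddMonoidHom.comp φ ((D.map fun t : Tm => (core3_eps t : AddMonoid.End A) *
        σ ^ t.2.1).sum) := by
    intro D
    induction D with
    | nil =>
      ext x
      exact (map_zero φ).symm
    | cons t D ih =>
      rw [List.map_cons, List.sum_cons, List.map_cons, List.sum_cons]
      have e1 : ∀ (f g : AddMonoid.End (A →+ B)), (f + g) φ = f φ + g φ := fun _ _ => rfl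
      have e2 : ∀ (f g : AddMonoid.End A), AddMonoidHom.comp φ (f + g)
          = AddMonoidHom.comp φ f + AddMonoidHom.comp φ g := by
        intro f g
        ext x
        exact map_add φ (f x) (g x)
      rw [e1, e2, ih]
      congr 1
      have e3 : ((core3_eps t : AddMonoid.End (A →+ B)) * (core3_R (B := B) σ) ^ t.2.1) φ
          = (core3_eps t : AddMonoid.End (A →+ B)) (((core3_R (B := B) σ) ^ t.2.1) φ) := rfl
      rw [e3, core3_R_pow]
      unfold core3_eps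
      split_ifs
      · rfl
      · ext x
        exact (map_neg φ ((σ ^ t.2.1) x)).symm
  have e4 : ∀ (f g : AddMonoid.End A), AddMonoidHom.comp φ (f - g)
      = AddMonoidHom.comp φ f - AddMonoidHom.comp φ g := by
    intro f g
    ext x
    exact map_sub φ (f x) (g x)
  rw [e4, ← h]
  rfl

private theorem core3_R_aeval_pow {A B : Type} [AddCommGroup A] [AddCommGroup B]
    (σ : AddMonoid.End A) (D : List Tm) (k : ℕ) (φ : A →+ B) :
    ((aeval (core3_R (B := B) σ) (gam D)) ^ k) φ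
      = AddMonoidHom.comp φ ((aeval σ (gam D)) ^ k) := by
  induction k generalizing φ with
  | zero => rfl
  | succ k ih =>
    have e1 : ((aeval (core3_R (B := B) σ) (gam D)) ^ (k + 1)) φ
        = ((aeval (core3_R (B := B) σ) (gam D)) ^ k)
          ((aeval (core3_R (B := B) σ) (gam D)) φ) := by
      rw [pow_succ]
      rfl
    rw [e1, ih, core3_R_aeval, pow_succ']
    rfl

/-! ### Groups -/

/-- The exponent sum of the letter `x`. -/
private def core3_ex : FreeGroup (Fin 3) →* Multiplicative ℤ :=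
  FreeGroup.lift ![1, Multiplicative.ofAdd 1, 1]

private theorem core3_word {Γ U : Type} [Group Γ] [Group U] (f : Γ →* U) (b y u : Γ)
    (hb : f b = 1) (hu : f u = 1) (w : FreeGroup (Fin 3)) :
    f (FreeGroup.lift ![b, y, u] w) = f y ^ (Multiplicative.toAdd (core3_ex w)) := by
  have h : f.comp (FreeGroup.lift ![b, y, u])
      = (zpowersHom U (f y)).comp core3_ex := by
    ext i
    fin_cases i
    · simp [core3_ex, hb]
    · simp [core3_ex]
    · simp [core3_ex, hu]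
  exact DFunLike.congr_fun h w

private theorem core3_cc {Γ : Type} [Group Γ] {F Z : Subgroup Γ} (hF : F.Normal)
    (hFZ : Z = F ⊓ Subgroup.centralizer (F : Set Γ)) (hF2 : ⁅⁅F, F⁆, F⁆ = ⊥) :
    ⁅F, F⁆ ≤ Z := by
  rw [hFZ]
  refine le_inf (Subgroup.commutator_le_left F F) ?_
  intro c hc
  rw [Subgroup.mem_centralizer_iff]
  intro g hg
  have h1 : ⁅c, g⁆ ∈ ⁅⁅F, F⁆, F⁆ := Subgroup.commutator_mem_commutator hc hg
  rw [hF2, Subgroup.mem_bot, commutatorElement_eq_one_iff_mul_comm] at h1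
  exact h1.symm

private theorem core3_Zn {Γ : Type} [Group Γ] {F Z : Subgroup Γ} (hF : F.Normal)
    (hFZ : Z = F ⊓ Subgroup.centralizer (F : Set Γ)) : Z.Normal := by
  rw [hFZ]
  have := hF
  infer_instance

private theorem core3_Zc {Γ : Type} [Group Γ] {F Z : Subgroup Γ}
    (hFZ : Z = F ⊓ Subgroup.centralizer (F : Set Γ)) {z : Γ} (hz : z ∈ Z) {b : Γ} (hb : b ∈ F) :
    b * z = z * b := by
  rw [hFZ, Subgroup.mem_inf, Subgroup.mem_centralizer_iff] at hz
  exact hz.2 b hb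

/-- The homomorphism `u ↦ ⁅b, u⁆`. -/
private theorem core3_beta {Γ : Type} [Group Γ] {F Z : Subgroup Γ} (hF : F.Normal)
    (hFZ : Z = F ⊓ Subgroup.centralizer (F : Set Γ)) (hF2 : ⁅⁅F, F⁆, F⁆ = ⊥)
    (s : SecData F Z) (sZ : SecData Z ⊥) {b : Γ} (hb : b ∈ F) :
    ∃ β : s.T →+ sZ.T, ∀ u ∈ F, β (s.π u) = sZ.π ⁅b, u⁆ := by
  classical
  have hcc := core3_cc hF hFZ hF2
  have hmem : ∀ u ∈ F, ⁅b, u⁆ ∈ Z := fun u hu =>
    hcc (Subgroup.commutator_mem_commutator hb hu)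
  have hmul : ∀ u ∈ F, ∀ v ∈ F, ⁅b, u * v⁆ = ⁅b, u⁆ * ⁅b, v⁆ := by
    intro u hu v hv
    have h1 : ⁅b, u * v⁆ = ⁅b, u⁆ * (u * ⁅b, v⁆ * u⁻¹) := by
      simp only [commutatorElement_def]
      group
    rw [h1, core3_Zc hFZ (hmem v hv) hu, mul_inv_cancel_right]
  have hwd : ∀ u ∈ F, ∀ v ∈ F, s.π u = s.π v → ⁅b, u⁆ = ⁅b, v⁆ := by
    intro u hu v hv huv
    have h1 : u * v⁻¹ ∈ Z := (s.π_eq_iff hu hv).1 huv
    have h2 : ⁅b, u * v⁻¹⁆ = 1 := by
      rw [commutatorElement_eq_one_iff_mul_comm]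
      exact core3_Zc hFZ h1 hb
    have h3 := hmul (u * v⁻¹) (F.mul_mem hu (F.inv_mem hv)) v hv
    rw [inv_mul_cancel_right, h2, one_mul] at h3
    exact h3
  choose c hc1 hc2 using s.surj
  refine ⟨AddMonoidHom.mk' (fun t => sZ.π ⁅b, c t⁆) ?_, ?_⟩
  · intro t t'
    have h1 : ⁅b, c (t + t')⁆ = ⁅b, c t * c t'⁆ := by
      refine hwd _ (hc1 _) _ (F.mul_mem (hc1 _) (hc1 _)) ?_
      rw [hc2, s.mul _ (hc1 _) _ (hc1 _), hc2, hc2]
    rw [h1, hmul _ (hc1 _) _ (hc1 _), sZ.mul _ (hmem _ (hc1 _)) _ (hmem _ (hc1 _))]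
  · intro u hu
    show sZ.π ⁅b, c (s.π u)⁆ = sZ.π ⁅b, u⁆
    rw [hwd _ (hc1 _) _ hu (hc2 _)]

private theorem core3_list {Γ : Type} [Group Γ] {A B : Subgroup Γ} (s : SecData A B)
    (L : List Γ) (h : ∀ g ∈ L, g ∈ A) : s.π L.prod = (L.map s.π).sum := by
  induction L with
  | nil =>
    rw [List.prod_nil, List.map_nil, List.sum_nil]
    exact s.π_one
  | cons g L ih =>
    have h2 : ∀ g ∈ L, g ∈ A := fun g hg => h g (List.mem_cons_of_mem _ hg)
    rw [List.prod_cons, List.map_cons, List.sum_cons,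
      s.mul _ (h g List.mem_cons_self) _ (A.list_prod_mem h2), ih h2]

private theorem core3_ident {D : List Tm} {Q : Type} [Group Q] (hId : HasId D Q)
    {F Z : Subgroup Q} (hF : F.Normal) (hFZ : Z = F ⊓ Subgroup.centralizer (F : Set Q))
    (hF2 : ⁅⁅F, F⁆, F⁆ = ⊥) (s : SecData F Z) (sZ : SecData Z ⊥) {b u : Q} (hb : b ∈ F)
    (hu : u ∈ F) (y : Q) (β : s.T →+ sZ.T) (hβ : ∀ u ∈ F, β (s.π u) = sZ.π ⁅b, u⁆) :
    sZ.π ⁅b, u⁆ = (D.map fun t : Tm => (core3_eps t : AddMonoid.End sZ.T)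
      (((sZ.ρ y ^ (Multiplicative.toAdd (core3_ex t.2.2) + t.2.1) : (AddMonoid.End sZ.T)ˣ) :
        AddMonoid.End sZ.T) (β (((s.ρ y⁻¹ : AddMonoid.End s.T) ^ t.2.1) (s.π u))))).sum := by
  have hcc := core3_cc hF hFZ hF2
  have hZn := core3_Zn hF hFZ
  have hρ : ∀ g ∈ F, sZ.ρ g = 1 := by
    intro g hg
    rw [sZ.ρ_eq_one_iff hZn]
    intro z hz
    rw [Subgroup.mem_bot, commutatorElement_eq_one_iff_mul_comm]
    exact core3_Zc hFZ hz hg
  have hterm : ∀ t : Tm, tv b y u t ∈ Z ∧ sZ.π (tv b y u t) = (core3_eps t : AddMonoid.End sZ.T)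
      (((sZ.ρ y ^ (Multiplicative.toAdd (core3_ex t.2.2) + t.2.1) : (AddMonoid.End sZ.T)ˣ) :
        AddMonoid.End sZ.T) (β (((s.ρ y⁻¹ : AddMonoid.End s.T) ^ t.2.1) (s.π u)))) := by
    intro t
    set g := FreeGroup.lift ![b, y, u] t.2.2 with hg
    set j := t.2.1 with hj
    set u' := (y ^ j)⁻¹ * u * y ^ j with hu'
    have hu'F : u' ∈ F := by
      have := hF.conj_mem u hu (y ^ j)⁻¹
      rwa [inv_inv] at this
    have hc : ⁅y ^ j * b * (y ^ j)⁻¹, u⁆ = y ^ j * ⁅b, u'⁆ * (y ^ j)⁻¹ := by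
      rw [hu']
      simp only [commutatorElement_def]
      group
    have hcZ : ⁅b, u'⁆ ∈ Z := hcc (Subgroup.commutator_mem_commutator hb hu'F)
    have hcZ' : y ^ j * ⁅b, u'⁆ * (y ^ j)⁻¹ ∈ Z := hZn.conj_mem _ hcZ _
    have hσ : ((s.ρ y⁻¹ : AddMonoid.End s.T) ^ j) (s.π u) = s.π u' := by
      rw [← Units.val_pow_eq_pow_val, ← map_pow, s.act _ _ hu, hu', inv_pow, inv_inv]
    have hβu : β (((s.ρ y⁻¹ : AddMonoid.End s.T) ^ j) (s.π u)) = sZ.π ⁅b, u'⁆ := by
      rw [hσ, hβ _ hu'F]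
    have hπc : sZ.π (y ^ j * ⁅b, u'⁆ * (y ^ j)⁻¹)
        = ((sZ.ρ y ^ (j : ℤ) : (AddMonoid.End sZ.T)ˣ) : AddMonoid.End sZ.T) (sZ.π ⁅b, u'⁆) := by
      rw [← sZ.act _ _ hcZ, map_pow, zpow_natCast]
    have hρg : sZ.ρ g = sZ.ρ y ^ (Multiplicative.toAdd (core3_ex t.2.2)) :=
      core3_word sZ.ρ b y u (hρ b hb) (hρ u hu) t.2.2
    have hcomp : ∀ x : sZ.T, (sZ.ρ g : AddMonoid.End sZ.T)
        (((sZ.ρ y ^ (j : ℤ) : (AddMonoid.End sZ.T)ˣ) : AddMonoid.End sZ.T) x)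
        = ((sZ.ρ y ^ (Multiplicative.toAdd (core3_ex t.2.2) + j) : (AddMonoid.End sZ.T)ˣ) :
          AddMonoid.End sZ.T) x := by
      intro x
      rw [hρg, zpow_add, Units.val_mul]
      rfl
    unfold tv
    rw [← hg, ← hj, hc, hβu]
    by_cases ht : t.1 = true
    · rw [if_pos ht]
      refine ⟨hZn.conj_mem _ hcZ' _, ?_⟩
      rw [← sZ.act _ _ hcZ', hπc, hcomp]
      unfold core3_eps
      rw [if_pos ht]
      rfl
    · rw [if_neg ht]
      refine ⟨hZn.conj_mem _ (Z.inv_mem hcZ') _, ?_⟩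
      rw [← sZ.act _ _ (Z.inv_mem hcZ'), sZ.π_inv hcZ', hπc, map_neg, hcomp]
      unfold core3_eps
      rw [if_neg ht]
      rfl
  have h1 : ⁅b, u⁆ = (D.map (tv b y u)).prod := hId b y u
  rw [h1, core3_list sZ _ (fun g hg => by
    obtain ⟨t, _, rfl⟩ := List.mem_map.1 hg
    exact (hterm t).1), List.map_map]
  congr 1
  exact List.map_congr_left fun t _ => (hterm t).2

theorem climb_gamma {D : List Tm} {Q : Type} [Group Q] (hId : HasId D Q)
    (F Z : Subgroup Q) (hF : F.Normal) (hFZ : Z = F ⊓ Subgroup.centralizer (F : Set Q))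
    (hF2 : ⁅⁅F, F⁆, F⁆ = ⊥) (n₀ k₀ : ℕ) (h0 : ∀ x : Q, ∀ b ∈ Z, ec (x ^ n₀) k₀ b = 1)
    (s : SecData F Z) (x : Q) :
    (aeval (s.ρ (x ^ n₀) : AddMonoid.End s.T) (gam D)) ^ k₀ = 0 := by
  have hZn := core3_Zn hF hFZ
  have hcc := core3_cc hF hFZ hF2
  have hZZ : ⁅Z, Z⁆ ≤ ⊥ := by
    rw [Subgroup.commutator_le]
    intro a ha c hc
    rw [Subgroup.mem_bot, commutatorElement_eq_one_iff_mul_comm]
    refine core3_Zc hFZ hc ?_
    rw [hFZ] at ha
    exact ha.1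
  obtain ⟨sZ⟩ := exists_secData Z ⊥ hZn inferInstance bot_le hZZ
  set y : Q := (x⁻¹) ^ n₀ with hy
  have hyx : y⁻¹ = x ^ n₀ := by rw [hy, inv_pow, inv_inv]
  have hunip : ((sZ.ρ y : AddMonoid.End sZ.T) - 1) ^ k₀ = 0 := by
    ext t
    obtain ⟨z, hz, rfl⟩ := sZ.surj t
    rw [← sZ.π_ec hZn y k₀ hz, hy, h0 x⁻¹ z hz, sZ.π_one]
    rfl
  set P : (AddMonoid.End (s.T →+ sZ.T))ˣ :=
    Units.map (core3_L s.T sZ.T).toMonoidHom (sZ.ρ y) with hP
  have hPk : ((P : AddMonoid.End (s.T →+ sZ.T)) - 1) ^ k₀ = 0 := by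
    have e1 : ((P : AddMonoid.End (s.T →+ sZ.T)) - 1)
        = core3_L s.T sZ.T ((sZ.ρ y : AddMonoid.End sZ.T) - 1) := by
      rw [map_sub, map_one]
      rfl
    rw [e1, ← map_pow, hunip, map_zero]
  set σ : AddMonoid.End s.T := (s.ρ y⁻¹ : AddMonoid.End s.T) with hσ
  have hcomm : Commute (core3_R (B := sZ.T) σ) (P : AddMonoid.End (s.T →+ sZ.T)) := rfl
  have hPz : ∀ (n : ℤ) (φ : s.T →+ sZ.T) (t : s.T),
      (((P ^ n : (AddMonoid.End (s.T →+ sZ.T))ˣ) : AddMonoid.End (s.T →+ sZ.T)) φ) t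
        = ((sZ.ρ y ^ n : (AddMonoid.End sZ.T)ˣ) : AddMonoid.End sZ.T) (φ t) := by
    intro n φ t
    rw [hP, ← map_zpow]
    rfl
  rw [← hyx, ← hσ]
  ext t
  obtain ⟨u, hu, rfl⟩ := s.surj t
  set t' := ((aeval σ (gam D)) ^ k₀) (s.π u) with ht'
  show t' = 0
  obtain ⟨u', hu', hut⟩ := s.surj t'
  rw [← hut, s.zero_iff u' hu', hFZ]
  refine Subgroup.mem_inf.2 ⟨hu', ?_⟩
  rw [Subgroup.mem_centralizer_iff]
  intro b hb
  obtain ⟨β, hβ⟩ := core3_beta hF hFZ hF2 s sZ (b := b) hb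
  have hrel : β = (D.map fun t : Tm => core3_eps t *
      ((P ^ (Multiplicative.toAdd (core3_ex t.2.2) + (t.2.1 : ℤ)) :
        (AddMonoid.End (s.T →+ sZ.T))ˣ) : AddMonoid.End (s.T →+ sZ.T)) *
      (core3_R (B := sZ.T) σ) ^ t.2.1).sum β := by
    ext v
    obtain ⟨w, hw, rfl⟩ := s.surj v
    rw [hβ w hw, core3_ident hId hF hFZ hF2 s sZ hb hw y β hβ]
    have hl : ∀ D : List Tm, (D.map fun t : Tm => (core3_eps t : AddMonoid.End sZ.T)
        (((sZ.ρ y ^ (Multiplicative.toAdd (core3_ex t.2.2) + t.2.1) : (AddMonoid.End sZ.T)ˣ) :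
        AddMonoid.End sZ.T) (β (((s.ρ y⁻¹ : AddMonoid.End s.T) ^ t.2.1) (s.π w))))).sum
        = ((D.map fun t : Tm => core3_eps t *
      ((P ^ (Multiplicative.toAdd (core3_ex t.2.2) + (t.2.1 : ℤ)) :
        (AddMonoid.End (s.T →+ sZ.T))ˣ) : AddMonoid.End (s.T →+ sZ.T)) *
      (core3_R (B := sZ.T) σ) ^ t.2.1).sum β) (s.π w) := by
      intro D
      induction D with
      | nil => rfl
      | cons t D ih =>
        rw [List.map_cons, List.sum_cons, ih, List.map_cons, List.sum_cons]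
        have e1 : ∀ (f g : AddMonoid.End (s.T →+ sZ.T)), ((f + g) β) (s.π w)
            = (f β) (s.π w) + (g β) (s.π w) := fun _ _ => rfl
        rw [e1]
        congr 1
        have e2 : ((core3_eps t *
            ((P ^ (Multiplicative.toAdd (core3_ex t.2.2) + (t.2.1 : ℤ)) :
              (AddMonoid.End (s.T →+ sZ.T))ˣ) : AddMonoid.End (s.T →+ sZ.T)) *
            (core3_R (B := sZ.T) σ) ^ t.2.1) β) (s.π w)
            = ((core3_eps t : AddMonoid.End (s.T →+ sZ.T))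
              (((P ^ (Multiplicative.toAdd (core3_ex t.2.2) + (t.2.1 : ℤ)) :
              (AddMonoid.End (s.T →+ sZ.T))ˣ) : AddMonoid.End (s.T →+ sZ.T))
              (((core3_R (B := sZ.T) σ) ^ t.2.1) β))) (s.π w) := rfl
        rw [e2, core3_R_pow]
        have e3 := hPz (Multiplicative.toAdd (core3_ex t.2.2) + (t.2.1 : ℤ))
          (AddMonoidHom.comp β (σ ^ t.2.1)) (s.π w)
        unfold core3_eps
        by_cases htt : t.1 = true
        · rw [if_pos htt, if_pos htt]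
          exact e3.symm
        · rw [if_neg htt, if_neg htt]
          exact (congrArg Neg.neg e3).symm
    exact hl D
  have hkill := core3_op P (core3_R (B := sZ.T) σ) hcomm D _ β hrel k₀ hPk
  rw [core3_R_aeval_pow] at hkill
  have h3 : β t' = 0 := DFunLike.congr_fun hkill (s.π u)
  rw [← hut, hβ u' hu'] at h3
  have h4 : ⁅b, u'⁆ ∈ (⊥ : Subgroup Q) :=
    (sZ.zero_iff _ (hcc (Subgroup.commutator_mem_commutator hb hu'))).1 h3
  rw [Subgroup.mem_bot, commutatorElement_eq_one_iff_mul_comm] at h4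
  exact h4

private theorem core3_ec_add {Γ : Type} [Group Γ] (x : Γ) (a b : ℕ) (y : Γ) :
    ec x (a + b) y = ec x a (ec x b y) := Function.iterate_add_apply _ a b y

theorem climb {D : List Tm} (hD : PosId D) {Q : Type} [Group Q] (hId : HasId D Q)
    (hM : MaxN Q) (hab : QUab Q) (F : Subgroup Q) (hF : F.Normal) (hF2 : ⁅⁅F, F⁆, F⁆ = ⊥) :
    ∃ n : ℕ, 1 ≤ n ∧ ∃ k : ℕ, ∀ x : Q, ∀ b ∈ F, ec (x ^ n) k b = 1 := by
  classical
  set Z : Subgroup Q := F ⊓ Subgroup.centralizer (F : Set Q) with hFZ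
  have hZn : Z.Normal := core3_Zn hF hFZ
  have hcc : ⁅F, F⁆ ≤ Z := core3_cc hF hFZ hF2
  have hZF : Z ≤ F := inf_le_left
  obtain ⟨n₀, hn₀, k₀, h0⟩ := hab Z hZn fun a ha b hb => core3_Zc hFZ hb (hZF ha)
  obtain ⟨s⟩ := exists_secData F Z hF hZn hZF hcc
  have hpact : ∀ x : Q, ∀ u ∈ F, pact ((gam D) ^ k₀) (x ^ n₀) u ∈ Z := by
    intro x u hu
    rw [← s.zero_iff _ (SecData.pact_mem hF _ _ hu), s.π_pact hF _ _ hu, map_pow,
      climb_gamma hId F Z hF hFZ hF2 n₀ k₀ h0 s x]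
    rfl
  have hγ : (gam D).coeff 0 = 1 := gam_coeff hD
  -- torsion subgroups
  have htors : ∀ N : ℕ → Prop, N 1 → (∀ m m', N m → N m' → N (m * m')) →
      ∃ H : Subgroup Q, H.Normal ∧ ∀ u, u ∈ H ↔ u ∈ F ∧ ∃ m, N m ∧ m • s.π u = 0 := by
    intro N hN1 hNm
    refine ⟨{
      carrier := {u | u ∈ F ∧ ∃ m, N m ∧ m • s.π u = 0}
      mul_mem' := ?_
      one_mem' := ?_
      inv_mem' := ?_ }, ⟨?_⟩, fun u => Iff.rfl⟩
    · rintro a c ⟨ha, m, hm, hma⟩ ⟨hc, m', hm', hmc⟩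
      refine ⟨F.mul_mem ha hc, m * m', hNm _ _ hm hm', ?_⟩
      rw [s.mul _ ha _ hc, smul_add]
      have e1 : (m * m') • s.π a = 0 := by rw [mul_comm, mul_smul, hma, smul_zero]
      have e2 : (m * m') • s.π c = 0 := by rw [mul_smul, hmc, smul_zero]
      rw [e1, e2, add_zero]
    · exact ⟨F.one_mem, 1, hN1, by rw [s.π_one, smul_zero]⟩
    · rintro a ⟨ha, m, hm, hma⟩
      exact ⟨F.inv_mem ha, m, hm, by rw [s.π_inv ha, smul_neg, hma, neg_zero]⟩
    · rintro a ⟨ha, m, hm, hma⟩ g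
      refine ⟨hF.conj_mem a ha g, m, hm, ?_⟩
      rw [← s.act g a ha, ← map_nsmul, hma, map_zero]
  obtain ⟨Ft, hFtn, hFt⟩ := htors (fun m => 1 ≤ m) le_rfl fun m m' h h' => Nat.mul_pos h h'
  have hFtF : Ft ≤ F := fun u hu => ((hFt u).1 hu).1
  have hZFt : Z ≤ Ft := fun u hu =>
    (hFt u).2 ⟨hZF hu, 1, le_rfl, by rw [one_smul, (s.zero_iff u (hZF hu)).2 hu]⟩
  -- the exponent of the torsion subgroup
  obtain ⟨r, hr, hrF⟩ : ∃ r : ℕ, 1 ≤ r ∧ ∀ u ∈ Ft, r • s.π u = 0 := by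
    obtain ⟨S, hS⟩ := hM Ft hFtn
    have hSm : ∀ a ∈ S, ∃ m : ℕ, 1 ≤ m ∧ m • s.π a = 0 := by
      intro a ha
      have : a ∈ Ft := by
        rw [← hS]
        exact Subgroup.subset_normalClosure ha
      exact ((hFt a).1 this).2
    choose! m hm1 hm2 using hSm
    refine ⟨∏ a ∈ S, m a, Nat.succ_le_of_lt (Finset.prod_pos fun a ha => hm1 a ha), ?_⟩
    obtain ⟨H₁, hH₁n, hH₁⟩ : ∃ H : Subgroup Q, H.Normal ∧
        ∀ u, u ∈ H ↔ u ∈ F ∧ (∏ a ∈ S, m a) • s.π u = 0 := by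
      refine ⟨{
        carrier := {u | u ∈ F ∧ (∏ a ∈ S, m a) • s.π u = 0}
        mul_mem' := ?_
        one_mem' := ?_
        inv_mem' := ?_ }, ⟨?_⟩, fun u => Iff.rfl⟩
      · rintro a c ⟨ha, hma⟩ ⟨hc, hmc⟩
        exact ⟨F.mul_mem ha hc, by rw [s.mul _ ha _ hc, smul_add, hma, hmc, add_zero]⟩
      · exact ⟨F.one_mem, by rw [s.π_one, smul_zero]⟩
      · rintro a ⟨ha, hma⟩
        exact ⟨F.inv_mem ha, by rw [s.π_inv ha, smul_neg, hma, neg_zero]⟩
      · rintro a ⟨ha, hma⟩ g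
        refine ⟨hF.conj_mem a ha g, ?_⟩
        rw [← s.act g a ha, ← map_nsmul, hma, map_zero]
    have hle : Ft ≤ H₁ := by
      rw [← hS]
      refine Subgroup.normalClosure_le_normal ?_
      intro a ha
      have haF : a ∈ F := hFtF (by
        rw [← hS]
        exact Subgroup.subset_normalClosure ha)
      refine (hH₁ a).2 ⟨haF, ?_⟩
      obtain ⟨l, hl⟩ := Finset.dvd_prod_of_mem m ha
      rw [hl, mul_comm, mul_smul, hm2 a ha, smul_zero]
    exact fun u hu => ((hH₁ u).1 (hle hu)).2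
  -- the torsion part
  obtain ⟨n₁, hn₁, hft⟩ := ft_lemma (gam D) hγ k₀ r hr
  have hc1 : ⁅Ft, Ft⁆ ≤ Z := (Subgroup.commutator_mono hFtF hFtF).trans hcc
  obtain ⟨s₁⟩ := exists_secData Ft Z hFtn hZn hZFt hc1
  have hcent : ∀ x : Q, s₁.ρ ((x ^ n₀) ^ n₁) = 1 := by
    intro x
    have h1 := hft s₁.T (s₁.ρ (x ^ n₀) : AddMonoid.End s₁.T) ?_ (s₁.ρ (x ^ n₀)).isUnit ?_
    · rw [map_pow]
      ext1
      rw [Units.val_pow_eq_pow_val, h1, Units.val_one]
    · intro t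
      obtain ⟨u, hu, rfl⟩ := s₁.surj t
      rw [← s₁.π_zpow hu, zpow_natCast]
      refine (s₁.zero_iff _ (Ft.pow_mem hu r)).2 ?_
      rw [← s.zero_iff _ (F.pow_mem (hFtF hu) r)]
      have := s.π_zpow (hFtF hu) (r : ℤ)
      rw [zpow_natCast, natCast_zsmul] at this
      rw [this]
      exact hrF u hu
    · rw [← map_pow]
      ext t
      obtain ⟨u, hu, rfl⟩ := s₁.surj t
      rw [← s₁.π_pact hFtn _ _ hu]
      exact (s₁.zero_iff _ (SecData.pact_mem hFtn _ _ hu)).2 (hpact x u (hFtF hu))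
  -- the torsion-free part
  obtain ⟨s₂⟩ := exists_secData F Ft hF hFtn hFtF (hcc.trans hZFt)
  have hΔ : (gam D) ^ k₀ ≠ 0 := by
    refine pow_ne_zero _ fun h => ?_
    rw [h, coeff_zero] at hγ
    exact zero_ne_one hγ
  obtain ⟨n₂, hn₂, k₂, hqu⟩ := qu_lemma ((gam D) ^ k₀) hΔ
  have hunip : ∀ x : Q, (((s₂.ρ (x ^ n₀) : AddMonoid.End s₂.T)) ^ n₂ - 1) ^ k₂ = 0 := by
    intro x
    refine hqu s₂.T _ ?_ (s₂.ρ (x ^ n₀)).isUnit ?_
    · intro m t hm ht
      obtain ⟨u, hu, rfl⟩ := s₂.surj t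
      rw [← s₂.π_zpow hu, s₂.zero_iff _ (F.zpow_mem hu m), hFt] at ht
      obtain ⟨_, l, hl, hlu⟩ := ht
      rw [s.π_zpow hu, ← natCast_zsmul, ← mul_smul] at hlu
      rw [s₂.zero_iff u hu, hFt]
      refine ⟨hu, ((l : ℤ) * m).natAbs, ?_, ?_⟩
      · refine Nat.one_le_iff_ne_zero.2 (Int.natAbs_ne_zero.2 (mul_ne_zero ?_ hm))
        exact_mod_cast (by omega : l ≠ 0)
      · rcases Int.natAbs_eq ((l : ℤ) * m) with h | h
        · rw [← natCast_zsmul, ← h, hlu]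
        · rw [← natCast_zsmul, ← neg_eq_zero, ← neg_smul, ← h, hlu]
    · intro j _
      ext t
      obtain ⟨u, hu, rfl⟩ := s₂.surj t
      have e1 : (s₂.ρ (x ^ n₀) : AddMonoid.End s₂.T) ^ j
          = (s₂.ρ ((x ^ j) ^ n₀) : AddMonoid.End s₂.T) := by
        rw [← Units.val_pow_eq_pow_val, ← map_pow, ← pow_mul, ← pow_mul, mul_comm]
      rw [e1, ← s₂.π_pact hF _ _ hu]
      exact (s₂.zero_iff _ (SecData.pact_mem hF _ _ hu)).2 (hZFt (hpact (x ^ j) u hu))
  refine ⟨n₀ * n₁ * n₂, Nat.mul_pos (Nat.mul_pos hn₀ hn₁) hn₂, k₀ + (1 + k₂), ?_⟩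
  intro x b hb
  set y := x ^ (n₀ * n₁ * n₂) with hy
  have hy0 : y = (x ^ (n₁ * n₂)) ^ n₀ := by
    rw [hy, ← pow_mul]
    congr 1
    ring
  have hy1 : y = ((x ^ n₂) ^ n₀) ^ n₁ := by
    rw [hy, ← pow_mul, ← pow_mul]
    congr 1
    ring
  have hy2 : y = ((x ^ n₁) ^ n₀) ^ n₂ := by
    rw [hy, ← pow_mul, ← pow_mul]
    congr 1
    ring
  rw [core3_ec_add, core3_ec_add]
  set b₂ := ec y k₂ b with hb₂
  have h2 : b₂ ∈ Ft := by
    rw [← s₂.zero_iff _ (SecData.ec_mem hF _ _ hb), s₂.π_ec hF _ _ hb, hy2, map_pow,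
      Units.val_pow_eq_pow_val, hunip]
    rfl
  have h1 : ec y 1 b₂ ∈ Z := by
    have h3 : s₁.ρ y = 1 := by rw [hy1, hcent]
    exact (s₁.ρ_eq_one_iff hFtn y).1 h3 b₂ h2
  rw [hy0] at h1 ⊢
  exact h0 _ _ h1

end Pool.Agent.Helper83.SV
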