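import Pool.Agent.Helper83.SV.UW
import Pool.Agent.Helper83.SV.Act

/-!
# SV-19: abelian normal subgroups of `Q / U`

`m` from `gl2` (for `D`, `n`). Let `F_j = lc F U j`, normal in `Q`, `F_s = ⊥`, and
`⁅F_j, F_j⁆ ≤ ⁅F_j, U⁆ = F_(j+1)`, since `F_j ≤ F ≤ U`; `⁅⁅E, E⁆, F_j⁆ ≤ ⁅U, F_j⁆ = F_(j+1)`. For
`j < s` let `K_j` be the normal subgroup of `unip_sub` for `F_j, F_(j+1), E`, and
`K = E ⊓ ⨅_(j < s) K_j` (so `K = E` if `s = 0`). It is normal and contains `U`. By `uw_rel`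
`lc F_j K (s_j) ≤ F_(j+1)` for all `j < s`, so `lc F K s' = ⊥` for some `s'` and `K = U` by
`hmax`. For `b ∈ E`, `b ^ n ∈ K` by `hqu`, so `b ^ n ∈ U`, and then by `gl2` the elements
`x ^ m b x ^ (-m) b⁻¹` are in `K = U`.
-/

namespace Pool.Agent.Helper83.SV

open scoped commutatorElement

theorem top_exp (D : List Tm) (hD : PosId D) (n : ℕ) (hn : 1 ≤ n) :
    ∃ m : ℕ, 1 ≤ m ∧ ∀ (Q : Type) [Group Q], HasId D Q → Win Q → MaxN Q →
      ∀ F U : Subgroup Q, F.Normal → U.Normal → F ≤ U →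
      ∀ k : ℕ, (∀ x : Q, ∀ b ∈ F, ec (x ^ n) k b = 1) → ∀ s : ℕ, lc F U s = ⊥ →
      (∀ K : Subgroup Q, K.Normal → U ≤ K → (∃ s', lc F K s' = ⊥) → K = U) →
      ∀ E : Subgroup Q, E.Normal → U ≤ E → ⁅E, E⁆ ≤ U →
        (∀ b ∈ E, b ^ n ∈ U) ∧ ∀ x : Q, ∀ b ∈ E, x ^ m * b * (x ^ m)⁻¹ * b⁻¹ ∈ U := by
  obtain ⟨m, hm, hgl⟩ := gl2 D hD n hn
  refine ⟨m, hm, ?_⟩
  intro Q _ hId hW hM F U hF hU hFU k hqu s hs hmax E hE hUE hEE
  have hFn : ∀ j, (lc F U j).Normal := fun j => lc_normal F U hF hU j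
  have hFle : ∀ j, lc F U j ≤ F := fun j => lc_anti F U hF hU (Nat.zero_le j)
  have hanti : ∀ j, lc F U (j + 1) ≤ lc F U j := fun j => lc_anti F U hF hU (Nat.le_succ j)
  have hcomm : ∀ j, ⁅U, lc F U j⁆ ≤ lc F U (j + 1) := by
    intro j
    rw [Subgroup.commutator_comm]
    exact le_refl _
  have hFF : ∀ j, ⁅lc F U j, lc F U j⁆ ≤ lc F U (j + 1) := fun j =>
    Subgroup.commutator_mono (le_refl _) ((hFle j).trans hFU)
  have hEEF : ∀ j, ⁅⁅E, E⁆, lc F U j⁆ ≤ lc F U (j + 1) := fun j =>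
    (Subgroup.commutator_mono hEE (le_refl _)).trans (hcomm j)
  -- the subgroups `K_j`
  have hex : ∀ j, ∃ K : Subgroup Q, K.Normal ∧ K ≤ E ∧
      ∀ b ∈ E, (b ∈ K ↔ ∃ k : ℕ, ∀ a ∈ lc F U j, ec b k a ∈ lc F U (j + 1)) := fun j =>
    unip_sub (lc F U j) (lc F U (j + 1)) E (hFn j) (hFn (j + 1)) hE (hanti j) (hFF j) (hEEF j)
  choose Kj hKn hKE hKj using hex
  let K : Subgroup Q := E ⊓ ⨅ j ∈ Finset.range s, Kj j
  have hmemK : ∀ b : Q, b ∈ K ↔ b ∈ E ∧ ∀ j < s, b ∈ Kj j := by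
    intro b
    simp only [K, Subgroup.mem_inf, Subgroup.mem_iInf, Finset.mem_range]
  have hKnorm : K.Normal := by
    refine ⟨fun b hb g => ?_⟩
    rw [hmemK] at hb ⊢
    exact ⟨hE.conj_mem _ hb.1 g, fun j hj => (hKn j).conj_mem _ (hb.2 j hj) g⟩
  have hUact : ∀ u ∈ U, ∀ j, ∀ a ∈ lc F U j, ⁅u, a⁆ ∈ lc F U (j + 1) := fun u hu j a ha =>
    hcomm j (Subgroup.commutator_mem_commutator hu ha)
  have hUK : U ≤ K := by
    intro u hu
    rw [hmemK]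
    refine ⟨hUE hu, fun j _ => ?_⟩
    rw [hKj j u (hUE hu)]
    refine ⟨1, fun a ha => ?_⟩
    exact hUact u hu j a ha
  have hKleE : K ≤ E := inf_le_left
  have hstep : ∀ j < s, ∃ t : ℕ, lc (lc F U j) K t ≤ lc F U (j + 1) := by
    intro j hj
    refine uw_rel hW hM (lc F U j) (lc F U (j + 1)) K (hFn j) (hFn (j + 1)) hKnorm (hanti j)
      ((Subgroup.commutator_mono (Subgroup.commutator_mono hKleE hKleE) (le_refl _)).trans
        (hEEF j)) ?_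
    intro b hb
    rw [hmemK] at hb
    exact (hKj j b hb.1).1 (hb.2 j hj)
  have hall : ∀ i ≤ s, ∃ t : ℕ, lc F K t ≤ lc F U i := by
    intro i
    induction i with
    | zero =>
      intro _
      exact ⟨0, le_refl _⟩
    | succ i ih =>
      intro hi
      obtain ⟨t, ht⟩ := ih (by omega)
      obtain ⟨t', ht'⟩ := hstep i (by omega)
      refine ⟨t + t', ?_⟩
      rw [lc_add]
      exact (lc_mono ht (le_refl K) t').trans ht'
  obtain ⟨t, ht⟩ := hall s (le_refl s)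
  rw [hs] at ht
  have hKU : K = U := hmax K hKnorm hUK ⟨t, le_bot_iff.1 ht⟩
  have hpow : ∀ b ∈ E, b ^ n ∈ U := by
    intro b hb
    rw [← hKU, hmemK]
    refine ⟨E.pow_mem hb n, fun j _ => ?_⟩
    rw [hKj j _ (E.pow_mem hb n)]
    refine ⟨k, fun a ha => ?_⟩
    rw [hqu b a (hFle j ha)]
    exact Subgroup.one_mem _
  refine ⟨hpow, fun x b hb => ?_⟩
  have hmemE : x ^ m * b * (x ^ m)⁻¹ * b⁻¹ ∈ E :=
    E.mul_mem (hE.conj_mem _ hb (x ^ m)) (E.inv_mem hb)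
  rw [← hKU, hmemK]
  refine ⟨hmemE, fun j _ => ?_⟩
  rw [hKj j _ hmemE]
  exact hgl Q hId (lc F U j) (lc F U (j + 1)) E (hFn j) (hFn (j + 1)) hE (hanti j) (hFF j)
    (hEEF j) (fun b hb a ha => hUact _ (hpow b hb) j a ha) x b hb

end Pool.Agent.Helper83.SV
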