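import Pool.Agent.Helper83.SV.Core5a

/-!
# SV-20: finiteness of `Q / U`, and nilpotency of `U`

`finite_exp`: a finitely generated group `R` of finite exponent with a soluble normal subgroup `S`
of finite index is finite: `S` is finitely generated (`Subgroup.fg_of_index_ne_zero`); induction on
the derived length of `S`: the abelianisation of a finitely generated group of finite exponent is
finite (`CommGroup.finite_of_fg_torsion`), so the commutator subgroup has finite index and is
finitely generated.

`finite_of_abelian`: let `R₁` be the normal subgroup generated by all `x ^ m`; `R ⧸ R₁` is finite by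
`finite_exp`. If `A` is an abelian normal subgroup of `R`, it is centralised by `R₁`, and the normal
closure of a finite set, so generated by the conjugates of finitely many elements by representatives
of `R ⧸ R₁`; so it is a finitely generated abelian group of exponent dividing `n`, finite. By
`exists_F` there is a normal subgroup `F ≤ S` with `⁅⁅F, F⁆, F⁆ = ⊥` and `centralizer F ⊓ S ≤ F`.
Its centre `Z = F ⊓ centralizer F` is an abelian normal subgroup, so finite. `F` is the normal
closure of a finite set `t`; by the window `E` an element of `F` commuting with all `e b e⁻¹`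
(`b ∈ t`, `e ∈ E`) commutes with all conjugates of the `b ∈ t`, so it is in `Z`. For `c ∈ F` the map
`F → Z`, `u ↦ ⁅u, c⁆`, is a homomorphism, so the centralizer of `c` in `F` has finite index. So `Z`
has finite index in `F` and `F` is finite. The centralizer of `F` in `R` has finite index, and its
intersection with `S` is contained in the finite group `F`. So `R` is finite.

`nilp_stab`: let `N = U ⊓ S`, `F_j = lc F U j`. By the three subgroups lemma (modulo `F_(i+j+1)`)
`⁅F_i, lc N N j⁆ ≤ F_(i+j+1)` for all `i, j`. So `lc N N s` centralises `F_0 = F` (as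
`F_(s+1) ≤ F_s = ⊥`), so `lc N N s ≤ centralizer F ⊓ S ≤ F`, and `lc N N (s + i) ≤ lc F U i`.
-/

namespace Pool.Agent.Helper83.SV

open scoped commutatorElement

private theorem Core5_quot {R : Type} [Group R] (hfg : Group.FG R) (S : Subgroup R)
    (hS : S.Normal) (hSf : S.FiniteIndex) (hSs : Group.IsSolvable S) (m : ℕ) (hm : 1 ≤ m) :
    ∃ R₁ : Subgroup R, R₁.Normal ∧ R₁.FiniteIndex ∧
      ∀ A : Subgroup R, A.Normal → (∀ b ∈ A, ∀ x : R, x ^ m * b = b * x ^ m) →
        R₁ ≤ Subgroup.centralizer (A : Set R) := by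
  set R₁ : Subgroup R := Subgroup.normalClosure (Set.range fun x : R => x ^ m) with hR₁
  have hn : R₁.Normal := Subgroup.normalClosure_normal
  refine ⟨R₁, hn, ?_, ?_⟩
  · have hfin : Finite (R ⧸ R₁) := by
      refine finite_exp (R := R ⧸ R₁) ?_ (S.map (QuotientGroup.mk' R₁)) ?_ ?_ ?_ m hm ?_
      · have := hfg
        exact Group.fg_of_surjective (QuotientGroup.mk'_surjective R₁)
      · exact hS.map _ (QuotientGroup.mk'_surjective R₁)
      · have h1 : (S.map (QuotientGroup.mk' R₁)).index ∣ S.index :=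
          Subgroup.index_map_dvd S (QuotientGroup.mk'_surjective R₁)
        exact ⟨fun h0 => hSf.index_ne_zero (by rw [h0] at h1; exact zero_dvd_iff.1 h1)⟩
      · have h2 : Function.Surjective ((QuotientGroup.mk' R₁).subgroupMap S) :=
          MonoidHom.subgroupMap_surjective _ _
        exact Group.isSolvable_of_surjective h2
      · intro x
        obtain ⟨g, rfl⟩ := QuotientGroup.mk'_surjective R₁ x
        rw [← map_pow]
        exact (QuotientGroup.eq_one_iff _).2 (Subgroup.subset_normalClosure ⟨g, rfl⟩)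
    exact Subgroup.finiteIndex_of_finite_quotient
  · intro A hA h
    have := hA
    refine Subgroup.normalClosure_le_normal ?_
    rintro _ ⟨x, rfl⟩
    refine Subgroup.mem_centralizer_iff.2 fun b hb => ?_
    exact (h b hb x).symm

/-- Step A: abelian normal subgroups are finite. -/
private theorem Core5_abelian {R : Type} [Group R] (hM : MaxN R) (R₁ : Subgroup R)
    (hR₁f : R₁.FiniteIndex) (A : Subgroup R) (hA : A.Normal)
    (hcomm : ∀ a ∈ A, ∀ b ∈ A, a * b = b * a) (n : ℕ) (hn : 1 ≤ n) (hexp : ∀ b ∈ A, b ^ n = 1)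
    (hc : R₁ ≤ Subgroup.centralizer (A : Set R)) : Finite A := by
  classical
  obtain ⟨t, ht⟩ := hM A hA
  have hfin : Finite (R ⧸ R₁) := Subgroup.finite_quotient_of_finiteIndex
  have htA : ∀ b ∈ t, b ∈ A := fun b hb => by
    rw [← ht]
    exact Subgroup.subset_normalClosure hb
  have hset : (Group.conjugatesOfSet (t : Set R)).Finite := by
    refine Set.Finite.subset (Set.finite_range
      (fun q : (R ⧸ R₁) × t => q.1.out * (q.2 : R) * (q.1.out)⁻¹)) ?_
    intro y hy
    obtain ⟨b, hb, hby⟩ := Group.mem_conjugatesOfSet_iff.1 hy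
    obtain ⟨g, rfl⟩ := isConj_iff.1 hby
    refine ⟨((g : R ⧸ R₁), ⟨b, hb⟩), ?_⟩
    obtain ⟨r, hr⟩ : ∃ r : R₁, ((g : R ⧸ R₁)).out = g * r := QuotientGroup.mk_out_eq_mul R₁ g
    simp only
    rw [hr]
    have h1 := (Subgroup.mem_centralizer_iff.1 (hc r.2)) b (htA b hb)
    calc g * (r : R) * b * (g * (r : R))⁻¹ = g * ((r : R) * b) * (r : R)⁻¹ * g⁻¹ := by group
      _ = g * (b * (r : R)) * (r : R)⁻¹ * g⁻¹ := by rw [← h1]
      _ = g * b * g⁻¹ := by group
  have hAfg : A.FG := by
    rw [Subgroup.fg_iff]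
    exact ⟨Group.conjugatesOfSet (t : Set R), ht, hset⟩
  have hAfg' : Group.FG A := (Group.fg_iff_subgroup_fg A).2 hAfg
  let inst : CommGroup A := { (inferInstance : Group A) with
    mul_comm := fun a b => Subtype.ext (hcomm a a.2 b b.2) }
  have : Group.FG A := hAfg'
  refine CommGroup.finite_of_fg_isMulTorsion A ?_
  intro a
  rw [isOfFinOrder_iff_pow_eq_one]
  exact ⟨n, hn, Subtype.ext (by simpa using hexp a a.2)⟩

theorem finite_of_abelian {R : Type} [Group R] (hfg : Group.FG R) (hW : Win R) (hM : MaxN R)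
    (S : Subgroup R) (hS : S.Normal) (hSf : S.FiniteIndex) (hSs : Group.IsSolvable S) (n m : ℕ)
    (hn : 1 ≤ n) (hm : 1 ≤ m)
    (h : ∀ A : Subgroup R, A.Normal → (∀ a ∈ A, ∀ b ∈ A, a * b = b * a) →
      ∀ b ∈ A, b ^ n = 1 ∧ ∀ x : R, x ^ m * b = b * x ^ m) : Finite R := by
  classical
  obtain ⟨R₁, hR₁n, hR₁f, hR₁⟩ := Core5_quot hfg S hS hSf hSs m hm
  have hab : ∀ A : Subgroup R, A.Normal → (∀ a ∈ A, ∀ b ∈ A, a * b = b * a) → Finite A :=
    fun A hA hc => Core5_abelian hM R₁ hR₁f A hA hc n hn (fun b hb => (h A hA hc b hb).1)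
      (hR₁ A hA fun b hb => (h A hA hc b hb).2)
  obtain ⟨F, hF, hFS, hF2, hFc⟩ := exists_F hM S hS hSs
  set Z : Subgroup R := F ⊓ Subgroup.centralizer (F : Set R) with hZ
  have := hF
  have hZn : Z.Normal := inferInstance
  have hZf : Finite Z := hab Z hZn (fun a ha b hb =>
    (Subgroup.mem_centralizer_iff.1 hb.2) a ha.1)
  have hFf : (F : Set R).Finite := by
    obtain ⟨t, ht⟩ := hM F hF
    obtain ⟨E, hE⟩ := hW
    have htF : ∀ b ∈ t, b ∈ F := fun b hb => by
      rw [← ht]
      exact Subgroup.subset_normalClosure hb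
    have hkey : ∀ u : R, (∀ b ∈ t, ∀ e ∈ E, ⁅u, e * b * e⁻¹⁆ = 1) →
        u ∈ Subgroup.centralizer (F : Set R) := by
      intro u hu
      have h1 : Subgroup.normalClosure (t : Set R) ≤ Subgroup.centralizer ({u} : Set R) := by
        unfold Subgroup.normalClosure
        rw [Subgroup.closure_le]
        intro y hy
        obtain ⟨b, hb, hby⟩ := Group.mem_conjugatesOfSet_iff.1 hy
        obtain ⟨g, rfl⟩ := isConj_iff.1 hby
        have h2 := hE ⊥ inferInstance u b (fun e he => Subgroup.mem_bot.2 (hu b hb e he)) g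
        rw [Subgroup.mem_bot, commutatorElement_eq_one_iff_mul_comm] at h2
        refine Subgroup.mem_centralizer_iff.2 fun v hv => ?_
        rw [Set.mem_singleton_iff.1 hv]
        exact h2
      rw [ht] at h1
      refine Subgroup.mem_centralizer_iff.2 fun f hf => ?_
      exact ((Subgroup.mem_centralizer_iff.1 (h1 hf)) u rfl).symm
    let φ : R → (E × t → R) := fun u p => ⁅u, (p.1 : R) * (p.2 : R) * (p.1 : R)⁻¹⁆
    refine Set.Finite.of_finite_fibers φ ?_ ?_
    · -- the image is finite
      have hZset : (Z : Set R).Finite := Set.toFinite (Z : Set R)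
      refine Set.Finite.subset (Set.Finite.pi' (fun _ : E × t => hZset)) ?_
      rintro _ ⟨u, hu, rfl⟩
      intro p
      have hc : (p.1 : R) * (p.2 : R) * (p.1 : R)⁻¹ ∈ F := hF.conj_mem _ (htF _ p.2.2) _
      have h1 : ⁅u, (p.1 : R) * (p.2 : R) * (p.1 : R)⁻¹⁆ ∈ ⁅F, F⁆ :=
        Subgroup.commutator_mem_commutator hu hc
      exact ⟨(Subgroup.commutator_le_left F F) h1,
        (Subgroup.commutator_eq_bot_iff_le_centralizer.1 hF2) h1⟩
    · rintro _ ⟨v, hv, rfl⟩
      have hZset : (Z : Set R).Finite := Set.toFinite (Z : Set R)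
      refine Set.Finite.subset (hZset.image fun z => v * z) ?_
      rintro u ⟨hu, huv⟩
      refine ⟨v⁻¹ * u, ⟨F.mul_mem (F.inv_mem hv) hu, ?_⟩, by group⟩
      apply hkey
      intro b hb e he
      have h1 : ⁅u, e * b * e⁻¹⁆ = ⁅v, e * b * e⁻¹⁆ := congrFun huv (⟨e, he⟩, ⟨b, hb⟩)
      rw [commutatorElement_def, commutatorElement_def] at h1
      have h2 : u * (e * b * e⁻¹) * u⁻¹ = v * (e * b * e⁻¹) * v⁻¹ := mul_right_cancel h1
      rw [commutatorElement_def]
      have h3 : v⁻¹ * u * (e * b * e⁻¹) * (v⁻¹ * u)⁻¹ = e * b * e⁻¹ := by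
        calc v⁻¹ * u * (e * b * e⁻¹) * (v⁻¹ * u)⁻¹
            = v⁻¹ * (u * (e * b * e⁻¹) * u⁻¹) * v := by group
          _ = v⁻¹ * (v * (e * b * e⁻¹) * v⁻¹) * v := by rw [h2]
          _ = e * b * e⁻¹ := by group
      rw [h3, mul_inv_cancel]
  have hFfin : Finite F := hFf
  -- the centralizer of `F` has finite index
  have hCf : (Subgroup.centralizer (F : Set R)).FiniteIndex := by
    have h1 : (MulAut.conjNormal (H := F) : R →* MulAut F).ker ≤
        Subgroup.centralizer (F : Set R) := by
      intro g hg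
      refine Subgroup.mem_centralizer_iff.2 fun f hf => ?_
      have h2 : (MulAut.conjNormal g : MulAut F) ⟨f, hf⟩ = ⟨f, hf⟩ := by
        rw [MonoidHom.mem_ker.1 hg]
        rfl
      have h3 := congrArg Subtype.val h2
      rw [MulAut.conjNormal_apply] at h3
      simp only at h3
      exact (mul_inv_eq_iff_eq_mul.1 h3).symm
    have h4 : Finite (MulAut F) := Finite.of_injective (fun e : MulAut F => (e : F → F))
      DFunLike.coe_injective
    have h5 : (MulAut.conjNormal (H := F) : R →* MulAut F).ker.FiniteIndex :=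
      Subgroup.finiteIndex_ker _
    exact Subgroup.finiteIndex_of_le h1
  have hI : (Subgroup.centralizer (F : Set R) ⊓ S).FiniteIndex := inferInstance
  have hIf : Finite (Subgroup.centralizer (F : Set R) ⊓ S : Subgroup R) :=
    Set.Finite.subset hFf hFc
  have hQ : Finite (R ⧸ (Subgroup.centralizer (F : Set R) ⊓ S)) :=
    Subgroup.finite_quotient_of_finiteIndex
  exact Finite.of_equiv _ (Subgroup.groupEquivQuotientProdSubgroup
    (s := Subgroup.centralizer (F : Set R) ⊓ S)).symm

end Pool.Agent.Helper83.SV
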