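import Pool.Agent.Helper83.SV.Core1
import Pool.Agent.Helper83.SV.Core2
import Pool.Agent.Helper83.SV.Core3
import Pool.Agent.Helper83.SV.Core4
import Pool.Agent.Helper83.SV.Core5
import Pool.Agent.Helper83.SV.ChainN

/-!
# The group `Q = G / C_G(M)` is nilpotent-by-finite
-/

namespace Pool.Agent.Helper83.SV

open scoped commutatorElement

/-- A maximal normal subgroup acting nilpotently on `F` has finite index. -/
theorem Core_top {D : List Tm} (hD : PosId D) {Q : Type} [Group Q] (hId : HasId D Q)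
    (hW : Win Q) (hM : MaxN Q) (hfg : Group.FG Q) (S : Subgroup Q) (hS : S.Normal)
    (hSf : S.FiniteIndex) (hSs : Group.IsSolvable S) (F : Subgroup Q) (hFn : F.Normal)
    (hF2 : ⁅⁅F, F⁆, F⁆ = ⊥) (n k : ℕ) (hn : 1 ≤ n)
    (hnk : ∀ x : Q, ∀ b ∈ F, ec (x ^ n) k b = 1) :
    ∃ U : Subgroup Q, U.Normal ∧ F ≤ U ∧ U.FiniteIndex ∧ ∃ s, lc F U s = ⊥ := by
  obtain ⟨m, hm, htop⟩ := top_exp D hD n hn
  obtain ⟨U, ⟨hUn, hFU, s, hs⟩, hmax⟩ := hM.exists_max
    {K : Subgroup Q | K.Normal ∧ F ≤ K ∧ ∃ s, lc F K s = ⊥} (fun N hN => hN.1)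
    ⟨F, hFn, le_rfl, 2, hF2⟩
  refine ⟨U, hUn, hFU, ?_, s, hs⟩
  have hmax' : ∀ K : Subgroup Q, K.Normal → U ≤ K → (∃ s', lc F K s' = ⊥) → K = U :=
    fun K hK hUK hs' => hmax K ⟨hK, hFU.trans hUK, hs'⟩ hUK
  have hsurj := QuotientGroup.mk'_surjective U
  have hfin : Finite (Q ⧸ U) := by
    refine finite_of_abelian (QuotientGroup.fg U) (hW.of_surj (QuotientGroup.mk' U) hsurj)
      (hM.of_surj (QuotientGroup.mk' U) hsurj) (S.map (QuotientGroup.mk' U))
      (hS.map _ hsurj) ?_ ?_ n m hn hm ?_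
    · constructor
      intro h0
      have h1 := Subgroup.index_map_dvd S hsurj
      rw [h0] at h1
      exact hSf.index_ne_zero (Nat.eq_zero_of_zero_dvd h1)
    · have := hSs
      exact Group.isSolvable_of_surjective ((QuotientGroup.mk' U).subgroupMap_surjective S)
    · intro A hA hAc b hb
      set E := A.comap (QuotientGroup.mk' U) with hE
      have hEn : E.Normal := hA.comap _
      have hUE : U ≤ E := by
        intro u hu
        rw [hE, Subgroup.mem_comap]
        have : QuotientGroup.mk' U u = 1 := by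
          rw [QuotientGroup.mk'_apply, QuotientGroup.eq_one_iff]
          exact hu
        rw [this]
        exact A.one_mem
      have hEE : ⁅E, E⁆ ≤ U := by
        rw [Subgroup.commutator_le]
        intro a ha b hb
        rw [← QuotientGroup.eq_one_iff, ← QuotientGroup.mk'_apply, map_commutatorElement,
          commutatorElement_eq_one_iff_mul_comm]
        exact hAc _ ha _ hb
      obtain ⟨h1, h2⟩ := htop Q hId hW hM F U hFn hUn hFU k hnk s hs hmax' E hEn hUE hEE
      obtain ⟨b, rfl⟩ := hsurj b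
      constructor
      · rw [← map_pow, QuotientGroup.mk'_apply, QuotientGroup.eq_one_iff]
        exact h1 b hb
      · intro x
        obtain ⟨x, rfl⟩ := hsurj x
        have h3 := h2 x b hb
        rw [← QuotientGroup.eq_one_iff, ← QuotientGroup.mk'_apply, map_mul, map_mul, map_mul,
          map_inv, map_inv, mul_inv_eq_one, mul_inv_eq_iff_eq_mul, map_pow] at h3
        exact h3
  exact Subgroup.finiteIndex_of_finite_quotient

theorem core {D : List Tm} (hD : PosId D) {G Q : Type} [Group G] [Group Q]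
    (M : Subgroup G) (f : G →* Q) (hId : HasId D G) (hF : Faith M f) (hfg : Group.FG Q)
    (S : Subgroup Q) (hS : S.Normal) (hSf : S.FiniteIndex) (hSs : Group.IsSolvable S) :
    Chain (⊥ : Subgroup Q) ⊤ := by
  have hW : Win Q := hF.win.of_surj f hF.surj
  have hM : MaxN Q := hF.maxn.of_surj f hF.surj
  have hIdQ : HasId D Q := hId.of_surj f hF.surj
  obtain ⟨F, hFn, hFS, hF2, hFc⟩ := exists_F hM S hS hSs
  obtain ⟨n, hn, k, hnk⟩ := climb hD hIdQ hM (core_abelian hD M f hId hF) F hFn hF2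
  obtain ⟨U, hUn, hFU, hUf, s, hs⟩ :=
    Core_top hD hIdQ hW hM hfg S hS hSf hSs F hFn hF2 n k hn hnk
  obtain ⟨s', hs'⟩ := nilp_stab F U S hFn hUn hS hFU s hs hFc
  exact chain_of_lc hM (U ⊓ S) inferInstance inferInstance s' hs'

end Pool.Agent.Helper83.SV
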