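import Pool.Agent.Helper83.SV.UW
import Pool.Agent.Helper83.SV.Act
import Pool.Agent.Helper83.SV.QU

/-!
# SV-16: abelian normal subgroups of `Q = G / C_G(M)`

`pact_one`: `Δ` from `gl1`. Let `E' = E.comap f` (normal in `G`, `⁅E', E'⁆ ≤ f.ker`, so
`⁅⁅E', E'⁆, M⁆ = ⊥`). By `gl1` (`A = M`, `B = ⊥`) `pact Δ x b` acts unipotently on `M` for `b ∈ E'`;
with `K` from `unip_sub`, `unip_le` gives `K ≤ centralizer M`, so `f (pact Δ x b) = 1`, and
`f (pact Δ x b) = pact Δ (f x) (f b)`.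

`tors_one`: the same with `gl2`.

`core_abelian`: let `E` be an abelian normal subgroup of `Q`, `E_t` the subgroup of the elements of
finite order, normal in `Q`. By `MaxN` it is the normal closure of a finite set, so it has finite
exponent `r ≥ 1`. By `tors_one`, `x ^ m` centralises `E_t` for all `x ∈ Q`. Let
`s : SecData E E_t`; `s.T` is torsion-free and `aeval (ρ x) Δ = 0` for all `x ∈ Q`, so
`aeval ((ρ x) ^ j) Δ = 0` for all `j ≥ 1`, and `qu_lemma` gives `(ρ x ^ n - 1) ^ k = 0` with `n, k`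
independent of `x`. So `ec (x ^ (n * m)) (k + 1) b = 1` (`σ ^ (n m) - 1` is a multiple of
`σ ^ n - 1`).
-/

namespace Pool.Agent.Helper83.SV

open scoped commutatorElement

/-- The hypotheses on the abelian normal subgroup `M` of `G` with `Q = G / C_G(M)`. -/
structure Faith {G : Type} [Group G] (M : Subgroup G) {Q : Type} [Group Q] (f : G →* Q) :
    Prop where
  win : Win G
  maxn : MaxN G
  norm : M.Normal
  comm : ∀ a ∈ M, ∀ b ∈ M, a * b = b * a
  ne : M ≠ ⊥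
  star : ∀ K : Subgroup G, K.Normal → ¬ K ≤ Subgroup.centralizer (M : Set G) →
    M ⊓ Subgroup.centralizer (K : Set G) = ⊥
  surj : Function.Surjective f
  ker : f.ker = Subgroup.centralizer (M : Set G)

private theorem core1_pact_mem {Γ : Type} [Group Γ] (E : Subgroup Γ) (hE : E.Normal)
    (Δ : Polynomial ℤ) (x : Γ) {b : Γ} (hb : b ∈ E) : pact Δ x b ∈ E := by
  unfold pact
  refine Subgroup.list_prod_mem E fun g hg => ?_
  rw [List.mem_map] at hg
  obtain ⟨i, -, rfl⟩ := hg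
  exact E.zpow_mem (hE.conj_mem b hb _) _

private theorem core1_pact_map {Γ Q : Type} [Group Γ] [Group Q] (f : Γ →* Q)
    (Δ : Polynomial ℤ) (x b : Γ) : f (pact Δ x b) = pact Δ (f x) (f b) := by
  unfold pact
  rw [map_list_prod, List.map_map]
  congr 1
  refine List.map_congr_left fun i _ => ?_
  rw [Function.comp_apply, map_zpow, map_mul, map_mul, map_inv, map_pow]

private theorem core1_comm {G Q : Type} [Group G] [Group Q] {M : Subgroup G} {f : G →* Q}
    (hF : Faith M f) {E : Subgroup Q} (hE : ∀ a ∈ E, ∀ b ∈ E, a * b = b * a) :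
    ⁅⁅E.comap f, E.comap f⁆, M⁆ = ⊥ := by
  have h1 : ⁅E.comap f, E.comap f⁆ ≤ Subgroup.centralizer (M : Set G) := by
    rw [← hF.ker, Subgroup.commutator_le]
    intro a ha b hb
    rw [MonoidHom.mem_ker, map_commutatorElement, commutatorElement_eq_one_iff_mul_comm]
    exact hE _ ha _ hb
  exact Subgroup.commutator_eq_bot_iff_le_centralizer.2 h1

/-- Elements of `E.comap f` acting unipotently on `M` are in the kernel of `f`. -/
private theorem core1_ker {G Q : Type} [Group G] [Group Q] {M : Subgroup G} {f : G →* Q}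
    (hF : Faith M f) {E : Subgroup Q} (hEn : E.Normal) (hE : ∀ a ∈ E, ∀ b ∈ E, a * b = b * a)
    {c : G} (hc : f c ∈ E) (hk : ∃ k : ℕ, ∀ a ∈ M, ec c k a ∈ (⊥ : Subgroup G)) : f c = 1 := by
  have hE' : (E.comap f).Normal := hEn.comap f
  have h0 := core1_comm hF hE
  have hMM : ⁅M, M⁆ ≤ (⊥ : Subgroup G) := by
    rw [Subgroup.commutator_le]
    intro a ha b hb
    rw [Subgroup.mem_bot, commutatorElement_eq_one_iff_mul_comm]
    exact hF.comm a ha b hb
  obtain ⟨K, hKn, hKE, hK⟩ := unip_sub M ⊥ (E.comap f) hF.norm inferInstance hE' bot_le hMM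
    (le_of_eq h0)
  have hcK : c ∈ K := (hK c hc).2 hk
  have hle := unip_le hF.win hF.maxn M hF.norm hF.ne hF.star K hKn (by
      rw [eq_bot_iff, ← h0]
      exact Subgroup.commutator_mono (Subgroup.commutator_mono hKE hKE) le_rfl) (by
      intro k hk'
      obtain ⟨n, hn⟩ := (hK k (hKE hk')).1 hk'
      exact ⟨n, fun a ha => Subgroup.mem_bot.1 (hn a ha)⟩)
  have h1 := hle hcK
  rw [← hF.ker] at h1
  exact h1

theorem pact_one (D : List Tm) (hD : PosId D) :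
    ∃ Δ : Polynomial ℤ, Δ ≠ 0 ∧ ∀ (G Q : Type) [Group G] [Group Q] (M : Subgroup G)
      (f : G →* Q), HasId D G → Faith M f → ∀ E : Subgroup Q, E.Normal →
      (∀ a ∈ E, ∀ b ∈ E, a * b = b * a) → ∀ x : Q, ∀ b ∈ E, pact Δ x b = 1 := by
  obtain ⟨Δ, hΔ, hmain⟩ := gl1 D hD
  refine ⟨Δ, hΔ, ?_⟩
  intro G Q _ _ M f hId hF E hEn hE x b hb
  obtain ⟨x', rfl⟩ := hF.surj x
  obtain ⟨b', rfl⟩ := hF.surj b
  have hE' : (E.comap f).Normal := hEn.comap f
  have hMM : ⁅M, M⁆ ≤ (⊥ : Subgroup G) := by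
    rw [Subgroup.commutator_le]
    intro a ha b hb
    rw [Subgroup.mem_bot, commutatorElement_eq_one_iff_mul_comm]
    exact hF.comm a ha b hb
  have h1 := hmain G hId M ⊥ (E.comap f) hF.norm inferInstance hE' bot_le hMM
    (le_of_eq (core1_comm hF hE)) x' b' hb
  rw [← core1_pact_map]
  refine core1_ker hF hEn hE ?_ h1
  exact core1_pact_mem (E.comap f) hE' Δ x' hb

theorem tors_one (D : List Tm) (hD : PosId D) (n : ℕ) (hn : 1 ≤ n) :
    ∃ m : ℕ, 1 ≤ m ∧ ∀ (G Q : Type) [Group G] [Group Q] (M : Subgroup G)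
      (f : G →* Q), HasId D G → Faith M f → ∀ E : Subgroup Q, E.Normal →
      (∀ a ∈ E, ∀ b ∈ E, a * b = b * a) → (∀ b ∈ E, b ^ n = 1) →
      ∀ x : Q, ∀ b ∈ E, x ^ m * b = b * x ^ m := by
  obtain ⟨m, hm, hmain⟩ := gl2 D hD n hn
  refine ⟨m, hm, ?_⟩
  intro G Q _ _ M f hId hF E hEn hE hEx x b hb
  obtain ⟨x', rfl⟩ := hF.surj x
  obtain ⟨b', rfl⟩ := hF.surj b
  have hE' : (E.comap f).Normal := hEn.comap f
  have hMM : ⁅M, M⁆ ≤ (⊥ : Subgroup G) := by
    rw [Subgroup.commutator_le]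
    intro a ha b hb
    rw [Subgroup.mem_bot, commutatorElement_eq_one_iff_mul_comm]
    exact hF.comm a ha b hb
  have hcent : ∀ c ∈ E.comap f, ∀ a ∈ M, ⁅c ^ n, a⁆ ∈ (⊥ : Subgroup G) := by
    intro c hc a ha
    have h2 : c ^ n ∈ f.ker := by
      rw [MonoidHom.mem_ker, map_pow]
      exact hEx _ hc
    rw [hF.ker] at h2
    rw [Subgroup.mem_bot, commutatorElement_eq_one_iff_mul_comm]
    exact (Subgroup.mem_centralizer_iff.1 h2 a ha).symm
  have h1 := hmain G hId M ⊥ (E.comap f) hF.norm inferInstance hE' bot_le hMM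
    (le_of_eq (core1_comm hF hE)) hcent x' b' hb
  have h3 : f (x' ^ m * b' * (x' ^ m)⁻¹ * b'⁻¹) ∈ E := by
    have h4 : x' ^ m * b' * (x' ^ m)⁻¹ * b'⁻¹ ∈ E.comap f :=
      (E.comap f).mul_mem (hE'.conj_mem b' hb _) ((E.comap f).inv_mem hb)
    exact h4
  have h5 := core1_ker hF hEn hE h3 h1
  rw [map_mul, map_mul, map_mul, map_inv, map_inv, map_pow] at h5
  have h6 : f x' ^ m * f b' * (f x' ^ m)⁻¹ = f b' := mul_inv_eq_one.1 h5
  exact mul_inv_eq_iff_eq_mul.1 h6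

private def core1_tors {Q : Type} [Group Q] (E : Subgroup Q)
    (hE : ∀ a ∈ E, ∀ b ∈ E, a * b = b * a) : Subgroup Q where
  carrier := {b | b ∈ E ∧ IsOfFinOrder b}
  one_mem' := ⟨E.one_mem, IsOfFinOrder.one⟩
  mul_mem' := by
    rintro a b ⟨ha, ha'⟩ ⟨hb, hb'⟩
    exact ⟨E.mul_mem ha hb, Commute.isOfFinOrder_mul (hE a ha b hb) ha' hb'⟩
  inv_mem' := by
    rintro a ⟨ha, ha'⟩
    exact ⟨E.inv_mem ha, ha'.inv⟩

private def core1_exp {Q : Type} [Group Q] (E : Subgroup Q)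
    (hE : ∀ a ∈ E, ∀ b ∈ E, a * b = b * a) (r : ℕ) : Subgroup Q where
  carrier := {b | b ∈ E ∧ b ^ r = 1}
  one_mem' := ⟨E.one_mem, one_pow r⟩
  mul_mem' := by
    rintro a b ⟨ha, ha'⟩ ⟨hb, hb'⟩
    refine ⟨E.mul_mem ha hb, ?_⟩
    have h : Commute a b := hE a ha b hb
    rw [h.mul_pow, ha', hb', one_mul]
  inv_mem' := by
    rintro a ⟨ha, ha'⟩
    refine ⟨E.inv_mem ha, ?_⟩
    rw [inv_pow, ha', inv_one]

private theorem core1_conj_pow {Q : Type} [Group Q] (g a : Q) (r : ℕ) (h : a ^ r = 1) :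
    (g * a * g⁻¹) ^ r = 1 := by
  rw [conj_pow, h, mul_one, mul_inv_cancel]

private theorem core1_exponent {Q : Type} [Group Q] (hM : MaxN Q) (E : Subgroup Q)
    (hEn : E.Normal) (hE : ∀ a ∈ E, ∀ b ∈ E, a * b = b * a) :
    (core1_tors E hE).Normal ∧ ∃ r : ℕ, 1 ≤ r ∧ ∀ b ∈ core1_tors E hE, b ^ r = 1 := by
  classical
  have hn : (core1_tors E hE).Normal := by
    refine ⟨?_⟩
    rintro a ⟨ha, ha'⟩ g
    refine ⟨hEn.conj_mem a ha g, ?_⟩
    rw [isOfFinOrder_iff_pow_eq_one] at ha' ⊢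
    obtain ⟨n, hn, h⟩ := ha'
    exact ⟨n, hn, core1_conj_pow g a n h⟩
  refine ⟨hn, ?_⟩
  obtain ⟨s, hs⟩ := hM _ hn
  have hsub : ∀ a ∈ s, a ∈ core1_tors E hE := fun a ha => by
    rw [← hs]
    exact Subgroup.subset_normalClosure ha
  refine ⟨∏ a ∈ s, orderOf a, ?_, ?_⟩
  · have h1 : 0 < ∏ a ∈ s, orderOf a :=
      Finset.prod_pos fun a ha => (hsub a ha).2.orderOf_pos
    exact h1
  · have hle : Subgroup.normalClosure (s : Set Q) ≤ core1_exp E hE (∏ a ∈ s, orderOf a) := by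
      have hn' : (core1_exp E hE (∏ a ∈ s, orderOf a)).Normal := by
        refine ⟨?_⟩
        rintro a ⟨ha, ha'⟩ g
        exact ⟨hEn.conj_mem a ha g, core1_conj_pow g a _ ha'⟩
      refine Subgroup.normalClosure_le_normal ?_
      intro a ha
      refine ⟨(hsub a ha).1, ?_⟩
      exact orderOf_dvd_iff_pow_eq_one.1 (Finset.dvd_prod_of_mem orderOf ha)
    intro b hb
    rw [← hs] at hb
    exact (hle hb).2

theorem core_abelian {D : List Tm} (hD : PosId D) {G Q : Type} [Group G] [Group Q]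
    (M : Subgroup G) (f : G →* Q) (hId : HasId D G) (hF : Faith M f) : QUab Q := by
  intro E hEn hE
  have hM : MaxN Q := hF.maxn.of_surj f hF.surj
  obtain ⟨htn, r, hr, hexp⟩ := core1_exponent hM E hEn hE
  obtain ⟨m, hm, htors⟩ := tors_one D hD r hr
  obtain ⟨Δ, hΔ, hpact⟩ := pact_one D hD
  obtain ⟨n, hn, k, hqu⟩ := qu_lemma Δ hΔ
  have hle : core1_tors E hE ≤ E := fun b hb => hb.1
  have hcent := htors G Q M f hId hF (core1_tors E hE) htn
    (fun a ha b hb => hE a (hle ha) b (hle hb)) hexp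
  obtain ⟨s⟩ := exists_secData E (core1_tors E hE) hEn htn hle (by
    rw [Subgroup.commutator_le]
    intro a ha b hb
    have h1 : ⁅a, b⁆ = 1 := commutatorElement_eq_one_iff_mul_comm.2 (hE a ha b hb)
    rw [h1]
    exact Subgroup.one_mem _)
  have htf : ∀ (m : ℤ) (t : s.T), m ≠ 0 → m • t = 0 → t = 0 := by
    intro m t hm0 ht
    obtain ⟨b, hb, rfl⟩ := s.surj t
    rw [← s.π_zpow hb, s.zero_iff _ (E.zpow_mem hb m)] at ht
    rw [s.zero_iff b hb]
    refine ⟨hb, ?_⟩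
    have h2 := ht.2
    rw [isOfFinOrder_iff_zpow_eq_one] at h2 ⊢
    obtain ⟨l, hl, h3⟩ := h2
    refine ⟨m * l, mul_ne_zero hm0 hl, ?_⟩
    rw [zpow_mul, h3]
  have haev : ∀ x : Q, Polynomial.aeval (s.ρ x : AddMonoid.End s.T) Δ = 0 := by
    intro x
    refine AddMonoidHom.ext fun t => ?_
    obtain ⟨b, hb, rfl⟩ := s.surj t
    have h1 := s.π_pact hEn Δ x hb
    rw [hpact G Q M f hId hF E hEn hE x b hb, s.π_one] at h1
    exact h1.symm
  have hnil : ∀ x : Q, ((s.ρ x : AddMonoid.End s.T) ^ n - 1) ^ k = 0 := by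
    intro x
    refine hqu s.T (s.ρ x : AddMonoid.End s.T) htf (Units.isUnit _) fun j _ => ?_
    have h1 := haev (x ^ j)
    rw [map_pow, Units.val_pow_eq_pow_val] at h1
    exact h1
  refine ⟨n * m, Nat.mul_pos hn hm, k + 1, ?_⟩
  intro x b hb
  have e1 : x ^ (n * m) = (x ^ m) ^ n := by
    rw [mul_comm, pow_mul]
  have h1 : ec (x ^ (n * m)) k b ∈ core1_tors E hE := by
    rw [← s.zero_iff _ (SecData.ec_mem hEn _ _ hb), s.π_ec hEn _ _ hb, e1, map_pow,
      Units.val_pow_eq_pow_val, hnil]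
    rfl
  have h2 : ec (x ^ (n * m)) (k + 1) b = ⁅x ^ (n * m), ec (x ^ (n * m)) k b⁆ := by
    unfold ec
    rw [Function.iterate_succ_apply']
  rw [h2, commutatorElement_eq_one_iff_mul_comm, pow_mul]
  rw [pow_mul] at h1
  exact hcent (x ^ n) _ h1

end Pool.Agent.Helper83.SV
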