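import Pool.Agent.Helper13.PV.Laws

/-!
# Varieties with Hopfian finitely generated groups: definitions

Everything is in `Type`; a variety is given by a set `L` of laws, and
`AllHopfian L` says that all finitely generated groups satisfying `L` are Hopfian.
-/

namespace Pool.Agent.Helper83.SV

open Pool.Agent.Helper32.SmallVar Pool.Agent.Helper13.PV
open scoped commutatorElement

/-- The smallest class of groups which contains the abelian groups and is closed under extensions
and local closure (if all finitely generated subgroups of `G` are in the class, so is `G`). -/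
inductive ElemSol : ∀ (G : Type) [Group G], Prop
  | comm (G : Type) [Group G] (h : ∀ a b : G, a * b = b * a) : ElemSol G
  | ext (G : Type) [Group G] (N : Subgroup G) [N.Normal] (h1 : ElemSol N)
      (h2 : ElemSol (G ⧸ N)) : ElemSol G
  | loc (G : Type) [Group G] (h : ∀ K : Subgroup G, K.FG → ElemSol K) : ElemSol G

/-- `G` has a normal subgroup of finite index in the class `ElemSol`. -/
def ElemSolByFinite (G : Type) [Group G] : Prop :=
  ∃ N : Subgroup G, N.Normal ∧ N.FiniteIndex ∧ ElemSol N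

/-- A technical variant: `G` is abelian, or `G = ⟨x⟩ H` with `H` normal such that all finitely
generated groups embedded in `H` are in the class. -/
inductive EAs : ∀ (G : Type) [Group G], Prop
  | comm (G : Type) [Group G] (h : ∀ a b : G, a * b = b * a) : EAs G
  | cyc (G : Type) [Group G] (H : Subgroup G) (hH : H.Normal) (x : G)
      (hx : ∀ g : G, ∃ n : ℤ, ∃ h ∈ H, g = x ^ n * h)
      (hK : ∀ (K : Type) [Group K] (f : K →* G), Function.Injective f → Group.FG K →
        (∀ k, f k ∈ H) → EAs K) : EAs G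

/-- `N` is the normal closure of a finite set. -/
def FGN {G : Type} [Group G] (N : Subgroup G) : Prop :=
  ∃ s : Finset G, Subgroup.normalClosure (s : Set G) = N

/-- Every normal subgroup is the normal closure of a finite set. -/
def MaxN (G : Type) [Group G] : Prop := ∀ N : Subgroup G, N.Normal → FGN N

/-- The value of a word at the parameters `z` and the variable `y`. -/
def ev {ι H : Type} [Group H] (z : ι → H) (y : H) : FreeGroup (Option ι) →* H :=
  FreeGroup.lift fun o => o.elim y z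

/-- A subset `S` of `G` is tame for the variety `L` if for each word `w (z, y)` finitely many
elements of `S` control the vanishing of `w (z, s)`, `s ∈ S`, in all groups of the variety. -/
def Tame (L : Set (FreeGroup ℕ)) {G : Type} [Group G] (S : Set G) : Prop :=
  ∀ (ι : Type) [Finite ι] (w : FreeGroup (Option ι)), ∃ E : Finset G, (E : Set G) ⊆ S ∧
    ∀ (H : Type) [Group H], SatisfiesLaws L H → ∀ (φ : G →* H) (z : ι → H),
      (∀ e ∈ E, ev z (φ e) w = 1) → ∀ s ∈ S, ev z (φ s) w = 1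

/-- A term `(ε, j, g)` of an identity: sign, exponent and conjugating word. -/
abbrev Tm : Type := Bool × ℕ × FreeGroup (Fin 3)

/-- The value `g [x ^ j b x ^ (-j), u] ^ (± 1) g⁻¹` of a term, `g` evaluated at `b, x, u`. -/
def tv {Γ : Type} [Group Γ] (b x u : Γ) (t : Tm) : Γ :=
  FreeGroup.lift ![b, x, u] t.2.2 *
    (if t.1 then ⁅x ^ t.2.1 * b * (x ^ t.2.1)⁻¹, u⁆
      else ⁅x ^ t.2.1 * b * (x ^ t.2.1)⁻¹, u⁆⁻¹) *
    (FreeGroup.lift ![b, x, u] t.2.2)⁻¹

/-- The identity `[b, u] = ∏ g_t [x ^ j_t b x ^ (-j_t), u] ^ (± 1) g_t⁻¹` holds in `Γ`. -/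
def HasId (D : List Tm) (Γ : Type) [Group Γ] : Prop :=
  ∀ b x u : Γ, ⁅b, u⁆ = (D.map (tv b x u)).prod

/-- All exponents `j_t` are positive. -/
def PosId (D : List Tm) : Prop := ∀ t ∈ D, 1 ≤ t.2.1

/-- Windows: modulo every normal subgroup, an element that commutes with the conjugates of `b` by
the elements of the fixed finite set `E` commutes with all conjugates of `b`. -/
def Win (Γ : Type) [Group Γ] : Prop :=
  ∃ E : Finset Γ, ∀ N : Subgroup Γ, N.Normal → ∀ u b : Γ,
    (∀ e ∈ E, ⁅u, e * b * e⁻¹⁆ ∈ N) → ∀ g : Γ, ⁅u, g * b * g⁻¹⁆ ∈ N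

/-- `∏_i (x ^ i b x ^ (-i)) ^ (coefficient of Δ at i)`. -/
noncomputable def pact {Γ : Type} [Group Γ] (Δ : Polynomial ℤ) (x b : Γ) : Γ :=
  ((List.range (Δ.natDegree + 1)).map fun i => (x ^ i * b * (x ^ i)⁻¹) ^ (Δ.coeff i)).prod

/-- The iterated commutators `[A, K, …, K]`. -/
def lc {Γ : Type} [Group Γ] (A K : Subgroup Γ) : ℕ → Subgroup Γ
  | 0 => A
  | n + 1 => ⁅lc A K n, K⁆

/-- The iterated commutator `[x, [x, … [x, y]]]`. -/
def ec {Γ : Type} [Group Γ] (x : Γ) (k : ℕ) (y : Γ) : Γ := (fun y => ⁅x, y⁆)^[k] y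

/-- The identity `HasId` for operators: `β - 1 = ∑ ± g_t (ξ ^ j_t β ξ ^ (-j_t) - 1)`. -/
def RId (D : List Tm) {R : Type} [Ring R] (β ξ : Rˣ) : Prop :=
  (β : R) - 1 = (D.map fun t : Tm =>
    (if t.1 then (1 : R) else -1) * ((FreeGroup.lift ![β, ξ, 1] t.2.2 : Rˣ) : R) *
      (((ξ ^ t.2.1 * β * (ξ ^ t.2.1)⁻¹ : Rˣ) : R) - 1)).sum

/-- All `x ^ n` act unipotently, uniformly, on every abelian normal subgroup. -/
def QUab (Q : Type) [Group Q] : Prop :=
  ∀ E : Subgroup Q, E.Normal → (∀ a ∈ E, ∀ b ∈ E, a * b = b * a) →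
    ∃ n : ℕ, 1 ≤ n ∧ ∃ k : ℕ, ∀ x : Q, ∀ b ∈ E, ec (x ^ n) k b = 1

/-- The subgroup generated by the `K`-translates of the elements of `X`. -/
def gen {G A : Type} [Group G] [AddCommGroup A] [DistribMulAction G A] (K : Subgroup G)
    (X : Set A) : AddSubgroup A :=
  AddSubgroup.closure {y | ∃ k ∈ K, ∃ x ∈ X, y = k • x}

/-- Finitely generated `K`-submodules of `A` are Noetherian. -/
def NoethOn {G : Type} [Group G] (K : Subgroup G) (A : Type) [AddCommGroup A]
    [DistribMulAction G A] : Prop :=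
  ∀ X : Set A, X.Finite → ∀ B : AddSubgroup A, B ≤ gen K X → (∀ k ∈ K, ∀ b ∈ B, k • b ∈ B) →
    ∃ Y : Set A, Y.Finite ∧ gen K Y = B

/-- `K` is obtained from `C` by finitely many extensions by cyclic and finite groups. -/
inductive Chain {G : Type} [Group G] (C : Subgroup G) : Subgroup G → Prop
  | base : Chain C C
  | cyc (K K' : Subgroup G) (x : G) (h : Chain C K) (h1 : K ≤ K') (h2 : x ∈ K')
      (h3 : ∀ g ∈ K', ∀ k ∈ K, g * k * g⁻¹ ∈ K) (h4 : ∀ g ∈ K', ∃ n : ℤ, ∃ k ∈ K, g = x ^ n * k) :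
      Chain C K'
  | fin (K K' : Subgroup G) (T : Finset G) (h : Chain C K) (h1 : K ≤ K')
      (h2 : ∀ t ∈ T, t ∈ K') (h3 : ∀ g ∈ K', ∃ t ∈ T, ∃ k ∈ K, g = t * k) : Chain C K'

end Pool.Agent.Helper83.SV
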