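import Pool.Agent.Helper83.SV.Defs

/-!
# SV-5: the classes `EAs` and `ElemSol`

`EAs.of_inj`: by cases. Step: `H.comap f`; `{n : ∃ k, f k ∈ x ^ n H}` is a subgroup `d ℤ` of `ℤ`;
take `x'` with `f x' ∈ x ^ d H`.

`EAs.of_surj`: induction on `EAs G`. Step: `H.map f`, `f x`; for `K → Q` injective, finitely
generated with image in `H.map f`, there is a finitely generated subgroup `K'` of `G` contained in
`H` which is mapped onto the image of `K`; use the induction hypothesis for `K' → K`.

`eas_of_elemSol`: induction on `ElemSol G`; the only hard case is an extension. Claim: if `EAs Q`,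
`g : K →* Q` is a homomorphism, `K` is finitely generated, and every finitely generated group
embedded in the kernel of `g` is in `EAs`, then `EAs K`. Induction on `EAs Q` (for all `K`, `g`).
Step `Q = ⟨x⟩ H`: `H' = H.comap g`; choose `x' ∈ K` with `g x' ∈ x ^ d H` as in `EAs.of_inj`; a
finitely generated `K''` embedded in `H'` maps to `Q`, its image `R` is finitely generated and
embedded in `H`, so the induction hypothesis applies to `R` and `K'' → R`. Abelian case: replace `Q`
by the image of `g`, which is finitely generated; induction on the number of elements generating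
the abelian group `Q`: if `Q` is generated by `x₀` and `Q₁ = ⟨x₁, …⟩`, let `H' = Q₁.comap g`; then
`K = ⟨x'⟩ H'`, and for `K''` embedded in `H'` use the induction hypothesis for `K'' → Q₁`; here
`g` should not be assumed surjective.
-/

namespace Pool.Agent.Helper83.SV

/-- Pulling back a cyclic quotient along a homomorphism. -/
private theorem EAClass_cyc {K G : Type} [Group K] [Group G] (f : K →* G) (H : Subgroup G)
    (hH : H.Normal) (x : G) (hx : ∀ k : K, ∃ n : ℤ, ∃ h ∈ H, f k = x ^ n * h) :
    ∃ x' : K, ∀ k : K, ∃ n : ℤ, ∃ h ∈ H.comap f, k = x' ^ n * h := by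
  have := hH
  let p : K →* G ⧸ H := (QuotientGroup.mk' H).comp f
  have hle : p.range ≤ Subgroup.zpowers (QuotientGroup.mk' H x) := by
    rintro _ ⟨k, rfl⟩
    obtain ⟨n, h, hh, hk⟩ := hx k
    refine ⟨n, ?_⟩
    change (QuotientGroup.mk' H x) ^ n = QuotientGroup.mk' H (f k)
    rw [hk, map_mul, map_zpow]
    have h1 : QuotientGroup.mk' H h = 1 := (QuotientGroup.eq_one_iff h).2 hh
    rw [h1, mul_one]
  have hc : IsCyclic p.range := Subgroup.isCyclic_of_le hle
  obtain ⟨⟨y, hy⟩, hgen⟩ := hc.exists_generator
  obtain ⟨x', rfl⟩ := hy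
  refine ⟨x', fun k => ?_⟩
  obtain ⟨n, hn⟩ := hgen ⟨p k, k, rfl⟩
  have hn' : (p x') ^ n = p k := by
    have h1 := congrArg Subtype.val hn
    simpa using h1
  refine ⟨n, (x' ^ n)⁻¹ * k, ?_, by group⟩
  rw [Subgroup.mem_comap]
  have h2 : p ((x' ^ n)⁻¹ * k) = 1 := by
    rw [map_mul, map_inv, map_zpow, hn', inv_mul_cancel]
  exact (QuotientGroup.eq_one_iff _).1 h2

theorem EAs.of_inj {G : Type} [Group G] (h : EAs G) {K : Type} [Group K] (f : K →* G)
    (hf : Function.Injective f) : EAs K := by
  cases h with
  | comm _ h =>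
    exact EAs.comm K fun a b => hf (by rw [map_mul, map_mul, h])
  | cyc _ H hH x hx hK =>
    obtain ⟨x', hx'⟩ := EAClass_cyc f H hH x fun k => hx (f k)
    exact EAs.cyc K (H.comap f) (hH.comap f) x' hx' fun K'' _ f'' hi hfg hm =>
      hK K'' (f.comp f'') (hf.comp hi) hfg hm

theorem EAs.of_surj {G : Type} [Group G] (h : EAs G) {Q : Type} [Group Q] (f : G →* Q)
    (hf : Function.Surjective f) : EAs Q := by
  induction h generalizing Q with
  | comm G h =>
    refine EAs.comm Q fun a b => ?_
    obtain ⟨a, rfl⟩ := hf a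
    obtain ⟨b, rfl⟩ := hf b
    rw [← map_mul, h, map_mul]
  | cyc G H hH x hx hK ih =>
    refine EAs.cyc Q (H.map f) (hH.map f hf) (f x) (fun g => ?_) fun K _ g hi hfg hm => ?_
    · obtain ⟨g, rfl⟩ := hf g
      obtain ⟨n, h, hh, rfl⟩ := hx g
      exact ⟨n, f h, Subgroup.mem_map_of_mem f hh, by rw [map_mul, map_zpow]⟩
    · obtain ⟨S, hS⟩ := (Group.fg_def.1 hfg : (⊤ : Subgroup K).FG)
      choose u hu hfu using hm
      let K' : Subgroup G := Subgroup.closure (u '' (S : Set K))
      have hK'H : K' ≤ H := by
        rw [Subgroup.closure_le]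
        rintro _ ⟨s, -, rfl⟩
        exact hu s
      have hK'fg : Group.FG K' := by
        rw [Group.fg_iff_subgroup_fg, Subgroup.fg_iff]
        exact ⟨_, rfl, S.finite_toSet.image u⟩
      have hmap : K'.map f = g.range := by
        change (Subgroup.closure (u '' (S : Set K))).map f = g.range
        rw [MonoidHom.map_closure, Set.image_image, MonoidHom.range_eq_map, ← hS,
          MonoidHom.map_closure]
        congr 1
        exact Set.image_congr fun s _ => hfu s
      have hmem : ∀ k : K', f k ∈ g.range := by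
        intro k
        rw [← hmap]
        exact Subgroup.mem_map_of_mem f k.2
      let q : K' →* g.range := (f.comp K'.subtype).codRestrict g.range hmem
      have hq : Function.Surjective q := by
        rintro ⟨y, hy⟩
        rw [← hmap] at hy
        obtain ⟨k, hk, rfl⟩ := hy
        exact ⟨⟨k, hk⟩, rfl⟩
      let e : K ≃* g.range := MonoidHom.ofInjective hi
      exact ih K' K'.subtype (Subgroup.subtype_injective _) hK'fg (fun k => hK'H k.2)
        (e.symm.toMonoidHom.comp q) (e.symm.surjective.comp hq)

private theorem EAClass_ab {Q : Type} [Group Q] (hc : ∀ a b : Q, a * b = b * a) (S : Finset Q) :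
    ∀ (K : Type) [Group K] (g : K →* Q), Group.FG K →
      g.range ≤ Subgroup.closure (S : Set Q) →
      (∀ (L : Type) [Group L] (f : L →* K), Function.Injective f → Group.FG L →
        (∀ l, g (f l) = 1) → EAs L) → EAs K := by
  classical
  induction S using Finset.induction_on with
  | empty =>
    intro K _ g hfg hr hL
    refine hL K (MonoidHom.id K) (fun a b hab => hab) hfg fun l => ?_
    have h1 : g l ∈ Subgroup.closure ((∅ : Finset Q) : Set Q) := hr ⟨l, rfl⟩
    rw [Finset.coe_empty, Subgroup.closure_empty, Subgroup.mem_bot] at h1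
    exact h1
  | insert a S _ ih =>
    intro K _ g hfg hr hL
    have hN : (Subgroup.closure (S : Set Q)).Normal :=
      ⟨fun n hn b => by rw [hc b n, mul_assoc, mul_inv_cancel, mul_one]; exact hn⟩
    have hx : ∀ q ∈ Subgroup.closure ((insert a S : Finset Q) : Set Q), ∃ n : ℤ,
        ∃ h ∈ Subgroup.closure (S : Set Q), q = a ^ n * h := by
      intro q hq
      induction hq using Subgroup.closure_induction with
      | mem y hy =>
        rw [Finset.coe_insert, Set.mem_insert_iff] at hy
        rcases hy with rfl | hy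
        · exact ⟨1, 1, Subgroup.one_mem _, by simp⟩
        · exact ⟨0, y, Subgroup.subset_closure hy, by simp⟩
      | one => exact ⟨0, 1, Subgroup.one_mem _, by simp⟩
      | mul y z _ _ hy hz =>
        obtain ⟨k, p, hp, rfl⟩ := hy
        obtain ⟨l, q, hq, rfl⟩ := hz
        refine ⟨k + l, p * q, Subgroup.mul_mem _ hp hq, ?_⟩
        rw [zpow_add, mul_assoc, mul_assoc, ← mul_assoc p, hc p, mul_assoc]
      | inv y _ hy =>
        obtain ⟨k, p, hp, rfl⟩ := hy
        refine ⟨-k, p⁻¹, Subgroup.inv_mem _ hp, ?_⟩
        rw [mul_inv_rev, zpow_neg, hc]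
    obtain ⟨x', hx'⟩ := EAClass_cyc g (Subgroup.closure (S : Set Q)) hN a
      fun k => hx (g k) (hr ⟨k, rfl⟩)
    refine EAs.cyc K _ (hN.comap g) x' hx' fun K'' _ f'' hi hfg'' hm => ?_
    refine ih K'' (g.comp f'') hfg'' ?_ fun L _ f hf hLfg hl =>
      hL L (f''.comp f) (hi.comp hf) hLfg hl
    rintro _ ⟨k, rfl⟩
    exact hm k

private theorem EAClass_ext {Q : Type} [Group Q] (hQ : EAs Q) :
    ∀ (K : Type) [Group K] (g : K →* Q), Group.FG K →
      (∀ (L : Type) [Group L] (f : L →* K), Function.Injective f → Group.FG L →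
        (∀ l, g (f l) = 1) → EAs L) → EAs K := by
  classical
  induction hQ with
  | comm Q hc =>
    intro K _ g hfg hL
    obtain ⟨T, hT⟩ := (Group.fg_def.1 hfg : (⊤ : Subgroup K).FG)
    refine EAClass_ab hc (T.image g) K g hfg ?_ hL
    rw [MonoidHom.range_eq_map, ← hT, MonoidHom.map_closure, Finset.coe_image]
  | cyc Q H hH x hx hK ih =>
    intro K _ g hfg hL
    obtain ⟨x', hx'⟩ := EAClass_cyc g H hH x fun k => hx (g k)
    refine EAs.cyc K _ (hH.comap g) x' hx' fun K'' _ f'' hi hfg'' hm => ?_
    have := hfg''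
    refine ih (g.comp f'').range (Subgroup.subtype _) (Subgroup.subtype_injective _)
      (Group.fg_range _) ?_ K'' (g.comp f'').rangeRestrict hfg'' fun L _ f hf hLfg hl => ?_
    · rintro ⟨_, k, rfl⟩
      exact hm k
    · exact hL L (f''.comp f) (hi.comp hf) hLfg fun l => congrArg Subtype.val (hl l)

theorem eas_of_elemSol {G : Type} [Group G] (h : ElemSol G) {K : Type} [Group K] (f : K →* G)
    (hf : Function.Injective f) (hK : Group.FG K) : EAs K := by
  induction h generalizing K with
  | comm G h => exact EAs.comm K fun a b => hf (by rw [map_mul, map_mul, h])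
  | ext G N h1 h2 ih1 ih2 =>
    let p : K →* G ⧸ N := (QuotientGroup.mk' N).comp f
    have := hK
    have hR : EAs p.range := ih2 p.range.subtype (Subgroup.subtype_injective _) (Group.fg_range p)
    refine EAClass_ext hR K p.rangeRestrict hK fun L _ g hg hL hl => ?_
    have hN : ∀ l, (f.comp g) l ∈ N := by
      intro l
      have h3 : p (g l) = 1 := congrArg Subtype.val (hl l)
      exact (QuotientGroup.eq_one_iff _).1 h3
    refine ih1 ((f.comp g).codRestrict N hN) ?_ hL
    intro a b hab
    exact hg (hf (congrArg Subtype.val hab))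
  | loc G h ih =>
    have := hK
    refine ih f.range ((Group.fg_iff_subgroup_fg _).1 (Group.fg_range f)) f.rangeRestrict ?_ hK
    intro a b hab
    exact hf (congrArg Subtype.val hab)

end Pool.Agent.Helper83.SV
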