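import Pool.Agent.Helper83.SV.Defs

/-!
# SV-3: the orbit lemma for tame sets

Let `w (z, y)` be a word. Apply tameness of `S` to the word
`w (z, y' * (y a y⁻¹) * y'')` with the parameters `z, y', a, y''`: this gives a finite `E ⊆ S`
(make it work for `A` and the inverses; the word with `a⁻¹` as parameter is the same word).
`P_E = closure {e a e⁻¹ : a ∈ A, e ∈ E}` is tame; let `E'` be its window for `w`. Assume
`w (z, φ e) = 1` for `e ∈ E'`, so for all elements of `P_E`. Claim: for all `g` in
`closure {s a s⁻¹}` and all `h ∈ P_E`, `w (z, φ (g h)) = 1`; by right closure induction on `g`: for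
`g c h` with `c = s a ^ (± 1) s⁻¹` it suffices by the choice of `E` to have it for
`c = e a ^ (± 1) e⁻¹`, `e ∈ E`, and then `c h ∈ P_E`.
-/

namespace Pool.Agent.Helper83.SV

open Pool.Agent.Helper32.SmallVar Pool.Agent.Helper13.PV
open scoped commutatorElement

variable {L : Set (FreeGroup ℕ)}

/-- The substitution `y ↦ p * (y * a * y⁻¹) * q`. -/
private def orbSub (ι : Type) : FreeGroup (Option ι) →* FreeGroup (Option (ι ⊕ Fin 3)) :=
  FreeGroup.lift fun o => o.elim
    (FreeGroup.of (some (Sum.inr 0)) *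
      (FreeGroup.of none * FreeGroup.of (some (Sum.inr 1)) * (FreeGroup.of none)⁻¹) *
      FreeGroup.of (some (Sum.inr 2)))
    (fun i => FreeGroup.of (some (Sum.inl i)))

private theorem ev_orbSub {ι H : Type} [Group H] (z : ι → H) (p a q y : H)
    (w : FreeGroup (Option ι)) :
    ev (Sum.elim z ![p, a, q]) y (orbSub ι w) = ev z (p * (y * a * y⁻¹) * q) w := by
  have h : (ev (Sum.elim z ![p, a, q]) y).comp (orbSub ι) = ev z (p * (y * a * y⁻¹) * q) := by
    apply FreeGroup.ext_hom
    intro o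
    cases o with
    | none => simp [ev, orbSub]
    | some i => simp [ev, orbSub]
  exact congrArg (fun f => f w) h

theorem tame_orbit {G : Type} [Group G] {S : Set G} (A : Set G) (hS : Tame L S)
    (h : ∀ E : Finset G, (E : Set G) ⊆ S →
      Tame L (Subgroup.closure {g | ∃ a ∈ A, ∃ e ∈ E, g = e * a * e⁻¹} : Set G)) :
    Tame L (Subgroup.closure {g | ∃ a ∈ A, ∃ s ∈ S, g = s * a * s⁻¹} : Set G) := by
  intro ι _ w
  obtain ⟨E, hES, hE⟩ := hS (ι ⊕ Fin 3) (orbSub ι w)
  obtain ⟨E', hE'P, hE'⟩ := h E hES ι w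
  refine ⟨E', ?_, ?_⟩
  · refine hE'P.trans ?_
    have h1 : Subgroup.closure {g | ∃ a ∈ A, ∃ e ∈ E, g = e * a * e⁻¹} ≤
        Subgroup.closure {g | ∃ a ∈ A, ∃ s ∈ S, g = s * a * s⁻¹} := by
      apply Subgroup.closure_mono
      rintro g ⟨a, ha, e, he, rfl⟩
      exact ⟨a, ha, e, hES he, rfl⟩
    exact h1
  · intro H _ hH φ z hz
    have hP := hE' H hH φ z hz
    -- the key step
    have step : ∀ (g c : G) (b : G) (s : G), s ∈ S → c = s * b * s⁻¹ →
        (b ∈ A ∨ b⁻¹ ∈ A) →
        (∀ k ∈ Subgroup.closure {g | ∃ a ∈ A, ∃ e ∈ E, g = e * a * e⁻¹}, ev z (φ (g * k)) w = 1) →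
        ∀ k ∈ Subgroup.closure {g | ∃ a ∈ A, ∃ e ∈ E, g = e * a * e⁻¹},
          ev z (φ (g * c * k)) w = 1 := by
      intro g c b s hs hc hb hg k hk
      have h2 := hE H hH φ (Sum.elim z ![φ g, φ b, φ k]) (by
        intro e he
        rw [ev_orbSub]
        have h3 : φ g * (φ e * φ b * (φ e)⁻¹) * φ k = φ (g * (e * b * e⁻¹ * k)) := by
          simp [mul_assoc]
        rw [h3]
        apply hg
        apply Subgroup.mul_mem _ _ hk
        rcases hb with hb | hb
        · exact Subgroup.subset_closure ⟨b, hb, e, he, rfl⟩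
        · have h4 : e * b * e⁻¹ = (e * b⁻¹ * e⁻¹)⁻¹ := by
            group
          rw [h4]
          exact Subgroup.inv_mem _ (Subgroup.subset_closure ⟨b⁻¹, hb, e, he, rfl⟩)) s hs
      rw [ev_orbSub] at h2
      have h3 : φ g * (φ s * φ b * (φ s)⁻¹) * φ k = φ (g * c * k) := by
        rw [hc]
        simp [mul_assoc]
      rw [h3] at h2
      exact h2
    have main : ∀ g ∈ Subgroup.closure {g | ∃ a ∈ A, ∃ s ∈ S, g = s * a * s⁻¹},
        ∀ k ∈ Subgroup.closure {g | ∃ a ∈ A, ∃ e ∈ E, g = e * a * e⁻¹},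
          ev z (φ (g * k)) w = 1 := by
      intro g hg
      induction hg using Subgroup.closure_induction_right with
      | one =>
        intro k hk
        rw [one_mul]
        exact hP k hk
      | mul_right x hx y hy ih =>
        obtain ⟨a, ha, s, hs, rfl⟩ := hy
        exact step x _ a s hs rfl (Or.inl ha) ih
      | mul_inv_cancel x hx y hy ih =>
        obtain ⟨a, ha, s, hs, rfl⟩ := hy
        refine step x _ a⁻¹ s hs ?_ (Or.inr ?_) ih
        · group
        · rw [inv_inv]
          exact ha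
    intro s hs
    have h5 := main s hs 1 (Subgroup.one_mem _)
    rw [mul_one] at h5
    exact h5

end Pool.Agent.Helper83.SV
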