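import Pool.Agent.Helper83.SV.Tame
import Pool.Agent.Helper83.SV.Orbit

/-!
# SV-4: finitely generated groups in `EAs` are tame

`fg_cyc`: write the generators as `x ^ n h` with `h ∈ H`; `A` = these `h`, and `x ^ m` if
`x ^ m ∈ H` where `m` generates `{n : x ^ n ∈ H}` (`m = 0` is possible). Let
`P = closure {x ^ j a x ^ (-j)}`: it is normalised by `x`, and `⟨x⟩ P` is a subgroup containing the
generators, so it is `⊤`. If `h ∈ H`, `h = x ^ j p`, so `x ^ j ∈ H`, `x ^ j ∈ P`.

`tame_of_eas`: induction on `EAs`. Abelian: the group is the product of the cyclic groups generated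
by the generators. Step: `A` from `fg_cyc`; for finite `E ⊆ zpowers x`,
`K = closure {e a e⁻¹}` is a finitely generated subgroup contained in `H`, so tame by induction
(`tame_image` for `K.subtype`); `tame_orbit` gives that `H` is tame, and `⊤ = ⟨x⟩ H`, `tame_mul`.

`tame_normal`: if `H` is the normal closure of a finite set `A`: `tame_orbit` with `S = univ`.
-/

namespace Pool.Agent.Helper83.SV

open Pool.Agent.Helper32.SmallVar Pool.Agent.Helper13.PV
open scoped commutatorElement Pointwise

variable {L : Set (FreeGroup ℕ)}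

theorem fg_cyc {G : Type} [Group G] (hG : Group.FG G) (H : Subgroup G) (hH : H.Normal) (x : G)
    (hx : ∀ g : G, ∃ n : ℤ, ∃ h ∈ H, g = x ^ n * h) :
    ∃ A : Finset G, (A : Set G) ⊆ H ∧
      Subgroup.closure {g | ∃ a ∈ A, ∃ s ∈ Subgroup.zpowers x, g = s * a * s⁻¹} = H := by
  classical
  obtain ⟨S, hS⟩ := (Group.fg_def.1 hG : (⊤ : Subgroup G).FG)
  choose n h hh hn using hx
  -- the exponents `n` with `x ^ n ∈ H`
  let Z : AddSubgroup ℤ :=
    { carrier := {k | x ^ k ∈ H}
      add_mem' := fun {a b} ha hb => by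
        change x ^ (a + b) ∈ H
        rw [zpow_add]
        exact H.mul_mem ha hb
      zero_mem' := by
        change x ^ (0 : ℤ) ∈ H
        rw [zpow_zero]
        exact H.one_mem
      neg_mem' := fun {a} ha => by
        change x ^ (-a) ∈ H
        rw [zpow_neg]
        exact H.inv_mem ha }
  obtain ⟨m, hm⟩ := Int.subgroup_cyclic Z
  have hmZ : x ^ m ∈ H := by
    have h1 : m ∈ Z := by
      rw [hm]
      exact AddSubgroup.subset_closure rfl
    exact h1
  refine ⟨insert (x ^ m) (S.image h), ?_, ?_⟩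
  · intro a ha
    rw [Finset.mem_coe, Finset.mem_insert, Finset.mem_image] at ha
    rcases ha with rfl | ⟨s, -, rfl⟩
    · exact hmZ
    · exact hh s
  · set A : Finset G := insert (x ^ m) (S.image h) with hA
    have hAH : ∀ a ∈ A, a ∈ H := by
      intro a ha
      rw [hA, Finset.mem_insert, Finset.mem_image] at ha
      rcases ha with rfl | ⟨s, -, rfl⟩
      · exact hmZ
      · exact hh s
    set P : Subgroup G :=
      Subgroup.closure {g | ∃ a ∈ A, ∃ s ∈ Subgroup.zpowers x, g = s * a * s⁻¹} with hP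
    have hAP : ∀ a ∈ A, a ∈ P := by
      intro a ha
      exact Subgroup.subset_closure ⟨a, ha, 1, Subgroup.one_mem _, by group⟩
    have hPH : P ≤ H := by
      rw [hP, Subgroup.closure_le]
      rintro g ⟨a, ha, s, -, rfl⟩
      exact hH.conj_mem a (hAH a ha) s
    have hconj : ∀ k : ℤ, ∀ p ∈ P, x ^ k * p * (x ^ k)⁻¹ ∈ P := by
      intro k p hp
      induction hp using Subgroup.closure_induction with
      | mem y hy =>
        obtain ⟨a, ha, s, hs, rfl⟩ := hy
        refine Subgroup.subset_closure ⟨a, ha, x ^ k * s,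
          Subgroup.mul_mem _ (Subgroup.zpow_mem_zpowers x k) hs, by group⟩
      | one =>
        have h1 : x ^ k * 1 * (x ^ k)⁻¹ = 1 := by group
        rw [h1]
        exact P.one_mem
      | mul y z _ _ hy hz =>
        have h1 : x ^ k * (y * z) * (x ^ k)⁻¹ =
            (x ^ k * y * (x ^ k)⁻¹) * (x ^ k * z * (x ^ k)⁻¹) := by group
        rw [h1]
        exact P.mul_mem hy hz
      | inv y _ hy =>
        have h1 : x ^ k * y⁻¹ * (x ^ k)⁻¹ = (x ^ k * y * (x ^ k)⁻¹)⁻¹ := by group
        rw [h1]
        exact P.inv_mem hy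
    have hall : ∀ g : G, ∃ k : ℤ, ∃ p ∈ P, g = x ^ k * p := by
      intro g
      have hg : g ∈ Subgroup.closure (S : Set G) := by
        rw [hS]
        exact Subgroup.mem_top g
      induction hg using Subgroup.closure_induction with
      | mem y hy =>
        refine ⟨n y, h y, hAP _ ?_, hn y⟩
        rw [hA, Finset.mem_insert]
        exact Or.inr (Finset.mem_image_of_mem h hy)
      | one => exact ⟨0, 1, P.one_mem, by simp⟩
      | mul y z _ _ hy hz =>
        obtain ⟨k, p, hp, rfl⟩ := hy
        obtain ⟨l, q, hq, rfl⟩ := hz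
        refine ⟨k + l, (x ^ (-l) * p * (x ^ (-l))⁻¹) * q, P.mul_mem (hconj _ _ hp) hq, ?_⟩
        rw [zpow_add, zpow_neg]
        group
      | inv y _ hy =>
        obtain ⟨k, p, hp, rfl⟩ := hy
        refine ⟨-k, x ^ k * p⁻¹ * (x ^ k)⁻¹, hconj _ _ (P.inv_mem hp), ?_⟩
        rw [zpow_neg]
        group
    refine le_antisymm hPH fun g hg => ?_
    obtain ⟨k, p, hp, hgk⟩ := hall g
    have h1 : x ^ k ∈ H := by
      have h2 : x ^ k = g * p⁻¹ := by rw [hgk]; group
      rw [h2]
      exact H.mul_mem hg (H.inv_mem (hPH hp))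
    have h2 : k ∈ Z := h1
    rw [hm, AddSubgroup.mem_closure_singleton] at h2
    obtain ⟨j, hj⟩ := h2
    have h3 : x ^ k = (x ^ m) ^ j := by
      rw [← zpow_mul, ← hj, smul_eq_mul, mul_comm]
    rw [hgk, h3]
    exact P.mul_mem (P.zpow_mem (hAP _ (by rw [hA]; exact Finset.mem_insert_self _ _)) j) hp

private theorem EATame_fin {G : Type} [Group G] (A E : Finset G) :
    (Subgroup.closure {g | ∃ a ∈ (A : Set G), ∃ e ∈ E, g = e * a * e⁻¹}).FG := by
  rw [Subgroup.fg_iff]
  refine ⟨_, rfl, ?_⟩
  have h1 : {g : G | ∃ a ∈ (A : Set G), ∃ e ∈ E, g = e * a * e⁻¹} ⊆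
      (fun q : G × G => q.2 * q.1 * q.2⁻¹) '' ((A : Set G) ×ˢ (E : Set G)) := by
    rintro g ⟨a, ha, e, he, rfl⟩
    exact ⟨(a, e), ⟨ha, he⟩, rfl⟩
  exact ((A.finite_toSet.prod E.finite_toSet).image _).subset h1

private theorem EATame_sub {G : Type} [Group G] {K : Subgroup G}
    (h : Tame L (Set.univ : Set K)) : Tame L (K : Set G) := by
  have h1 := tame_image K.subtype h
  have h2 : K.subtype '' (Set.univ : Set K) = (K : Set G) := by
    rw [Set.image_univ]
    exact Subtype.range_coe
  rwa [h2] at h1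

private theorem EATame_comm (hL : AllHopfian L) {G : Type} [Group G]
    (hc : ∀ a b : G, a * b = b * a) (S : Finset G) :
    Tame L (Subgroup.closure (S : Set G) : Set G) := by
  classical
  induction S using Finset.induction_on with
  | empty =>
    rw [Finset.coe_empty, Subgroup.closure_empty]
    exact tame_finite (by rw [Subgroup.coe_bot]; exact Set.finite_singleton 1)
  | insert a S _ ih =>
    have h1 := tame_mul (tame_zpowers hL a) ih
    have h2 : (Subgroup.zpowers a : Set G) * (Subgroup.closure (S : Set G) : Set G) =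
        (Subgroup.closure ((insert a S : Finset G) : Set G) : Set G) := by
      apply Set.Subset.antisymm
      · rintro _ ⟨y, hy, z, hz, rfl⟩
        refine Subgroup.mul_mem _ ?_ ?_
        · obtain ⟨k, rfl⟩ := hy
          exact Subgroup.zpow_mem _ (Subgroup.subset_closure (by simp)) k
        · exact Subgroup.closure_mono (by simp) hz
      · intro g hg
        have hg' : g ∈ Subgroup.closure ((insert a S : Finset G) : Set G) := hg
        induction hg' using Subgroup.closure_induction with
        | mem y hy =>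
          rw [Finset.coe_insert, Set.mem_insert_iff] at hy
          rcases hy with rfl | hy
          · exact ⟨y, Subgroup.mem_zpowers y, 1, Subgroup.one_mem _, mul_one y⟩
          · exact ⟨1, Subgroup.one_mem _, y, Subgroup.subset_closure hy, one_mul y⟩
        | one => exact ⟨1, Subgroup.one_mem _, 1, Subgroup.one_mem _, mul_one 1⟩
        | mul y z hy' hz' hy hz =>
          obtain ⟨k, hk, p, hp, hkp⟩ := hy hy'
          obtain ⟨l, hl, q, hq, hlq⟩ := hz hz'
          refine ⟨k * l, Subgroup.mul_mem _ hk hl, p * q, Subgroup.mul_mem _ hp hq, ?_⟩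
          rw [← hkp, ← hlq]
          change k * l * (p * q) = k * p * (l * q)
          rw [mul_assoc, mul_assoc, ← mul_assoc l p q, hc l p, mul_assoc p l q]
        | inv y hy' hy =>
          obtain ⟨k, hk, p, hp, hkp⟩ := hy hy'
          refine ⟨k⁻¹, Subgroup.inv_mem _ hk, p⁻¹, Subgroup.inv_mem _ hp, ?_⟩
          rw [← hkp]
          change k⁻¹ * p⁻¹ = (k * p)⁻¹
          rw [mul_inv_rev, hc]
    rwa [h2] at h1

theorem tame_of_eas (hL : AllHopfian L) {G : Type} [Group G] (h : EAs G) (hG : Group.FG G) :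
    Tame L (Set.univ : Set G) := by
  induction h with
  | comm G hc =>
    obtain ⟨S, hS⟩ := (Group.fg_def.1 hG : (⊤ : Subgroup G).FG)
    have h1 := EATame_comm hL hc S
    rw [hS, Subgroup.coe_top] at h1
    exact h1
  | cyc G H hH x hx hK ih =>
    obtain ⟨A, hAH, hA⟩ := fg_cyc hG H hH x hx
    have h1 : Tame L (H : Set G) := by
      rw [← hA]
      refine tame_orbit (A : Set G) (tame_zpowers hL x) fun E hE => ?_
      have hFG := EATame_fin A E
      refine EATame_sub (ih _ (Subgroup.subtype _) (Subgroup.subtype_injective _) ?_ ?_ ?_)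
      · exact (Group.fg_iff_subgroup_fg _).2 hFG
      · intro k
        have h2 : Subgroup.closure {g | ∃ a ∈ (A : Set G), ∃ e ∈ E, g = e * a * e⁻¹} ≤ H := by
          rw [Subgroup.closure_le]
          rintro g ⟨a, ha, e, -, rfl⟩
          exact hH.conj_mem a (hAH ha) e
        exact h2 k.2
      · exact (Group.fg_iff_subgroup_fg _).2 hFG
    have h2 := tame_mul (tame_zpowers hL x) h1
    have h3 : (Subgroup.zpowers x : Set G) * (H : Set G) = Set.univ := by
      rw [Set.eq_univ_iff_forall]
      intro g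
      obtain ⟨n, h, hh, rfl⟩ := hx g
      exact ⟨x ^ n, Subgroup.zpow_mem_zpowers x n, h, hh, rfl⟩
    rwa [h3] at h2

theorem tame_normal (hL : AllHopfian L) {G : Type} [Group G] (hT : Tame L (Set.univ : Set G))
    (H : Subgroup G) (hH : H.Normal) (hf : FGN H)
    (hK : ∀ K : Subgroup G, K ≤ H → K.FG → Tame L (K : Set G)) : Tame L (H : Set G) := by
  obtain ⟨s, hs⟩ := hf
  have hsH : (s : Set G) ⊆ H := by
    rw [← hs]
    exact Subgroup.subset_normalClosure
  have h1 : Subgroup.closure {g | ∃ a ∈ (s : Set G), ∃ t ∈ (Set.univ : Set G), g = t * a * t⁻¹} =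
      H := by
    apply le_antisymm
    · rw [Subgroup.closure_le]
      rintro g ⟨a, ha, t, -, rfl⟩
      exact hH.conj_mem a (hsH ha) t
    · rw [← hs, Subgroup.normalClosure]
      refine Subgroup.closure_mono fun g hg => ?_
      rw [Group.mem_conjugatesOfSet_iff] at hg
      obtain ⟨a, ha, hag⟩ := hg
      obtain ⟨t, ht⟩ := isConj_iff.1 hag
      exact ⟨a, ha, t, Set.mem_univ t, ht.symm⟩
  rw [← h1]
  refine tame_orbit (s : Set G) hT fun E _ => ?_
  refine hK _ ?_ (EATame_fin s E)
  rw [Subgroup.closure_le]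
  rintro g ⟨a, ha, e, -, rfl⟩
  exact hH.conj_mem a (hsH ha) e

end Pool.Agent.Helper83.SV
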