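import Pool.Agent.Helper83.SV.EAClass
import Pool.Agent.Helper83.SV.EATame

/-!
# SV-E1: elementary amenable groups

The analogues for `ElemAmen` and `EAf` of `EAs.of_inj`, `eas_of_elemSol` (`EAClass.lean`) and
`tame_of_eas` (`EATame.lean`), with the same proofs; the new cases are easy: in `EAf.of_inj` take
`H.comap f`, of finite index; in the extension claim of `eas_of_elemSol` for
`Q` with `H` of finite index take `H.comap g`; a finite group is in `EAf` (with `H = ⊥`; groups
embedded in `⊥` are abelian). Tameness: if `H` has finite index in `G` (finitely generated), then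
`H` is finitely generated, so in `EAf` and tame, and `G` is the product of a finite set and `H`.
-/

namespace Pool.Agent.Helper83.SV

open Pool.Agent.Helper32.SmallVar Pool.Agent.Helper13.PV
open scoped commutatorElement Pointwise

/-- Elementary amenable groups: the smallest class of groups which contains the abelian and the
finite groups and is closed under extensions and local closure. -/
inductive ElemAmen : ∀ (G : Type) [Group G], Prop
  | comm (G : Type) [Group G] (h : ∀ a b : G, a * b = b * a) : ElemAmen G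
  | finite (G : Type) [Group G] (h : Finite G) : ElemAmen G
  | ext (G : Type) [Group G] (N : Subgroup G) [N.Normal] (h1 : ElemAmen N)
      (h2 : ElemAmen (G ⧸ N)) : ElemAmen G
  | loc (G : Type) [Group G] (h : ∀ K : Subgroup G, K.FG → ElemAmen K) : ElemAmen G

/-- The technical variant, compare `EAs`. -/
inductive EAf : ∀ (G : Type) [Group G], Prop
  | comm (G : Type) [Group G] (h : ∀ a b : G, a * b = b * a) : EAf G
  | cyc (G : Type) [Group G] (H : Subgroup G) (hH : H.Normal) (x : G)
      (hx : ∀ g : G, ∃ n : ℤ, ∃ h ∈ H, g = x ^ n * h)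
      (hK : ∀ (K : Type) [Group K] (f : K →* G), Function.Injective f → Group.FG K →
        (∀ k, f k ∈ H) → EAf K) : EAf G
  | fin (G : Type) [Group G] (H : Subgroup G) (hH : H.Normal) (hf : H.FiniteIndex)
      (hK : ∀ (K : Type) [Group K] (f : K →* G), Function.Injective f → Group.FG K →
        (∀ k, f k ∈ H) → EAf K) : EAf G

/-- Pulling back a cyclic quotient along a homomorphism. -/
private theorem EAm_cyc {K G : Type} [Group K] [Group G] (f : K →* G) (H : Subgroup G)
    (hH : H.Normal) (x : G) (hx : ∀ k : K, ∃ n : ℤ, ∃ h ∈ H, f k = x ^ n * h) :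
    ∃ x' : K, ∀ k : K, ∃ n : ℤ, ∃ h ∈ H.comap f, k = x' ^ n * h := by
  have := hH
  let p : K →* G ⧸ H := (QuotientGroup.mk' H).comp f
  have hle : p.range ≤ Subgroup.zpowers (QuotientGroup.mk' H x) := by
    rintro _ ⟨k, rfl⟩
    obtain ⟨n, h, hh, hk⟩ := hx k
    refine ⟨n, ?_⟩
    change (QuotientGroup.mk' H x) ^ n = QuotientGroup.mk' H (f k)
    rw [hk, map_mul, map_zpow]
    have h1 : QuotientGroup.mk' H h = 1 := (QuotientGroup.eq_one_iff h).2 hh
    rw [h1, mul_one]
  have hc : IsCyclic p.range := Subgroup.isCyclic_of_le hle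
  obtain ⟨⟨y, hy⟩, hgen⟩ := hc.exists_generator
  obtain ⟨x', rfl⟩ := hy
  refine ⟨x', fun k => ?_⟩
  obtain ⟨n, hn⟩ := hgen ⟨p k, k, rfl⟩
  have hn' : (p x') ^ n = p k := by
    have h1 := congrArg Subtype.val hn
    simpa using h1
  refine ⟨n, (x' ^ n)⁻¹ * k, ?_, by group⟩
  rw [Subgroup.mem_comap]
  have h2 : p ((x' ^ n)⁻¹ * k) = 1 := by
    rw [map_mul, map_inv, map_zpow, hn', inv_mul_cancel]
  exact (QuotientGroup.eq_one_iff _).1 h2

private theorem EAm_fi {K G : Type} [Group K] [Group G] (f : K →* G) (H : Subgroup G)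
    (h : H.FiniteIndex) : (H.comap f).FiniteIndex :=
  ⟨by
    rw [Subgroup.index_comap]
    exact Subgroup.FiniteIndex.index_ne_zero (H := H.subgroupOf f.range)⟩

theorem EAf.of_inj {G : Type} [Group G] (h : EAf G) {K : Type} [Group K] (f : K →* G)
    (hf : Function.Injective f) : EAf K := by
  cases h with
  | comm _ h =>
    exact EAf.comm K fun a b => hf (by rw [map_mul, map_mul, h])
  | cyc _ H hH x hx hK =>
    obtain ⟨x', hx'⟩ := EAm_cyc f H hH x fun k => hx (f k)
    exact EAf.cyc K (H.comap f) (hH.comap f) x' hx' fun K'' _ f'' hi hfg hm =>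
      hK K'' (f.comp f'') (hf.comp hi) hfg hm
  | fin _ H hH hfi hK =>
    exact EAf.fin K (H.comap f) (hH.comap f) (EAm_fi f H hfi) fun K'' _ f'' hi hfg hm =>
      hK K'' (f.comp f'') (hf.comp hi) hfg hm

private theorem EAm_ab {Q : Type} [Group Q] (hc : ∀ a b : Q, a * b = b * a) (S : Finset Q) :
    ∀ (K : Type) [Group K] (g : K →* Q), Group.FG K →
      g.range ≤ Subgroup.closure (S : Set Q) →
      (∀ (L : Type) [Group L] (f : L →* K), Function.Injective f → Group.FG L →
        (∀ l, g (f l) = 1) → EAf L) → EAf K := by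
  classical
  induction S using Finset.induction_on with
  | empty =>
    intro K _ g hfg hr hL
    refine hL K (MonoidHom.id K) (fun a b hab => hab) hfg fun l => ?_
    have h1 : g l ∈ Subgroup.closure ((∅ : Finset Q) : Set Q) := hr ⟨l, rfl⟩
    rw [Finset.coe_empty, Subgroup.closure_empty, Subgroup.mem_bot] at h1
    exact h1
  | insert a S _ ih =>
    intro K _ g hfg hr hL
    have hN : (Subgroup.closure (S : Set Q)).Normal :=
      ⟨fun n hn b => by rw [hc b n, mul_assoc, mul_inv_cancel, mul_one]; exact hn⟩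
    have hx : ∀ q ∈ Subgroup.closure ((insert a S : Finset Q) : Set Q), ∃ n : ℤ,
        ∃ h ∈ Subgroup.closure (S : Set Q), q = a ^ n * h := by
      intro q hq
      induction hq using Subgroup.closure_induction with
      | mem y hy =>
        rw [Finset.coe_insert, Set.mem_insert_iff] at hy
        rcases hy with rfl | hy
        · exact ⟨1, 1, Subgroup.one_mem _, by simp⟩
        · exact ⟨0, y, Subgroup.subset_closure hy, by simp⟩
      | one => exact ⟨0, 1, Subgroup.one_mem _, by simp⟩
      | mul y z _ _ hy hz =>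
        obtain ⟨k, p, hp, rfl⟩ := hy
        obtain ⟨l, q, hq, rfl⟩ := hz
        refine ⟨k + l, p * q, Subgroup.mul_mem _ hp hq, ?_⟩
        rw [zpow_add, mul_assoc, mul_assoc, ← mul_assoc p, hc p, mul_assoc]
      | inv y _ hy =>
        obtain ⟨k, p, hp, rfl⟩ := hy
        refine ⟨-k, p⁻¹, Subgroup.inv_mem _ hp, ?_⟩
        rw [mul_inv_rev, zpow_neg, hc]
    obtain ⟨x', hx'⟩ := EAm_cyc g (Subgroup.closure (S : Set Q)) hN a
      fun k => hx (g k) (hr ⟨k, rfl⟩)
    refine EAf.cyc K _ (hN.comap g) x' hx' fun K'' _ f'' hi hfg'' hm => ?_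
    refine ih K'' (g.comp f'') hfg'' ?_ fun L _ f hf hLfg hl =>
      hL L (f''.comp f) (hi.comp hf) hLfg hl
    rintro _ ⟨k, rfl⟩
    exact hm k

private theorem EAm_ext {Q : Type} [Group Q] (hQ : EAf Q) :
    ∀ (K : Type) [Group K] (g : K →* Q), Group.FG K →
      (∀ (L : Type) [Group L] (f : L →* K), Function.Injective f → Group.FG L →
        (∀ l, g (f l) = 1) → EAf L) → EAf K := by
  classical
  induction hQ with
  | comm Q hc =>
    intro K _ g hfg hL
    obtain ⟨T, hT⟩ := (Group.fg_def.1 hfg : (⊤ : Subgroup K).FG)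
    refine EAm_ab hc (T.image g) K g hfg ?_ hL
    rw [MonoidHom.range_eq_map, ← hT, MonoidHom.map_closure, Finset.coe_image]
  | cyc Q H hH x hx hK ih =>
    intro K _ g hfg hL
    obtain ⟨x', hx'⟩ := EAm_cyc g H hH x fun k => hx (g k)
    refine EAf.cyc K _ (hH.comap g) x' hx' fun K'' _ f'' hi hfg'' hm => ?_
    have := hfg''
    refine ih (g.comp f'').range (Subgroup.subtype _) (Subgroup.subtype_injective _)
      (Group.fg_range _) ?_ K'' (g.comp f'').rangeRestrict hfg'' fun L _ f hf hLfg hl => ?_
    · rintro ⟨_, k, rfl⟩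
      exact hm k
    · exact hL L (f''.comp f) (hi.comp hf) hLfg fun l => congrArg Subtype.val (hl l)
  | fin Q H hH hfi hK ih =>
    intro K _ g hfg hL
    refine EAf.fin K _ (hH.comap g) (EAm_fi g H hfi) fun K'' _ f'' hi hfg'' hm => ?_
    have := hfg''
    refine ih (g.comp f'').range (Subgroup.subtype _) (Subgroup.subtype_injective _)
      (Group.fg_range _) ?_ K'' (g.comp f'').rangeRestrict hfg'' fun L _ f hf hLfg hl => ?_
    · rintro ⟨_, k, rfl⟩
      exact hm k
    · exact hL L (f''.comp f) (hi.comp hf) hLfg fun l => congrArg Subtype.val (hl l)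

theorem eaf_of_elemAmen {G : Type} [Group G] (h : ElemAmen G) {K : Type} [Group K] (f : K →* G)
    (hf : Function.Injective f) (hK : Group.FG K) : EAf K := by
  induction h generalizing K with
  | comm G h => exact EAf.comm K fun a b => hf (by rw [map_mul, map_mul, h])
  | finite G h =>
    have hKf : Finite K := Finite.of_injective f hf
    refine EAf.fin K ⊥ inferInstance inferInstance fun K'' _ f'' hi _ hm => ?_
    refine EAf.comm K'' fun a b => hi ?_
    have h1 : ∀ k, f'' k = 1 := fun k => Subgroup.mem_bot.1 (hm k)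
    rw [h1, h1]
  | ext G N h1 h2 ih1 ih2 =>
    let p : K →* G ⧸ N := (QuotientGroup.mk' N).comp f
    have := hK
    have hR : EAf p.range := ih2 p.range.subtype (Subgroup.subtype_injective _) (Group.fg_range p)
    refine EAm_ext hR K p.rangeRestrict hK fun L _ g hg hL hl => ?_
    have hN : ∀ l, (f.comp g) l ∈ N := by
      intro l
      have h3 : p (g l) = 1 := congrArg Subtype.val (hl l)
      exact (QuotientGroup.eq_one_iff _).1 h3
    refine ih1 ((f.comp g).codRestrict N hN) ?_ hL
    intro a b hab
    exact hg (hf (congrArg Subtype.val hab))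
  | loc G h ih =>
    have := hK
    refine ih f.range ((Group.fg_iff_subgroup_fg _).1 (Group.fg_range f)) f.rangeRestrict ?_ hK
    intro a b hab
    exact hf (congrArg Subtype.val hab)

variable {L : Set (FreeGroup ℕ)}

private theorem EAm_fin {G : Type} [Group G] (A E : Finset G) :
    (Subgroup.closure {g | ∃ a ∈ (A : Set G), ∃ e ∈ E, g = e * a * e⁻¹}).FG := by
  rw [Subgroup.fg_iff]
  refine ⟨_, rfl, ?_⟩
  have h1 : {g : G | ∃ a ∈ (A : Set G), ∃ e ∈ E, g = e * a * e⁻¹} ⊆
      (fun q : G × G => q.2 * q.1 * q.2⁻¹) '' ((A : Set G) ×ˢ (E : Set G)) := by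
    rintro g ⟨a, ha, e, he, rfl⟩
    exact ⟨(a, e), ⟨ha, he⟩, rfl⟩
  exact ((A.finite_toSet.prod E.finite_toSet).image _).subset h1

private theorem EAm_sub {G : Type} [Group G] {K : Subgroup G}
    (h : Tame L (Set.univ : Set K)) : Tame L (K : Set G) := by
  have h1 := tame_image K.subtype h
  have h2 : K.subtype '' (Set.univ : Set K) = (K : Set G) := by
    rw [Set.image_univ]
    exact Subtype.range_coe
  rwa [h2] at h1

private theorem EAm_comm (hL : AllHopfian L) {G : Type} [Group G]
    (hc : ∀ a b : G, a * b = b * a) (S : Finset G) :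
    Tame L (Subgroup.closure (S : Set G) : Set G) := by
  classical
  induction S using Finset.induction_on with
  | empty =>
    rw [Finset.coe_empty, Subgroup.closure_empty]
    exact tame_finite (by rw [Subgroup.coe_bot]; exact Set.finite_singleton 1)
  | insert a S _ ih =>
    have h1 := tame_mul (tame_zpowers hL a) ih
    have h2 : (Subgroup.zpowers a : Set G) * (Subgroup.closure (S : Set G) : Set G) =
        (Subgroup.closure ((insert a S : Finset G) : Set G) : Set G) := by
      apply Set.Subset.antisymm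
      · rintro _ ⟨y, hy, z, hz, rfl⟩
        refine Subgroup.mul_mem _ ?_ ?_
        · obtain ⟨k, rfl⟩ := hy
          exact Subgroup.zpow_mem _ (Subgroup.subset_closure (by simp)) k
        · exact Subgroup.closure_mono (by simp) hz
      · intro g hg
        have hg' : g ∈ Subgroup.closure ((insert a S : Finset G) : Set G) := hg
        induction hg' using Subgroup.closure_induction with
        | mem y hy =>
          rw [Finset.coe_insert, Set.mem_insert_iff] at hy
          rcases hy with rfl | hy
          · exact ⟨y, Subgroup.mem_zpowers y, 1, Subgroup.one_mem _, mul_one y⟩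
          · exact ⟨1, Subgroup.one_mem _, y, Subgroup.subset_closure hy, one_mul y⟩
        | one => exact ⟨1, Subgroup.one_mem _, 1, Subgroup.one_mem _, mul_one 1⟩
        | mul y z hy' hz' hy hz =>
          obtain ⟨k, hk, p, hp, hkp⟩ := hy hy'
          obtain ⟨l, hl, q, hq, hlq⟩ := hz hz'
          refine ⟨k * l, Subgroup.mul_mem _ hk hl, p * q, Subgroup.mul_mem _ hp hq, ?_⟩
          rw [← hkp, ← hlq]
          change k * l * (p * q) = k * p * (l * q)
          rw [mul_assoc, mul_assoc, ← mul_assoc l p q, hc l p, mul_assoc p l q]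
        | inv y hy' hy =>
          obtain ⟨k, hk, p, hp, hkp⟩ := hy hy'
          refine ⟨k⁻¹, Subgroup.inv_mem _ hk, p⁻¹, Subgroup.inv_mem _ hp, ?_⟩
          rw [← hkp]
          change k⁻¹ * p⁻¹ = (k * p)⁻¹
          rw [mul_inv_rev, hc]
    rwa [h2] at h1

theorem tame_of_eaf {L : Set (FreeGroup ℕ)} (hL : AllHopfian L) {G : Type} [Group G]
    (h : EAf G) (hG : Group.FG G) : Tame L (Set.univ : Set G) := by
  induction h with
  | comm G hc =>
    obtain ⟨S, hS⟩ := (Group.fg_def.1 hG : (⊤ : Subgroup G).FG)
    have h1 := EAm_comm hL hc S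
    rw [hS, Subgroup.coe_top] at h1
    exact h1
  | cyc G H hH x hx hK ih =>
    obtain ⟨A, hAH, hA⟩ := fg_cyc hG H hH x hx
    have h1 : Tame L (H : Set G) := by
      rw [← hA]
      refine tame_orbit (A : Set G) (tame_zpowers hL x) fun E hE => ?_
      have hFG := EAm_fin A E
      refine EAm_sub (ih _ (Subgroup.subtype _) (Subgroup.subtype_injective _) ?_ ?_ ?_)
      · exact (Group.fg_iff_subgroup_fg _).2 hFG
      · intro k
        have h2 : Subgroup.closure {g | ∃ a ∈ (A : Set G), ∃ e ∈ E, g = e * a * e⁻¹} ≤ H := by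
          rw [Subgroup.closure_le]
          rintro g ⟨a, ha, e, -, rfl⟩
          exact hH.conj_mem a (hAH ha) e
        exact h2 k.2
      · exact (Group.fg_iff_subgroup_fg _).2 hFG
    have h2 := tame_mul (tame_zpowers hL x) h1
    have h3 : (Subgroup.zpowers x : Set G) * (H : Set G) = Set.univ := by
      rw [Set.eq_univ_iff_forall]
      intro g
      obtain ⟨n, h, hh, rfl⟩ := hx g
      exact ⟨x ^ n, Subgroup.zpow_mem_zpowers x n, h, hh, rfl⟩
    rwa [h3] at h2
  | fin G H hH hfi hK ih =>
    have := hG
    have := hfi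
    have hfg : Group.FG H := Subgroup.fg_of_index_ne_zero H
    have h1 : Tame L (H : Set G) :=
      EAm_sub (ih H H.subtype (Subgroup.subtype_injective _) hfg (fun k => k.2) hfg)
    let o : G ⧸ H → G := fun q => Quotient.out q
    have h0 : (Set.range o).Finite := Set.finite_range o
    have h2 := tame_mul (tame_finite (L := L) h0) h1
    have h3 : Set.range o * (H : Set G) = Set.univ := by
      rw [Set.eq_univ_iff_forall]
      intro g
      refine ⟨o (QuotientGroup.mk g : G ⧸ H), ⟨_, rfl⟩,
        (o (QuotientGroup.mk g : G ⧸ H))⁻¹ * g, ?_, mul_inv_cancel_left _ _⟩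
      rw [SetLike.mem_coe, ← QuotientGroup.eq]
      exact Quotient.out_eq _
    rwa [h3] at h2

end Pool.Agent.Helper83.SV
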