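import Pool.Agent.Helper83.SV.Word

/-!
# SV-9: elimination of the powers of `ξ`

By `word_normal` the word `g_t` of the term `t` of `D` has the value `f (P_t β) ξ ^ a_t`. Let `R₀`
be the sum of the `|a_t|` and let `T` consist of the `(ε_t, j_t, P_t)` with `a_t = 0`.
Let `S = MonoidAlgebra ℤ E` (commutative), `Φ : S →+* R` the extension of `f`
(`MonoidAlgebra.lift`), `I` its kernel. The identity `RId D (f β) ξ` reads
`∑_a Φ (κ_a) ξ ^ a = 0` (finite sum),
with `κ_0 = β - 1 - ∑_(t, a_t = 0) ε_t P_t(β) (σ^(j_t) β - 1)`. Elimination: for `b ∈ E` and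
`a₁ ≠ 0`, `(∑ Φ (κ_a) ξ ^ a) Φ (b) - Φ (σ^(a₁) b) (∑ Φ (κ_a) ξ ^ a)
= ∑ Φ (κ_a (σ^a b - σ^(a₁) b)) ξ ^ a` has no term for `a₁`, and the new `κ_0` is
`κ_0 (b - σ^(a₁) b)`. So `κ_0 ∏_(a ≠ 0) (b_a - σ^a b_a) ∈ I` for all choices of `b_a ∈ E`, the
product over the finitely many `a ≠ 0` which occur. Let `𝔭 ⊇ I` be a prime ideal of `S`,
`L = S ⧸ 𝔭`, `χ : E → L`. Either for some `a` all `b - σ^a b` are in `𝔭` (then
`χ (σ^a β) = χ β` for all `β`; for `a < 0` substitute `σ^(-a) β`), or for suitable `b_a` the product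
is not in `𝔭` and `κ_0 (β) ∈ 𝔭` for all `β`: the second alternative. So by
the hypothesis `β₀ - 1 ∈ 𝔭` for all `𝔭`, hence `β₀ - 1 ∈ I.radical` (`Ideal.radical_eq_sInf`).
-/

namespace Pool.Agent.Helper83.SV

theorem conj_zpow {G E : Type} [Group G] [CommGroup E] (f : E →* G) (σ : MulAut E) (ξ : G)
    (h : ∀ e, ξ * f e * ξ⁻¹ = f (σ e)) (a : ℤ) (e : E) :
    ξ ^ a * f e * (ξ ^ a)⁻¹ = f ((σ ^ a) e) := by
  have h1 : ∀ e, ξ * f e = f (σ e) * ξ := fun e => by rw [← h]; group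
  have key : (MulAut.conj (ξ ^ a)) (f e) = f ((σ ^ a) e) := by
    induction a using Int.induction_on generalizing e with
    | zero => simp
    | succ n ih =>
      rw [zpow_add, zpow_one, map_mul, MulAut.mul_apply, MulAut.conj_apply ξ, h, ih, zpow_add,
        zpow_one, MulAut.mul_apply]
    | pred n ih =>
      have h2 : ∀ e, ξ⁻¹ * f e * ξ = f (σ⁻¹ e) := by
        intro e
        have := h1 (σ⁻¹ e)
        rw [MulAut.apply_inv_self] at this
        rw [← mul_left_inj (a := ξ⁻¹), mul_assoc, mul_inv_cancel, mul_one, ← mul_right_inj ξ,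
          mul_inv_cancel_left]
        rw [← mul_assoc, this]
        group
      rw [sub_eq_add_neg, zpow_add, zpow_neg_one, map_mul, MulAut.mul_apply, MulAut.conj_apply ξ⁻¹,
        inv_inv, h2, ih, zpow_add, zpow_neg_one, MulAut.mul_apply]
  rw [MulAut.conj_apply] at key
  exact key

theorem elim_aux {R : Type} [Ring R] {E : Type} [CommGroup E] (f : E →* Rˣ) (σ : MulAut E)
    (ξ : Rˣ) (h : ∀ e, ξ * f e * ξ⁻¹ = f (σ e)) (Φ : MonoidAlgebra ℤ E →+* R)
    (hΦ : ∀ e, Φ (MonoidAlgebra.of ℤ E e) = (f e : R)) (b : ℤ → E) (A : Finset ℤ) :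
    0 ∉ A → ∀ c : ℤ → MonoidAlgebra ℤ E,
      Φ (c 0) + ∑ a ∈ A, Φ (c a) * ((ξ ^ a : Rˣ) : R) = 0 →
      Φ (c 0 * ∏ a ∈ A, (MonoidAlgebra.of ℤ E (b a) - MonoidAlgebra.of ℤ E ((σ ^ a) (b a)))) = 0 := by
  classical
  induction A using Finset.induction_on with
  | empty => intro _ c hc; simpa using hc
  | insert a₁ A ha ih =>
    intro h0 c hc
    have h0A : 0 ∉ A := fun h => h0 (Finset.mem_insert_of_mem h)
    rw [Finset.sum_insert ha] at hc
    set p : ℤ → MonoidAlgebra ℤ E := fun a => MonoidAlgebra.of ℤ E ((σ ^ a) (b a₁)) with hp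
    have hcomm : ∀ a : ℤ, ((ξ ^ a : Rˣ) : R) * Φ (p 0) = Φ (p a) * ((ξ ^ a : Rˣ) : R) := by
      intro a
      have h1 := conj_zpow f σ ξ h a (b a₁)
      rw [mul_inv_eq_iff_eq_mul] at h1
      have h2 := congrArg (fun u : Rˣ => (u : R)) h1
      simp only [Units.val_mul] at h2
      simp only [hp, hΦ, zpow_zero, MulAut.one_apply]
      exact h2
    have hcomm2 : ∀ (a : ℤ) (s : MonoidAlgebra ℤ E), Φ (p a₁) * Φ s = Φ (s * p a₁) := by
      intro a s
      rw [← map_mul, mul_comm]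
    have key := ih h0A (fun a => c a * (p a - p a₁)) (by
      have e1 : (Φ (c 0) + (Φ (c a₁) * ((ξ ^ a₁ : Rˣ) : R) +
          ∑ a ∈ A, Φ (c a) * ((ξ ^ a : Rˣ) : R))) * Φ (p 0) -
          Φ (p a₁) * (Φ (c 0) + (Φ (c a₁) * ((ξ ^ a₁ : Rˣ) : R) +
          ∑ a ∈ A, Φ (c a) * ((ξ ^ a : Rˣ) : R))) = 0 := by
        rw [hc]; simp
      rw [← e1]
      have e2 : ∀ a, Φ (c a) * ((ξ ^ a : Rˣ) : R) * Φ (p 0) -
          Φ (p a₁) * (Φ (c a) * ((ξ ^ a : Rˣ) : R)) =
          Φ (c a * (p a - p a₁)) * ((ξ ^ a : Rˣ) : R) := by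
        intro a
        rw [mul_assoc, hcomm, ← mul_assoc, ← mul_assoc, ← map_mul, ← map_mul, mul_comm (p a₁),
          ← sub_mul, ← map_sub, ← mul_sub]
      have e3 := e2 0
      rw [zpow_zero, Units.val_one, mul_one, mul_one] at e3
      have e4 := e2 a₁
      rw [sub_self, mul_zero, map_zero, zero_mul] at e4
      rw [add_mul, add_mul, mul_add, mul_add, Finset.sum_mul, Finset.mul_sum]
      have e5 : ∑ a ∈ A, Φ (c a * (p a - p a₁)) * ((ξ ^ a : Rˣ) : R) =
          ∑ a ∈ A, Φ (c a) * ((ξ ^ a : Rˣ) : R) * Φ (p 0) -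
          ∑ a ∈ A, Φ (p a₁) * (Φ (c a) * ((ξ ^ a : Rˣ) : R)) := by
        rw [← Finset.sum_sub_distrib]
        exact Finset.sum_congr rfl fun a _ => (e2 a).symm
      rw [e5, ← e3]
      have e6 := sub_eq_zero.1 e4
      rw [e6]
      abel)
    rw [Finset.prod_insert ha, ← mul_assoc]
    have hp0 : p 0 = MonoidAlgebra.of ℤ E (b a₁) := by simp [hp]
    rw [← hp0]
    exact key

/-- Sums over a list, sorted by the value of a function. -/
theorem sum_fiber {α R : Type} [AddCommMonoid R] (D : List α) (af : α → ℤ) (F : α → R)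
    (A : Finset ℤ) (hA : ∀ t ∈ D, af t ∈ A) :
    ∑ a ∈ A, (D.map fun t => if af t = a then F t else 0).sum = (D.map F).sum := by
  induction D with
  | nil => simp
  | cons t D ih =>
    simp only [List.map_cons, List.sum_cons]
    rw [Finset.sum_add_distrib, ih fun t ht => hA t (List.mem_cons_of_mem _ ht)]
    congr 1
    rw [Finset.sum_ite_eq, if_pos (hA t List.mem_cons_self)]

theorem ring_cases (D : List Tm) (hD : PosId D) :
    ∃ (R₀ : ℕ) (T : List (Bool × ℕ × (ℤ →₀ ℤ))), (∀ t ∈ T, 1 ≤ t.2.1) ∧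
      ∀ (R : Type) [Ring R] (E : Type) [CommGroup E] (f : E →* Rˣ) (σ : MulAut E) (ξ : Rˣ),
        (∀ e, ξ * f e * ξ⁻¹ = f (σ e)) → (∀ β, RId D (f β) ξ) → ∀ β₀ : E,
        (∀ (L : Type) [CommRing L] [IsDomain L] (χ : E →* L),
          ((∃ a : ℕ, 1 ≤ a ∧ a ≤ R₀ ∧ ∀ β, χ ((σ ^ a) β) = χ β) ∨
            ∀ β, χ β - 1 = (T.map fun t => (if t.1 then (1 : L) else -1) *
              χ (zact t.2.2 σ β) * (χ ((σ ^ t.2.1) β) - 1)).sum) →
          χ β₀ = 1) →
        IsNilpotent (((f β₀ : Rˣ) : R) - 1) := by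
  classical
  choose Pf af hw using word_normal
  refine ⟨(D.map fun t => (af t.2.2).natAbs).sum,
    (D.filter fun t => af t.2.2 = 0).map fun t => (t.1, t.2.1, Pf t.2.2), ?_, ?_⟩
  · intro t ht
    rw [List.mem_map] at ht
    obtain ⟨s, hs, rfl⟩ := ht
    exact hD s (List.mem_of_mem_filter hs)
  intro R _ E _ f σ ξ h hid β₀ hχ
  set Φ : MonoidAlgebra ℤ E →+* R :=
    (MonoidAlgebra.lift ℤ R E ((Units.coeHom R).comp f)).toRingHom with hΦdef
  have hΦ : ∀ e, Φ (MonoidAlgebra.of ℤ E e) = (f e : R) := by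
    intro e
    simp [hΦdef]
  have hrad : MonoidAlgebra.of ℤ E β₀ - 1 ∈ (RingHom.ker Φ).radical := by
    rw [Ideal.radical_eq_sInf, Ideal.mem_sInf]
    intro 𝔭 h𝔭
    obtain ⟨hI, hp⟩ := h𝔭
    have hdom : IsDomain (MonoidAlgebra ℤ E ⧸ 𝔭) := Ideal.Quotient.isDomain 𝔭
    set χ : E →* (MonoidAlgebra ℤ E ⧸ 𝔭) :=
      ((Ideal.Quotient.mk 𝔭 : MonoidAlgebra ℤ E →+* MonoidAlgebra ℤ E ⧸ 𝔭) :
        MonoidAlgebra ℤ E →* MonoidAlgebra ℤ E ⧸ 𝔭).comp (MonoidAlgebra.of ℤ E) with hχdef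
    have hχa : ∀ e, χ e = Ideal.Quotient.mk 𝔭 (MonoidAlgebra.of ℤ E e) := fun e => rfl
    have := hχ (MonoidAlgebra ℤ E ⧸ 𝔭) χ ?_
    · rw [← Ideal.Quotient.eq_zero_iff_mem, map_sub, map_one, ← hχa, this, sub_self]
    by_cases hcase : ∃ a : ℕ, 1 ≤ a ∧ a ≤ (D.map fun t => (af t.2.2).natAbs).sum ∧
        ∀ β, χ ((σ ^ a) β) = χ β
    · exact Or.inl hcase
    right
    -- for each nonzero exponent `a` that occurs there is `b a` with `χ (σ ^ a b) ≠ χ b`
    set A : Finset ℤ := (D.map fun t => af t.2.2).toFinset.erase 0 with hAdef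
    have hex : ∀ a : ℤ, ∃ b : E, a ∈ A → χ b - χ ((σ ^ a) b) ≠ 0 := by
      intro a
      by_contra hne
      push Not at hne
      refine hcase ⟨a.natAbs, ?_, ?_, ?_⟩
      · have h1 := (hne 1).1
        rw [hAdef, Finset.mem_erase] at h1
        omega
      · have h1 := (hne 1).1
        rw [hAdef, Finset.mem_erase, List.mem_toFinset, List.mem_map] at h1
        obtain ⟨_, t, ht, rfl⟩ := h1
        exact List.single_le_sum (by simp) _ (List.mem_map.2 ⟨t, ht, rfl⟩)
      · intro β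
        rcases Int.natAbs_eq a with h2 | h2
        · have h3 := (hne β).2
          rw [h2, zpow_natCast] at h3
          exact (sub_eq_zero.1 h3).symm
        · have h3 := (hne ((σ ^ a.natAbs) β)).2
          have h4 : (σ ^ a) ((σ ^ a.natAbs) β) = β := by
            conv_lhs => rw [h2]
            rw [zpow_neg, zpow_natCast]
            simp only [Int.natAbs_neg, Int.natAbs_natCast]
            exact MulAut.inv_apply_self _ _ _
          rw [h4] at h3
          exact sub_eq_zero.1 h3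
    choose b hb using hex
    intro β
    -- the coefficients
    set d : Tm → MonoidAlgebra ℤ E := fun t => (if t.1 then (1 : MonoidAlgebra ℤ E) else -1) *
      MonoidAlgebra.of ℤ E (zact (Pf t.2.2) σ β) *
      (MonoidAlgebra.of ℤ E ((σ ^ (af t.2.2 + (t.2.1 : ℤ))) β) - 1) with hd
    set c : ℤ → MonoidAlgebra ℤ E := fun a => (if a = 0 then MonoidAlgebra.of ℤ E β - 1 else 0) -
      (D.map fun t => if af t.2.2 = a then d t else 0).sum with hc
    have hrel : Φ (c 0) + ∑ a ∈ A, Φ (c a) * ((ξ ^ a : Rˣ) : R) = 0 := by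
      have hterm : ∀ t : Tm, (if t.1 then (1 : R) else -1) *
          ((FreeGroup.lift ![f β, ξ, 1] t.2.2 : Rˣ) : R) *
          (((ξ ^ t.2.1 * f β * (ξ ^ t.2.1)⁻¹ : Rˣ) : R) - 1) =
          Φ (d t) * ((ξ ^ (af t.2.2) : Rˣ) : R) := by
        intro t
        have h1 : (ξ ^ t.2.1 * f β * (ξ ^ t.2.1)⁻¹ : Rˣ) = f ((σ ^ (t.2.1 : ℤ)) β) := by
          have := conj_zpow f σ ξ h (t.2.1 : ℤ) β
          rwa [zpow_natCast] at this
        have h2 : ((ξ ^ (af t.2.2) : Rˣ) : R) * (f ((σ ^ (t.2.1 : ℤ)) β) : R) =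
            (f ((σ ^ (af t.2.2 + (t.2.1 : ℤ))) β) : R) * ((ξ ^ (af t.2.2) : Rˣ) : R) := by
          have h3 := conj_zpow f σ ξ h (af t.2.2) ((σ ^ (t.2.1 : ℤ)) β)
          rw [mul_inv_eq_iff_eq_mul, ← MulAut.mul_apply, ← zpow_add] at h3
          rw [← Units.val_mul, h3, Units.val_mul]
        rw [hw t.2.2 E Rˣ f σ ξ h β, h1, Units.val_mul]
        have h4 : Φ (if t.1 then (1 : MonoidAlgebra ℤ E) else -1) =
            (if t.1 then (1 : R) else -1) := by
          split_ifs <;> simp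
        simp only [hd, map_mul, map_sub, map_one, hΦ, h4]
        rw [mul_assoc, mul_assoc, mul_assoc, mul_sub, mul_one, h2, sub_mul, one_mul, mul_assoc]
      have h1 := hid β
      unfold RId at h1
      have h2 : (D.map fun t : Tm => (if t.1 then (1 : R) else -1) *
          ((FreeGroup.lift ![f β, ξ, 1] t.2.2 : Rˣ) : R) *
          (((ξ ^ t.2.1 * f β * (ξ ^ t.2.1)⁻¹ : Rˣ) : R) - 1)) =
          D.map fun t => Φ (d t) * ((ξ ^ (af t.2.2) : Rˣ) : R) :=
        List.map_congr_left fun t _ => hterm t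
      rw [h2] at h1
      have hA0 : (0 : ℤ) ∉ A := by simp [hAdef]
      have h3 : Φ (c 0) + ∑ a ∈ A, Φ (c a) * ((ξ ^ a : Rˣ) : R) =
          ∑ a ∈ insert 0 A, Φ (c a) * ((ξ ^ a : Rˣ) : R) := by
        rw [Finset.sum_insert hA0]; simp
      rw [h3]
      have h4 : ∀ a : ℤ, Φ (c a) * ((ξ ^ a : Rˣ) : R) =
          (if a = 0 then ((f β : R) - 1) else 0) -
          (D.map fun t => if af t.2.2 = a then Φ (d t) * ((ξ ^ (af t.2.2) : Rˣ) : R)
            else 0).sum := by
        intro a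
        simp only [hc]
        rw [map_sub, sub_mul]
        congr 1
        · split_ifs with h5
          · rw [map_sub, map_one, hΦ, h5, zpow_zero, Units.val_one, mul_one]
          · rw [map_zero, zero_mul]
        · rw [map_list_sum, List.map_map, ← List.sum_map_mul_right]
          refine congrArg List.sum (List.map_congr_left fun t _ => ?_)
          simp only [Function.comp]
          split_ifs with h5
          · rw [h5]
          · simp
      rw [Finset.sum_congr rfl fun a _ => h4 a, Finset.sum_sub_distrib, Finset.sum_ite_eq',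
        if_pos (Finset.mem_insert_self 0 A), h1, sum_fiber, sub_self]
      intro t ht
      by_cases h5 : af t.2.2 = 0
      · rw [h5]; exact Finset.mem_insert_self _ _
      · refine Finset.mem_insert_of_mem ?_
        rw [hAdef, Finset.mem_erase, List.mem_toFinset, List.mem_map]
        exact ⟨h5, t, ht, rfl⟩
    have hker := elim_aux f σ ξ h Φ hΦ b A (by simp [hAdef]) c hrel
    have hmem : c 0 * ∏ a ∈ A, (MonoidAlgebra.of ℤ E (b a) -
        MonoidAlgebra.of ℤ E ((σ ^ a) (b a))) ∈ 𝔭 := hI (RingHom.mem_ker.2 hker)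
    have hc0 : c 0 ∈ 𝔭 := by
      rcases hp.mem_or_mem hmem with h1 | h1
      · exact h1
      · exfalso
        obtain ⟨a, ha, h2⟩ := (hp.prod_mem_iff).1 h1
        apply hb a ha
        rw [hχa, hχa, ← map_sub, Ideal.Quotient.eq_zero_iff_mem]
        exact h2
    have h1 : Ideal.Quotient.mk 𝔭 (c 0) = 0 := Ideal.Quotient.eq_zero_iff_mem.2 hc0
    simp only [hc, if_true] at h1
    rw [map_sub, map_sub, map_one, ← hχa, sub_eq_zero] at h1
    rw [h1, map_list_sum, List.map_map, List.map_map]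
    clear * - hχa hd
    induction D with
    | nil => simp
    | cons t D ih =>
      rw [List.map_cons, List.sum_cons, ih, List.filter_cons]
      by_cases h5 : af t.2.2 = 0
      · simp only [h5, decide_true, if_true, List.map_cons, List.sum_cons, Function.comp]
        congr 1
        have h4 : (Ideal.Quotient.mk 𝔭) (if t.1 then (1 : MonoidAlgebra ℤ E) else -1) =
            (if t.1 then (1 : MonoidAlgebra ℤ E ⧸ 𝔭) else -1) := by
          split_ifs <;> simp
        simp only [hd, h5, zero_add, zpow_natCast, map_mul, map_sub, map_one, h4, ← hχa]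
      · simp [h5]
  obtain ⟨n, hn⟩ := hrad
  refine ⟨n, ?_⟩
  rw [RingHom.mem_ker, map_pow, map_sub, map_one, hΦ] at hn
  exact hn

end Pool.Agent.Helper83.SV
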