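import Pool.Agent.Helper83.SV.Defs

/-!
# SV-21: P. Hall's argument

`hall_triv`: `gen K X = closure X`, a finitely generated abelian group; its subgroups are finitely
generated (`isNoetherian` over `ℤ`).

`hall_cyc`: let `X` be finite, `A₀ = gen K X`; then `gen K' X` is the sum of the `x ^ i A₀`,
`i ∈ ℤ`. Let `A_k = ∑_(0 ≤ i < k) x ^ i A₀` and let `B ≤ gen K' X` be stable under `K'`. For `k ≥ 0`
let `B_k = {a ∈ A₀ : x ^ k a + c ∈ B for some c ∈ A_k}`, a `K`-stable subgroup of `A₀` (as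
`x⁻¹ K x = K`), increasing in `k` (apply `x`). By hypothesis there is `k₀` with `B_k = B_(k₀)` for
`k ≥ k₀` (the union is also `K`-stable, so of the form `gen K Y`, `Y` finite), and
`B_k = gen K (Y_k)` for `k ≤ k₀`, `Y_k` finite. For `y ∈ Y_k` choose `b_(k,y) ∈ B` of the form
`x ^ k y + c`, `c ∈ A_k`. Let `Y` be the finite set of the `b_(k,y)`, `k ≤ k₀`. Then
`B ∩ A_k ≤ gen K' Y` by induction on `k`, and for each `b ∈ B` some `x ^ N b` is in some `A_k`.

`hall_fin`: `gen K' X = gen K (T⁻¹-translates ...)`: every `g ∈ K'` is `t k`, `t ∈ T`; taking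
inverses also `g = k' t'` with `t'` in the finite set of the inverses; so
`gen K' X = gen K {t' • x}` and `B = gen K Y` implies `B = gen K' Y`.
-/

namespace Pool.Agent.Helper83.SV

variable {G : Type} [Group G] {A : Type} [AddCommGroup A] [DistribMulAction G A]

theorem hall_sub (K : Subgroup G) (X : Set A) : X ⊆ gen K X := fun a ha =>
  AddSubgroup.subset_closure ⟨1, K.one_mem, a, ha, (one_smul G a).symm⟩

theorem hall_stab (K : Subgroup G) (X : Set A) : ∀ k ∈ K, ∀ b ∈ gen K X, k • b ∈ gen K X := by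
  intro k hk b hb
  unfold gen at hb ⊢
  induction hb using AddSubgroup.closure_induction with
  | mem a ha =>
    obtain ⟨k', hk', y, hy, rfl⟩ := ha
    exact AddSubgroup.subset_closure ⟨k * k', K.mul_mem hk hk', y, hy, (mul_smul k k' y).symm⟩
  | zero =>
    rw [smul_zero]
    exact AddSubgroup.zero_mem _
  | add a b _ _ h1 h2 =>
    rw [smul_add]
    exact AddSubgroup.add_mem _ h1 h2
  | neg a _ h1 =>
    rw [smul_neg]
    exact AddSubgroup.neg_mem _ h1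

theorem hall_le (K : Subgroup G) (X : Set A) (B : AddSubgroup A) (hX : X ⊆ B)
    (hB : ∀ k ∈ K, ∀ b ∈ B, k • b ∈ B) : gen K X ≤ B := by
  unfold gen
  rw [AddSubgroup.closure_le]
  rintro a ⟨k, hk, y, hy, rfl⟩
  exact hB k hk y (hX hy)

theorem hall_triv (K : Subgroup G) (h : ∀ k ∈ K, ∀ a : A, k • a = a) : NoethOn K A := by
  intro X hX B hB _
  have hgen : ∀ Z : Set A, gen K Z = AddSubgroup.closure Z := by
    intro Z
    apply le_antisymm
    · exact hall_le K Z _ AddSubgroup.subset_closure fun k hk b hb => by rw [h k hk b]; exact hb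
    · rw [AddSubgroup.closure_le]
      exact hall_sub K Z
  rw [hgen] at hB
  have hN := isNoetherian_span_of_finite ℤ hX
  have hle : B.toIntSubmodule ≤ Submodule.span ℤ X := by
    intro a ha
    have h1 : a ∈ AddSubgroup.closure X := hB ha
    rw [← Submodule.span_int_eq_addSubgroupClosure] at h1
    exact h1
  obtain ⟨S, hS⟩ := isNoetherian_submodule.1 hN _ hle
  refine ⟨S, S.finite_toSet, ?_⟩
  rw [hgen, ← Submodule.span_int_eq_addSubgroupClosure, hS]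
  rfl

/-- the sum of the `x ^ i A₀`, `i < k` -/
def hallA (A₀ : AddSubgroup A) (x : G) (k : ℕ) : AddSubgroup A where
  carrier := {a | ∃ f : ℕ → A, (∀ i, f i ∈ A₀) ∧ a = ∑ i ∈ Finset.range k, x ^ i • f i}
  zero_mem' := ⟨fun _ => 0, fun _ => A₀.zero_mem, by simp⟩
  add_mem' := by
    rintro a b ⟨f, hf, rfl⟩ ⟨g, hg, rfl⟩
    refine ⟨fun i => f i + g i, fun i => A₀.add_mem (hf i) (hg i), ?_⟩
    rw [← Finset.sum_add_distrib]
    exact Finset.sum_congr rfl fun i _ => (smul_add _ _ _).symm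
  neg_mem' := by
    rintro a ⟨f, hf, rfl⟩
    refine ⟨fun i => -f i, fun i => A₀.neg_mem (hf i), ?_⟩
    rw [← Finset.sum_neg_distrib]
    exact Finset.sum_congr rfl fun i _ => (smul_neg _ _).symm

theorem hallA_mem {A₀ : AddSubgroup A} {x : G} {k : ℕ} {a : A} : a ∈ hallA A₀ x k ↔
    ∃ f : ℕ → A, (∀ i, f i ∈ A₀) ∧ a = ∑ i ∈ Finset.range k, x ^ i • f i := Iff.rfl

theorem hallA_single {A₀ : AddSubgroup A} {x : G} {k i : ℕ} (hi : i < k) {a : A} (ha : a ∈ A₀) :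
    x ^ i • a ∈ hallA A₀ x k := by
  refine ⟨fun l => if l = i then a else 0, fun l => ?_, ?_⟩
  · dsimp only
    split_ifs
    exacts [ha, A₀.zero_mem]
  · rw [Finset.sum_eq_single i]
    · dsimp only
      rw [if_pos rfl]
    · intro l _ hl
      dsimp only
      rw [if_neg hl, smul_zero]
    · intro h
      exact absurd (Finset.mem_range.2 hi) h

/-- membership by induction over the summands -/
theorem hallA_ind {A₀ : AddSubgroup A} {x : G} {k : ℕ} {B : AddSubgroup A}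
    (h : ∀ i < k, ∀ a ∈ A₀, x ^ i • a ∈ B) : hallA A₀ x k ≤ B := by
  rintro a ⟨f, hf, rfl⟩
  exact AddSubgroup.sum_mem _ fun i hi => h i (Finset.mem_range.1 hi) _ (hf i)

theorem hallA_mono {A₀ : AddSubgroup A} {x : G} {k l : ℕ} (hkl : k ≤ l) :
    hallA A₀ x k ≤ hallA A₀ x l :=
  hallA_ind fun _ hi _ ha => hallA_single (lt_of_lt_of_le hi hkl) ha

theorem hallA_shift {A₀ : AddSubgroup A} {x : G} {k : ℕ} (m : ℕ) {a : A}
    (ha : a ∈ hallA A₀ x k) : x ^ m • a ∈ hallA A₀ x (m + k) := by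
  obtain ⟨f, hf, rfl⟩ := ha
  rw [Finset.smul_sum]
  refine AddSubgroup.sum_mem _ fun i hi => ?_
  rw [← mul_smul, ← pow_add]
  exact hallA_single (by have := Finset.mem_range.1 hi; omega) (hf i)

theorem hallA_succ {A₀ : AddSubgroup A} {x : G} {k : ℕ} {b : A} (hb : b ∈ hallA A₀ x (k + 1)) :
    ∃ a ∈ A₀, ∃ c ∈ hallA A₀ x k, b = x ^ k • a + c := by
  obtain ⟨f, hf, rfl⟩ := hb
  refine ⟨f k, hf k, ∑ i ∈ Finset.range k, x ^ i • f i, ⟨f, hf, rfl⟩, ?_⟩
  rw [Finset.sum_range_succ, add_comm]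

section cyc

variable {K K' : Subgroup G} {x : G} {A₀ : AddSubgroup A}

theorem hall_conj (h2 : x ∈ K') (h3 : ∀ g ∈ K', ∀ k ∈ K, g * k * g⁻¹ ∈ K) (i : ℕ) {k : G}
    (hk : k ∈ K) : ∃ k' ∈ K, k * x ^ i = x ^ i * k' := by
  refine ⟨(x ^ i)⁻¹ * k * (x ^ i), ?_, by group⟩
  have := h3 (x ^ i)⁻¹ (K'.inv_mem (K'.pow_mem h2 i)) k hk
  rwa [inv_inv] at this

theorem hall_conj' (h2 : x ∈ K') (h3 : ∀ g ∈ K', ∀ k ∈ K, g * k * g⁻¹ ∈ K) (i : ℕ) {k : G}
    (hk : k ∈ K) : ∃ k' ∈ K, x ^ i * k = k' * x ^ i :=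
  ⟨x ^ i * k * (x ^ i)⁻¹, h3 (x ^ i) (K'.pow_mem h2 i) k hk, by group⟩

theorem hallA_stab (h2 : x ∈ K') (h3 : ∀ g ∈ K', ∀ k ∈ K, g * k * g⁻¹ ∈ K)
    (hA₀ : ∀ k ∈ K, ∀ a ∈ A₀, k • a ∈ A₀) (l : ℕ) :
    ∀ k ∈ K, ∀ a ∈ hallA A₀ x l, k • a ∈ hallA A₀ x l := by
  rintro k hk a ⟨f, hf, rfl⟩
  rw [Finset.smul_sum]
  refine AddSubgroup.sum_mem _ fun i hi => ?_
  obtain ⟨k', hk', e⟩ := hall_conj (K := K) (K' := K') h2 h3 i hk
  rw [← mul_smul, e, mul_smul]
  exact hallA_single (Finset.mem_range.1 hi) (hA₀ k' hk' _ (hf i))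

/-- the leading coefficients of degree `k` -/
def hallL (A₀ : AddSubgroup A) (x : G) (B : AddSubgroup A) (k : ℕ) : AddSubgroup A where
  carrier := {a | a ∈ A₀ ∧ ∃ c ∈ hallA A₀ x k, x ^ k • a + c ∈ B}
  zero_mem' := ⟨A₀.zero_mem, 0, AddSubgroup.zero_mem _, by
    rw [smul_zero, add_zero]
    exact B.zero_mem⟩
  add_mem' := by
    rintro a b ⟨ha, c, hc, h1⟩ ⟨hb, d, hd, h2⟩
    refine ⟨A₀.add_mem ha hb, c + d, AddSubgroup.add_mem _ hc hd, ?_⟩
    have h3 := B.add_mem h1 h2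
    rw [smul_add]
    rwa [add_add_add_comm] at h3
  neg_mem' := by
    rintro a ⟨ha, c, hc, h1⟩
    refine ⟨A₀.neg_mem ha, -c, AddSubgroup.neg_mem _ hc, ?_⟩
    have h3 := B.neg_mem h1
    rw [smul_neg]
    rwa [neg_add] at h3

theorem hallL_stab (h2 : x ∈ K') (h3 : ∀ g ∈ K', ∀ k ∈ K, g * k * g⁻¹ ∈ K)
    (hA₀ : ∀ k ∈ K, ∀ a ∈ A₀, k • a ∈ A₀) {B : AddSubgroup A}
    (hB : ∀ k ∈ K, ∀ b ∈ B, k • b ∈ B) (l : ℕ) :
    ∀ k ∈ K, ∀ a ∈ hallL A₀ x B l, k • a ∈ hallL A₀ x B l := by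
  rintro k hk a ⟨ha, c, hc, h1⟩
  obtain ⟨k', hk', e⟩ := hall_conj' (K := K) (K' := K') h2 h3 l hk
  refine ⟨hA₀ k hk a ha, k' • c, hallA_stab h2 h3 hA₀ l k' hk' c hc, ?_⟩
  rw [← mul_smul, e, mul_smul, ← smul_add]
  exact hB k' hk' _ h1

theorem hallL_mono {B : AddSubgroup A} (hB : ∀ b ∈ B, x • b ∈ B) {l m : ℕ} (hlm : l ≤ m) :
    hallL A₀ x B l ≤ hallL A₀ x B m := by
  induction m, hlm using Nat.le_induction with
  | base => exact le_rfl
  | succ m _ ih =>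
    refine ih.trans ?_
    rintro a ⟨ha, c, hc, h1⟩
    refine ⟨ha, x ^ 1 • c, ?_, ?_⟩
    · have := hallA_shift 1 hc
      rwa [add_comm] at this
    · have h4 := hB _ h1
      rw [smul_add, ← mul_smul] at h4
      rw [pow_one, pow_succ']
      exact h4

theorem hall_compare {B B' : AddSubgroup A} (hle : B' ≤ B)
    (h : ∀ k, hallL A₀ x B k ≤ hallL A₀ x B' k) : ∀ k, B ⊓ hallA A₀ x k ≤ B' := by
  intro k
  induction k with
  | zero =>
    rintro b ⟨_, f, _, rfl⟩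
    rw [Finset.sum_range_zero]
    exact B'.zero_mem
  | succ k ih =>
    rintro b ⟨hb, hbk⟩
    obtain ⟨a, ha, c, hc, rfl⟩ := hallA_succ hbk
    obtain ⟨_, d, hd, h1⟩ := h k ⟨ha, c, hc, hb⟩
    have h2 : c - d ∈ B' := by
      refine ih ⟨?_, AddSubgroup.sub_mem _ hc hd⟩
      have h3 := B.sub_mem hb (hle h1)
      have e : x ^ k • a + c - (x ^ k • a + d) = c - d := by abel
      rwa [e] at h3
    have h4 := B'.add_mem h1 h2
    have e : x ^ k • a + d + (c - d) = x ^ k • a + c := by abel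
    rwa [e] at h4

end cyc

theorem hall_cyc (K K' : Subgroup G) (x : G) (h : NoethOn K A) (h1 : K ≤ K') (h2 : x ∈ K')
    (h3 : ∀ g ∈ K', ∀ k ∈ K, g * k * g⁻¹ ∈ K) (h4 : ∀ g ∈ K', ∃ n : ℤ, ∃ k ∈ K, g = x ^ n * k) :
    NoethOn K' A := by
  intro X hX B hB hBs
  set A₀ : AddSubgroup A := gen K X with hA₀d
  have hA₀ : ∀ k ∈ K, ∀ a ∈ A₀, k • a ∈ A₀ := hall_stab K X
  have hBK : ∀ k ∈ K, ∀ b ∈ B, k • b ∈ B := fun k hk => hBs k (h1 hk)
  have hBx : ∀ b ∈ B, x • b ∈ B := hBs x h2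
  have hLle : ∀ k, hallL A₀ x B k ≤ A₀ := fun k a ha => ha.1
  -- the leading coefficients in all degrees
  have hfin : ∀ k, ∃ Y : Set A, Y.Finite ∧ gen K Y = hallL A₀ x B k := fun k =>
    h X hX _ (hLle k) (hallL_stab h2 h3 hA₀ hBK k)
  choose Y hYf hY using hfin
  -- stabilisation
  have hdir : Directed (· ≤ ·) fun k => hallL A₀ x B k := by
    intro i j
    exact ⟨max i j, hallL_mono hBx (le_max_left _ _), hallL_mono hBx (le_max_right _ _)⟩
  obtain ⟨k₀, hk₀⟩ : ∃ k₀, ∀ k, hallL A₀ x B k ≤ hallL A₀ x B k₀ := by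
    have hU : ∀ a, a ∈ (⨆ k, hallL A₀ x B k) ↔ ∃ k, a ∈ hallL A₀ x B k := fun a =>
      AddSubgroup.mem_iSup_of_directed hdir
    obtain ⟨Z, hZf, hZ⟩ := h X hX (⨆ k, hallL A₀ x B k) (iSup_le hLle) (fun k hk a ha => by
      obtain ⟨l, hl⟩ := (hU a).1 ha
      exact (hU _).2 ⟨l, hallL_stab h2 h3 hA₀ hBK l k hk a hl⟩)
    have hZk : ∀ z ∈ Z, ∃ k, z ∈ hallL A₀ x B k := fun z hz => by
      refine (hU z).1 ?_
      rw [← hZ]
      exact hall_sub K Z hz
    have hex : ∃ k₀, ∀ z ∈ Z, z ∈ hallL A₀ x B k₀ := by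
      choose! κ hκ using hZk
      refine ⟨hZf.toFinset.sup κ, fun z hz => ?_⟩
      exact hallL_mono hBx (Finset.le_sup (f := κ) (hZf.mem_toFinset.2 hz)) (hκ z hz)
    obtain ⟨k₀, hk₀⟩ := hex
    refine ⟨k₀, fun k => (le_iSup (fun k => hallL A₀ x B k) k).trans ?_⟩
    rw [← hZ]
    exact hall_le K Z _ hk₀ (hallL_stab h2 h3 hA₀ hBK k₀)
  -- the generators
  have hex : ∀ k, ∀ y ∈ Y k, ∃ b ∈ B, ∃ c ∈ hallA A₀ x k, b = x ^ k • y + c := by
    intro k y hy
    have : y ∈ hallL A₀ x B k := by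
      rw [← hY k]
      exact hall_sub K _ hy
    obtain ⟨_, c, hc, h5⟩ := this
    exact ⟨_, h5, c, hc, rfl⟩
  choose! β hβB γ hγ hβ using hex
  set Z : Set A := ⋃ k ∈ Finset.range (k₀ + 1), β k '' Y k with hZ
  have hZf : Z.Finite := by
    rw [hZ]
    exact Set.Finite.biUnion (Finset.finite_toSet _) fun k _ => (hYf k).image _
  have hZB : Z ⊆ B := by
    rw [hZ]
    intro z hz
    simp only [Set.mem_iUnion, Set.mem_image] at hz
    obtain ⟨k, _, y, hy, rfl⟩ := hz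
    exact hβB k y hy
  refine ⟨Z, hZf, le_antisymm (hall_le K' Z B hZB hBs) ?_⟩
  have hle : gen K' Z ≤ B := hall_le K' Z B hZB hBs
  have hs' : ∀ k ∈ K', ∀ b ∈ gen K' Z, k • b ∈ gen K' Z := hall_stab K' Z
  have hlow : ∀ k ≤ k₀, hallL A₀ x B k ≤ hallL A₀ x (gen K' Z) k := by
    intro k hk
    rw [← hY k]
    refine hall_le K _ _ (fun y hy => ?_) (hallL_stab h2 h3 hA₀ (fun k hk => hs' k (h1 hk)) k)
    refine ⟨?_, γ k y, hγ k y hy, ?_⟩
    · have : y ∈ hallL A₀ x B k := by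
        rw [← hY k]
        exact hall_sub K _ hy
      exact this.1
    · rw [← hβ k y hy]
      refine hall_sub K' Z ?_
      rw [hZ]
      simp only [Set.mem_iUnion, Set.mem_image]
      exact ⟨k, Finset.mem_range.2 (by omega), y, hy, rfl⟩
  have hcmp := hall_compare (A₀ := A₀) (x := x) hle fun k => by
    rcases le_total k k₀ with hk | hk
    · exact hlow k hk
    · exact (hk₀ k).trans ((hlow k₀ le_rfl).trans (hallL_mono (hs' x h2) hk))
  -- everything is in some `A_k` after multiplication by a power of `x`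
  have hall : ∀ a ∈ gen K' X, ∃ N M : ℕ, x ^ N • a ∈ hallA A₀ x M := by
    intro a ha
    unfold gen at ha
    induction ha using AddSubgroup.closure_induction with
    | mem a ha =>
      obtain ⟨g, hg, y, hy, rfl⟩ := ha
      obtain ⟨n, k, hk, rfl⟩ := h4 g hg
      have hky : k • y ∈ A₀ := hA₀ k hk y (hall_sub K X hy)
      rcases Int.le_total 0 n with hn | hn
      · obtain ⟨m, rfl⟩ := Int.eq_ofNat_of_zero_le hn
        refine ⟨0, m + 1, ?_⟩
        rw [pow_zero, one_smul, mul_smul, zpow_natCast]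
        exact hallA_single (by omega) hky
      · obtain ⟨m, hm⟩ := Int.eq_ofNat_of_zero_le (neg_nonneg.2 hn)
        refine ⟨m, 1, ?_⟩
        have e : x ^ m * (x ^ n * k) = k := by
          rw [← mul_assoc, ← zpow_natCast, ← zpow_add, ← hm, neg_add_cancel, zpow_zero, one_mul]
        rw [← mul_smul, e]
        have := hallA_single (A₀ := A₀) (x := x) (k := 1) (i := 0) (by omega) hky
        rwa [pow_zero, one_smul] at this
    | zero =>
      refine ⟨0, 0, ?_⟩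
      rw [smul_zero]
      exact AddSubgroup.zero_mem _
    | add a b _ _ iha ihb =>
      obtain ⟨N1, M1, e1⟩ := iha
      obtain ⟨N2, M2, e2⟩ := ihb
      refine ⟨N2 + N1, max (N2 + M1) (N1 + M2), ?_⟩
      rw [smul_add]
      refine AddSubgroup.add_mem _ ?_ ?_
      · rw [pow_add, mul_smul]
        exact hallA_mono (le_max_left _ _) (hallA_shift N2 e1)
      · rw [add_comm N2 N1, pow_add, mul_smul]
        exact hallA_mono (le_max_right _ _) (hallA_shift N1 e2)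
    | neg a _ iha =>
      obtain ⟨N1, M1, e1⟩ := iha
      refine ⟨N1, M1, ?_⟩
      rw [smul_neg]
      exact AddSubgroup.neg_mem _ e1
  intro b hb
  obtain ⟨N, M, e⟩ := hall b (hB hb)
  have h5 : x ^ N • b ∈ gen K' Z := hcmp M ⟨hBs _ (K'.pow_mem h2 N) b hb, e⟩
  have h6 := hs' (x ^ N)⁻¹ (K'.inv_mem (K'.pow_mem h2 N)) _ h5
  rwa [inv_smul_smul] at h6

theorem hall_fin (K K' : Subgroup G) (T : Finset G) (h : NoethOn K A) (h1 : K ≤ K')
    (h2 : ∀ t ∈ T, t ∈ K') (h3 : ∀ g ∈ K', ∃ t ∈ T, ∃ k ∈ K, g = t * k) : NoethOn K' A := by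
  intro X hX B hB hBs
  set X' : Set A := ⋃ t ∈ T, (fun a => t⁻¹ • a) '' X with hX'
  have hX'f : X'.Finite := by
    rw [hX']
    exact Set.Finite.biUnion (Finset.finite_toSet _) fun t _ => hX.image _
  have hle : gen K' X ≤ gen K X' := by
    unfold gen
    rw [AddSubgroup.closure_le]
    rintro a ⟨g, hg, y, hy, rfl⟩
    obtain ⟨t, ht, k, hk, e⟩ := h3 g⁻¹ (K'.inv_mem hg)
    have e2 : g = k⁻¹ * t⁻¹ := by
      rw [← mul_inv_rev, ← e, inv_inv]
    refine AddSubgroup.subset_closure ⟨k⁻¹, K.inv_mem hk, t⁻¹ • y, ?_, ?_⟩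
    · rw [hX']
      simp only [Set.mem_iUnion, Set.mem_image]
      exact ⟨t, ht, y, hy, rfl⟩
    · rw [← mul_smul, ← e2]
  obtain ⟨Y, hYf, hY⟩ := h X' hX'f B (hB.trans hle) fun k hk => hBs k (h1 hk)
  refine ⟨Y, hYf, le_antisymm (hall_le K' Y B ?_ hBs) ?_⟩
  · rw [← hY]
    exact hall_sub K Y
  · rw [← hY]
    exact hall_le K Y _ (hall_sub K' Y) fun k hk => hall_stab K' Y k (h1 hk)

theorem hall_chain (C K : Subgroup G) (h : Chain C K) (hC : ∀ c ∈ C, ∀ a : A, c • a = a) :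
    NoethOn K A := by
  induction h with
  | base => exact hall_triv C hC
  | cyc K K' x h h1 h2 h3 h4 ih => exact hall_cyc K K' x ih h1 h2 h3 h4
  | fin K K' T h h1 h2 h3 ih => exact hall_fin K K' T ih h1 h2 h3

end Pool.Agent.Helper83.SV
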