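import Pool.Agent.Helper83.SV.Hall
import Pool.Agent.Helper83.SV.Bridge

/-!
# SV-22: normal subgroups between `W` and `A`

Let `s : SecData A W`, with `G` acting on `s.T` by `g • t = s.ρ g t` (a local instance
`DistribMulAction`); `C` acts trivially. `hall_chain` gives `NoethOn ⊤ s.T`. If `A` is the normal
closure of the finite set `X`, then `s.T = gen ⊤ (π '' X)`. Let `B` be the image of `N` in `s.T`:
it is `gen ⊤ Y` with `Y` finite; choose preimages in `N` of the elements of `Y`; with the generators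
of `W` they generate `N` as a normal subgroup.
-/

namespace Pool.Agent.Helper83.SV

open scoped commutatorElement

/-- the action of the group on the section -/
private def hallAppAct {G : Type} [Group G] {A W : Subgroup G} (s : SecData A W) :
    DistribMulAction G s.T where
  smul g t := (s.ρ g : AddMonoid.End s.T) t
  one_smul t := by
    show (s.ρ 1 : AddMonoid.End s.T) t = t
    rw [map_one]
    rfl
  mul_smul g h t := by
    show (s.ρ (g * h) : AddMonoid.End s.T) t
      = (s.ρ g : AddMonoid.End s.T) ((s.ρ h : AddMonoid.End s.T) t)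
    rw [map_mul]
    rfl
  smul_zero g := by
    show (s.ρ g : AddMonoid.End s.T) 0 = 0
    exact map_zero _
  smul_add g t u := by
    show (s.ρ g : AddMonoid.End s.T) (t + u)
      = (s.ρ g : AddMonoid.End s.T) t + (s.ρ g : AddMonoid.End s.T) u
    exact map_add _ t u

theorem fgn_rel {G : Type} [Group G] (A W C N : Subgroup G) (hA : A.Normal) (hW : W.Normal)
    (hC : C.Normal) (hN : N.Normal) (hWN : W ≤ N) (hNA : N ≤ A) (hAA : ⁅A, A⁆ ≤ W)
    (hAC : ⁅A, C⁆ ≤ W) (hAf : FGN A) (hWf : FGN W) (hch : Chain C ⊤) : FGN N := by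
  classical
  obtain ⟨s⟩ := exists_secData A W hA hW (hWN.trans hNA) hAA
  letI : DistribMulAction G s.T := hallAppAct s
  have hsmul : ∀ (g : G) (a : G), a ∈ A → g • s.π a = s.π (g * a * g⁻¹) :=
    fun g a ha => s.act g a ha
  have hCt : ∀ c ∈ C, ∀ t : s.T, c • t = t := by
    intro c hc t
    obtain ⟨a, ha, rfl⟩ := s.surj t
    rw [hsmul c a ha, s.π_eq_iff (hA.conj_mem a ha c) ha]
    have h1 : c * a * c⁻¹ * a⁻¹ = ⁅a, c⁆⁻¹ := by
      rw [commutatorElement_inv, commutatorElement_def]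
    rw [h1]
    exact W.inv_mem (hAC (Subgroup.commutator_mem_commutator ha hc))
  have hno : NoethOn (⊤ : Subgroup G) s.T := hall_chain C ⊤ hch hCt
  obtain ⟨X, hX⟩ := hAf
  obtain ⟨w, hw⟩ := hWf
  have hXA : ∀ x ∈ X, x ∈ A := by
    intro x hx
    rw [← hX]
    exact Subgroup.subset_normalClosure hx
  -- every class is generated by the classes of `X`
  have hgen : ∀ a ∈ A, s.π a ∈ gen (⊤ : Subgroup G) (s.π '' (X : Set G)) := by
    have key : ∀ a ∈ Subgroup.closure (Group.conjugatesOfSet (X : Set G)),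
        a ∈ A ∧ s.π a ∈ gen (⊤ : Subgroup G) (s.π '' (X : Set G)) := by
      intro a ha
      induction ha using Subgroup.closure_induction with
      | mem y hy =>
        obtain ⟨x, hx, hxy⟩ := Group.mem_conjugatesOfSet_iff.mp hy
        obtain ⟨g, rfl⟩ := isConj_iff.mp hxy
        refine ⟨hA.conj_mem x (hXA x hx) g, ?_⟩
        apply AddSubgroup.subset_closure
        exact ⟨g, Subgroup.mem_top g, s.π x, ⟨x, hx, rfl⟩, (hsmul g x (hXA x hx)).symm⟩
      | one =>
        refine ⟨A.one_mem, ?_⟩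
        rw [s.π_one]
        exact AddSubgroup.zero_mem _
      | mul y z _ _ hy hz =>
        refine ⟨A.mul_mem hy.1 hz.1, ?_⟩
        rw [s.mul y hy.1 z hz.1]
        exact AddSubgroup.add_mem _ hy.2 hz.2
      | inv y _ hy =>
        refine ⟨A.inv_mem hy.1, ?_⟩
        rw [s.π_inv hy.1]
        exact AddSubgroup.neg_mem _ hy.2
    intro a ha
    rw [← hX] at ha
    exact (key a ha).2
  -- the image of `N`
  let B : AddSubgroup s.T :=
    { carrier := {t | ∃ a ∈ N, s.π a = t}
      zero_mem' := ⟨1, N.one_mem, s.π_one⟩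
      add_mem' := by
        rintro _ _ ⟨a, ha, rfl⟩ ⟨b, hb, rfl⟩
        exact ⟨a * b, N.mul_mem ha hb, s.mul a (hNA ha) b (hNA hb)⟩
      neg_mem' := by
        rintro _ ⟨a, ha, rfl⟩
        exact ⟨a⁻¹, N.inv_mem ha, s.π_inv (hNA ha)⟩ }
  have hB1 : B ≤ gen (⊤ : Subgroup G) (s.π '' (X : Set G)) := by
    rintro _ ⟨a, ha, rfl⟩
    exact hgen a (hNA ha)
  have hB2 : ∀ k ∈ (⊤ : Subgroup G), ∀ b ∈ B, k • b ∈ B := by
    rintro k - _ ⟨a, ha, rfl⟩
    rw [hsmul k a (hNA ha)]
    exact ⟨k * a * k⁻¹, hN.conj_mem a ha k, rfl⟩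
  obtain ⟨Y, hYf, hY⟩ := hno (s.π '' (X : Set G)) (X.finite_toSet.image _) B hB1 hB2
  have hYB : ∀ y ∈ Y, ∃ a ∈ N, s.π a = y := by
    intro y hy
    have h1 : y ∈ gen (⊤ : Subgroup G) Y := by
      apply AddSubgroup.subset_closure
      exact ⟨1, Subgroup.mem_top 1, y, hy, (one_smul G y).symm⟩
    rw [hY] at h1
    exact h1
  have hYB' : ∀ y : s.T, ∃ a : G, y ∈ Y → a ∈ N ∧ s.π a = y := by
    intro y
    by_cases hy : y ∈ Y
    · obtain ⟨a, ha, hay⟩ := hYB y hy
      exact ⟨a, fun _ => ⟨ha, hay⟩⟩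
    · exact ⟨1, fun h => absurd h hy⟩
  choose f hf using hYB'
  refine ⟨w ∪ hYf.toFinset.image f, ?_⟩
  set S : Finset G := w ∪ hYf.toFinset.image f with hS
  have hwS : (w : Set G) ⊆ (S : Set G) := by
    intro x hx
    rw [hS]
    simp only [Finset.coe_union, Set.mem_union]
    exact Or.inl hx
  have hfS : ∀ y ∈ Y, f y ∈ (S : Set G) := by
    intro y hy
    rw [hS, Finset.mem_coe, Finset.mem_union]
    right
    rw [Finset.mem_image]
    exact ⟨y, hYf.mem_toFinset.mpr hy, rfl⟩
  have hSN : (S : Set G) ⊆ N := by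
    intro x hx
    rw [hS, Finset.mem_coe, Finset.mem_union] at hx
    rcases hx with hx | hx
    · apply hWN
      rw [← hw]
      exact Subgroup.subset_normalClosure hx
    · rw [Finset.mem_image] at hx
      obtain ⟨y, hy, rfl⟩ := hx
      exact (hf y (hYf.mem_toFinset.mp hy)).1
  have hMN : Subgroup.normalClosure (S : Set G) ≤ N := Subgroup.normalClosure_le_normal hSN
  have hWM : W ≤ Subgroup.normalClosure (S : Set G) := by
    rw [← hw]
    exact Subgroup.normalClosure_mono hwS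
  have hlift : ∀ t ∈ gen (⊤ : Subgroup G) Y,
      ∃ m ∈ Subgroup.normalClosure (S : Set G), s.π m = t := by
    intro t ht
    unfold gen at ht
    induction ht using AddSubgroup.closure_induction with
    | mem y hy =>
      obtain ⟨k, -, x, hx, rfl⟩ := hy
      have h1 := hf x hx
      refine ⟨k * f x * k⁻¹, ?_, ?_⟩
      · exact Subgroup.normalClosure_normal.conj_mem (f x)
          (Subgroup.subset_normalClosure (hfS x hx)) k
      · rw [← hsmul k (f x) (hNA h1.1), h1.2]
    | zero => exact ⟨1, Subgroup.one_mem _, s.π_one⟩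
    | add y z _ _ hy hz =>
      obtain ⟨m, hm, hmy⟩ := hy
      obtain ⟨l, hl, hlz⟩ := hz
      refine ⟨m * l, Subgroup.mul_mem _ hm hl, ?_⟩
      rw [s.mul m (hNA (hMN hm)) l (hNA (hMN hl)), hmy, hlz]
    | neg y _ hy =>
      obtain ⟨m, hm, hmy⟩ := hy
      refine ⟨m⁻¹, Subgroup.inv_mem _ hm, ?_⟩
      rw [s.π_inv (hNA (hMN hm)), hmy]
  apply le_antisymm hMN
  intro a ha
  have h1 : s.π a ∈ gen (⊤ : Subgroup G) Y := by
    rw [hY]
    exact ⟨a, ha, rfl⟩
  obtain ⟨m, hm, hma⟩ := hlift _ h1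
  have h2 : a * m⁻¹ ∈ W := (s.π_eq_iff (hNA ha) (hNA (hMN hm))).mp hma.symm
  have h3 : a = (a * m⁻¹) * m := by group
  rw [h3]
  exact Subgroup.mul_mem _ (hWM h2) hm

end Pool.Agent.Helper83.SV
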