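import Pool.Agent.Helper83.SV.Defs

/-!
# SV-L1: minimal normal subgroups of finite subgroups have bounded order

All subgroups are subgroups of a fixed group `Γ`; normality in `B` is expressed by conjugation.

`exists_minN`: induction on the order.

`minN_bound`: let `O` be minimal normal in `B` (finite). `O` is not abelian (if it were, then by `na`
for `u ∈ O`, `⁅u, b u b⁻¹⁆ = 1` for `b ∈ B₀ ≤ B`, `u = 1`). Let `S` be minimal normal in `O`
(`exists_minN` for `O, O`). All `b S b⁻¹`, `b ∈ B`, are minimal normal in `O`; two different ones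
intersect trivially, so they commute. `S` is not abelian: otherwise `⁅s, b s b⁻¹⁆ = 1` for `s ∈ S`,
`b ∈ B₀`, so `s = 1`. Claim: each `S' = b' S b'⁻¹`, `b' ∈ B`, is `b S b⁻¹` for some `b ∈ B₀`: otherwise
`⁅u, b v b⁻¹⁆ = 1` for all `u ∈ S'`, `v ∈ S`, `b ∈ B₀`, by `win` `⁅u, b' v b'⁻¹⁆ = 1`, so `S'` is
abelian, and `S` too. The subgroup generated by all `b S b⁻¹` is normal in `B`, so it is `O`; so `O` is
the product (as a set) of the subgroups `b S b⁻¹`, `b ∈ B₀`, normal in `O`, and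
`card O ≤ (card S) ^ (card B₀)`. A subgroup `K ≠ ⊥` of `S` normal in `S` is normalised by all
`b S b⁻¹`, so by `O`, so `K = S`: `S` is simple, and `card S ≤ n` by `hs`.

`minN_index`: the map `B → (O → O)` given by conjugation; two elements of `B` with the same image
differ by an element of the centralizer of `O`. So among any `m + 1` elements of `B`, where
`m = N ^ N`, `N = card O`, two are equal modulo `centralizer O`.
-/

namespace Pool.Agent.Helper83.SV

open scoped commutatorElement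

variable {Γ : Type} [Group Γ]

/-- `O` is a minimal normal subgroup of `B`. -/
def MinN (B O : Subgroup Γ) : Prop :=
  O ≤ B ∧ O ≠ ⊥ ∧ (∀ b ∈ B, ∀ o ∈ O, b * o * b⁻¹ ∈ O) ∧
    ∀ O' : Subgroup Γ, O' ≤ O → O' ≠ ⊥ → (∀ b ∈ B, ∀ o ∈ O', b * o * b⁻¹ ∈ O') → O' = O

/-- Windows for the locally finite group `T`. -/
structure LFw (T B₀ : Subgroup Γ) : Prop where
  le : B₀ ≤ T
  lf : ∀ B : Subgroup Γ, B ≤ T → B.FG → Finite B
  fg : B₀.FG
  na : ∀ u ∈ T, (∀ b ∈ B₀, ⁅u, b * u * b⁻¹⁆ = 1) → u = 1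
  win : ∀ u ∈ T, ∀ v ∈ T, (∀ b ∈ B₀, ⁅u, b * v * b⁻¹⁆ = 1) → ∀ t ∈ T, ⁅u, t * v * t⁻¹⁆ = 1

private def cj (b : Γ) (S : Subgroup Γ) : Subgroup Γ := S.map (MulAut.conj b).toMonoidHom

private theorem mem_cj {b : Γ} {S : Subgroup Γ} {x : Γ} : x ∈ cj b S ↔ b⁻¹ * x * b ∈ S := by
  constructor
  · rintro ⟨y, hy, rfl⟩
    have : b⁻¹ * (MulAut.conj b).toMonoidHom y * b = y := by simp [MulAut.conj_apply, mul_assoc]
    rw [this]
    exact hy
  · intro h
    exact ⟨b⁻¹ * x * b, h, by simp [MulAut.conj_apply, mul_assoc]⟩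

private theorem cj_le_iff {b : Γ} {S R : Subgroup Γ} : cj b S ≤ R ↔ S ≤ cj b⁻¹ R := by
  constructor
  · intro h s hs
    rw [mem_cj]
    apply h
    rw [mem_cj]
    simpa [mul_assoc] using hs
  · intro h x hx
    have h1 := h (mem_cj.1 hx)
    rw [mem_cj] at h1
    simpa [mul_assoc] using h1

private theorem cj_cj (a b : Γ) (S : Subgroup Γ) : cj a (cj b S) = cj (a * b) S := by
  ext x
  simp only [mem_cj]
  have : b⁻¹ * (a⁻¹ * x * a) * b = (a * b)⁻¹ * x * (a * b) := by group
  rw [this]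

private theorem cj_one (S : Subgroup Γ) : cj 1 S = S := by
  ext x
  simp [mem_cj]

private theorem cj_ne_bot {b : Γ} {S : Subgroup Γ} (h : S ≠ ⊥) : cj b S ≠ ⊥ := by
  intro h1
  apply h
  have : cj b S ≤ ⊥ := h1.le
  rw [cj_le_iff] at this
  rw [eq_bot_iff]
  intro s hs
  have h2 := mem_cj.1 (this hs)
  rw [Subgroup.mem_bot] at h2 ⊢
  have h3 : s = b⁻¹ * (b⁻¹⁻¹ * s * b⁻¹) * b := by group
  rw [h3, h2]
  group

private theorem card_cj (b : Γ) (S : Subgroup Γ) : Nat.card (cj b S) = Nat.card S :=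
  Nat.card_congr (S.equivMapOfInjective _ (MulAut.conj b).injective).symm.toEquiv

theorem exists_minN (B J : Subgroup Γ) (hB : Finite B) (hJ : J ≤ B) (hJ0 : J ≠ ⊥)
    (hn : ∀ b ∈ B, ∀ x ∈ J, b * x * b⁻¹ ∈ J) : ∃ O, MinN B O ∧ O ≤ J := by
  have key : ∀ n : ℕ, ∀ J : Subgroup Γ, Nat.card J = n → J ≤ B → J ≠ ⊥ →
      (∀ b ∈ B, ∀ x ∈ J, b * x * b⁻¹ ∈ J) → ∃ O, MinN B O ∧ O ≤ J := by
    intro n
    induction n using Nat.strong_induction_on with
    | _ n ih =>
      intro J hc hJ hJ0 hn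
      by_cases hmin : ∀ O' : Subgroup Γ, O' ≤ J → O' ≠ ⊥ →
          (∀ b ∈ B, ∀ o ∈ O', b * o * b⁻¹ ∈ O') → O' = J
      · exact ⟨J, ⟨hJ, hJ0, hn, hmin⟩, le_rfl⟩
      · push Not at hmin
        obtain ⟨O', h1, h2, h3, h4⟩ := hmin
        have hfJ : Finite J := Finite.of_injective (Subgroup.inclusion hJ)
          (Subgroup.inclusion_injective hJ)
        have hlt : Nat.card O' < n := by
          rw [← hc]
          have hle : Nat.card O' ≤ Nat.card J := Subgroup.card_le_of_le h1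
          refine lt_of_le_of_ne hle fun he => h4 ?_
          exact Subgroup.eq_of_le_of_card_ge h1 he.ge
        obtain ⟨O, hO, hOJ⟩ := ih _ hlt O' rfl (h1.trans hJ) h2 h3
        exact ⟨O, hO, hOJ.trans h1⟩
  exact key _ J rfl hJ hJ0 hn

theorem LFw.not_comm {T B₀ : Subgroup Γ} (h : LFw T B₀) {B O : Subgroup Γ} (hB : B₀ ≤ B)
    (hBT : B ≤ T) (hO : MinN B O) : ¬ ∀ a ∈ O, ∀ b ∈ O, a * b = b * a := by
  intro hc
  apply hO.2.1
  rw [eq_bot_iff]
  intro u hu
  rw [Subgroup.mem_bot]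
  apply h.na u (hBT (hO.1 hu))
  intro b hb
  rw [commutatorElement_eq_one_iff_mul_comm]
  exact hc _ hu _ (hO.2.2.1 b (hB hb) u hu)

private theorem minN_cj {B O S : Subgroup Γ} (hn : ∀ b ∈ B, ∀ o ∈ O, b * o * b⁻¹ ∈ O)
    (hS : MinN O S) {b : Γ} (hb : b ∈ B) : MinN O (cj b S) := by
  have hn' : ∀ b ∈ B, ∀ o ∈ O, b⁻¹ * o * b ∈ O := by
    intro b hb o ho
    have := hn b⁻¹ (B.inv_mem hb) o ho
    simpa using this
  obtain ⟨h1, h2, h3, h4⟩ := hS
  refine ⟨?_, cj_ne_bot h2, ?_, ?_⟩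
  · intro x hx
    have := hn b hb _ (h1 (mem_cj.1 hx))
    simpa [mul_assoc] using this
  · intro o ho x hx
    rw [mem_cj] at hx ⊢
    have := h3 _ (hn' b hb o ho) _ hx
    have he : b⁻¹ * (o * x * o⁻¹) * b = b⁻¹ * o * b * (b⁻¹ * x * b) * (b⁻¹ * o * b)⁻¹ := by group
    rw [he]
    exact this
  · intro O' hO' h0 hO'n
    have h5 : cj b⁻¹ O' = S := by
      apply h4
      · rw [cj_le_iff, inv_inv]
        exact hO'
      · exact cj_ne_bot h0
      · intro o ho x hx
        rw [mem_cj] at hx ⊢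
        have := hO'n _ (hn b hb o ho) _ hx
        have he : b⁻¹⁻¹ * (o * x * o⁻¹) * b⁻¹ =
          b * o * b⁻¹ * (b⁻¹⁻¹ * x * b⁻¹) * (b * o * b⁻¹)⁻¹ := by group
        rw [he]
        exact this
    rw [← h5, cj_cj, mul_inv_cancel, cj_one]

private theorem minN_comm {O S R : Subgroup Γ} (hS : MinN O S) (hR : MinN O R) (hne : S ≠ R)
    {a b : Γ} (ha : a ∈ S) (hb : b ∈ R) : a * b = b * a := by
  have h1 : S ⊓ R = ⊥ := by
    by_contra h0
    have hn : ∀ o ∈ O, ∀ x ∈ S ⊓ R, o * x * o⁻¹ ∈ S ⊓ R := fun o ho x hx =>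
      ⟨hS.2.2.1 o ho x hx.1, hR.2.2.1 o ho x hx.2⟩
    have e1 := hS.2.2.2 (S ⊓ R) inf_le_left h0 hn
    have e2 := hR.2.2.2 (S ⊓ R) inf_le_right h0 hn
    exact hne (e1.symm.trans e2)
  have h2 : a * b * a⁻¹ * b⁻¹ ∈ S ⊓ R := by
    refine ⟨?_, ?_⟩
    · have := hS.2.2.1 b (hR.1 hb) a⁻¹ (S.inv_mem ha)
      have h3 := S.mul_mem ha this
      have : a * (b * a⁻¹ * b⁻¹) = a * b * a⁻¹ * b⁻¹ := by group
      rw [← this]
      exact h3
    · have := hR.2.2.1 a (hS.1 ha) b hb
      exact R.mul_mem this (R.inv_mem hb)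
  rw [h1, Subgroup.mem_bot] at h2
  have h3 : a * b = (a * b * a⁻¹ * b⁻¹) * (b * a) := by group
  rw [h3, h2, one_mul]

theorem minN_bound {T B₀ : Subgroup Γ} (h : LFw T B₀) (n : ℕ)
    (hs : ∀ S : Subgroup Γ, S ≤ T → Finite S → IsSimpleGroup S →
      (¬ ∀ a ∈ S, ∀ b ∈ S, a * b = b * a) → Nat.card S ≤ n)
    {B O : Subgroup Γ} (hBf : Finite B) (hB : B₀ ≤ B) (hBT : B ≤ T) (hO : MinN B O) :
    Nat.card O ≤ n ^ Nat.card B₀ := by
  classical
  have hOf : Finite O := Finite.of_injective (Subgroup.inclusion hO.1)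
    (Subgroup.inclusion_injective hO.1)
  have hBf0 : Finite B₀ := Finite.of_injective (Subgroup.inclusion hB)
    (Subgroup.inclusion_injective hB)
  obtain ⟨S, hS, -⟩ := exists_minN O O hOf le_rfl hO.2.1 (fun b hb x hx =>
    O.mul_mem (O.mul_mem hb hx) (O.inv_mem hb))
  have hSf : Finite S := Finite.of_injective (Subgroup.inclusion hS.1)
    (Subgroup.inclusion_injective hS.1)
  have hST : S ≤ T := hS.1.trans (hO.1.trans hBT)
  have hcj : ∀ b ∈ B, MinN O (cj b S) := fun b hb => minN_cj hO.2.2.1 hS hb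
  -- `S` is not abelian
  have hnab : ¬ ∀ a ∈ S, ∀ b ∈ S, a * b = b * a := by
    intro hc
    apply hS.2.1
    rw [eq_bot_iff]
    intro s hs
    rw [Subgroup.mem_bot]
    apply h.na s (hST hs)
    intro b hb
    rw [commutatorElement_eq_one_iff_mul_comm]
    have hm : b * s * b⁻¹ ∈ cj b S := by
      rw [mem_cj]
      simpa [mul_assoc] using hs
    by_cases he : S = cj b S
    · rw [← he] at hm
      exact hc _ hs _ hm
    · exact minN_comm hS (hcj b (hB hb)) he hs hm
  -- all conjugates are conjugates by elements of `B₀`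
  have hconj : ∀ b' ∈ B, ∃ b ∈ B₀, cj b' S = cj b S := by
    intro b' hb'
    by_contra hcon
    push Not at hcon
    apply hnab
    have hw : ∀ u ∈ cj b' S, ∀ v ∈ S, ⁅u, b' * v * b'⁻¹⁆ = 1 := by
      intro u hu v hv
      refine h.win u (hBT (hO.1 ((hcj b' hb').1 hu))) v (hST hv) ?_ b' (hBT hb')
      intro b hb
      rw [commutatorElement_eq_one_iff_mul_comm]
      refine minN_comm (hcj b' hb') (hcj b (hB hb)) (hcon b hb) hu ?_
      rw [mem_cj]
      simpa [mul_assoc] using hv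
    intro a ha b hb
    have h1 := hw (b' * a * b'⁻¹) (by rw [mem_cj]; simpa [mul_assoc] using ha) b hb
    rw [commutatorElement_eq_one_iff_mul_comm] at h1
    have h2 : b' * (a * b) * b'⁻¹ = b' * (b * a) * b'⁻¹ := by
      calc b' * (a * b) * b'⁻¹ = b' * a * b'⁻¹ * (b' * b * b'⁻¹) := by group
        _ = b' * b * b'⁻¹ * (b' * a * b'⁻¹) := h1
        _ = b' * (b * a) * b'⁻¹ := by group
    exact mul_left_cancel (mul_right_cancel h2)
  -- the subgroup generated by the conjugates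
  have hgen : (⨆ b : B₀, cj (b : Γ) S) = O := by
    apply hO.2.2.2
    · exact iSup_le fun b => (hcj b (hB b.2)).1
    · intro h0
      apply hS.2.1
      have := le_iSup (fun b : B₀ => cj (b : Γ) S) 1
      rw [h0] at this
      simp only [OneMemClass.coe_one, cj_one] at this
      exact eq_bot_iff.2 this
    · intro b hb x hx
      have hle : (⨆ c : B₀, cj (c : Γ) S) ≤ cj b⁻¹ (⨆ c : B₀, cj (c : Γ) S) := by
        refine iSup_le fun c => ?_
        rw [← cj_le_iff, cj_cj]
        obtain ⟨c', hc', he⟩ := hconj (b * c) (B.mul_mem hb (hB c.2))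
        rw [he]
        exact le_iSup (fun b : B₀ => cj (b : Γ) S) ⟨c', hc'⟩
      have := mem_cj.1 (hle hx)
      simpa using this
  -- `S` is simple
  have hnorm : ∀ K : Subgroup Γ, K ≤ S → K ≠ ⊥ → (∀ s ∈ S, ∀ k ∈ K, s * k * s⁻¹ ∈ K) → K = S := by
    intro K hK hK0 hKn
    apply hS.2.2.2 K hK hK0
    have hle : O ≤ Subgroup.normalizer (K : Set Γ) := by
      rw [← hgen]
      refine iSup_le fun b => ?_
      intro x hx
      have hcase : ∀ y ∈ cj (b : Γ) S, ∀ k ∈ K, y * k * y⁻¹ ∈ K := by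
        intro y hy k hk
        by_cases he : cj (b : Γ) S = S
        · rw [he] at hy
          exact hKn y hy k hk
        · have := minN_comm (hcj b (hB b.2)) hS he hy (hK hk)
          rw [this, mul_assoc, mul_inv_cancel, mul_one]
          exact hk
      exact Subgroup.le_normalizer_iff.2 hcase hx
    intro o ho k hk
    exact Subgroup.le_normalizer_iff.1 hle o ho k hk
  have hsimple : IsSimpleGroup S := by
    have hnt : Nontrivial S := (Subgroup.nontrivial_iff_ne_bot S).2 hS.2.1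
    refine ⟨fun H hH => ?_⟩
    by_cases h0 : H = ⊥
    · exact Or.inl h0
    · right
      have hK : H.map S.subtype = S := by
        apply hnorm
        · exact Subgroup.map_subtype_le H
        · intro h1
          exact h0 ((Subgroup.map_eq_bot_iff_of_injective H S.subtype_injective).1 h1)
        · rintro s hs _ ⟨k, hk, rfl⟩
          exact ⟨⟨s, hs⟩ * k * ⟨s, hs⟩⁻¹, hH.conj_mem k hk _, by simp⟩
      rw [eq_top_iff]
      intro x _
      have hx : (x : Γ) ∈ H.map S.subtype := by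
        rw [hK]
        exact x.2
      obtain ⟨y, hy, he⟩ := hx
      have : y = x := Subtype.ext he
      rw [← this]
      exact hy
  have hSn : Nat.card S ≤ n := hs S hST hSf hsimple hnab
  -- the count
  have hcount : ∀ I : Finset B₀, Nat.card (⨆ b ∈ I, cj (b : Γ) S : Subgroup Γ) ≤ n ^ I.card := by
    intro I
    induction I using Finset.induction_on with
    | empty => simp
    | insert a I ha ih =>
      rw [Finset.iSup_insert, Finset.card_insert_of_notMem ha]
      set P : Subgroup Γ := ⨆ b ∈ I, cj (b : Γ) S with hP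
      have hPO : P ≤ O := iSup₂_le fun b _ => (hcj b (hB b.2)).1
      have hPf : Finite P := Finite.of_injective (Subgroup.inclusion hPO)
        (Subgroup.inclusion_injective hPO)
      have hnz : P ≤ Subgroup.normalizer ((cj (a : Γ) S : Subgroup Γ) : Set Γ) :=
        hPO.trans (Subgroup.le_normalizer_iff.2 (hcj a (hB a.2)).2.2.1)
      have hmul := Subgroup.coe_mul_of_right_le_normalizer_left (cj (a : Γ) S) P hnz
      have hcf : Finite (cj (a : Γ) S) := by
        refine Finite.of_injective (Subgroup.inclusion (hcj a (hB a.2)).1)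
          (Subgroup.inclusion_injective _)
      have hle : Nat.card (cj (a : Γ) S ⊔ P : Subgroup Γ) ≤
          Nat.card (cj (a : Γ) S) * Nat.card P := by
        rw [← Nat.card_prod]
        have hsurj : ∀ z : (cj (a : Γ) S ⊔ P : Subgroup Γ), ∃ xy : cj (a : Γ) S × P,
            (xy.1 : Γ) * xy.2 = z := by
          intro z
          have hz : (z : Γ) ∈ ((cj (a : Γ) S ⊔ P : Subgroup Γ) : Set Γ) := z.2
          rw [hmul] at hz
          obtain ⟨x, hx, y, hy, he⟩ := Set.mem_mul.1 hz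
          exact ⟨(⟨x, hx⟩, ⟨y, hy⟩), he⟩
        choose f hf using hsurj
        refine Nat.card_le_card_of_injective f ?_
        intro z w hzw
        apply Subtype.ext
        rw [← hf z, ← hf w, hzw]
      refine hle.trans ?_
      rw [card_cj, pow_succ, mul_comm]
      exact Nat.mul_le_mul ih hSn
  have hfin : Fintype B₀ := Fintype.ofFinite _
  have := hcount Finset.univ
  simp only [Finset.mem_univ, iSup_pos, Finset.card_univ] at this
  rw [hgen] at this
  rw [Nat.card_eq_fintype_card (α := B₀)]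
  exact this

/-- Representatives modulo the centralizer of a small normal subgroup. -/
theorem minN_index {B O : Subgroup Γ} (hn : ∀ b ∈ B, ∀ o ∈ O, b * o * b⁻¹ ∈ O)
    (hO : Finite O) (N : ℕ) (hN : Nat.card O ≤ N) (X : Subgroup Γ) (hX : X ≤ B) :
    ∃ l : List Γ, l.length = N ^ N ∧ (∀ p ∈ l, p ∈ X) ∧
      ∀ x ∈ X, ∃ p ∈ l, x * p⁻¹ ∈ Subgroup.centralizer (O : Set Γ) := by
  classical
  let f : X → (O → O) := fun x o => ⟨x * o * (x : Γ)⁻¹, hn x (hX x.2) o o.2⟩
  have hfin : Finite (Set.range f) := inferInstance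
  have hft : Fintype (Set.range f) := Fintype.ofFinite _
  have hcard : Nat.card (Set.range f) ≤ N ^ N := by
    have h1 : Nat.card (Set.range f) ≤ Nat.card (O → O) :=
      Nat.card_le_card_of_injective (fun z => z.1) Subtype.val_injective
    have h2 : Nat.card (O → O) = Nat.card O ^ Nat.card O := by
      rw [Nat.card_fun]
    rw [h2] at h1
    refine h1.trans ?_
    have hpos : 0 < Nat.card O := Nat.card_pos
    exact (Nat.pow_le_pow_left hN _).trans (Nat.pow_le_pow_right (hpos.trans_le hN) hN)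
  have hrep : ∀ z : Set.range f, ∃ x : X, f x = z.1 := fun z => z.2
  choose r hr using hrep
  let l0 : List Γ := (Finset.univ : Finset (Set.range f)).toList.map fun z => ((r z : X) : Γ)
  have hl0 : l0.length = Nat.card (Set.range f) := by
    simp [l0, Nat.card_eq_fintype_card]
  refine ⟨l0 ++ List.replicate (N ^ N - l0.length) 1, ?_, ?_, ?_⟩
  · rw [List.length_append, List.length_replicate, hl0]
    omega
  · intro p hp
    rcases List.mem_append.1 hp with hp | hp
    · obtain ⟨z, -, rfl⟩ := List.mem_map.1 hp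
      exact (r z).2
    · rw [List.eq_of_mem_replicate hp]
      exact X.one_mem
  · intro x hx
    refine ⟨((r ⟨f ⟨x, hx⟩, ⟨_, rfl⟩⟩ : X) : Γ), ?_, ?_⟩
    · apply List.mem_append_left
      exact List.mem_map.2 ⟨_, by simp, rfl⟩
    · set p : X := r ⟨f ⟨x, hx⟩, ⟨_, rfl⟩⟩ with hp
      have he : f p = f ⟨x, hx⟩ := hr _
      rw [Subgroup.mem_centralizer_iff]
      intro o ho
      have ho' : (p : Γ)⁻¹ * o * p ∈ O := by
        have := hn (p : Γ)⁻¹ (B.inv_mem (hX p.2)) o ho
        simpa using this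
      have h1 := congrArg Subtype.val (congrFun he ⟨_, ho'⟩)
      have h2 : (p : Γ) * ((p : Γ)⁻¹ * o * p) * (p : Γ)⁻¹ = x * ((p : Γ)⁻¹ * o * p) * x⁻¹ := h1
      have h3 : o = x * ((p : Γ)⁻¹ * o * p) * x⁻¹ := by
        rw [← h2]
        group
      calc o * (x * (p : Γ)⁻¹) = (x * ((p : Γ)⁻¹ * o * p) * x⁻¹) * (x * (p : Γ)⁻¹) := by
            rw [← h3]
        _ = x * (p : Γ)⁻¹ * o := by group

end Pool.Agent.Helper83.SV
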