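import Pool.Agent.Helper83.SV.LF1

/-!
# SV-L2: a fixed finite subgroup acts as everything on minimal normal subgroups

`nest_window`: `nest d l y` for a list `l` of length `m` is the value of a word in the parameters
`d`, `a_j, z_j, c_j` (`j < m`) and the variable `y`: use tameness of `T` for this word (`φ` the
identity of `Γ`); build the word by recursion on `m`, with the parameter type `Option (Fin m × Fin 3)`
or `Fin (3 * m + 1)`.

`LFw_onto`: let `C = centralizer O`, `N = n ^ card B₀`, `m = N ^ N`; by `minN_bound`, `card O ≤ N`. By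
`minN_index` for `X = B₁` there is a list of `m` elements `p_j ∈ B₁` such that each `x ∈ B₁` is
congruent to some `p_j` modulo `C`. Assume that `b ∈ B` is not congruent to an element of `B₁`, so
`b p_j⁻¹ ∉ C` for all `j`; choose `a_j ∈ O` with `⁅a_j, b p_j⁻¹⁆ ≠ 1` (in `O`), `z_j = p_j⁻¹`, and
`1 ≠ d ∈ O`. By recursion on the list choose `c_j ∈ B` such that all the values of the nested
commutators at `y = b` are `≠ 1` (elements of `O`): for `1 ≠ f, g ∈ O` there is `c ∈ B` with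
`⁅c f c⁻¹, g⁆ ≠ 1`, because the subgroup generated by the `c f c⁻¹` is `O` (minimality) and `O` has
trivial centre (the centre is normal in `B`, and `O` is not abelian, `LFw.not_comm`). But for
`y = x ∈ B₁` congruent to `p_j` modulo `C`, `⁅a_j, x p_j⁻¹⁆ = 1`, so the nested commutator is `1`. This
contradicts `hw` (`b ∈ T`).

`exists_LFo`: from tameness of `T` get finite sets `E₁, E₂ ⊆ T` for the words `[u, y v y⁻¹]` and
`[u, y u y⁻¹]`; `B₀ = closure (E₁ ∪ E₂)` gives `LFw T B₀` (use `hna`). Then `E₃` from `nest_window` for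
`m = N ^ N`, `N = n ^ card B₀`, and `B₁ = closure (B₀ ∪ E₃)` (finitely generated).
-/

namespace Pool.Agent.Helper83.SV

open Pool.Agent.Helper32.SmallVar Pool.Agent.Helper13.PV
open scoped commutatorElement

variable {Γ : Type} [Group Γ] {L : Set (FreeGroup ℕ)}

/-- Nested commutators. -/
def nest (d : Γ) : List (Γ × Γ × Γ) → Γ → Γ
  | [], _ => d
  | t :: l, y => ⁅t.2.2 * ⁅t.1, y * t.2.1⁆ * t.2.2⁻¹, nest d l y⁆

/-- Windows for `T`, and `B = B₁ C_B(O)` for all minimal normal subgroups `O` of finite subgroups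
`B ≥ B₁`. -/
structure LFo (T B₁ : Subgroup Γ) : Prop extends LFw T B₁ where
  onto : ∀ B : Subgroup Γ, Finite B → B₁ ≤ B → B ≤ T → ∀ O, MinN B O → ∀ b ∈ B,
    ∃ b₁ ∈ B₁, b₁⁻¹ * b ∈ Subgroup.centralizer (O : Set Γ)

private theorem LF2_map_nest {G H : Type} [Group G] [Group H] (f : G →* H) (d y : G)
    (l : List (G × G × G)) :
    f (nest d l y) = nest (f d) (l.map fun t => (f t.1, f t.2.1, f t.2.2)) (f y) := by
  induction l with
  | nil => rfl
  | cons t l ih =>
    simp only [nest, List.map_cons, map_commutatorElement, map_mul, map_inv, ih]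

theorem nest_window (hΓ : SatisfiesLaws L Γ) (T : Subgroup Γ) (hT : Tame L (T : Set Γ)) (m : ℕ) :
    ∃ E : Finset Γ, (E : Set Γ) ⊆ T ∧ ∀ (l : List (Γ × Γ × Γ)) (d : Γ), l.length = m →
      (∀ e ∈ E, nest d l e = 1) → ∀ t ∈ T, nest d l t = 1 := by
  obtain ⟨E, hE, hw⟩ := hT (Option (Fin m × Fin 3))
    (nest (FreeGroup.of (some none)) (List.ofFn fun j : Fin m =>
      (FreeGroup.of (some (some (j, (0 : Fin 3)))), FreeGroup.of (some (some (j, (1 : Fin 3)))),
        FreeGroup.of (some (some (j, (2 : Fin 3)))))) (FreeGroup.of none))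
  refine ⟨E, hE, ?_⟩
  intro l d hl he t ht
  subst hl
  have key : ∀ y : Γ, ev (fun o : Option (Fin l.length × Fin 3) =>
      o.elim d (fun p => ![(l.get p.1).1, (l.get p.1).2.1, (l.get p.1).2.2] p.2)) y
      (nest (FreeGroup.of (some none)) (List.ofFn fun j : Fin l.length =>
      (FreeGroup.of (some (some (j, (0 : Fin 3)))), FreeGroup.of (some (some (j, (1 : Fin 3)))),
        FreeGroup.of (some (some (j, (2 : Fin 3)))))) (FreeGroup.of none)) = nest d l y := by
    intro y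
    rw [LF2_map_nest, List.map_ofFn]
    have e1 : (List.ofFn ((fun t => (ev (fun o : Option (Fin l.length × Fin 3) =>
        o.elim d (fun p => ![(l.get p.1).1, (l.get p.1).2.1, (l.get p.1).2.2] p.2)) y t.1,
        ev (fun o : Option (Fin l.length × Fin 3) =>
        o.elim d (fun p => ![(l.get p.1).1, (l.get p.1).2.1, (l.get p.1).2.2] p.2)) y t.2.1,
        ev (fun o : Option (Fin l.length × Fin 3) =>
        o.elim d (fun p => ![(l.get p.1).1, (l.get p.1).2.1, (l.get p.1).2.2] p.2)) y t.2.2)) ∘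
        fun j : Fin l.length =>
      (FreeGroup.of (some (some (j, (0 : Fin 3)))), FreeGroup.of (some (some (j, (1 : Fin 3)))),
        FreeGroup.of (some (some (j, (2 : Fin 3))))))) = l := by
      have e2 : ((fun t : FreeGroup (Option (Option (Fin l.length × Fin 3))) ×
          FreeGroup (Option (Option (Fin l.length × Fin 3))) ×
          FreeGroup (Option (Option (Fin l.length × Fin 3))) =>
        (ev (fun o : Option (Fin l.length × Fin 3) =>
        o.elim d (fun p => ![(l.get p.1).1, (l.get p.1).2.1, (l.get p.1).2.2] p.2)) y t.1,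
        ev (fun o : Option (Fin l.length × Fin 3) =>
        o.elim d (fun p => ![(l.get p.1).1, (l.get p.1).2.1, (l.get p.1).2.2] p.2)) y t.2.1,
        ev (fun o : Option (Fin l.length × Fin 3) =>
        o.elim d (fun p => ![(l.get p.1).1, (l.get p.1).2.1, (l.get p.1).2.2] p.2)) y t.2.2)) ∘
        fun j : Fin l.length =>
      (FreeGroup.of (some (some (j, (0 : Fin 3)))), FreeGroup.of (some (some (j, (1 : Fin 3)))),
        FreeGroup.of (some (some (j, (2 : Fin 3)))))) = l.get := by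
        funext j
        simp [ev]
      rw [e2, List.ofFn_get]
    rw [e1]
    congr 1
    · simp [ev]
    · simp [ev]
  have h1 := hw Γ hΓ (MonoidHom.id Γ) (fun o : Option (Fin l.length × Fin 3) =>
      o.elim d (fun p => ![(l.get p.1).1, (l.get p.1).2.1, (l.get p.1).2.2] p.2)) (by
    intro e hee
    rw [MonoidHom.id_apply, key]
    exact he e hee) t ht
  rw [MonoidHom.id_apply, key] at h1
  exact h1

/-- Two nontrivial elements of a nonabelian minimal normal subgroup. -/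
private theorem LF2_pair {B O : Subgroup Γ} (hO : MinN B O)
    (hna : ¬ ∀ a ∈ O, ∀ b ∈ O, a * b = b * a) {f g : Γ} (hf : f ∈ O) (hf1 : f ≠ 1) (hg : g ∈ O)
    (hg1 : g ≠ 1) : ∃ c ∈ B, ⁅c * f * c⁻¹, g⁆ ≠ 1 := by
  by_contra hcon
  push Not at hcon
  obtain ⟨hOB, hO0, hOn, hOmin⟩ := hO
  -- the elements all of whose conjugates commute with `g`
  let O' : Subgroup Γ :=
    { carrier := {o | o ∈ O ∧ ∀ c ∈ B, (c * o * c⁻¹) * g = g * (c * o * c⁻¹)}
      mul_mem' := by
        rintro a b ⟨ha, ha'⟩ ⟨hb, hb'⟩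
        refine ⟨O.mul_mem ha hb, fun c hc => ?_⟩
        have e1 : c * (a * b) * c⁻¹ = (c * a * c⁻¹) * (c * b * c⁻¹) := by group
        rw [e1, mul_assoc, hb' c hc, ← mul_assoc, ha' c hc, mul_assoc]
      one_mem' := ⟨O.one_mem, fun c _ => by simp⟩
      inv_mem' := by
        rintro a ⟨ha, ha'⟩
        refine ⟨O.inv_mem ha, fun c hc => ?_⟩
        have e1 : c * a⁻¹ * c⁻¹ = (c * a * c⁻¹)⁻¹ := by group
        rw [e1]
        have e2 : Commute (c * a * c⁻¹) g := ha' c hc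
        exact e2.inv_left.eq }
  have hO' : O' = O := by
    apply hOmin O' (fun a ha => ha.1)
    · intro h
      have : f ∈ O' := ⟨hf, fun c hc => commutatorElement_eq_one_iff_mul_comm.1 (hcon c hc)⟩
      rw [h, Subgroup.mem_bot] at this
      exact hf1 this
    · rintro b hb o ⟨ho, ho'⟩
      refine ⟨hOn b hb o ho, fun c hc => ?_⟩
      have e1 : c * (b * o * b⁻¹) * c⁻¹ = (c * b) * o * (c * b)⁻¹ := by group
      rw [e1]
      exact ho' (c * b) (B.mul_mem hc hb)
  have hgc : ∀ o ∈ O, o * g = g * o := by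
    intro o ho
    rw [← hO'] at ho
    have := ho.2 1 B.one_mem
    simpa using this
  -- the centre
  let Z : Subgroup Γ :=
    { carrier := {o | o ∈ O ∧ ∀ x ∈ O, x * o = o * x}
      mul_mem' := by
        rintro a b ⟨ha, ha'⟩ ⟨hb, hb'⟩
        refine ⟨O.mul_mem ha hb, fun x hx => ?_⟩
        rw [← mul_assoc, ha' x hx, mul_assoc, hb' x hx, mul_assoc]
      one_mem' := ⟨O.one_mem, fun x _ => by simp⟩
      inv_mem' := by
        rintro a ⟨ha, ha'⟩
        refine ⟨O.inv_mem ha, fun x hx => ?_⟩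
        have e2 : Commute x a := ha' x hx
        exact e2.inv_right.eq }
  have hZ : Z = O := by
    apply hOmin Z (fun a ha => ha.1)
    · intro h
      have : g ∈ Z := ⟨hg, hgc⟩
      rw [h, Subgroup.mem_bot] at this
      exact hg1 this
    · rintro b hb o ⟨ho, ho'⟩
      refine ⟨hOn b hb o ho, fun x hx => ?_⟩
      have h1 : b⁻¹ * x * b ∈ O := by
        have := hOn b⁻¹ (B.inv_mem hb) x hx
        rwa [inv_inv] at this
      have h2 := ho' _ h1
      have e1 : x * (b * o * b⁻¹) = b * ((b⁻¹ * x * b) * o) * b⁻¹ := by group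
      have e2 : b * o * b⁻¹ * x = b * (o * (b⁻¹ * x * b)) * b⁻¹ := by group
      rw [e1, e2, h2]
  apply hna
  intro a ha b hb
  rw [← hZ] at hb
  exact hb.2 a ha

/-- The list of the nested commutators. -/
private theorem LF2_list {B O : Subgroup Γ} (hO : MinN B O)
    (hna : ¬ ∀ a ∈ O, ∀ b ∈ O, a * b = b * a) {b d : Γ} (hb : b ∈ B) (hd : d ∈ O) (hd1 : d ≠ 1)
    (lp : List Γ) (hlp : ∀ p ∈ lp, p ∈ B ∧ b * p⁻¹ ∉ Subgroup.centralizer (O : Set Γ)) :
    ∃ l : List (Γ × Γ × Γ), l.length = lp.length ∧ nest d l b ∈ O ∧ nest d l b ≠ 1 ∧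
      ∀ x, (∃ p ∈ lp, x * p⁻¹ ∈ Subgroup.centralizer (O : Set Γ)) → nest d l x = 1 := by
  induction lp with
  | nil =>
    refine ⟨[], rfl, hd, hd1, ?_⟩
    rintro x ⟨p, hp, _⟩
    exact absurd hp List.not_mem_nil
  | cons p lp ih =>
    obtain ⟨l, h1, h2, h3, h4⟩ := ih (fun q hq => hlp q (List.mem_cons_of_mem _ hq))
    obtain ⟨hpB, hpC⟩ := hlp p List.mem_cons_self
    have hx : ∃ a ∈ O, ⁅a, b * p⁻¹⁆ ≠ 1 := by
      by_contra hcon
      push Not at hcon
      apply hpC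
      rw [Subgroup.mem_centralizer_iff]
      intro a ha
      exact commutatorElement_eq_one_iff_mul_comm.1 (hcon a ha)
    obtain ⟨a, ha, hax⟩ := hx
    have hfO : ⁅a, b * p⁻¹⁆ ∈ O := by
      have e1 : ⁅a, b * p⁻¹⁆ = a * ((b * p⁻¹) * a⁻¹ * (b * p⁻¹)⁻¹) := by
        rw [commutatorElement_def]
        group
      rw [e1]
      exact O.mul_mem ha (hO.2.2.1 _ (B.mul_mem hb (B.inv_mem hpB)) _ (O.inv_mem ha))
    obtain ⟨c, hc, hcx⟩ := LF2_pair hO hna hfO hax h2 h3
    refine ⟨(a, p⁻¹, c) :: l, by simp [h1], ?_, hcx, ?_⟩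
    · change ⁅c * ⁅a, b * p⁻¹⁆ * c⁻¹, nest d l b⁆ ∈ O
      have e2 := hO.2.2.1 c hc _ hfO
      rw [commutatorElement_def]
      exact O.mul_mem (O.mul_mem (O.mul_mem e2 h2) (O.inv_mem e2)) (O.inv_mem h2)
    · rintro x ⟨q, hq, hqx⟩
      change ⁅c * ⁅a, x * p⁻¹⁆ * c⁻¹, nest d l x⁆ = 1
      rcases List.mem_cons.1 hq with rfl | hq
      · have e3 : ⁅a, x * q⁻¹⁆ = 1 := by
          rw [commutatorElement_eq_one_iff_mul_comm]
          exact (Subgroup.mem_centralizer_iff.1 hqx) a ha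
        rw [e3]
        simp
      · rw [h4 x ⟨q, hq, hqx⟩]
        simp

theorem LFw_onto {T B₀ B₁ : Subgroup Γ} (h : LFw T B₀) (n : ℕ)
    (hs : ∀ S : Subgroup Γ, S ≤ T → Finite S → IsSimpleGroup S →
      (¬ ∀ a ∈ S, ∀ b ∈ S, a * b = b * a) → Nat.card S ≤ n)
    (hB₁ : B₀ ≤ B₁)
    (hw : ∀ (l : List (Γ × Γ × Γ)) (d : Γ),
      l.length = (n ^ Nat.card B₀) ^ (n ^ Nat.card B₀) →
      (∀ e ∈ B₁, nest d l e = 1) → ∀ t ∈ T, nest d l t = 1)
    {B O : Subgroup Γ} (hBf : Finite B) (hB : B₁ ≤ B) (hBT : B ≤ T) (hO : MinN B O) :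
    ∀ b ∈ B, ∃ b₁ ∈ B₁, b₁⁻¹ * b ∈ Subgroup.centralizer (O : Set Γ) := by
  intro b hb
  by_contra hcon
  push Not at hcon
  have hna := h.not_comm (hB₁.trans hB) hBT hO
  have hcard := minN_bound h n hs hBf (hB₁.trans hB) hBT hO
  have hOf : Finite O := Finite.of_injective (Subgroup.inclusion hO.1)
    (Subgroup.inclusion_injective hO.1)
  obtain ⟨lp, hl1, hl2, hl3⟩ := minN_index hO.2.2.1 hOf _ hcard B₁ hB
  obtain ⟨d, hd, hd1⟩ : ∃ d ∈ O, d ≠ 1 := by
    by_contra hno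
    push Not at hno
    exact hO.2.1 ((Subgroup.eq_bot_iff_forall O).2 hno)
  -- the centralizer is normalised by `B`
  have hCn : ∀ p ∈ B, ∀ x, x ∈ Subgroup.centralizer (O : Set Γ) →
      p⁻¹ * x * p ∈ Subgroup.centralizer (O : Set Γ) := by
    intro p hp x hx
    rw [Subgroup.mem_centralizer_iff] at hx ⊢
    intro a ha
    have h1 := hx _ (hO.2.2.1 p hp a ha)
    have e1 : a * (p⁻¹ * x * p) = p⁻¹ * ((p * a * p⁻¹) * x) * p := by group
    have e2 : p⁻¹ * x * p * a = p⁻¹ * (x * (p * a * p⁻¹)) * p := by group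
    rw [e1, e2, h1]
  obtain ⟨l, k1, _, k3, k4⟩ := LF2_list hO hna hb hd hd1 lp (by
    intro p hp
    refine ⟨hB (hl2 p hp), fun hC => ?_⟩
    apply hcon p (hl2 p hp)
    have := hCn p (hB (hl2 p hp)) _ hC
    have e1 : p⁻¹ * (b * p⁻¹) * p = p⁻¹ * b := by group
    rwa [e1] at this)
  apply k3
  apply hw l d (k1.trans hl1) (fun e he => k4 e (hl3 e he)) b (hBT hb)

theorem exists_LFo (hΓ : SatisfiesLaws L Γ) (T : Subgroup Γ) (hT : Tame L (T : Set Γ))
    (hlf : ∀ B : Subgroup Γ, B ≤ T → B.FG → Finite B)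
    (hna : ∀ u ∈ T, (∀ t ∈ T, ⁅u, t * u * t⁻¹⁆ = 1) → u = 1) (n : ℕ)
    (hs : ∀ S : Subgroup Γ, S ≤ T → Finite S → IsSimpleGroup S →
      (¬ ∀ a ∈ S, ∀ b ∈ S, a * b = b * a) → Nat.card S ≤ n) :
    ∃ B₁ : Subgroup Γ, LFo T B₁ := by
  -- the window for the commutators
  let W : FreeGroup (Option (Fin 2)) := ⁅(FreeGroup.of (some 0) : FreeGroup (Option (Fin 2))),
    (FreeGroup.of none * FreeGroup.of (some 1) * (FreeGroup.of none)⁻¹ :
      FreeGroup (Option (Fin 2)))⁆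
  obtain ⟨E, hE, hw⟩ := hT (Fin 2) W
  have hev : ∀ u v y : Γ, ev ![u, v] y W = ⁅u, y * v * y⁻¹⁆ := by
    intro u v y
    change ev ![u, v] y ⁅(FreeGroup.of (some 0) : FreeGroup (Option (Fin 2))),
      (FreeGroup.of none * FreeGroup.of (some 1) * (FreeGroup.of none)⁻¹ :
        FreeGroup (Option (Fin 2)))⁆ = _
    rw [map_commutatorElement]
    simp [ev]
  have hwin : ∀ u v : Γ, (∀ e ∈ E, ⁅u, e * v * e⁻¹⁆ = 1) → ∀ t ∈ T, ⁅u, t * v * t⁻¹⁆ = 1 := by
    intro u v he t ht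
    have h1 := hw Γ hΓ (MonoidHom.id Γ) ![u, v] (by
      intro e hee
      rw [MonoidHom.id_apply, hev]
      exact he e hee) t ht
    rwa [MonoidHom.id_apply, hev] at h1
  have hLFw : ∀ B : Subgroup Γ, (E : Set Γ) ⊆ B → B ≤ T → B.FG → LFw T B := by
    intro B hEB hBT hfg
    refine ⟨hBT, hlf, hfg, ?_, ?_⟩
    · intro u hu hb
      exact hna u hu (hwin u u fun e he => hb e (hEB he))
    · intro u _ v _ hb
      exact hwin u v fun e he => hb e (hEB he)
  let B₀ : Subgroup Γ := Subgroup.closure (E : Set Γ)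
  have hB₀ : LFw T B₀ := hLFw B₀ Subgroup.subset_closure ((Subgroup.closure_le T).2 hE)
    ⟨E, rfl⟩
  obtain ⟨E₃, hE₃, hw₃⟩ := nest_window hΓ T hT ((n ^ Nat.card B₀) ^ (n ^ Nat.card B₀))
  let B₁ : Subgroup Γ := B₀ ⊔ Subgroup.closure (E₃ : Set Γ)
  have hB₁T : B₁ ≤ T := sup_le hB₀.le ((Subgroup.closure_le T).2 hE₃)
  have hB₁fg : B₁.FG := hB₀.fg.sup ⟨E₃, rfl⟩
  have h01 : B₀ ≤ B₁ := le_sup_left
  have hE₃B : (E₃ : Set Γ) ⊆ B₁ := fun e he =>
    (le_sup_right : Subgroup.closure (E₃ : Set Γ) ≤ B₁) (Subgroup.subset_closure he)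
  have hEB : (E : Set Γ) ⊆ B₁ := fun e he => h01 (Subgroup.subset_closure he)
  refine ⟨B₁, { toLFw := hLFw B₁ hEB hB₁T hB₁fg, onto := ?_ }⟩
  intro B hBf hB hBT O hO
  exact LFw_onto hB₀ n hs h01 (fun l d hl he => hw₃ l d hl fun e hee => he e (hE₃B hee))
    hBf hB hBT hO

end Pool.Agent.Helper83.SV
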