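import Pool.Agent.Helper83.SV.LF2

/-!
# SV-L3: the prime normal subgroups `C_B(O)`

Throughout `B₁ ≤ B ≤ T`, `B` finite. A minimal normal subgroup `O` of `B` is not abelian
(`LFw.not_comm`), so `O ⊓ centralizer O = ⊥` by minimality.

`Pr.conj`: `B ⊓ centralizer O` is normal in `B`.
`Pr.onto`: `LFo.onto`.
`Pr.sep`: let `J` be the normal closure of `b` in `B`, `O ≤ J` minimal normal (`exists_minN`),
`K = B ⊓ centralizer O`. If `b ∈ K` then `J ≤ K`, `O` is abelian.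
`Pr.prime`: assume `⁅x, c y c⁻¹⁆ ∈ K` for all `c ∈ B`. Then modulo `K` the normal closures `X`, `Y` in
`B` of `x` and `y` commute: `⁅X, Y⁆ ≤ K`. As `x ∉ K`, `⁅x, o⁆ ≠ 1` for some `o ∈ O`, so `O ⊓ X ≠ ⊥` and
`O ≤ X`; similarly `O ≤ Y`. So `⁅O, O⁆ ≤ K ⊓ O = ⊥`, a contradiction.
`Pr.restr`: let `J = K' ⊓ B`, normal in `B`. It is prime in `B`: if `x, y ∈ B`, not in `J`, there is
`c' ∈ B'` with `⁅x, c' y c'⁻¹⁆ ∉ K'` (`Pr.prime`), `c' = c k` with `c ∈ B₁`, `k ∈ K'`, and then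
`⁅x, c y c⁻¹⁆ ∉ K'`. If `x ∈ B ⊓ centralizer O` is not in `J` apply this to `x` and `v`:
`⁅x, c v c⁻¹⁆ = 1`, a contradiction. If `x ∈ J` does not centralise `O`, then `J ⊓ O ≠ ⊥`, so `O ≤ J`,
`v ∈ K'`, a contradiction.
`Pr.extend`: choose `1 ≠ v ∈ O`, `Pr.sep` for `B'`, `v`, and `Pr.restr`.
`Pr.middle`: let `K = K'' ⊓ B = B ⊓ centralizer O`, `1 ≠ v ∈ O`; `v ∉ K''` as
`O ⊓ centralizer O = ⊥`. `J' = K'' ⊓ B'` is normal and prime in `B'` (as above). Let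
`K'_1, …, K'_c` be all the subgroups with `Pr B' K'_j` (finitely many). If `K'_j ≰ J'` for all `j`,
choose `x_j ∈ K'_j` not in `J'`, and starting from `y_0 = v` elements
`y_j = ⁅y_(j-1), c_j x_j c_j⁻¹⁆ ∉ J'`; then `y_c` is in all `K'_j`, so `y_c = 1` by `Pr.sep`, a
contradiction. So `K' = K'_j ≤ J'` for some `j`. `v ∉ K'`, so `K' ⊓ B = K` by `Pr.restr`. If `y ∈ J'`,
`y = b₁ k`, `b₁ ∈ B₁`, `k ∈ K'` (`Pr.onto`), then `b₁ ∈ K'' ⊓ B = K ≤ K'`. So `J' = K'`.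
-/

namespace Pool.Agent.Helper83.SV

open scoped commutatorElement

variable {Γ : Type} [Group Γ]

/-- The normal subgroups `C_B(O)`. -/
def Pr (B K : Subgroup Γ) : Prop :=
  ∃ O, MinN B O ∧ K = B ⊓ Subgroup.centralizer (O : Set Γ)

/-- The elements of `B` which commute with `z` modulo `K`. -/
private def cmod (B K : Subgroup Γ) (hn : ∀ b ∈ B, ∀ k ∈ K, b * k * b⁻¹ ∈ K) (z : Γ) :
    Subgroup Γ where
  carrier := {u | u ∈ B ∧ ⁅z, u⁆ ∈ K}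
  mul_mem' := by
    rintro a b ⟨ha, ha'⟩ ⟨hb, hb'⟩
    refine ⟨B.mul_mem ha hb, ?_⟩
    have h : ⁅z, a * b⁆ = ⁅z, a⁆ * (a * ⁅z, b⁆ * a⁻¹) := by
      simp only [commutatorElement_def]
      group
    rw [h]
    exact K.mul_mem ha' (hn a ha _ hb')
  one_mem' := by
    refine ⟨B.one_mem, ?_⟩
    rw [commutatorElement_one_right]
    exact K.one_mem
  inv_mem' := by
    rintro a ⟨ha, ha'⟩
    refine ⟨B.inv_mem ha, ?_⟩
    have h : ⁅z, a⁻¹⁆ = a⁻¹ * ⁅z, a⁆⁻¹ * a⁻¹⁻¹ := by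
      simp only [commutatorElement_def]
      group
    rw [h]
    exact hn _ (B.inv_mem ha) _ (K.inv_mem ha')

private theorem mem_cmod {B K : Subgroup Γ} {hn : ∀ b ∈ B, ∀ k ∈ K, b * k * b⁻¹ ∈ K} {z u : Γ} :
    u ∈ cmod B K hn z ↔ u ∈ B ∧ ⁅z, u⁆ ∈ K := Iff.rfl

private theorem comm_symm {K : Subgroup Γ} {a b : Γ} (h : ⁅a, b⁆ ∈ K) : ⁅b, a⁆ ∈ K := by
  rw [← commutatorElement_inv]
  exact K.inv_mem h

/-- The normal closure of `x` in `B`. -/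
private def ncl (B : Subgroup Γ) (x : Γ) : Subgroup Γ :=
  Subgroup.closure {z | ∃ c ∈ B, z = c * x * c⁻¹}

private theorem mem_ncl (B : Subgroup Γ) (x : Γ) : x ∈ ncl B x :=
  Subgroup.subset_closure ⟨1, B.one_mem, by group⟩

private theorem ncl_le {B K : Subgroup Γ} {x : Γ} (h : ∀ c ∈ B, c * x * c⁻¹ ∈ K) :
    ncl B x ≤ K := by
  unfold ncl
  rw [Subgroup.closure_le]
  rintro z ⟨c, hc, rfl⟩
  exact h c hc

private theorem ncl_conj (B : Subgroup Γ) (x : Γ) :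
    ∀ b ∈ B, ∀ z ∈ ncl B x, b * z * b⁻¹ ∈ ncl B x := by
  intro b hb z hz
  have h : ncl B x ≤ (ncl B x).comap (MulAut.conj b).toMonoidHom := by
    apply ncl_le
    intro c hc
    rw [Subgroup.mem_comap]
    refine Subgroup.subset_closure ⟨b * c, B.mul_mem hb hc, ?_⟩
    simp only [MulEquiv.coe_toMonoidHom, MulAut.conj_apply]
    group
  have h2 := h hz
  rw [Subgroup.mem_comap] at h2
  simpa using h2

private theorem ncl_le_self {B : Subgroup Γ} {x : Γ} (hx : x ∈ B) : ncl B x ≤ B :=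
  ncl_le fun _ hc => B.mul_mem (B.mul_mem hc hx) (B.inv_mem hc)

/-- A normal subgroup containing an element which does not centralise `O` contains `O`. -/
private theorem minN_le {B O X : Subgroup Γ} (hO : MinN B O)
    (hX : ∀ b ∈ B, ∀ z ∈ X, b * z * b⁻¹ ∈ X) {x : Γ} (hx : x ∈ X) (hxB : x ∈ B)
    (hxO : x ∉ Subgroup.centralizer (O : Set Γ)) : O ≤ X := by
  obtain ⟨hOB, hO0, hOn, hmin⟩ := hO
  have h1 : O ⊓ X = O := by
    apply hmin
    · exact inf_le_left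
    · intro hbot
      apply hxO
      rw [Subgroup.mem_centralizer_iff]
      intro o ho
      have ho' : o ∈ O := ho
      have h2 : x * o * x⁻¹ * o⁻¹ ∈ O ⊓ X := by
        refine ⟨O.mul_mem (hOn x hxB o ho') (O.inv_mem ho'), ?_⟩
        have h3 : o * x⁻¹ * o⁻¹ ∈ X := hX o (hOB ho') _ (X.inv_mem hx)
        have h4 : x * o * x⁻¹ * o⁻¹ = x * (o * x⁻¹ * o⁻¹) := by group
        rw [h4]
        exact X.mul_mem hx h3
      rw [hbot, Subgroup.mem_bot] at h2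
      have h5 : x * o = o * x := by
        have h6 : x * o * x⁻¹ = o := mul_inv_eq_one.1 h2
        exact mul_inv_eq_iff_eq_mul.1 h6
      exact h5.symm
    · rintro b hb o ⟨ho, hoX⟩
      exact ⟨hOn b hb o ho, hX b hb o hoX⟩
  rw [← h1]
  exact inf_le_right

private theorem minN_ne {B O : Subgroup Γ} (hO : MinN B O) : ∃ v ∈ O, v ≠ 1 := by
  by_contra hcon
  push Not at hcon
  exact hO.2.1 ((Subgroup.eq_bot_iff_forall O).2 hcon)

variable {T B₁ : Subgroup Γ}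

theorem Pr.conj {B K : Subgroup Γ} (hK : Pr B K) : ∀ b ∈ B, ∀ k ∈ K, b * k * b⁻¹ ∈ K := by
  obtain ⟨O, hO, rfl⟩ := hK
  rintro b hb k ⟨hkB, hkC⟩
  refine ⟨B.mul_mem (B.mul_mem hb hkB) (B.inv_mem hb), ?_⟩
  have hkC' : ∀ o ∈ (O : Set Γ), o * k = k * o := Subgroup.mem_centralizer_iff.1 hkC
  change b * k * b⁻¹ ∈ Subgroup.centralizer (O : Set Γ)
  rw [Subgroup.mem_centralizer_iff]
  intro o ho
  have h1 : b⁻¹ * o * b⁻¹⁻¹ ∈ O := hO.2.2.1 b⁻¹ (B.inv_mem hb) o ho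
  have h2 := hkC' _ h1
  calc o * (b * k * b⁻¹) = b * ((b⁻¹ * o * b⁻¹⁻¹) * k) * b⁻¹ := by group
    _ = b * (k * (b⁻¹ * o * b⁻¹⁻¹)) * b⁻¹ := by rw [h2]
    _ = b * k * b⁻¹ * o := by group

theorem Pr.le {B K : Subgroup Γ} (hK : Pr B K) : K ≤ B := by
  obtain ⟨O, -, rfl⟩ := hK
  exact inf_le_left

theorem MinN.inf_centralizer (h : LFo T B₁) {B O : Subgroup Γ} (hB : B₁ ≤ B) (hBT : B ≤ T)
    (hO : MinN B O) : O ⊓ Subgroup.centralizer (O : Set Γ) = ⊥ := by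
  by_contra hne
  have h1 : O ⊓ Subgroup.centralizer (O : Set Γ) = O := by
    apply hO.2.2.2 _ inf_le_left hne
    rintro b hb o ⟨ho, hoC⟩
    refine ⟨hO.2.2.1 b hb o ho, ?_⟩
    have hP : Pr B (B ⊓ Subgroup.centralizer (O : Set Γ)) := ⟨O, hO, rfl⟩
    exact (hP.conj b hb o ⟨hO.1 ho, hoC⟩).2
  apply h.toLFw.not_comm hB hBT hO
  intro a ha b hb
  have h2 : b ∈ O ⊓ Subgroup.centralizer (O : Set Γ) := by
    rw [h1]
    exact hb
  exact (Subgroup.mem_centralizer_iff.1 h2.2) a ha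

theorem Pr.onto (h : LFo T B₁) {B K : Subgroup Γ} (hBf : Finite B) (hB : B₁ ≤ B) (hBT : B ≤ T)
    (hK : Pr B K) : ∀ b ∈ B, ∃ b₁ ∈ B₁, b₁⁻¹ * b ∈ K := by
  obtain ⟨O, hO, rfl⟩ := hK
  intro b hb
  obtain ⟨b₁, hb₁, hc⟩ := h.onto B hBf hB hBT O hO b hb
  exact ⟨b₁, hb₁, B.mul_mem (B.inv_mem (hB hb₁)) hb, hc⟩

theorem Pr.sep (h : LFo T B₁) {B : Subgroup Γ} (hBf : Finite B) (hB : B₁ ≤ B) (hBT : B ≤ T)
    {b : Γ} (hb : b ∈ B) (hb1 : b ≠ 1) : ∃ K, Pr B K ∧ b ∉ K := by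
  have hJ0 : ncl B b ≠ ⊥ := by
    intro hbot
    have h1 := mem_ncl B b
    rw [hbot, Subgroup.mem_bot] at h1
    exact hb1 h1
  obtain ⟨O, hO, hOJ⟩ := exists_minN B (ncl B b) hBf (ncl_le_self hb) hJ0 (ncl_conj B b)
  have hP : Pr B (B ⊓ Subgroup.centralizer (O : Set Γ)) := ⟨O, hO, rfl⟩
  refine ⟨_, hP, fun hbK => ?_⟩
  apply h.toLFw.not_comm hB hBT hO
  intro x hx y hy
  have h2 : ncl B b ≤ B ⊓ Subgroup.centralizer (O : Set Γ) := ncl_le fun c hc => hP.conj c hc b hbK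
  have h3 := (h2 (hOJ hy)).2
  exact (Subgroup.mem_centralizer_iff.1 h3) x hx

theorem Pr.prime (h : LFo T B₁) {B K : Subgroup Γ} (hBf : Finite B) (hB : B₁ ≤ B) (hBT : B ≤ T)
    (hK : Pr B K) {x y : Γ} (hx : x ∈ B) (hy : y ∈ B) (hxK : x ∉ K) (hyK : y ∉ K) :
    ∃ c ∈ B, ⁅x, c * y * c⁻¹⁆ ∉ K := by
  clear hBf
  by_contra hcon
  push Not at hcon
  have hn := hK.conj
  have hY : ∀ z ∈ ncl B y, ⁅x, z⁆ ∈ K := by
    intro z hz
    have h1 : ncl B y ≤ cmod B K hn x := ncl_le fun c hc =>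
      ⟨B.mul_mem (B.mul_mem hc hy) (B.inv_mem hc), hcon c hc⟩
    exact (h1 hz).2
  have hXY : ∀ u ∈ ncl B x, ∀ z ∈ ncl B y, ⁅u, z⁆ ∈ K := by
    intro u hu z hz
    have h1 : ncl B x ≤ cmod B K hn z := by
      refine ncl_le fun c hc => ⟨B.mul_mem (B.mul_mem hc hx) (B.inv_mem hc), ?_⟩
      apply comm_symm
      have h2 := hY _ (ncl_conj B y c⁻¹ (B.inv_mem hc) z hz)
      have h3 := hn c hc _ h2
      have h4 : c * ⁅x, c⁻¹ * z * c⁻¹⁻¹⁆ * c⁻¹ = ⁅c * x * c⁻¹, z⁆ := by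
        simp only [commutatorElement_def]
        group
      rwa [h4] at h3
    exact comm_symm (h1 hu).2
  obtain ⟨O, hO, rfl⟩ := hK
  have hxO : x ∉ Subgroup.centralizer (O : Set Γ) := fun hc => hxK ⟨hx, hc⟩
  have hyO : y ∉ Subgroup.centralizer (O : Set Γ) := fun hc => hyK ⟨hy, hc⟩
  have h1 := minN_le hO (ncl_conj B x) (mem_ncl B x) hx hxO
  have h2 := minN_le hO (ncl_conj B y) (mem_ncl B y) hy hyO
  apply h.toLFw.not_comm hB hBT hO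
  intro a ha b hb
  have h3 := (hXY a (h1 ha) b (h2 hb)).2
  have h4 : ⁅a, b⁆ ∈ O := by
    rw [commutatorElement_def]
    exact O.mul_mem (O.mul_mem (O.mul_mem ha hb) (O.inv_mem ha)) (O.inv_mem hb)
  have h5 : ⁅a, b⁆ ∈ O ⊓ Subgroup.centralizer (O : Set Γ) := ⟨h4, h3⟩
  rw [hO.inf_centralizer h hB hBT, Subgroup.mem_bot] at h5
  exact commutatorElement_eq_one_iff_mul_comm.1 h5

/-- `Pr.prime` with `c` in `B₁`, for elements of a smaller subgroup. -/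
private theorem Pr.prime' (h : LFo T B₁) {B K : Subgroup Γ} (hBf : Finite B) (hB : B₁ ≤ B)
    (hBT : B ≤ T) (hK : Pr B K) {x y : Γ} (hx : x ∈ B) (hy : y ∈ B) (hxK : x ∉ K)
    (hyK : y ∉ K) : ∃ c ∈ B₁, ⁅x, c * y * c⁻¹⁆ ∉ K := by
  obtain ⟨c', hc', hne⟩ := Pr.prime h hBf hB hBT hK hx hy hxK hyK
  obtain ⟨c, hc, hk⟩ := Pr.onto h hBf hB hBT hK c' hc'
  refine ⟨c, hc, fun hin => hne ?_⟩
  have hn := hK.conj
  have hcB := hB hc
  have h1 : c * y * c⁻¹ ∈ cmod B K hn x := ⟨B.mul_mem (B.mul_mem hcB hy) (B.inv_mem hcB), hin⟩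
  have h2 : ∀ w ∈ K, w ∈ cmod B K hn x := by
    intro w hw
    refine ⟨hK.le hw, ?_⟩
    rw [commutatorElement_def]
    exact K.mul_mem (hn x hx w hw) (K.inv_mem hw)
  have h3 : c * ((c⁻¹ * c') * (y * (c⁻¹ * c')⁻¹ * y⁻¹)) * c⁻¹ ∈ K :=
    hn c hcB _ (K.mul_mem hk (hn y hy _ (K.inv_mem hk)))
  have h4 := (cmod B K hn x).mul_mem (h2 _ h3) h1
  have h5 : c * ((c⁻¹ * c') * (y * (c⁻¹ * c')⁻¹ * y⁻¹)) * c⁻¹ * (c * y * c⁻¹) =
      c' * y * c'⁻¹ := by group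
  rw [h5] at h4
  exact h4.2

theorem Pr.restr (h : LFo T B₁) {B B' K' O : Subgroup Γ} (hBf : Finite B') (hB : B₁ ≤ B)
    (hBB : B ≤ B') (hBT : B' ≤ T) (hK' : Pr B' K') (hO : MinN B O) {v : Γ} (hv : v ∈ O)
    (hvK : v ∉ K') : K' ⊓ B = B ⊓ Subgroup.centralizer (O : Set Γ) := by
  apply le_antisymm
  · rintro x ⟨hxK, hxB⟩
    refine ⟨hxB, ?_⟩
    by_contra hxO
    apply hvK
    have h1 : O ≤ K' ⊓ B := by
      refine minN_le hO ?_ (x := x) ⟨hxK, hxB⟩ hxB hxO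
      rintro b hb z ⟨hzK, hzB⟩
      exact ⟨hK'.conj b (hBB hb) z hzK, B.mul_mem (B.mul_mem hb hzB) (B.inv_mem hb)⟩
    exact (h1 hv).1
  · rintro x ⟨hxB, hxO⟩
    refine ⟨?_, hxB⟩
    by_contra hxK
    obtain ⟨c, hc, hne⟩ := Pr.prime' h hBf (hB.trans hBB) hBT hK' (hBB hxB) (hBB (hO.1 hv)) hxK hvK
    apply hne
    have h1 : c * v * c⁻¹ ∈ O := hO.2.2.1 c (hB hc) v hv
    have h2 : ⁅x, c * v * c⁻¹⁆ = 1 := by
      rw [commutatorElement_eq_one_iff_mul_comm]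
      exact ((Subgroup.mem_centralizer_iff.1 hxO) _ h1).symm
    rw [h2]
    exact K'.one_mem

theorem Pr.extend (h : LFo T B₁) {B B' K : Subgroup Γ} (hBf : Finite B') (hB : B₁ ≤ B)
    (hBB : B ≤ B') (hBT : B' ≤ T) (hK : Pr B K) : ∃ K', Pr B' K' ∧ K' ⊓ B = K := by
  obtain ⟨O, hO, rfl⟩ := hK
  obtain ⟨v, hv, hv1⟩ := minN_ne hO
  obtain ⟨K', hK', hvK⟩ := Pr.sep h hBf (hB.trans hBB) hBT (hBB (hO.1 hv)) hv1
  exact ⟨K', hK', Pr.restr h hBf hB hBB hBT hK' hO hv hvK⟩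

theorem Pr.middle (h : LFo T B₁) {B B' B'' K'' : Subgroup Γ} (hBf : Finite B'') (hB : B₁ ≤ B)
    (hBB : B ≤ B') (hBB' : B' ≤ B'') (hBT : B'' ≤ T) (hK'' : Pr B'' K'')
    (hK : Pr B (K'' ⊓ B)) : Pr B' (K'' ⊓ B') := by
  classical
  have hBf' : Finite B' := Finite.of_injective _ (Subgroup.inclusion_injective hBB')
  obtain ⟨O, hO, hKO⟩ := hK
  obtain ⟨v, hv, hv1⟩ := minN_ne hO
  have hvB : v ∈ B := hO.1 hv
  have hvK : v ∉ K'' := by
    intro hin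
    have h1 : v ∈ K'' ⊓ B := ⟨hin, hvB⟩
    rw [hKO] at h1
    have h2 : v ∈ O ⊓ Subgroup.centralizer (O : Set Γ) := ⟨hv, h1.2⟩
    rw [hO.inf_centralizer h hB (hBB.trans (hBB'.trans hBT)), Subgroup.mem_bot] at h2
    exact hv1 h2
  -- some `K'` lies in `K''`
  have hex : ∃ K', Pr B' K' ∧ K' ≤ K'' := by
    by_contra hcon
    push Not at hcon
    have hfin : {K' : Subgroup Γ | Pr B' K'}.Finite := by
      refine (Set.finite_range (Subgroup.map B'.subtype)).subset ?_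
      intro K' hK'
      refine ⟨K'.subgroupOf B', ?_⟩
      exact Subgroup.map_subgroupOf_eq_of_le hK'.le
    have hkey : ∀ s : Set (Subgroup Γ), s.Finite → (∀ K' ∈ s, Pr B' K') →
        ∃ y ∈ B', y ∉ K'' ∧ ∀ K' ∈ s, y ∈ K' := by
      intro s hs
      refine Set.Finite.induction_on s hs ?_ ?_
      · intro _
        exact ⟨v, hBB hvB, hvK, by simp⟩
      · intro K' s _ _ ih hs
        obtain ⟨y, hyB, hyK, hys⟩ := ih fun L hL => hs L (Set.mem_insert_of_mem _ hL)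
        have hK' : Pr B' K' := hs K' (Set.mem_insert _ _)
        obtain ⟨x, hxK', hxK⟩ := Set.not_subset.1 (hcon K' hK')
        have hxB : x ∈ B' := hK'.le hxK'
        obtain ⟨c, hc, hne⟩ := Pr.prime' h hBf (hB.trans (hBB.trans hBB')) hBT hK'' (hBB' hyB)
          (hBB' hxB) hyK hxK
        have hcB : c ∈ B' := hBB (hB hc)
        have hz : c * x * c⁻¹ ∈ K' := hK'.conj c hcB x hxK'
        have hzB : c * x * c⁻¹ ∈ B' := hK'.le hz
        refine ⟨⁅y, c * x * c⁻¹⁆, ?_, hne, ?_⟩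
        · rw [commutatorElement_def]
          exact B'.mul_mem (B'.mul_mem (B'.mul_mem hyB hzB) (B'.inv_mem hyB)) (B'.inv_mem hzB)
        · intro L hL
          rcases Set.mem_insert_iff.1 hL with rfl | hL
          · rw [commutatorElement_def]
            exact L.mul_mem (hK'.conj y hyB _ hz) (L.inv_mem hz)
          · have hPL := hs L (Set.mem_insert_of_mem _ hL)
            have h1 := hPL.conj _ hzB _ (L.inv_mem (hys L hL))
            have h2 : ⁅y, c * x * c⁻¹⁆ = y * (c * x * c⁻¹ * y⁻¹ * (c * x * c⁻¹)⁻¹) := by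
              simp only [commutatorElement_def]
              group
            rw [h2]
            exact L.mul_mem (hys L hL) h1
    obtain ⟨y, hyB, hyK, hy⟩ := hkey _ hfin fun K' hK' => hK'
    have hy1 : y ≠ 1 := by
      rintro rfl
      exact hyK K''.one_mem
    obtain ⟨K', hK', hyK'⟩ := Pr.sep h hBf' (hB.trans hBB) (hBB'.trans hBT) hyB hy1
    exact hyK' (hy K' hK')
  obtain ⟨K', hK', hle⟩ := hex
  have hvK' : v ∉ K' := fun hin => hvK (hle hin)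
  have h1 : K' ⊓ B = K'' ⊓ B := by
    rw [Pr.restr h hBf' hB hBB (hBB'.trans hBT) hK' hO hv hvK', hKO]
  have h2 : K'' ⊓ B' = K' := by
    apply le_antisymm
    · rintro y ⟨hyK, hyB⟩
      obtain ⟨b₁, hb₁, hb⟩ := Pr.onto h hBf' (hB.trans hBB) (hBB'.trans hBT) hK' y hyB
      have h3 : b₁ ∈ K'' := by
        have h4 := K''.mul_mem hyK (K''.inv_mem (hle hb))
        have h5 : y * (b₁⁻¹ * y)⁻¹ = b₁ := by group
        rwa [h5] at h4
      have h6 : b₁ ∈ K' ⊓ B := by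
        rw [h1]
        exact ⟨h3, hB hb₁⟩
      have h7 := K'.mul_mem h6.1 hb
      have h8 : b₁ * (b₁⁻¹ * y) = y := by group
      rwa [h8] at h7
    · exact le_inf hle hK'.le
  rw [h2]
  exact hK'

end Pool.Agent.Helper83.SV
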