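import Pool.Agent.Helper83.SV.LF3

/-!
# SV-L4: threads

`exists_thread`: let `I` be the type of the finitely generated (finite) subgroups `B'` with
`B ≤ B' ≤ T`; it is directed and nonempty. For `B' ∈ I` choose `K_(B')` with `Pr B' K_(B')` and
`K_(B') ⊓ B = K` (`Pr.extend`). Let `𝒰` be an ultrafilter on `I` finer than `atTop`, and
`K₀ = {t : ∀ᶠ B' in 𝒰, t ∈ K_(B')}`, a subgroup contained in `T`. For `B₂ ∈ I` and `B' ≥ B₂`,
`K_(B') ⊓ B₂` satisfies `Pr B₂` by `Pr.middle`, and is one of the finitely many subgroups of `B₂`, so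
there is `K*` with `K_(B') ⊓ B₂ = K*` for `𝒰`-almost all `B'`; then `K₀ ⊓ B₂ = K*`.

`thread_orbit`: let `E` be the finite set of `Win Γ`. Suppose that `g K₀ g⁻¹ ≠ e K₀ e⁻¹` for all
`e ∈ E`; let `h_e = g⁻¹ e`, so `K₀ ≠ h_e K₀ h_e⁻¹`; choose `f_e ∈ T` which is in exactly one of the two.
Let `B₂` be generated by `B`, `f_e`, `h_e⁻¹ f_e h_e`, `h_e⁻¹ B₁ h_e` (`e ∈ E`; `T` is normal in `Γ`);
it is finitely generated, so finite. `K = K₀ ⊓ B₂` satisfies `Pr B₂ K`, `K = B₂ ⊓ centralizer O`; let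
`1 ≠ v ∈ O`. Claim: `⁅v, h_e (t v t⁻¹) h_e⁻¹⁆ = 1` for all `e ∈ E`, `t ∈ T`. Suppose not; let
`t' = h_e t h_e⁻¹`, `v' = h_e v h_e⁻¹`, `B_e = h_e B₂ h_e⁻¹ ≥ B₁` and let `B''` be generated by `B₂`,
`B_e`, `t'`, a finite group. By `Pr.sep` there is `K''` with `Pr B'' K''` and
`⁅v, t' v' t'⁻¹⁆ ∉ K''`, so `v ∉ K''` and `v' ∉ K''`. By `Pr.restr`, `K'' ⊓ B₂ = K`, and
`K'' ⊓ B_e = h_e K h_e⁻¹` (the conjugate of `O` is minimal normal in `B_e`). Now `f_e ∈ B₂ ⊓ B_e`, and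
`f_e ∈ K₀` iff `f_e ∈ K''` iff `f_e ∈ h_e K₀ h_e⁻¹`, a contradiction. So the claim holds; conjugating
by `g`, `⁅g v g⁻¹, e (t v t⁻¹) e⁻¹⁆ = 1` for all `e ∈ E`, so by the window
`⁅g v g⁻¹, g (t v t⁻¹) g⁻¹⁆ = 1`, `⁅v, t v t⁻¹⁆ = 1` for all `t ∈ T`, and `v = 1` by `na`.
-/

namespace Pool.Agent.Helper83.SV

open scoped commutatorElement

variable {Γ : Type} [Group Γ] {T B₁ : Subgroup Γ}

/-- `K₀` induces `C_(B')(O')` on all finite subgroups `B' ≥ B` of `T`. -/
def Thread (T B K₀ : Subgroup Γ) : Prop :=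
  K₀ ≤ T ∧ ∀ B' : Subgroup Γ, Finite B' → B ≤ B' → B' ≤ T → Pr B' (K₀ ⊓ B')

/-- Membership in a conjugate subgroup. -/
private theorem LF4_mem_map (x y : Γ) (K : Subgroup Γ) :
    y ∈ K.map (MulAut.conj x).toMonoidHom ↔ x⁻¹ * y * x ∈ K := by
  constructor
  · rintro ⟨k, hk, rfl⟩
    have : x⁻¹ * (MulAut.conj x).toMonoidHom k * x = k := by
      simp [mul_assoc]
    rw [this]
    exact hk
  · intro h
    exact ⟨x⁻¹ * y * x, h, by simp [mul_assoc]⟩

/-- Conjugates of minimal normal subgroups. -/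
private theorem LF4_MinN_map {B O : Subgroup Γ} (hO : MinN B O) (x : Γ) :
    MinN (B.map (MulAut.conj x).toMonoidHom) (O.map (MulAut.conj x).toMonoidHom) := by
  obtain ⟨h1, h2, h3, h4⟩ := hO
  refine ⟨Subgroup.map_mono h1, ?_, ?_, ?_⟩
  · intro h
    apply h2
    rw [Subgroup.eq_bot_iff_forall] at h ⊢
    intro o ho
    have h5 := h (x * o * x⁻¹) ((LF4_mem_map x _ O).2 (by simpa [mul_assoc] using ho))
    have h6 : o = x⁻¹ * (x * o * x⁻¹) * x := by simp [mul_assoc]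
    rw [h6, h5]
    simp
  · intro b hb o ho
    rw [LF4_mem_map] at hb ho ⊢
    have := h3 _ hb _ ho
    have e : x⁻¹ * (b * o * b⁻¹) * x = x⁻¹ * b * x * (x⁻¹ * o * x) * (x⁻¹ * b * x)⁻¹ := by
      group
    rw [e]
    exact this
  · intro O' hO' hO'0 hst
    have key : O'.map (MulAut.conj x⁻¹).toMonoidHom = O := by
      apply h4
      · intro y hy
        rw [LF4_mem_map] at hy
        have h5 := hO' hy
        rw [LF4_mem_map] at h5
        have e : x⁻¹ * (x⁻¹⁻¹ * y * x⁻¹) * x = y := by group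
        rwa [e] at h5
      · intro h
        apply hO'0
        rw [Subgroup.eq_bot_iff_forall] at h ⊢
        intro o ho
        have h5 := h (x⁻¹ * o * x) ((LF4_mem_map x⁻¹ _ O').2 (by
          have e : x⁻¹⁻¹ * (x⁻¹ * o * x) * x⁻¹ = o := by group
          rw [e]
          exact ho))
        have e : o = x * (x⁻¹ * o * x) * x⁻¹ := by group
        rw [e, h5]
        simp
      · intro b hb o ho
        rw [LF4_mem_map] at ho ⊢
        have h5 := hst (x * b * x⁻¹) ((LF4_mem_map x _ B).2 (by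
          have e : x⁻¹ * (x * b * x⁻¹) * x = b := by group
          rw [e]
          exact hb)) _ ho
        have e : x⁻¹⁻¹ * (b * o * b⁻¹) * x⁻¹ =
            x * b * x⁻¹ * (x⁻¹⁻¹ * o * x⁻¹) * (x * b * x⁻¹)⁻¹ := by group
        rw [e]
        exact h5
    ext y
    rw [LF4_mem_map, ← key, LF4_mem_map]
    have e : x⁻¹⁻¹ * (x⁻¹ * y * x) * x⁻¹ = y := by group
    rw [e]

/-- The group generated by a finite subset of `T` is finite. -/
private theorem LF4_fin (h : LFo T B₁) (S : Set Γ) (hS : S.Finite) (hST : S ⊆ T) :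
    Finite (Subgroup.closure S) := by
  apply h.lf _ ((Subgroup.closure_le T).2 hST)
  rw [Subgroup.fg_iff]
  exact ⟨S, rfl, hS⟩

theorem exists_thread (h : LFo T B₁) {B K : Subgroup Γ} (hBf : Finite B) (hB : B₁ ≤ B)
    (hBT : B ≤ T) (hK : Pr B K) : ∃ K₀, Thread T B K₀ ∧ K₀ ⊓ B = K := by
  classical
  let I : Type := {B' : Subgroup Γ // Finite B' ∧ B ≤ B' ∧ B' ≤ T}
  have hne : Nonempty I := ⟨⟨B, hBf, le_rfl, hBT⟩⟩
  have hdir : IsDirectedOrder I := by
    constructor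
    intro X Y
    have h1 : ((X.1 : Set Γ) ∪ (Y.1 : Set Γ)) ⊆ T :=
      Set.union_subset X.2.2.2 Y.2.2.2
    have := X.2.1
    have := Y.2.1
    have h2 : ((X.1 : Set Γ) ∪ (Y.1 : Set Γ)).Finite :=
      (Set.toFinite _).union (Set.toFinite _)
    have h3 := LF4_fin h _ h2 h1
    have hX : X.1 ≤ Subgroup.closure ((X.1 : Set Γ) ∪ (Y.1 : Set Γ)) := fun x hx =>
      Subgroup.subset_closure (Or.inl hx)
    have hY : Y.1 ≤ Subgroup.closure ((X.1 : Set Γ) ∪ (Y.1 : Set Γ)) := fun x hx =>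
      Subgroup.subset_closure (Or.inr hx)
    exact ⟨⟨Subgroup.closure ((X.1 : Set Γ) ∪ (Y.1 : Set Γ)), h3, X.2.2.1.trans hX,
      (Subgroup.closure_le T).2 h1⟩, hX, hY⟩
  have hex : ∀ X : I, ∃ K', Pr X.1 K' ∧ K' ⊓ B = K := fun X =>
    Pr.extend h X.2.1 hB X.2.2.1 X.2.2.2 hK
  choose κ hκ1 hκ2 using hex
  let U : Ultrafilter I := Ultrafilter.of Filter.atTop
  have hU : (U : Filter I) ≤ Filter.atTop := Ultrafilter.of_le _
  let K₀ : Subgroup Γ :=
    { carrier := {t | ∀ᶠ X in (U : Filter I), t ∈ κ X}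
      mul_mem' := by
        intro a b ha hb
        filter_upwards [ha, hb] with X h1 h2
        exact mul_mem h1 h2
      one_mem' := Filter.Eventually.of_forall fun X => one_mem _
      inv_mem' := by
        intro a ha
        filter_upwards [ha] with X h1
        exact inv_mem h1 }
  have hmem : ∀ t : Γ, t ∈ K₀ ↔ ∀ᶠ X in (U : Filter I), t ∈ κ X := fun t => Iff.rfl
  refine ⟨K₀, ⟨?_, ?_⟩, ?_⟩
  · intro t ht
    obtain ⟨X, hX⟩ := ((hmem t).1 ht).exists
    exact X.2.2.2 ((hκ1 X).le hX)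
  · intro B₂ hB₂f hB₂ hB₂T
    have hev : ∀ᶠ X in (U : Filter I), ∀ t : B₂, ((t : Γ) ∈ κ X ↔ (t : Γ) ∈ K₀) := by
      rw [Filter.eventually_all]
      intro t
      by_cases ht : (t : Γ) ∈ K₀
      · filter_upwards [(hmem _).1 ht] with X hX
        exact ⟨fun _ => ht, fun _ => hX⟩
      · have h2 : ∀ᶠ X in (U : Filter I), (t : Γ) ∉ κ X := by
          rw [Ultrafilter.eventually_not]
          exact ht
        filter_upwards [h2] with X hX
        exact ⟨fun h => absurd h hX, fun h => absurd h ht⟩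
    have hge : ∀ᶠ X in (U : Filter I), (⟨B₂, hB₂f, hB₂, hB₂T⟩ : I) ≤ X :=
      hU (Filter.eventually_ge_atTop _)
    obtain ⟨X, hX1, hX2⟩ := (hev.and hge).exists
    have hX3 : B₂ ≤ X.1 := hX2
    have h3 := Pr.middle h X.2.1 hB hB₂ hX3 X.2.2.2 (hκ1 X) (by rw [hκ2 X]; exact hK)
    have h4 : K₀ ⊓ B₂ = κ X ⊓ B₂ := by
      ext t
      rw [Subgroup.mem_inf, Subgroup.mem_inf]
      constructor
      · rintro ⟨h5, h6⟩
        exact ⟨(hX1 ⟨t, h6⟩).2 h5, h6⟩
      · rintro ⟨h5, h6⟩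
        exact ⟨(hX1 ⟨t, h6⟩).1 h5, h6⟩
    rw [h4]
    exact h3
  · ext t
    rw [Subgroup.mem_inf]
    constructor
    · rintro ⟨h5, h6⟩
      obtain ⟨X, hX⟩ := ((hmem t).1 h5).exists
      rw [← hκ2 X]
      exact ⟨hX, h6⟩
    · intro ht
      refine ⟨?_, hK.le ht⟩
      rw [hmem]
      apply Filter.Eventually.of_forall
      intro X
      rw [← hκ2 X] at ht
      exact ht.1

theorem thread_orbit (h : LFo T B₁) (hTn : T.Normal) (E : Finset Γ)
    (hE : ∀ u b : Γ, (∀ e ∈ E, ⁅u, e * b * e⁻¹⁆ = 1) → ∀ g : Γ, ⁅u, g * b * g⁻¹⁆ = 1)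
    {B K₀ : Subgroup Γ} (hBf : Finite B) (hB : B₁ ≤ B) (hBT : B ≤ T) (hK : Thread T B K₀)
    (g : Γ) : ∃ e ∈ E, K₀.map (MulAut.conj g).toMonoidHom = K₀.map (MulAut.conj e).toMonoidHom := by
  classical
  by_contra hcon
  push Not at hcon
  have hB₁T : B₁ ≤ T := hB.trans hBT
  have hTconj : ∀ x t : Γ, t ∈ T → x⁻¹ * t * x ∈ T := by
    intro x t ht
    have := hTn.conj_mem t ht x⁻¹
    rwa [inv_inv] at this
  have hTconj' : ∀ x t : Γ, t ∈ T → x * t * x⁻¹ ∈ T := fun x t ht => hTn.conj_mem t ht x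
  -- the elements `f e`
  have hf : ∀ e : Γ, ∃ f : Γ, e ∈ E → f ∈ T ∧
      ¬ (f ∈ K₀ ↔ (g⁻¹ * e)⁻¹ * f * (g⁻¹ * e) ∈ K₀) := by
    intro e
    by_cases he : e ∈ E
    · have hne := hcon e he
      by_contra hall
      push Not at hall
      apply hne
      ext y
      rw [LF4_mem_map, LF4_mem_map]
      have e1 : (g⁻¹ * e)⁻¹ * (g⁻¹ * y * g) * (g⁻¹ * e) = e⁻¹ * y * e := by group
      by_cases hyT : g⁻¹ * y * g ∈ T
      · have h2 := (hall (g⁻¹ * y * g)).2 hyT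
        rw [e1] at h2
        exact h2
      · constructor
        · intro h3
          exact absurd (hK.1 h3) hyT
        · intro h3
          exfalso
          apply hyT
          have h4 := hTconj' (g⁻¹ * e) _ (hK.1 h3)
          have e2 : g⁻¹ * e * (e⁻¹ * y * e) * (g⁻¹ * e)⁻¹ = g⁻¹ * y * g := by group
          rwa [e2] at h4
    · exact ⟨1, fun h => absurd h he⟩
  choose f hf using hf
  have := hBf
  have hB₁f : Finite B₁ := Set.Finite.subset (Set.toFinite (B : Set Γ)) hB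
  -- the group `B₂`
  set S : Set Γ := (B : Set Γ) ∪ ⋃ e ∈ E, (({f e, (g⁻¹ * e)⁻¹ * f e * (g⁻¹ * e)} : Set Γ) ∪
    ((fun b => (g⁻¹ * e)⁻¹ * b * (g⁻¹ * e)) '' (B₁ : Set Γ))) with hS
  have hSf : S.Finite := by
    apply (Set.toFinite _).union
    apply Set.Finite.biUnion E.finite_toSet
    intro e _
    exact (Set.toFinite _).union (Set.toFinite _)
  have hST : S ⊆ T := by
    apply Set.union_subset hBT
    apply Set.iUnion₂_subset
    intro e he
    apply Set.union_subset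
    · rintro y (rfl | rfl)
      · exact (hf e he).1
      · exact hTconj _ _ (hf e he).1
    · rintro y ⟨b, hb, rfl⟩
      exact hTconj _ _ (hB₁T hb)
  set B₂ : Subgroup Γ := Subgroup.closure S with hB₂
  have hB₂f : Finite B₂ := LF4_fin h S hSf hST
  have hB₂T : B₂ ≤ T := (Subgroup.closure_le T).2 hST
  have hBB₂ : B ≤ B₂ := fun x hx => Subgroup.subset_closure (Or.inl hx)
  have hin : ∀ e ∈ E, f e ∈ B₂ ∧ (g⁻¹ * e)⁻¹ * f e * (g⁻¹ * e) ∈ B₂ ∧
      ∀ b ∈ B₁, (g⁻¹ * e)⁻¹ * b * (g⁻¹ * e) ∈ B₂ := by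
    intro e he
    refine ⟨Subgroup.subset_closure (Or.inr ?_), Subgroup.subset_closure (Or.inr ?_), fun b hb =>
      Subgroup.subset_closure (Or.inr ?_)⟩
    · exact Set.mem_biUnion he (Or.inl (Or.inl rfl))
    · exact Set.mem_biUnion he (Or.inl (Or.inr rfl))
    · exact Set.mem_biUnion he (Or.inr ⟨b, hb, rfl⟩)
  have hPr := hK.2 B₂ hB₂f hBB₂ hB₂T
  obtain ⟨O, hO, hKO⟩ := hPr
  obtain ⟨v, hvO, hv1⟩ : ∃ v : Γ, v ∈ O ∧ v ≠ 1 := by
    by_contra hall
    push Not at hall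
    exact hO.2.1 ((Subgroup.eq_bot_iff_forall O).2 hall)
  have hvB₂ : v ∈ B₂ := hO.1 hvO
  have hvT : v ∈ T := hB₂T hvB₂
  -- the claim
  have claim : ∀ e ∈ E, ∀ t ∈ T,
      ⁅v, (g⁻¹ * e) * (t * v * t⁻¹) * (g⁻¹ * e)⁻¹⁆ = 1 := by
    intro e he t ht
    set k : Γ := g⁻¹ * e with hk
    by_contra hw
    set t' : Γ := k * t * k⁻¹ with ht'
    set v' : Γ := k * v * k⁻¹ with hv'
    have e1 : k * (t * v * t⁻¹) * k⁻¹ = t' * v' * t'⁻¹ := by
      rw [ht', hv']; group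
    rw [e1] at hw
    set Be : Subgroup Γ := B₂.map (MulAut.conj k).toMonoidHom with hBe
    have hBeT : Be ≤ T := by
      rintro y hy
      rw [hBe, LF4_mem_map] at hy
      have h5 := hTconj' k _ (hB₂T hy)
      have e2 : k * (k⁻¹ * y * k) * k⁻¹ = y := by group
      rwa [e2] at h5
    have hBef : Finite Be := by
      have : (Be : Set Γ) = (MulAut.conj k).toMonoidHom '' (B₂ : Set Γ) := by
        rw [hBe, Subgroup.coe_map]
      have h6 : (Be : Set Γ).Finite := by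
        rw [this]
        exact (Set.toFinite _).image _
      exact h6
    have hB₁Be : B₁ ≤ Be := by
      intro b hb
      rw [hBe, LF4_mem_map]
      exact (hin e he).2.2 b hb
    set S'' : Set Γ := ((B₂ : Set Γ) ∪ (Be : Set Γ)) ∪ {t'} with hS''
    have hS''f : S''.Finite :=
      ((Set.toFinite _).union (Set.toFinite _)).union (Set.toFinite _)
    have ht'T : t' ∈ T := hTconj' k t ht
    have hS''T : S'' ⊆ T := by
      apply Set.union_subset (Set.union_subset hB₂T hBeT)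
      rintro y rfl
      exact ht'T
    set B'' : Subgroup Γ := Subgroup.closure S'' with hB''
    have hB''f : Finite B'' := LF4_fin h S'' hS''f hS''T
    have hB''T : B'' ≤ T := (Subgroup.closure_le T).2 hS''T
    have hB₂B'' : B₂ ≤ B'' := fun x hx => Subgroup.subset_closure (Or.inl (Or.inl hx))
    have hBeB'' : Be ≤ B'' := fun x hx => Subgroup.subset_closure (Or.inl (Or.inr hx))
    have ht'B'' : t' ∈ B'' := Subgroup.subset_closure (Or.inr rfl)
    have hvB'' : v ∈ B'' := hB₂B'' hvB₂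
    have hv'Be : v' ∈ Be := by
      rw [hBe, LF4_mem_map]
      have e2 : k⁻¹ * v' * k = v := by rw [hv']; group
      rw [e2]
      exact hvB₂
    have hv'B'' : v' ∈ B'' := hBeB'' hv'Be
    have hx : t' * v' * t'⁻¹ ∈ B'' := mul_mem (mul_mem ht'B'' hv'B'') (inv_mem ht'B'')
    have hwB : ⁅v, t' * v' * t'⁻¹⁆ ∈ B'' := by
      rw [commutatorElement_def]
      exact mul_mem (mul_mem (mul_mem hvB'' hx) (inv_mem hvB'')) (inv_mem hx)
    have hB₁B₂ : B₁ ≤ B₂ := hB.trans hBB₂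
    obtain ⟨K'', hPr'', hwK⟩ := Pr.sep h hB''f (hB₁B₂.trans hB₂B'') hB''T hwB hw
    have hnorm := hPr''.conj
    have hvK : v ∉ K'' := by
      intro h7
      apply hwK
      have h8 := hnorm _ hx v⁻¹ (inv_mem h7)
      have e2 : ⁅v, t' * v' * t'⁻¹⁆ = v * (t' * v' * t'⁻¹ * v⁻¹ * (t' * v' * t'⁻¹)⁻¹) := by
        rw [commutatorElement_def]; group
      rw [e2]
      exact mul_mem h7 h8
    have hv'K : v' ∉ K'' := by
      intro h7
      apply hwK
      have h8 := hnorm _ ht'B'' v' h7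
      have h9 := hnorm _ hvB'' _ h8
      rw [commutatorElement_def]
      exact mul_mem h9 (inv_mem h8)
    have r1 := Pr.restr h hB''f hB₁B₂ hB₂B'' hB''T hPr'' hO hvO hvK
    have hOe := LF4_MinN_map hO k
    have hv'O : v' ∈ O.map (MulAut.conj k).toMonoidHom := by
      rw [LF4_mem_map]
      have e2 : k⁻¹ * v' * k = v := by rw [hv']; group
      rw [e2]
      exact hvO
    have r2 := Pr.restr h hB''f hB₁Be hBeB'' hB''T hPr'' hOe hv'O hv'K
    obtain ⟨hfT, hfne⟩ := hf e he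
    obtain ⟨hfB, hfB', _⟩ := hin e he
    have hfBe : f e ∈ Be := by
      rw [hBe, LF4_mem_map]
      exact hfB'
    apply hfne
    have s1 : f e ∈ K₀ ↔ f e ∈ K'' := by
      have h8 : f e ∈ K₀ ⊓ B₂ ↔ f e ∈ K'' ⊓ B₂ := by rw [hKO, r1]
      rw [Subgroup.mem_inf, Subgroup.mem_inf] at h8
      tauto
    have s2 : f e ∈ K'' ↔ k⁻¹ * f e * k ∈ K₀ := by
      have h8 : f e ∈ K'' ⊓ Be ↔ f e ∈ Be ⊓ Subgroup.centralizer
          ((O.map (MulAut.conj k).toMonoidHom : Subgroup Γ) : Set Γ) := by rw [r2]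
      have h9 : f e ∈ Subgroup.centralizer
          ((O.map (MulAut.conj k).toMonoidHom : Subgroup Γ) : Set Γ) ↔
          k⁻¹ * f e * k ∈ Subgroup.centralizer (O : Set Γ) := by
        rw [Subgroup.mem_centralizer_iff, Subgroup.mem_centralizer_iff]
        constructor
        · intro h10 o ho
          have h11 := h10 (k * o * k⁻¹) (by
            rw [SetLike.mem_coe, LF4_mem_map]
            have e2 : k⁻¹ * (k * o * k⁻¹) * k = o := by group
            rw [e2]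
            exact ho)
          have e3 : o * (k⁻¹ * f e * k) = k⁻¹ * (k * o * k⁻¹ * f e) * k := by group
          rw [e3, h11]
          group
        · intro h10 o ho
          rw [SetLike.mem_coe, LF4_mem_map] at ho
          have h11 := h10 _ ho
          have e3 : o * f e = k * (k⁻¹ * o * k * (k⁻¹ * f e * k)) * k⁻¹ := by group
          rw [e3, h11]
          group
      have h12 : k⁻¹ * f e * k ∈ K₀ ⊓ B₂ ↔
          k⁻¹ * f e * k ∈ B₂ ⊓ Subgroup.centralizer (O : Set Γ) := by rw [hKO]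
      rw [Subgroup.mem_inf, Subgroup.mem_inf] at h8 h12
      tauto
    exact s1.trans s2
  -- conclusion
  have hfin : ∀ t ∈ T, ⁅v, t * v * t⁻¹⁆ = 1 := by
    intro t ht
    have h5 := hE (g * v * g⁻¹) (t * v * t⁻¹) (by
      intro e he
      have h6 := claim e he t ht
      have e2 : ⁅g * v * g⁻¹, e * (t * v * t⁻¹) * e⁻¹⁆ =
          g * ⁅v, (g⁻¹ * e) * (t * v * t⁻¹) * (g⁻¹ * e)⁻¹⁆ * g⁻¹ := by
        rw [commutatorElement_def, commutatorElement_def]
        group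
      rw [e2, h6]
      simp) g
    have e2 : ⁅g * v * g⁻¹, g * (t * v * t⁻¹) * g⁻¹⁆ = g * ⁅v, t * v * t⁻¹⁆ * g⁻¹ := by
      rw [commutatorElement_def, commutatorElement_def]
      group
    rw [e2] at h5
    have h6 : ⁅v, t * v * t⁻¹⁆ = g⁻¹ * (g * ⁅v, t * v * t⁻¹⁆ * g⁻¹) * g := by group
    rw [h6, h5]
    simp
  exact hv1 (h.na v hvT fun b hb => hfin b (hB₁T hb))

end Pool.Agent.Helper83.SV
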