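import Pool.Agent.Helper83.SV.LF4
import Pool.Agent.Helper83.SV.EATame

/-!
# SV-L5: the locally finite case

`thread_pow`: let `K₀` be a thread. It is normalised by `T` and `T = B₁ K₀` (for `t ∈ T` consider the
finite group generated by `B` and `t`). By `thread_orbit` the `x ^ i K₀ x ^ (-i)`,
`0 ≤ i ≤ card E`, are not all different, so `x ^ d K₀ x ^ (-d) = K₀` for some `1 ≤ d ≤ card E`, and
`y = x ^ (card E)!` normalises `K₀`. The maps `B₁ → T / K₀`, `b ↦ y ^ i b y ^ (-i) K₀`, `i ≥ 0`, take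
at most `N = (card B₁) ^ (card B₁)` different values (each coset contains an element of `B₁`), so for
some `1 ≤ d' ≤ N`, `y ^ d'` acts trivially on `B₁` modulo `K₀`, so `y ^ (N !)` acts trivially on
`T / K₀`.

`lf_finite`: `B₁` from `exists_LFo`. With `n' = (card E)! * N !`, `x ^ n'` centralises `T`: for `t ∈ T`,
`⁅x ^ n', t⁆ ∈ K₀` for all threads `K₀`, and for `1 ≠ t₀ ∈ T` there is a thread not containing `t₀`
(`B` generated by `B₁` and `t₀`; `Pr.sep`, `exists_thread`). By `fg_cyc`, `T` is generated by the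
`x ^ j a x ^ (-j)`, `a ∈ A`, `A` finite, `j ∈ ℤ`, so by those with `0 ≤ j < n'`; so `T` is finitely
generated, and finite.
-/

namespace Pool.Agent.Helper83.SV

open Pool.Agent.Helper32.SmallVar Pool.Agent.Helper13.PV
open scoped commutatorElement

variable {Γ : Type} [Group Γ] {L : Set (FreeGroup ℕ)}

private theorem LF5_fg {B : Subgroup Γ} (hB : Finite B) (X : Set Γ) (hX : X.Finite) :
    (Subgroup.closure ((B : Set Γ) ∪ X)).FG := by
  rw [Subgroup.fg_iff]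
  refine ⟨_, rfl, ?_⟩
  exact (Set.toFinite (B : Set Γ)).union hX

private theorem LF5_le {T B : Subgroup Γ} (hBT : B ≤ T) {X : Set Γ} (hX : X ⊆ T) :
    Subgroup.closure ((B : Set Γ) ∪ X) ≤ T := by
  rw [Subgroup.closure_le]
  exact Set.union_subset hBT hX

private theorem LF5_sub {B : Subgroup Γ} {X : Set Γ} :
    B ≤ Subgroup.closure ((B : Set Γ) ∪ X) := fun _ hb =>
  Subgroup.subset_closure (Or.inl hb)

private theorem LF5_mem {B : Subgroup Γ} {X : Set Γ} {x : Γ} (hx : x ∈ X) :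
    x ∈ Subgroup.closure ((B : Set Γ) ∪ X) := Subgroup.subset_closure (Or.inr hx)

/-- A thread is normalised by `T`. -/
private theorem LF5_norm {T B₁ B K₀ : Subgroup Γ} (h : LFo T B₁) (hBf : Finite B)
    (hBT : B ≤ T) (hK : Thread T B K₀) : ∀ t ∈ T, ∀ k ∈ K₀, t * k * t⁻¹ ∈ K₀ := by
  intro t ht k hk
  have hX : ({t, k} : Set Γ) ⊆ T := by
    intro y hy
    rcases hy with rfl | rfl
    · exact ht
    · exact hK.1 hk
  have h1 := LF5_le hBT hX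
  have h2 := h.lf _ h1 (LF5_fg hBf {t, k} (Set.toFinite _))
  have h3 := hK.2 _ h2 LF5_sub h1
  have h4 := h3.conj t (LF5_mem (by simp)) k ⟨hk, LF5_mem (by simp)⟩
  exact h4.1

/-- `T = B₁ K₀`. -/
private theorem LF5_onto {T B₁ B K₀ : Subgroup Γ} (h : LFo T B₁) (hBf : Finite B) (hB : B₁ ≤ B)
    (hBT : B ≤ T) (hK : Thread T B K₀) : ∀ t ∈ T, ∃ b ∈ B₁, b⁻¹ * t ∈ K₀ := by
  intro t ht
  have hX : ({t} : Set Γ) ⊆ T := by
    intro y hy
    rw [Set.mem_singleton_iff] at hy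
    rw [hy]
    exact ht
  have h1 := LF5_le hBT hX
  have h2 := h.lf _ h1 (LF5_fg hBf {t} (Set.toFinite _))
  have h3 := hK.2 _ h2 LF5_sub h1
  obtain ⟨b, hb, hbt⟩ := h3.onto h h2 (hB.trans LF5_sub) h1 t (LF5_mem (by simp))
  exact ⟨b, hb, hbt.1⟩

/-- If conjugation by `x ^ i` and `x ^ j` have the same effect on `K₀`. -/
private theorem LF5_diff {K₀ : Subgroup Γ} {x : Γ} {i j : ℕ} (hij : i ≤ j)
    (h : K₀.map (MulAut.conj (x ^ i)).toMonoidHom = K₀.map (MulAut.conj (x ^ j)).toMonoidHom) :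
    ∀ k : Γ, k ∈ K₀ ↔ x ^ (j - i) * k * (x ^ (j - i))⁻¹ ∈ K₀ := by
  intro k
  obtain ⟨d, rfl⟩ := Nat.exists_eq_add_of_le hij
  rw [Nat.add_sub_cancel_left]
  constructor
  · intro hk
    have h1 : x ^ (i + d) * k * (x ^ (i + d))⁻¹ ∈ K₀.map (MulAut.conj (x ^ (i + d))).toMonoidHom :=
      ⟨k, hk, rfl⟩
    rw [← h] at h1
    obtain ⟨k', hk', e⟩ := h1
    have e' : x ^ i * k' * (x ^ i)⁻¹ = x ^ (i + d) * k * (x ^ (i + d))⁻¹ := e
    have h2 : x ^ d * k * (x ^ d)⁻¹ = k' := by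
      have : k' = (x ^ i)⁻¹ * (x ^ i * k' * (x ^ i)⁻¹) * x ^ i := by group
      rw [this, e', pow_add]
      group
    rw [h2]
    exact hk'
  · intro hk
    have h1 : x ^ i * (x ^ d * k * (x ^ d)⁻¹) * (x ^ i)⁻¹ ∈
        K₀.map (MulAut.conj (x ^ i)).toMonoidHom := ⟨_, hk, rfl⟩
    rw [h] at h1
    obtain ⟨k', hk', e⟩ := h1
    have e' : x ^ (i + d) * k' * (x ^ (i + d))⁻¹ = x ^ i * (x ^ d * k * (x ^ d)⁻¹) * (x ^ i)⁻¹ := e
    have h2 : k = k' := by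
      have : k' = (x ^ (i + d))⁻¹ * (x ^ (i + d) * k' * (x ^ (i + d))⁻¹) * x ^ (i + d) := by group
      rw [this, e', pow_add]
      group
    rw [h2]
    exact hk'

private theorem LF5_iter {K₀ : Subgroup Γ} {y : Γ}
    (h : ∀ k : Γ, k ∈ K₀ ↔ y * k * y⁻¹ ∈ K₀) (m : ℕ) :
    ∀ k : Γ, k ∈ K₀ ↔ y ^ m * k * (y ^ m)⁻¹ ∈ K₀ := by
  induction m with
  | zero =>
    intro k
    rw [pow_zero, one_mul, inv_one, mul_one]
  | succ m ih =>
    intro k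
    have h1 : y ^ (m + 1) * k * (y ^ (m + 1))⁻¹ = y * (y ^ m * k * (y ^ m)⁻¹) * y⁻¹ := by
      rw [pow_succ']
      group
    rw [h1, ← h, ← ih]

/-- If `z` normalises `K₀` and acts trivially on `T / K₀`, so do its powers. -/
private theorem LF5_pow {T K₀ : Subgroup Γ} (hTn : T.Normal) {z : Γ}
    (hz : ∀ k : Γ, k ∈ K₀ ↔ z * k * z⁻¹ ∈ K₀) (h : ∀ t ∈ T, t⁻¹ * (z * t * z⁻¹) ∈ K₀) (m : ℕ) :
    ∀ t ∈ T, t⁻¹ * (z ^ m * t * (z ^ m)⁻¹) ∈ K₀ := by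
  induction m with
  | zero =>
    intro t _
    have : t⁻¹ * (z ^ 0 * t * (z ^ 0)⁻¹) = 1 := by
      rw [pow_zero]
      group
    rw [this]
    exact K₀.one_mem
  | succ m ih =>
    intro t ht
    have h1 := h (z ^ m * t * (z ^ m)⁻¹) (hTn.conj_mem t ht _)
    have h2 := K₀.mul_mem (ih t ht) h1
    have h3 : t⁻¹ * (z ^ m * t * (z ^ m)⁻¹) * ((z ^ m * t * (z ^ m)⁻¹)⁻¹ *
        (z * (z ^ m * t * (z ^ m)⁻¹) * z⁻¹)) = t⁻¹ * (z ^ (m + 1) * t * (z ^ (m + 1))⁻¹) := by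
      rw [pow_succ']
      group
    rw [← h3]
    exact h2

theorem thread_pow {T B₁ : Subgroup Γ} (h : LFo T B₁) (hTn : T.Normal) (E : Finset Γ)
    (hE : ∀ u b : Γ, (∀ e ∈ E, ⁅u, e * b * e⁻¹⁆ = 1) → ∀ g : Γ, ⁅u, g * b * g⁻¹⁆ = 1) (x : Γ) :
    ∃ n : ℕ, 1 ≤ n ∧ ∀ B K₀ : Subgroup Γ, Finite B → B₁ ≤ B → B ≤ T → Thread T B K₀ →
      ∀ t ∈ T, ⁅x ^ n, t⁆ ∈ K₀ := by
  classical
  have hB₁f : Finite B₁ := h.lf B₁ h.le h.fg
  set N : ℕ := Nat.card (B₁ → B₁) with hN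
  refine ⟨E.card.factorial * N.factorial,
    Nat.mul_pos (Nat.factorial_pos _) (Nat.factorial_pos _), ?_⟩
  intro B K₀ hBf hB hBT hK
  have hnorm := LF5_norm h hBf hBT hK
  have honto := LF5_onto h hBf hB hBT hK
  set y : Γ := x ^ E.card.factorial with hy
  -- `y` normalises `K₀`
  have hyK : ∀ k : Γ, k ∈ K₀ ↔ y * k * y⁻¹ ∈ K₀ := by
    choose e he hee using fun g => thread_orbit h hTn E hE hBf hB hBT hK g
    obtain ⟨i, hi, j, hj, hij, hije⟩ : ∃ i ∈ Finset.range (E.card + 1),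
        ∃ j ∈ Finset.range (E.card + 1), i ≠ j ∧ e (x ^ i) = e (x ^ j) :=
      Finset.exists_ne_map_eq_of_card_lt_of_maps_to (by rw [Finset.card_range]; omega)
        (fun i _ => he (x ^ i))
    rw [Finset.mem_range] at hi hj
    have key : ∀ i j : ℕ, i < j → j < E.card + 1 → e (x ^ i) = e (x ^ j) →
        ∀ k : Γ, k ∈ K₀ ↔ y * k * y⁻¹ ∈ K₀ := by
      intro i j hij hj hije
      have h1 : K₀.map (MulAut.conj (x ^ i)).toMonoidHom =
          K₀.map (MulAut.conj (x ^ j)).toMonoidHom := by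
        rw [hee (x ^ i), hee (x ^ j), hije]
      have h2 := LF5_diff hij.le h1
      obtain ⟨m, hm⟩ : j - i ∣ E.card.factorial :=
        Nat.dvd_factorial (by omega) (by omega)
      have h3 := LF5_iter h2 m
      rw [← pow_mul, ← hm] at h3
      exact h3
    rcases lt_or_gt_of_ne hij with hlt | hlt
    · exact key i j hlt hj hije
    · exact key j i hlt hi hije.symm
  -- some power of `y` acts trivially on `B₁` modulo `K₀`
  have hsel : ∀ (i : ℕ) (b : B₁), ∃ b' : B₁,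
      (b' : Γ)⁻¹ * (y ^ i * b * (y ^ i)⁻¹) ∈ K₀ := by
    intro i b
    obtain ⟨b', hb', hb⟩ := honto (y ^ i * b * (y ^ i)⁻¹) (hTn.conj_mem _ (h.le b.2) _)
    exact ⟨⟨b', hb'⟩, hb⟩
  choose φ hφ using hsel
  have hfin : Fintype (B₁ → B₁) := Fintype.ofFinite _
  obtain ⟨i, hi, j, hj, hij, hije⟩ : ∃ i ∈ Finset.range (N + 1),
      ∃ j ∈ Finset.range (N + 1), i ≠ j ∧ φ i = φ j := by
    refine Finset.exists_ne_map_eq_of_card_lt_of_maps_to (t := Finset.univ) ?_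
      (fun i _ => Finset.mem_univ _)
    rw [Finset.card_range, Finset.card_univ, ← Nat.card_eq_fintype_card]
    exact Nat.lt_succ_self _
  rw [Finset.mem_range] at hi hj
  have key : ∀ i j : ℕ, i < j → j < N + 1 → φ i = φ j →
      ∀ t ∈ T, t⁻¹ * (y ^ N.factorial * t * (y ^ N.factorial)⁻¹) ∈ K₀ := by
    intro i j hij hj hije
    obtain ⟨d, rfl⟩ := Nat.exists_eq_add_of_lt hij
    set z : Γ := y ^ (d + 1) with hz
    have hzK : ∀ k : Γ, k ∈ K₀ ↔ z * k * z⁻¹ ∈ K₀ := LF5_iter hyK (d + 1)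
    have hzb : ∀ b ∈ B₁, b⁻¹ * (z * b * z⁻¹) ∈ K₀ := by
      intro b hb
      have h1 := hφ i ⟨b, hb⟩
      have h2 := hφ (i + d + 1) ⟨b, hb⟩
      rw [← hije] at h2
      have h3 := K₀.mul_mem (K₀.inv_mem h1) h2
      have h4 : (((φ i ⟨b, hb⟩ : B₁) : Γ)⁻¹ * (y ^ i * b * (y ^ i)⁻¹))⁻¹ *
          (((φ i ⟨b, hb⟩ : B₁) : Γ)⁻¹ * (y ^ (i + d + 1) * b * (y ^ (i + d + 1))⁻¹)) =
          y ^ i * (b⁻¹ * (z * b * z⁻¹)) * (y ^ i)⁻¹ := by
        rw [hz, add_assoc i d 1, pow_add y i (d + 1)]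
        group
      have h5 : y ^ i * (b⁻¹ * (z * b * z⁻¹)) * (y ^ i)⁻¹ ∈ K₀ := by
        rw [← h4]
        exact h3
      exact (LF5_iter hyK i _).2 h5
    have hzT : ∀ t ∈ T, t⁻¹ * (z * t * z⁻¹) ∈ K₀ := by
      intro t ht
      obtain ⟨b, hb, hbt⟩ := honto t ht
      set k := b⁻¹ * t with hk
      have h1 : t = b * k := by
        rw [hk]
        group
      have h2 : t⁻¹ * (z * t * z⁻¹) = k⁻¹ * (b⁻¹ * (z * b * z⁻¹)) * (z * k * z⁻¹) := by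
        rw [h1]
        group
      rw [h2]
      exact K₀.mul_mem (K₀.mul_mem (K₀.inv_mem hbt) (hzb b hb)) ((hzK k).1 hbt)
    obtain ⟨m, hm⟩ : d + 1 ∣ N.factorial := Nat.dvd_factorial (by omega) (by omega)
    have h6 := LF5_pow hTn hzK hzT m
    rw [hz, ← pow_mul, ← hm] at h6
    exact h6
  have hfinal : ∀ t ∈ T, t⁻¹ * (y ^ N.factorial * t * (y ^ N.factorial)⁻¹) ∈ K₀ := by
    rcases lt_or_gt_of_ne hij with hlt | hlt
    · exact key i j hlt hj hije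
    · exact key j i hlt hi hije.symm
  intro t ht
  have h1 := hnorm t ht _ (hfinal t ht)
  have h2 : ⁅x ^ (E.card.factorial * N.factorial), t⁆ =
      t * (t⁻¹ * (y ^ N.factorial * t * (y ^ N.factorial)⁻¹)) * t⁻¹ := by
    rw [hy, ← pow_mul, commutatorElement_def]
    group
  rw [h2]
  exact h1

theorem lf_finite (hΓ : SatisfiesLaws L Γ) (hfg : Group.FG Γ) (hW : Win Γ) (T : Subgroup Γ)
    (hTn : T.Normal) (x : Γ) (hx : ∀ g : Γ, ∃ n : ℤ, ∃ h ∈ T, g = x ^ n * h)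
    (hT : Tame L (T : Set Γ)) (hlf : ∀ B : Subgroup Γ, B ≤ T → B.FG → Finite B)
    (hna : ∀ u ∈ T, (∀ t ∈ T, ⁅u, t * u * t⁻¹⁆ = 1) → u = 1) (n : ℕ)
    (hs : ∀ S : Subgroup Γ, S ≤ T → Finite S → IsSimpleGroup S →
      (¬ ∀ a ∈ S, ∀ b ∈ S, a * b = b * a) → Nat.card S ≤ n) : Finite T := by
  classical
  obtain ⟨B₁, h⟩ := exists_LFo hΓ T hT hlf hna n hs
  obtain ⟨E, hE⟩ := hW
  have hE' : ∀ u b : Γ, (∀ e ∈ E, ⁅u, e * b * e⁻¹⁆ = 1) → ∀ g : Γ, ⁅u, g * b * g⁻¹⁆ = 1 := by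
    intro u b hub g
    have := hE ⊥ inferInstance u b (fun e he => Subgroup.mem_bot.2 (hub e he)) g
    exact Subgroup.mem_bot.1 this
  obtain ⟨m, hm1, hm⟩ := thread_pow h hTn E hE' x
  have hB₁f : Finite B₁ := h.lf B₁ h.le h.fg
  -- `x ^ m` centralises `T`
  have hcomm : ∀ t ∈ T, ⁅x ^ m, t⁆ = 1 := by
    intro t ht
    by_contra hne
    have ht₀ : ⁅x ^ m, t⁆ ∈ T := by
      rw [commutatorElement_def]
      exact T.mul_mem (hTn.conj_mem t ht _) (T.inv_mem ht)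
    have hX : ({⁅x ^ m, t⁆} : Set Γ) ⊆ T := by
      intro y hy
      rw [Set.mem_singleton_iff] at hy
      rw [hy]
      exact ht₀
    have h1 := LF5_le h.le hX
    have h2 := h.lf _ h1 (LF5_fg hB₁f {⁅x ^ m, t⁆} (Set.toFinite _))
    obtain ⟨K, hK, hKt⟩ := Pr.sep h h2 LF5_sub h1 (b := ⁅x ^ m, t⁆) (LF5_mem rfl) hne
    obtain ⟨K₀, hK₀, hK₀'⟩ := exists_thread h h2 LF5_sub h1 hK
    apply hKt
    rw [← hK₀']
    exact ⟨hm _ K₀ h2 LF5_sub h1 hK₀ t ht, LF5_mem rfl⟩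
  have hcomm' : ∀ t ∈ T, x ^ m * t * (x ^ m)⁻¹ = t := by
    intro t ht
    have h1 := hcomm t ht
    rw [commutatorElement_def, mul_inv_eq_one] at h1
    exact h1
  have hzpow : ∀ (q : ℤ), ∀ t ∈ T, (x ^ m) ^ q * t * ((x ^ m) ^ q)⁻¹ = t := by
    intro q t ht
    have h1 : Commute (x ^ m) t := by
      have := hcomm' t ht
      rw [mul_inv_eq_iff_eq_mul] at this
      exact this
    rw [mul_inv_eq_iff_eq_mul]
    exact (h1.zpow_left q)
  obtain ⟨A, hAT, hA⟩ := fg_cyc hfg T hTn x hx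
  refine hlf T le_rfl ?_
  rw [Subgroup.fg_iff]
  refine ⟨(fun q : ℕ × Γ => x ^ q.1 * q.2 * (x ^ q.1)⁻¹) '' ((Finset.range m : Set ℕ) ×ˢ (A : Set Γ)),
    ?_, ((Finset.finite_toSet _).prod (Finset.finite_toSet _)).image _⟩
  apply le_antisymm
  · rw [Subgroup.closure_le]
    rintro _ ⟨⟨j, a⟩, ⟨-, ha⟩, rfl⟩
    exact hTn.conj_mem a (hAT ha) _
  · rw [← hA, Subgroup.closure_le]
    rintro _ ⟨a, ha, s, hs, rfl⟩
    obtain ⟨k, rfl⟩ := hs
    have hmpos : (0 : ℤ) < m := by exact_mod_cast hm1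
    have h1 : k = (m : ℤ) * (k / m) + k % m := (Int.mul_ediv_add_emod k m).symm
    have h2 : 0 ≤ k % (m : ℤ) := Int.emod_nonneg k hmpos.ne'
    have h3 : k % (m : ℤ) < m := Int.emod_lt_of_pos k hmpos
    obtain ⟨j, hj⟩ := Int.eq_ofNat_of_zero_le h2
    have h4 : x ^ k = x ^ j * (x ^ m) ^ (k / m) := by
      have h5 : x ^ k = x ^ ((m : ℤ) * (k / m) + k % m) := by rw [← h1]
      rw [h5, add_comm, zpow_add, hj, zpow_natCast, zpow_mul, zpow_natCast]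
    refine Subgroup.subset_closure ⟨(j, a), ⟨?_, ha⟩, ?_⟩
    · rw [Finset.mem_coe, Finset.mem_range]
      omega
    · change x ^ j * a * (x ^ j)⁻¹ = x ^ k * a * (x ^ k)⁻¹
      rw [h4, mul_inv_rev]
      have h6 := hzpow (k / m) a (hAT ha)
      calc x ^ j * a * (x ^ j)⁻¹
          = x ^ j * ((x ^ m) ^ (k / m) * a * ((x ^ m) ^ (k / m))⁻¹) * (x ^ j)⁻¹ := by rw [h6]
        _ = x ^ j * (x ^ m) ^ (k / m) * a * (((x ^ m) ^ (k / m))⁻¹ * (x ^ j)⁻¹) := by group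

end Pool.Agent.Helper83.SV
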