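import Pool.Agent.Helper83.SV.WinB
import Pool.Agent.Helper69.PV.LF

/-!
# SV-25: max-n implies small; finite extensions

`small_of_maxN`: use `small_of_countable` (`Helper69/PV/LF`): let `F = FreeGroup (Fin n)`,
`V = verb L F`. If `F ⧸ R` satisfies `L` then `V ≤ R` (`verb_le`), and the image of `R` in `F ⧸ V`
is the normal closure of a finite set, so `R = V ⊔ normalClosure s` for a finite set `s ⊆ F`; there
are countably many finite sets.

`maxN_of_finite`: if `H` has finite index in `G` and `MaxN H`: for `N` normal in `G`, `N ⊓ H` (as a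
subgroup of `H`) is the normal closure in `H` of a finite set, and `N ⊓ H` has finite index in `N`.
-/

namespace Pool.Agent.Helper83.SV

open Pool.Agent.Helper32.SmallVar Pool.Agent.Helper13.PV

variable {L : Set (FreeGroup ℕ)}

theorem small_of_maxN
    (h : ∀ (G : Type) [Group G], Group.FG G → SatisfiesLaws L G → MaxN G) :
    IsSmallVariety L := by
  classical
  refine Pool.Agent.Helper69.PV.small_of_countable fun n => ?_
  have hF : Group.FG (FreeGroup (Fin n)) :=
    Group.fg_iff_exists_freeGroup_hom_surjective_finite.2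
      ⟨Fin n, inferInstance, MonoidHom.id _, Function.surjective_id⟩
  have hFc : Countable (FreeGroup (Fin n)) := Pool.Agent.Helper69.PV.countable_of_fg _ hF
  set V : Subgroup (FreeGroup (Fin n)) := verb L (FreeGroup (Fin n)) with hV
  have hQc : Countable (FreeGroup (Fin n) ⧸ V) :=
    (QuotientGroup.mk'_surjective V).countable
  have hM : MaxN (FreeGroup (Fin n) ⧸ V) :=
    h _ (QuotientGroup.fg V) (verb_le.1 le_rfl)
  have hc : Set.Countable (Set.range fun s : Finset (FreeGroup (Fin n) ⧸ V) =>
      (Subgroup.normalClosure (s : Set (FreeGroup (Fin n) ⧸ V))).comap (QuotientGroup.mk' V)) :=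
    Set.countable_range _
  refine hc.mono ?_
  rintro R ⟨hN, hR⟩
  have hVR : V ≤ R := verb_le.2 hR
  obtain ⟨s, hs⟩ := hM (R.map (QuotientGroup.mk' V))
    (hN.map _ (QuotientGroup.mk'_surjective V))
  refine ⟨s, ?_⟩
  change (Subgroup.normalClosure (s : Set (FreeGroup (Fin n) ⧸ V))).comap
    (QuotientGroup.mk' V) = R
  rw [hs, Subgroup.comap_map_eq, QuotientGroup.ker_mk']
  exact sup_eq_left.2 hVR

theorem maxN_of_finite {G : Type} [Group G] (H : Subgroup G) (hH : H.Normal)
    (hf : H.FiniteIndex) (h : MaxN H) : MaxN G := by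
  classical
  intro N hN
  obtain ⟨s, hs⟩ := h (N.subgroupOf H) inferInstance
  have hfin : Finite (G ⧸ H) := inferInstance
  have hft : Fintype (G ⧸ H) := Fintype.ofFinite _
  -- representatives of the cosets which meet `N`
  have hrep : ∀ q : G ⧸ H, ∃ t ∈ N, (∃ n ∈ N, (n : G ⧸ H) = q) → (t : G ⧸ H) = q := by
    intro q
    by_cases hq : ∃ n ∈ N, (n : G ⧸ H) = q
    · obtain ⟨n, hn, hnq⟩ := hq
      exact ⟨n, hn, fun _ => hnq⟩
    · exact ⟨1, N.one_mem, fun h => absurd h hq⟩
  choose t htN ht using hrep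
  refine ⟨s.image (H.subtype) ∪ Finset.univ.image t, ?_⟩
  set M : Subgroup G := Subgroup.normalClosure
    ((s.image (H.subtype) ∪ Finset.univ.image t : Finset G) : Set G) with hM
  have hMn : M.Normal := Subgroup.normalClosure_normal
  apply le_antisymm
  · apply Subgroup.normalClosure_le_normal
    intro x hx
    rw [Finset.coe_union, Finset.coe_image, Finset.coe_image] at hx
    rcases hx with ⟨y, hy, rfl⟩ | ⟨q, _, rfl⟩
    · have h1 : y ∈ N.subgroupOf H := by
        rw [← hs]
        exact Subgroup.subset_normalClosure hy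
      exact Subgroup.mem_subgroupOf.1 h1
    · exact htN q
  · have hsub : N.subgroupOf H ≤ M.subgroupOf H := by
      rw [← hs]
      apply Subgroup.normalClosure_le_normal
      intro y hy
      rw [SetLike.mem_coe, Subgroup.mem_subgroupOf]
      apply Subgroup.subset_normalClosure
      rw [Finset.coe_union]
      left
      rw [Finset.coe_image]
      exact ⟨y, hy, rfl⟩
    intro n hn
    have h1 : (t (n : G ⧸ H) : G ⧸ H) = (n : G ⧸ H) := ht _ ⟨n, hn, rfl⟩
    have h2 : (t (n : G ⧸ H))⁻¹ * n ∈ H := QuotientGroup.eq.1 h1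
    have h3 : (t (n : G ⧸ H))⁻¹ * n ∈ N := N.mul_mem (N.inv_mem (htN _)) hn
    have h4 : (t (n : G ⧸ H))⁻¹ * n ∈ M := by
      have h5 : (⟨_, h2⟩ : H) ∈ M.subgroupOf H := hsub (Subgroup.mem_subgroupOf.2 h3)
      exact Subgroup.mem_subgroupOf.1 h5
    have h5 : t (n : G ⧸ H) ∈ M := by
      apply Subgroup.subset_normalClosure
      rw [Finset.coe_union]
      right
      rw [Finset.coe_image]
      exact ⟨_, Finset.mem_coe.2 (Finset.mem_univ _), rfl⟩
    have h6 := M.mul_mem h5 h4
    rwa [mul_inv_cancel_left] at h6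

theorem maxN_of_comm {G : Type} [Group G] (hG : Group.FG G) (h : ∀ a b : G, a * b = b * a) :
    MaxN G := by
  classical
  let _ : CommGroup G := { (inferInstance : Group G) with mul_comm := h }
  have h1 : AddGroup.FG (Additive G) := GroupFG.iff_add_fg.1 hG
  have h2 : Module.Finite ℤ (Additive G) := Module.Finite.iff_addGroup_fg.2 h1
  have h3 : IsNoetherian ℤ (Additive G) := isNoetherian_of_isNoetherianRing_of_finite ℤ _
  intro N hN
  have h4 : (AddSubgroup.toIntSubmodule N.toAddSubgroup).FG := IsNoetherian.noetherian _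
  rw [Submodule.fg_iff_addSubgroup_fg, AddSubgroup.toIntSubmodule_toAddSubgroup] at h4
  have h5 : N.FG := (Subgroup.fg_iff_add_fg N).2 h4
  obtain ⟨s, hs⟩ := h5
  refine ⟨s, le_antisymm (Subgroup.normalClosure_le_normal ?_) ?_⟩
  · rw [← hs]
    exact Subgroup.subset_closure
  · conv_lhs => rw [← hs]
    exact Subgroup.closure_le_normalClosure

end Pool.Agent.Helper83.SV
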