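import Pool.Agent.Helper83.SV.Core
import Pool.Agent.Helper83.SV.AN
import Pool.Agent.Helper83.SV.EATame
import Pool.Agent.Helper83.SV.EAClass
import Pool.Agent.Helper83.SV.HallApp
import Pool.Agent.Helper83.SV.Small

/-!
# The main theorem: finitely generated groups in `EAs` are soluble and satisfy max-n
-/

namespace Pool.Agent.Helper83.SV

open Pool.Agent.Helper32.SmallVar Pool.Agent.Helper13.PV
open scoped commutatorElement

variable {L : Set (FreeGroup ℕ)}

theorem Main_lift {G Γ : Type} [Group G] [Group Γ] (q : G →* Γ) (H : Subgroup G)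
    (B : Subgroup Γ) (hB : B ≤ H.map q) (hfg : B.FG) :
    ∃ K : Subgroup G, K ≤ H ∧ K.FG ∧ K.map q = B := by
  classical
  obtain ⟨t, ht⟩ := hfg
  have h1 : ∀ y : t, ∃ x ∈ H, q x = y := by
    intro y
    have : (y : Γ) ∈ B := by
      rw [← ht]
      exact Subgroup.subset_closure y.2
    exact hB this
  choose x hx hxy using h1
  refine ⟨Subgroup.closure (Set.range x), ?_, ?_, ?_⟩
  · rw [Subgroup.closure_le]
    rintro _ ⟨y, rfl⟩
    exact hx y
  · rw [Subgroup.fg_iff]
    exact ⟨_, rfl, Set.finite_range x⟩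
  · rw [MonoidHom.map_closure, ← Set.range_comp, ← ht]
    congr 1
    ext y
    constructor
    · rintro ⟨z, rfl⟩
      show q (x z) ∈ _
      rw [hxy]
      exact z.2
    · intro hy
      exact ⟨⟨y, hy⟩, hxy _⟩

/-- `N` is not the normal closure of a finite set or the quotient by `N` is not soluble. -/
def Bad {G : Type} [Group G] (N : Subgroup G) : Prop :=
  N.Normal ∧ ¬ (FGN N ∧ ∃ n, derivedSeries G n ≤ N)

theorem Main_chain {G : Type} [Group G] (c : Set (Subgroup G)) (hc : ∀ N ∈ c, Bad N)
    (hch : IsChain (· ≤ ·) c) (y : Subgroup G) (hy : y ∈ c) :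
    ∃ ub, Bad ub ∧ ∀ z ∈ c, z ≤ ub := by
  have hdir : DirectedOn (· ≤ ·) c := hch.directedOn
  have hmem : ∀ x, x ∈ sSup c ↔ ∃ N ∈ c, x ∈ N := fun x =>
    Subgroup.mem_sSup_of_directedOn ⟨y, hy⟩ hdir
  refine ⟨sSup c, ⟨⟨?_⟩, ?_⟩, fun z hz => le_sSup hz⟩
  · intro x hx g
    obtain ⟨N, hN, hxN⟩ := (hmem x).1 hx
    exact (hmem _).2 ⟨N, hN, (hc N hN).1.conj_mem x hxN g⟩
  · rintro ⟨⟨s, hs⟩, n, hn⟩
    have h1 : ∀ t : Finset G, (t : Set G) ⊆ ((sSup c : Subgroup G) : Set G) → ∃ N ∈ c, (t : Set G) ⊆ N := by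
      classical
      intro t
      induction t using Finset.induction_on with
      | empty => exact fun _ => ⟨y, hy, by simp⟩
      | insert a t _ ih =>
        intro ht
        rw [Finset.coe_insert, Set.insert_subset_iff] at ht
        obtain ⟨N, hN, htN⟩ := ih ht.2
        obtain ⟨N', hN', haN⟩ := (hmem a).1 ht.1
        obtain ⟨P, hP, h1, h2⟩ := hdir N hN N' hN'
        refine ⟨P, hP, ?_⟩
        rw [Finset.coe_insert, Set.insert_subset_iff]
        exact ⟨h2 haN, htN.trans h1⟩
    obtain ⟨N, hN, hsN⟩ := h1 s (by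
      rw [← hs]
      exact Subgroup.subset_normalClosure)
    have h2 : sSup c = N := by
      apply le_antisymm _ (le_sSup hN)
      rw [← hs]
      have := (hc N hN).1
      exact Subgroup.normalClosure_le_normal hsN
    exact (hc N hN).2 (h2 ▸ ⟨⟨s, hs⟩, n, hn⟩)

theorem Main_bot {Γ : Type} [Group Γ] : FGN (⊥ : Subgroup Γ) :=
  ⟨∅, by simp⟩

theorem Main_top {G : Type} [Group G] (hG : Group.FG G) : FGN (⊤ : Subgroup G) := by
  obtain ⟨s, hs⟩ := hG.out
  refine ⟨s, top_unique ?_⟩
  rw [← hs]
  exact Subgroup.closure_le_normalClosure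

/-- The contradiction for a maximal bad normal subgroup with a suitable quotient. -/
theorem Main_step (hL : AllHopfian L) {G : Type} [Group G] (hG : Group.FG G)
    (hV : SatisfiesLaws L G) (hW : Win G) (N : Subgroup G) (hN : Bad N)
    (hmax : ∀ N' : Subgroup G, N'.Normal → N ≤ N' → N ≠ N' →
      FGN N' ∧ ∃ n, derivedSeries G n ≤ N')
    (Γ : Type) [Group Γ] (q : G →* Γ) (hq : Function.Surjective q) (hk : q.ker = N)
    (hM : MaxN Γ)
    (hA : ∃ A : Subgroup Γ, A.Normal ∧ A ≠ ⊥ ∧ ∀ a ∈ A, ∀ b ∈ A, a * b = b * a) : False := by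
  classical
  obtain ⟨D, hD, hId⟩ := exists_id hL
  have hNn := hN.1
  -- subgroups above `N`
  have hup : ∀ A : Subgroup Γ, A.Normal → A ≠ ⊥ →
      FGN (A.comap q) ∧ ∃ n, derivedSeries G n ≤ A.comap q := by
    intro A hA hA0
    apply hmax _ (hA.comap q)
    · rw [← hk]
      exact Subgroup.ker_le_comap q A
    · intro h
      apply hA0
      rw [← hk] at h
      have h1 : (A.comap q).map q = (q.ker).map q := by rw [← h]
      rw [Subgroup.map_comap_eq_self_of_surjective hq] at h1
      rw [h1]
      exact (Subgroup.map_eq_bot_iff _).2 le_rfl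
  obtain ⟨A₀, hA₀n, hA₀0, hA₀c⟩ := hA
  obtain ⟨C, ⟨M, hMn, hM0, hMc, rfl⟩, hCmax⟩ := hM.exists_max
    {C : Subgroup Γ | ∃ M : Subgroup Γ, M.Normal ∧ M ≠ ⊥ ∧ (∀ a ∈ M, ∀ b ∈ M, a * b = b * a) ∧
      Subgroup.centralizer (M : Set Γ) = C}
    (by
      rintro _ ⟨M, hM, _, _, rfl⟩
      infer_instance)
    ⟨_, A₀, hA₀n, hA₀0, hA₀c, rfl⟩
  set C := Subgroup.centralizer (M : Set Γ) with hC
  have hCn : C.Normal := by
    rw [hC]
    infer_instance
  have hMC : M ≤ C := by
    intro a ha
    rw [hC, Subgroup.mem_centralizer_iff]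
    exact fun b hb => hMc b hb a ha
  have hC0 : C ≠ ⊥ := fun h => hM0 (le_bot_iff.1 (h ▸ hMC))
  have hstar : ∀ K : Subgroup Γ, K.Normal → ¬ K ≤ C →
      M ⊓ Subgroup.centralizer (K : Set Γ) = ⊥ := by
    intro K hK hKC
    by_contra hne
    apply hKC
    have h1 : Subgroup.centralizer ((M ⊓ Subgroup.centralizer (K : Set Γ) : Subgroup Γ) :
        Set Γ) = C := by
      refine hCmax _ ⟨_, inferInstance, hne, ?_, rfl⟩ ?_
      · exact fun a ha b hb => hMc a ha.1 b hb.1
      · exact Subgroup.centralizer_le (fun x hx => hx.1)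
    rw [← h1]
    intro k hk
    rw [Subgroup.mem_centralizer_iff]
    rintro b ⟨-, hb⟩
    exact ((Subgroup.mem_centralizer_iff.1 hb) k hk).symm
  let f : Γ →* Γ ⧸ C := QuotientGroup.mk' C
  have hf : Function.Surjective f := QuotientGroup.mk'_surjective C
  have hfk : f.ker = C := QuotientGroup.ker_mk' C
  have hfq : Function.Surjective (f.comp q) := hf.comp hq
  have hF : Faith M f := ⟨hW.of_surj q hq, hM, hMn, hMc, hM0, hstar, hf, hfk⟩
  obtain ⟨hCf, nC, hnC⟩ := hup C hCn hC0
  obtain ⟨hMf, nM, hnM⟩ := hup M hMn hM0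
  have hsol : Group.IsSolvable (Γ ⧸ C) := by
    refine ⟨⟨nC, ?_⟩⟩
    rw [← map_derivedSeries_eq hfq, Subgroup.map_eq_bot_iff]
    refine hnC.trans ?_
    rw [← MonoidHom.comap_ker, hfk]
  have hfgΓ : Group.FG (Γ ⧸ C) := by
    have := hG
    exact Group.fg_of_surjective hfq
  have hch : Chain (⊥ : Subgroup (Γ ⧸ C)) ⊤ :=
    core hD M f (hId Γ (laws_of_surj q hq hV)) hF hfgΓ ⊤ inferInstance inferInstance
      inferInstance
  have hch' := Chain.comap' (f.comp q) hfq hch
  rw [Subgroup.comap_top, ← MonoidHom.comap_ker, hfk] at hch'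
  -- the commutator subgroup
  have hW' : (⁅M.comap q, C.comap q⁆ : Subgroup G) ≤ N := by
    rw [Subgroup.commutator_le]
    intro a ha b hb
    rw [← hk, MonoidHom.mem_ker, map_commutatorElement, commutatorElement_eq_one_iff_mul_comm]
    exact (Subgroup.mem_centralizer_iff.1 hb) _ ha
  have hAA : (⁅M.comap q, M.comap q⁆ : Subgroup G) ≤ ⁅M.comap q, C.comap q⁆ :=
    Subgroup.commutator_mono le_rfl (Subgroup.comap_mono hMC)
  have hMqn : (M.comap q).Normal := hMn.comap q
  have hCqn : (C.comap q).Normal := hCn.comap q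
  have hNM : N ≤ M.comap q := by
    rw [← hk]
    exact Subgroup.ker_le_comap q M
  have hfin : FGN N := fgn_rel (M.comap q) ⁅M.comap q, C.comap q⁆ (C.comap q) N hMqn
    inferInstance hCqn hNn hW' hNM hAA le_rfl hMf (hW.commutator hMf hCf) hch'
  refine hN.2 ⟨hfin, nM + 1, ?_⟩
  rw [derivedSeries_succ]
  exact (Subgroup.commutator_mono hnM hnM).trans (hAA.trans hW')

theorem main_eas (hL : AllHopfian L) {G : Type} [Group G] (hE : EAs G) :
    Group.FG G → SatisfiesLaws L G → Group.IsSolvable G ∧ MaxN G := by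
  induction hE with
  | comm G h => exact fun hG _ => ⟨Group.isSolvable_of_comm h, maxN_of_comm hG h⟩
  | cyc G H hH x hx hK ih =>
    intro hG hV
    have hT : Tame L (Set.univ : Set G) := tame_of_eas hL (EAs.cyc G H hH x hx hK) hG
    have hW : Win G := win_of_tame hV hT
    have key : ∀ N : Subgroup G, ¬ Bad N := by
      by_contra hcon
      push Not at hcon
      obtain ⟨N₀, hN₀⟩ := hcon
      obtain ⟨N, -, hN⟩ := zorn_le_nonempty₀ {N : Subgroup G | Bad N}
        (fun c hc hch y hy => Main_chain c hc hch y hy) N₀ hN₀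
      have hNb : Bad N := hN.prop
      have hNn := hNb.1
      have hmax : ∀ N' : Subgroup G, N'.Normal → N ≤ N' → N ≠ N' →
          FGN N' ∧ ∃ n, derivedSeries G n ≤ N' := by
        intro N' hN' hle hne
        by_contra hcon
        exact hne (le_antisymm hle (hN.le_of_ge ⟨hN', hcon⟩ hle))
      let q : G →* G ⧸ N := QuotientGroup.mk' N
      have hq : Function.Surjective q := QuotientGroup.mk'_surjective N
      have hk : q.ker = N := QuotientGroup.ker_mk' N
      have hM : MaxN (G ⧸ N) := by
        intro A hA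
        by_cases hA0 : A = ⊥
        · rw [hA0]
          exact Main_bot
        · have h1 : A = (A.comap q).map q :=
            (Subgroup.map_comap_eq_self_of_surjective hq A).symm
          rw [h1]
          refine FGN.of_surj q hq (hmax _ (hA.comap q) ?_ ?_).1
          · exact hk.symm.le.trans (Subgroup.ker_le_comap q A)
          · intro h
            apply hA0
            rw [h1, Subgroup.map_eq_bot_iff]
            exact h.symm.le.trans hk.symm.le
      have hVΓ : SatisfiesLaws L (G ⧸ N) := laws_of_surj q hq hV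
      refine Main_step hL hG hV hW N hNb hmax (G ⧸ N) q hq hk hM ?_
      by_cases hH0 : H.map q = ⊥
      · -- the quotient is cyclic
        have hcyc : ∀ a : G ⧸ N, ∃ n : ℤ, a = (q x) ^ n := by
          intro a
          obtain ⟨g, rfl⟩ := hq a
          obtain ⟨n, h, hh, rfl⟩ := hx g
          refine ⟨n, ?_⟩
          have h1 : q h = 1 := by
            have h2 : q h ∈ H.map q := Subgroup.mem_map_of_mem q hh
            rw [hH0] at h2
            exact Subgroup.mem_bot.1 h2
          rw [map_mul, h1, mul_one, map_zpow]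
        refine ⟨⊤, inferInstance, ?_, ?_⟩
        · intro h
          apply hNb.2
          have h1 : N = ⊤ := by
            rw [← hk, eq_top_iff]
            intro g _
            rw [MonoidHom.mem_ker]
            have h2 : q g ∈ (⊤ : Subgroup (G ⧸ N)) := trivial
            rw [h] at h2
            exact Subgroup.mem_bot.1 h2
          rw [h1]
          exact ⟨Main_top hG, 0, le_top⟩
        · intro a _ b _
          obtain ⟨n, rfl⟩ := hcyc a
          obtain ⟨m, rfl⟩ := hcyc b
          exact (Commute.refl (q x)).zpow_zpow n m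
      · have hHn : (H.map q).Normal := hH.map q hq
        have hKsub : ∀ K : Subgroup G, K ≤ H → K.FG → EAs K ∧
            (Group.FG K → SatisfiesLaws L K → Group.IsSolvable K ∧ MaxN K) := fun K hKH hKf =>
          ⟨hK K K.subtype K.subtype_injective ((Group.fg_iff_subgroup_fg K).2 hKf)
              (fun k => hKH k.2),
            ih K K.subtype K.subtype_injective ((Group.fg_iff_subgroup_fg K).2 hKf)
              (fun k => hKH k.2)⟩
        have hTΓ : Tame L (Set.univ : Set (G ⧸ N)) := by
          have := tame_image q hT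
          rwa [Set.image_univ, Set.range_eq_univ.2 hq] at this
        have hTH : Tame L (H.map q : Set (G ⧸ N)) := by
          refine tame_normal hL hTΓ _ hHn (hM _ hHn) ?_
          intro B hB hBf
          obtain ⟨K, hKH, hKf, rfl⟩ := Main_lift q H B hB hBf
          have h1 := tame_image (q.comp K.subtype)
            (tame_of_eas hL (hKsub K hKH hKf).1 ((Group.fg_iff_subgroup_fg K).2 hKf))
          rw [Set.image_univ] at h1
          have h2 : Set.range (q.comp K.subtype) = ((K.map q : Subgroup (G ⧸ N)) : Set _) := by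
            ext y
            simp only [Set.mem_range, MonoidHom.comp_apply, Subgroup.coe_subtype,
              Subgroup.coe_map, Set.mem_image, SetLike.mem_coe]
            constructor
            · rintro ⟨k, rfl⟩
              exact ⟨k, k.2, rfl⟩
            · rintro ⟨k, hk, rfl⟩
              exact ⟨⟨k, hk⟩, rfl⟩
          rwa [h2] at h1
        obtain ⟨A, hA1, hA2, -, hA4⟩ := exists_abelian hVΓ (hW.of_surj q hq) (H.map q) hHn hH0
          hTH (by
            intro B hB hBf
            obtain ⟨K, hKH, hKf, rfl⟩ := Main_lift q H B hB hBf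
            have h1 := ((hKsub K hKH hKf).2 ((Group.fg_iff_subgroup_fg K).2 hKf)
              (laws_of_inj K.subtype K.subtype_injective hV)).1
            exact Group.isSolvable_of_surjective (q.subgroupMap_surjective K))
        exact ⟨A, hA1, hA2, hA4⟩
    constructor
    · have h1 := key ⊥
      unfold Bad at h1
      push Not at h1
      have h2 := not_not.1 (fun hcon => key ⊥ ⟨inferInstance, hcon⟩)
      obtain ⟨-, n, hn⟩ := h2
      exact ⟨⟨n, le_bot_iff.1 hn⟩⟩
    · intro N hN
      exact (not_not.1 (fun hcon => key N ⟨hN, hcon⟩)).1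

end Pool.Agent.Helper83.SV
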