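import Pool.Agent.Helper83.SV.Main
import Pool.Agent.Helper83.SV.EAm
import Pool.Agent.Helper83.SV.AN2
import Pool.Agent.Helper83.SV.LF5

/-!
# The main theorem for elementary amenable groups
-/

namespace Pool.Agent.Helper83.SV

open Pool.Agent.Helper32.SmallVar Pool.Agent.Helper13.PV
open scoped commutatorElement

variable {L : Set (FreeGroup ℕ)}

/-- The non-abelian finite simple groups in the variety have order at most `n`. -/
def BddSimple (L : Set (FreeGroup ℕ)) (n : ℕ) : Prop :=
  ∀ (S : Type) [Group S], Finite S → SatisfiesLaws L S → IsSimpleGroup S →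
    (¬ ∀ a b : S, a * b = b * a) → Nat.card S ≤ n

/-- Soluble-by-finite groups. -/
def SolByFin (G : Type) [Group G] : Prop :=
  ∃ S : Subgroup G, S.Normal ∧ S.FiniteIndex ∧ Group.IsSolvable S

/-- The derived series of a subgroup. -/
def ds {G : Type} [Group G] (S : Subgroup G) : ℕ → Subgroup G
  | 0 => S
  | n + 1 => ⁅ds S n, ds S n⁆

/-- The quotient by `N` is soluble-by-finite. -/
def SFmod {G : Type} [Group G] (N : Subgroup G) : Prop :=
  ∃ S : Subgroup G, S.Normal ∧ S.FiniteIndex ∧ ∃ n, ds S n ≤ N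

theorem ds_map {G Γ : Type} [Group G] [Group Γ] (f : G →* Γ) (S : Subgroup G) (n : ℕ) :
    (ds S n).map f = ds (S.map f) n := by
  induction n with
  | zero => rfl
  | succ n ih =>
    show (⁅ds S n, ds S n⁆ : Subgroup G).map f = ⁅ds (S.map f) n, ds (S.map f) n⁆
    rw [Subgroup.map_commutator, ih]

theorem ds_derived {G : Type} [Group G] (S : Subgroup G) (n : ℕ) :
    (derivedSeries S n).map S.subtype = ds S n := by
  induction n with
  | zero =>
    rw [derivedSeries_zero, ← MonoidHom.range_eq_map, Subgroup.range_subtype]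
    rfl
  | succ n ih =>
    rw [derivedSeries_succ, Subgroup.map_commutator, ih]
    rfl

theorem solvable_iff_ds {G : Type} [Group G] (S : Subgroup G) :
    Group.IsSolvable S ↔ ∃ n, ds S n = ⊥ := by
  constructor
  · rintro ⟨n, hn⟩
    exact ⟨n, by rw [← ds_derived, hn, Subgroup.map_bot]⟩
  · rintro ⟨n, hn⟩
    refine ⟨⟨n, ?_⟩⟩
    rw [← ds_derived] at hn
    exact (Subgroup.map_eq_bot_iff_of_injective _ S.subtype_injective).1 hn

theorem ds_normal {G : Type} [Group G] (S : Subgroup G) (hS : S.Normal) (n : ℕ) :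
    (ds S n).Normal := by
  induction n with
  | zero => exact hS
  | succ n ih =>
    show (⁅ds S n, ds S n⁆ : Subgroup G).Normal
    infer_instance

theorem ds_mono {G : Type} [Group G] {S S' : Subgroup G} (h : S ≤ S') (n : ℕ) :
    ds S n ≤ ds S' n := by
  induction n with
  | zero => exact h
  | succ n ih => exact Subgroup.commutator_mono ih ih

theorem MainEA_chain {G : Type} [Group G] (P : Subgroup G → Prop) (c : Set (Subgroup G))
    (hc : ∀ N ∈ c, N.Normal ∧ ¬ (FGN N ∧ P N))
    (hch : IsChain (· ≤ ·) c) (y : Subgroup G) (hy : y ∈ c) :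
    ∃ ub, (ub.Normal ∧ ¬ (FGN ub ∧ P ub)) ∧ ∀ z ∈ c, z ≤ ub := by
  have hdir : DirectedOn (· ≤ ·) c := hch.directedOn
  have hmem : ∀ x, x ∈ sSup c ↔ ∃ N ∈ c, x ∈ N := fun x =>
    Subgroup.mem_sSup_of_directedOn ⟨y, hy⟩ hdir
  refine ⟨sSup c, ⟨⟨?_⟩, ?_⟩, fun z hz => le_sSup hz⟩
  · intro x hx g
    obtain ⟨N, hN, hxN⟩ := (hmem x).1 hx
    exact (hmem _).2 ⟨N, hN, (hc N hN).1.conj_mem x hxN g⟩
  · rintro ⟨⟨s, hs⟩, hP⟩
    have h1 : ∀ t : Finset G, (t : Set G) ⊆ ((sSup c : Subgroup G) : Set G) →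
        ∃ N ∈ c, (t : Set G) ⊆ N := by
      classical
      intro t
      induction t using Finset.induction_on with
      | empty => exact fun _ => ⟨y, hy, by simp⟩
      | insert a t _ ih =>
        intro ht
        rw [Finset.coe_insert, Set.insert_subset_iff] at ht
        obtain ⟨N, hN, htN⟩ := ih ht.2
        obtain ⟨N', hN', haN⟩ := (hmem a).1 ht.1
        obtain ⟨P, hP, h1, h2⟩ := hdir N hN N' hN'
        refine ⟨P, hP, ?_⟩
        rw [Finset.coe_insert, Set.insert_subset_iff]
        exact ⟨h2 haN, htN.trans h1⟩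
    obtain ⟨N, hN, hsN⟩ := h1 s (by
      rw [← hs]
      exact Subgroup.subset_normalClosure)
    have h2 : sSup c = N := by
      apply le_antisymm _ (le_sSup hN)
      rw [← hs]
      have := (hc N hN).1
      exact Subgroup.normalClosure_le_normal hsN
    exact (hc N hN).2 (h2 ▸ ⟨⟨s, hs⟩, hP⟩)

/-- The contradiction for a maximal bad normal subgroup with a suitable quotient. -/
theorem MainEA_step (hL : AllHopfian L) {G : Type} [Group G] (hG : Group.FG G)
    (hV : SatisfiesLaws L G) (hW : Win G) (N : Subgroup G)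
    (hN : N.Normal ∧ ¬ (FGN N ∧ SFmod N))
    (hmax : ∀ N' : Subgroup G, N'.Normal → N ≤ N' → N ≠ N' → FGN N' ∧ SFmod N')
    (Γ : Type) [Group Γ] (q : G →* Γ) (hq : Function.Surjective q) (hk : q.ker = N)
    (hM : MaxN Γ)
    (hA : ∃ A : Subgroup Γ, A.Normal ∧ A ≠ ⊥ ∧ ∀ a ∈ A, ∀ b ∈ A, a * b = b * a) : False := by
  classical
  obtain ⟨D, hD, hId⟩ := exists_id hL
  have hNn := hN.1
  -- subgroups above `N`
  have hup : ∀ A : Subgroup Γ, A.Normal → A ≠ ⊥ → FGN (A.comap q) ∧ SFmod (A.comap q) := by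
    intro A hA hA0
    apply hmax _ (hA.comap q)
    · rw [← hk]
      exact Subgroup.ker_le_comap q A
    · intro h
      apply hA0
      rw [← hk] at h
      have h1 : (A.comap q).map q = (q.ker).map q := by rw [← h]
      rw [Subgroup.map_comap_eq_self_of_surjective hq] at h1
      rw [h1]
      exact (Subgroup.map_eq_bot_iff _).2 le_rfl
  obtain ⟨A₀, hA₀n, hA₀0, hA₀c⟩ := hA
  obtain ⟨C, ⟨M, hMn, hM0, hMc, rfl⟩, hCmax⟩ := hM.exists_max
    {C : Subgroup Γ | ∃ M : Subgroup Γ, M.Normal ∧ M ≠ ⊥ ∧ (∀ a ∈ M, ∀ b ∈ M, a * b = b * a) ∧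
      Subgroup.centralizer (M : Set Γ) = C}
    (by
      rintro _ ⟨M, hM, _, _, rfl⟩
      infer_instance)
    ⟨_, A₀, hA₀n, hA₀0, hA₀c, rfl⟩
  set C := Subgroup.centralizer (M : Set Γ) with hC
  have hCn : C.Normal := by
    rw [hC]
    infer_instance
  have hMC : M ≤ C := by
    intro a ha
    rw [hC, Subgroup.mem_centralizer_iff]
    exact fun b hb => hMc b hb a ha
  have hC0 : C ≠ ⊥ := fun h => hM0 (le_bot_iff.1 (h ▸ hMC))
  have hstar : ∀ K : Subgroup Γ, K.Normal → ¬ K ≤ C →
      M ⊓ Subgroup.centralizer (K : Set Γ) = ⊥ := by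
    intro K hK hKC
    by_contra hne
    apply hKC
    have h1 : Subgroup.centralizer ((M ⊓ Subgroup.centralizer (K : Set Γ) : Subgroup Γ) :
        Set Γ) = C := by
      refine hCmax _ ⟨_, inferInstance, hne, ?_, rfl⟩ ?_
      · exact fun a ha b hb => hMc a ha.1 b hb.1
      · exact Subgroup.centralizer_le (fun x hx => hx.1)
    rw [← h1]
    intro k hk
    rw [Subgroup.mem_centralizer_iff]
    rintro b ⟨-, hb⟩
    exact ((Subgroup.mem_centralizer_iff.1 hb) k hk).symm
  let f : Γ →* Γ ⧸ C := QuotientGroup.mk' C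
  have hf : Function.Surjective f := QuotientGroup.mk'_surjective C
  have hfk : f.ker = C := QuotientGroup.ker_mk' C
  have hfq : Function.Surjective (f.comp q) := hf.comp hq
  have hF : Faith M f := ⟨hW.of_surj q hq, hM, hMn, hMc, hM0, hstar, hf, hfk⟩
  obtain ⟨hCf, SC, hSCn, hSCf, nC, hnC⟩ := hup C hCn hC0
  obtain ⟨hMf, SM, hSMn, hSMf, nM, hnM⟩ := hup M hMn hM0
  have hSn : (SC.map (f.comp q)).Normal := hSCn.map _ hfq
  have hSf : (SC.map (f.comp q)).FiniteIndex := by
    constructor
    intro h0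
    have h1 := Subgroup.index_map_dvd SC hfq
    rw [h0] at h1
    exact hSCf.index_ne_zero (Nat.eq_zero_of_zero_dvd h1)
  have hSs : Group.IsSolvable (SC.map (f.comp q)) := by
    rw [solvable_iff_ds]
    refine ⟨nC, ?_⟩
    rw [← ds_map, Subgroup.map_eq_bot_iff, ← MonoidHom.comap_ker, hfk]
    exact hnC
  have hfgΓ : Group.FG (Γ ⧸ C) := by
    have := hG
    exact Group.fg_of_surjective hfq
  have hch : Chain (⊥ : Subgroup (Γ ⧸ C)) ⊤ :=
    core hD M f (hId Γ (laws_of_surj q hq hV)) hF hfgΓ (SC.map (f.comp q)) hSn hSf hSs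
  have hch' := Chain.comap' (f.comp q) hfq hch
  rw [Subgroup.comap_top, ← MonoidHom.comap_ker, hfk] at hch'
  -- the commutator subgroup
  have hW' : (⁅M.comap q, C.comap q⁆ : Subgroup G) ≤ N := by
    rw [Subgroup.commutator_le]
    intro a ha b hb
    rw [← hk, MonoidHom.mem_ker, map_commutatorElement, commutatorElement_eq_one_iff_mul_comm]
    exact (Subgroup.mem_centralizer_iff.1 hb) _ ha
  have hAA : (⁅M.comap q, M.comap q⁆ : Subgroup G) ≤ ⁅M.comap q, C.comap q⁆ :=
    Subgroup.commutator_mono le_rfl (Subgroup.comap_mono hMC)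
  have hMqn : (M.comap q).Normal := hMn.comap q
  have hCqn : (C.comap q).Normal := hCn.comap q
  have hNM : N ≤ M.comap q := by
    rw [← hk]
    exact Subgroup.ker_le_comap q M
  have hfin : FGN N := fgn_rel (M.comap q) ⁅M.comap q, C.comap q⁆ (C.comap q) N hMqn
    inferInstance hCqn hNn hW' hNM hAA le_rfl hMf (hW.commutator hMf hCf) hch'
  exact hN.2 ⟨hfin, SM, hSMn, hSMf, nM + 1,
    (Subgroup.commutator_mono hnM hnM).trans (hAA.trans hW')⟩

/-- Existence of an abelian normal subgroup: the case where `H` has windows only for trivial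
reasons. -/
theorem MainEA_abelian {Γ : Type} [Group Γ] (hV : SatisfiesLaws L Γ) (hfg : Group.FG Γ)
    (hW : Win Γ) (n : ℕ) (hbs : BddSimple L n) (hinf : ¬ Finite Γ) (H : Subgroup Γ)
    (hH : H.Normal) (x : Γ) (hx : ∀ g : Γ, ∃ n : ℤ, ∃ h ∈ H, g = x ^ n * h)
    (hT : Tame L (H : Set Γ)) (hB : ∀ B : Subgroup Γ, B ≤ H → B.FG → SolByFin B) :
    ∃ A : Subgroup Γ, A.Normal ∧ A ≠ ⊥ ∧ ∀ a ∈ A, ∀ b ∈ A, a * b = b * a := by
  classical
  by_cases hna' : ∃ u ∈ H, u ≠ 1 ∧ ∀ t ∈ H, ⁅u, t * u * t⁻¹⁆ = 1
  · obtain ⟨u, huH, hu1, hu⟩ := hna'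
    obtain ⟨A, h1, h2, -, h4⟩ := abelian_of_elt hW H hH huH hu1 hu
    exact ⟨A, h1, h2, h4⟩
  have hna : ∀ u ∈ H, (∀ t ∈ H, ⁅u, t * u * t⁻¹⁆ = 1) → u = 1 := by
    intro u huH hu
    by_contra hu1
    exact hna' ⟨u, huH, hu1, hu⟩
  obtain ⟨E₂, hE₂H, hE₂⟩ := hT (Fin 1) AN_w
  have hlf : ∀ B : Subgroup Γ, B ≤ H → B.FG → Finite B := by
    intro B hBH hBf
    obtain ⟨s, hs⟩ := hBf
    set B₂ := Subgroup.closure ((s ∪ E₂ : Finset Γ) : Set Γ) with hB₂
    have hBB : B ≤ B₂ := by
      rw [← hs, hB₂]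
      exact Subgroup.closure_mono (by simp)
    have hB₂H : B₂ ≤ H := by
      rw [hB₂, Subgroup.closure_le, Finset.coe_union, Set.union_subset_iff]
      exact ⟨fun y hy => hBH (by rw [← hs]; exact Subgroup.subset_closure hy), hE₂H⟩
    obtain ⟨S, hSn, hSf, hSs⟩ := hB B₂ hB₂H ⟨_, rfl⟩
    have hS0 : S = ⊥ := by
      by_contra hne
      rw [solvable_iff_ds] at hSs
      have h0 := Nat.find_spec hSs
      have h1 : Nat.find hSs ≠ 0 := by
        intro h2
        rw [h2] at h0
        exact hne h0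
      obtain ⟨m, hm⟩ := Nat.exists_eq_succ_of_ne_zero h1
      have h3 : ds S m ≠ ⊥ := Nat.find_min hSs (by omega)
      obtain ⟨⟨u, hu⟩, hu0⟩ := Subgroup.ne_bot_iff_exists_ne_one.1 h3
      have hu1 : u ≠ 1 := fun h => hu0 (Subtype.ext h)
      rw [hm] at h0
      have hcomm : ∀ e : B₂, ⁅u, e * u * e⁻¹⁆ = 1 := by
        intro e
        have h4 : e * u * e⁻¹ ∈ ds S m := (ds_normal S hSn m).conj_mem u hu e
        have h5 : ⁅u, e * u * e⁻¹⁆ ∈ ds S (m + 1) := Subgroup.commutator_mem_commutator hu h4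
        rw [h0] at h5
        exact Subgroup.mem_bot.1 h5
      apply hu1
      apply Subtype.ext
      refine hna u.1 (hB₂H u.2) ?_
      intro t ht
      have h1 := hE₂ Γ hV (MonoidHom.id Γ) ![u.1] (fun e he => by
        have heS : e ∈ B₂ := Subgroup.subset_closure
          (Finset.mem_coe.2 (Finset.mem_union_right _ he))
        have h2 := congrArg Subtype.val (hcomm ⟨e, heS⟩)
        rw [MonoidHom.id_apply, AN_ev]
        exact h2) t ht
      rwa [MonoidHom.id_apply, AN_ev] at h1
    have hfin : Finite B₂ := by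
      rw [hS0] at hSf
      have h1 := hSf.index_ne_zero
      rw [Subgroup.index_bot] at h1
      exact Nat.finite_of_card_ne_zero h1
    exact Finite.of_injective (Subgroup.inclusion hBB) (Subgroup.inclusion_injective hBB)
  have hHfin : Finite H := by
    refine lf_finite hV hfg hW H hH x hx hT hlf hna n ?_
    intro S hSH hSf hSs hSc
    refine hbs S hSf (laws_of_inj S.subtype S.subtype_injective hV) hSs ?_
    intro hcc
    apply hSc
    intro a ha b hb
    exact congrArg Subtype.val (hcc ⟨a, ha⟩ ⟨b, hb⟩)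
  set C := Subgroup.centralizer (H : Set Γ) with hC
  have hCn : C.Normal := by
    rw [hC]
    infer_instance
  have hCH : ∀ u ∈ H, u ∈ C → u = 1 := by
    intro u huH huC
    refine hna u huH ?_
    intro t ht
    have h1 : t * u = u * t := Subgroup.mem_centralizer_iff.1 huC t ht
    rw [h1, mul_inv_cancel_right, commutatorElement_self]
  have hCf : C.FiniteIndex := by
    have h1 : (MulAut.conjNormal (H := H)).ker = C := by
      ext g
      rw [MonoidHom.mem_ker, hC, Subgroup.mem_centralizer_iff]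
      constructor
      · intro hg h hh
        have h2 := congrArg Subtype.val (DFunLike.congr_fun hg (⟨h, hh⟩ : H))
        rw [MulAut.conjNormal_apply] at h2
        have h3 : g * h * g⁻¹ = h := h2
        rw [mul_inv_eq_iff_eq_mul] at h3
        exact h3.symm
      · intro hg
        ext ⟨h, hh⟩
        rw [MulAut.conjNormal_apply]
        show g * h * g⁻¹ = h
        rw [← hg h hh, mul_inv_cancel_right]
    rw [← h1]
    have : Finite (MulAut H) := inferInstance
    exact Subgroup.finiteIndex_ker _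
  refine ⟨C, hCn, ?_, ?_⟩
  · intro h
    apply hinf
    have h1 := hCf.index_ne_zero
    rw [h, Subgroup.index_bot] at h1
    exact Nat.finite_of_card_ne_zero h1
  · intro a ha b hb
    rw [← commutatorElement_eq_one_iff_mul_comm]
    apply hCH
    · obtain ⟨i, h, hh, rfl⟩ := hx a
      obtain ⟨j, k, hk, rfl⟩ := hx b
      rw [← QuotientGroup.eq_one_iff, ← QuotientGroup.mk'_apply, map_commutatorElement,
        commutatorElement_eq_one_iff_mul_comm, map_mul, map_mul, map_zpow, map_zpow]
      have h1 : QuotientGroup.mk' H h = 1 := (QuotientGroup.eq_one_iff h).2 hh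
      have h2 : QuotientGroup.mk' H k = 1 := (QuotientGroup.eq_one_iff k).2 hk
      rw [h1, h2, mul_one, mul_one]
      exact (Commute.refl _).zpow_zpow i j
    · have h1 : ⁅a, b⁆ = a * (b * a⁻¹ * b⁻¹) := by
        rw [commutatorElement_def]
        group
      rw [h1]
      exact C.mul_mem ha (hCn.conj_mem _ (C.inv_mem ha) b)

theorem SolByFin.of_surj {G Q : Type} [Group G] [Group Q] (h : SolByFin G) (f : G →* Q)
    (hf : Function.Surjective f) : SolByFin Q := by
  obtain ⟨S, hSn, hSf, hSs⟩ := h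
  refine ⟨S.map f, hSn.map _ hf, ⟨?_⟩, ?_⟩
  · intro h0
    have h1 := Subgroup.index_map_dvd S hf
    rw [h0] at h1
    exact hSf.index_ne_zero (Nat.eq_zero_of_zero_dvd h1)
  · exact Group.isSolvable_of_surjective (f.subgroupMap_surjective S)

theorem main_eaf (hL : AllHopfian L) (n : ℕ) (hbs : BddSimple L n) {G : Type} [Group G]
    (hE : EAf G) : Group.FG G → SatisfiesLaws L G → SolByFin G ∧ MaxN G := by
  induction hE with
  | comm G h =>
    exact fun hG _ => ⟨⟨⊤, inferInstance, inferInstance, by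
      have := Group.isSolvable_of_comm h
      infer_instance⟩, maxN_of_comm hG h⟩
  | fin G H hH hf hK ih =>
    intro hG hV
    have hHfg : Group.FG H := Subgroup.fg_of_index_ne_zero H
    obtain ⟨⟨S, hSn, hSf, hSs⟩, hM⟩ := ih H H.subtype H.subtype_injective hHfg (fun k => k.2)
      hHfg (laws_of_inj H.subtype H.subtype_injective hV)
    refine ⟨?_, maxN_of_finite H hH hf hM⟩
    have hS' : (S.map H.subtype).FiniteIndex := by
      constructor
      rw [Subgroup.index_map_subtype]
      exact mul_ne_zero hSf.index_ne_zero hf.index_ne_zero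
    refine ⟨(S.map H.subtype).normalCore, inferInstance, inferInstance, ?_⟩
    have h1 : Group.IsSolvable (S.map H.subtype) :=
      Group.isSolvable_of_surjective (H.subtype.subgroupMap_surjective S)
    exact Group.isSolvable_of_isSolvable_injective
      (Subgroup.inclusion_injective (Subgroup.normalCore_le (S.map H.subtype)))
  | cyc G H hH x hx hK ih =>
    intro hG hV
    have hT : Tame L (Set.univ : Set G) := tame_of_eaf hL (EAf.cyc G H hH x hx hK) hG
    have hW : Win G := win_of_tame hV hT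
    have key : ∀ N : Subgroup G, ¬ (N.Normal ∧ ¬ (FGN N ∧ SFmod N)) := by
      by_contra hcon
      push Not at hcon
      obtain ⟨N₀, hN₀, hN₀'⟩ := hcon
      obtain ⟨N, -, hN⟩ := zorn_le_nonempty₀ {N : Subgroup G | N.Normal ∧ ¬ (FGN N ∧ SFmod N)}
        (fun c hc hch y hy => MainEA_chain SFmod c hc hch y hy) N₀
        ⟨hN₀, fun h => hN₀' h.1 h.2⟩
      have hNb : N.Normal ∧ ¬ (FGN N ∧ SFmod N) := hN.prop
      have hNn := hNb.1
      have hmax : ∀ N' : Subgroup G, N'.Normal → N ≤ N' → N ≠ N' → FGN N' ∧ SFmod N' := by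
        intro N' hN' hle hne
        by_contra hcon
        exact hne (le_antisymm hle (hN.le_of_ge ⟨hN', hcon⟩ hle))
      let q : G →* G ⧸ N := QuotientGroup.mk' N
      have hq : Function.Surjective q := QuotientGroup.mk'_surjective N
      have hk : q.ker = N := QuotientGroup.ker_mk' N
      have hM : MaxN (G ⧸ N) := by
        intro A hA
        by_cases hA0 : A = ⊥
        · rw [hA0]
          exact Main_bot
        · have h1 : A = (A.comap q).map q :=
            (Subgroup.map_comap_eq_self_of_surjective hq A).symm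
          rw [h1]
          refine FGN.of_surj q hq (hmax _ (hA.comap q) ?_ ?_).1
          · exact hk.symm.le.trans (Subgroup.ker_le_comap q A)
          · intro h
            apply hA0
            rw [h1, Subgroup.map_eq_bot_iff]
            exact h.symm.le.trans hk.symm.le
      have hVΓ : SatisfiesLaws L (G ⧸ N) := laws_of_surj q hq hV
      have hinf : ¬ Finite (G ⧸ N) := by
        intro hfin
        have hNf : N.FiniteIndex := Subgroup.finiteIndex_of_finite_quotient
        apply hNb.2
        have h1 : Group.FG N := Subgroup.fg_of_index_ne_zero N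
        rw [Group.fg_iff_subgroup_fg] at h1
        obtain ⟨s, hs⟩ := h1
        refine ⟨⟨s, le_antisymm ?_ ?_⟩, N, hNn, hNf, 0, le_rfl⟩
        · exact Subgroup.normalClosure_le_normal (by
            rw [← hs]
            exact Subgroup.subset_closure)
        · rw [← hs]
          exact Subgroup.closure_le_normalClosure
      refine MainEA_step hL hG hV hW N hNb hmax (G ⧸ N) q hq hk hM ?_
      have hHn : (H.map q).Normal := hH.map q hq
      have hKsub : ∀ K : Subgroup G, K ≤ H → K.FG → EAf K ∧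
          (Group.FG K → SatisfiesLaws L K → SolByFin K ∧ MaxN K) := fun K hKH hKf =>
        ⟨hK K K.subtype K.subtype_injective ((Group.fg_iff_subgroup_fg K).2 hKf)
            (fun k => hKH k.2),
          ih K K.subtype K.subtype_injective ((Group.fg_iff_subgroup_fg K).2 hKf)
            (fun k => hKH k.2)⟩
      have hTΓ : Tame L (Set.univ : Set (G ⧸ N)) := by
        have := tame_image q hT
        rwa [Set.image_univ, Set.range_eq_univ.2 hq] at this
      have hTH : Tame L (H.map q : Set (G ⧸ N)) := by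
        refine tame_normal hL hTΓ _ hHn (hM _ hHn) ?_
        intro B hB hBf
        obtain ⟨K, hKH, hKf, rfl⟩ := Main_lift q H B hB hBf
        have h1 := tame_image (q.comp K.subtype)
          (tame_of_eaf hL (hKsub K hKH hKf).1 ((Group.fg_iff_subgroup_fg K).2 hKf))
        rw [Set.image_univ] at h1
        have h2 : Set.range (q.comp K.subtype) = ((K.map q : Subgroup (G ⧸ N)) : Set _) := by
          ext y
          simp only [Set.mem_range, MonoidHom.comp_apply, Subgroup.coe_subtype,
            Subgroup.coe_map, Set.mem_image, SetLike.mem_coe]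
          constructor
          · rintro ⟨k, rfl⟩
            exact ⟨k, k.2, rfl⟩
          · rintro ⟨k, hk, rfl⟩
            exact ⟨⟨k, hk⟩, rfl⟩
        rwa [h2] at h1
      refine MainEA_abelian hVΓ (QuotientGroup.fg N) (hW.of_surj q hq) n hbs hinf (H.map q) hHn
        (q x) ?_ hTH ?_
      · intro g
        obtain ⟨g, rfl⟩ := hq g
        obtain ⟨n, h, hh, rfl⟩ := hx g
        exact ⟨n, q h, Subgroup.mem_map_of_mem q hh, by rw [map_mul, map_zpow]⟩
      · intro B hB hBf
        obtain ⟨K, hKH, hKf, rfl⟩ := Main_lift q H B hB hBf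
        have h1 := ((hKsub K hKH hKf).2 ((Group.fg_iff_subgroup_fg K).2 hKf)
          (laws_of_inj K.subtype K.subtype_injective hV)).1
        exact h1.of_surj (q.subgroupMap K) (q.subgroupMap_surjective K)
    constructor
    · obtain ⟨-, S, hSn, hSf, m, hm⟩ := not_not.1 (fun hcon => key ⊥ ⟨inferInstance, hcon⟩)
      exact ⟨S, hSn, hSf, (solvable_iff_ds S).2 ⟨m, le_bot_iff.1 hm⟩⟩
    · intro N hN
      exact (not_not.1 (fun hcon => key N ⟨hN, hcon⟩)).1

end Pool.Agent.Helper83.SV
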