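import Pool.Agent.Helper83.SV.Shift

/-!
# SV-2: tame sets, basic facts

* finite sets: `E = S`.
* cyclic subgroups: by `shift` with `c = φ x ^ i` and `x ^ (± 1)`: if `w` vanishes at `x ^ j` for
  `j = 1, …, M` then for all `j ≤ M` by downward induction, and similarly upwards (use `x⁻¹`);
  `E = {x ^ j : 1 ≤ j ≤ M}`.
* products: for the word `w (z, y' y'')` use tameness of `S` with the parameters `z, y''` and then
  of `S'` with the parameters `z, y'` (the words are over `Option (Option ι)`), `E = E₁ * E₂`.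
* images: compose `φ` with `f`.
-/

namespace Pool.Agent.Helper83.SV

open Pool.Agent.Helper32.SmallVar Pool.Agent.Helper13.PV
open scoped commutatorElement Pointwise

variable {L : Set (FreeGroup ℕ)}

private theorem Tame_map_ev {ι G H : Type} [Group G] [Group H] (φ : G →* H) (z : ι → G) (y : G)
    (w : FreeGroup (Option ι)) : φ (ev z y w) = ev (fun i => φ (z i)) (φ y) w := by
  have : φ.comp (ev z y) = ev (fun i => φ (z i)) (φ y) := by
    ext o
    cases o <;> simp [ev]
  rw [← this]; rfl

theorem tame_finite {G : Type} [Group G] {S : Set G} (hS : S.Finite) : Tame L S := by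
  intro ι _ w
  refine ⟨hS.toFinset, by simp, fun H _ _ φ z he s hs => he s ?_⟩
  rwa [Set.Finite.mem_toFinset]

theorem tame_zpowers (hL : AllHopfian L) {G : Type} [Group G] (x : G) :
    Tame L (Subgroup.zpowers x : Set G) := by
  classical
  intro ι _ w
  obtain ⟨M, hM⟩ := shift hL w
  refine ⟨(Finset.Icc 1 M).image fun j => x ^ j, ?_, ?_⟩
  · intro g hg
    rw [Finset.mem_coe, Finset.mem_image] at hg
    obtain ⟨j, _, rfl⟩ := hg
    exact Subgroup.pow_mem _ (Subgroup.mem_zpowers x) j
  · intro H _ hH φ z he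
    have h0 : ∀ j : ℕ, 1 ≤ j → j ≤ M → ev z (φ x ^ (j : ℤ)) w = 1 := by
      intro j h1 h2
      have h3 := he (x ^ j) (Finset.mem_image.mpr ⟨j, Finset.mem_Icc.mpr ⟨h1, h2⟩, rfl⟩)
      rwa [map_pow, ← zpow_natCast] at h3
    have hd : ∀ n : ℤ, (∀ j : ℕ, 1 ≤ j → j ≤ M → ev z (φ x ^ (n + (j : ℤ))) w = 1) →
        ev z (φ x ^ n) w = 1 := by
      intro n hn
      refine hM H hH z (φ x ^ n) (φ x) fun j h1 h2 => ?_
      have h3 := hn j h1 h2
      rwa [zpow_add, zpow_natCast] at h3
    have hu : ∀ n : ℤ, (∀ j : ℕ, 1 ≤ j → j ≤ M → ev z (φ x ^ (n - (j : ℤ))) w = 1) →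
        ev z (φ x ^ n) w = 1 := by
      intro n hn
      refine hM H hH z (φ x ^ n) (φ x)⁻¹ fun j h1 h2 => ?_
      have h3 := hn j h1 h2
      rwa [zpow_sub, zpow_natCast, ← inv_pow] at h3
    have hA : ∀ k : ℕ, ∀ j : ℕ, 1 ≤ j → j ≤ M → ev z (φ x ^ ((j : ℤ) - (k : ℤ))) w = 1 := by
      intro k
      induction k with
      | zero =>
        intro j h1 h2
        rw [Nat.cast_zero, sub_zero]
        exact h0 j h1 h2
      | succ k ih =>
        intro j h1 h2
        rcases Nat.lt_or_ge 1 j with h3 | h3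
        · have h4 := ih (j - 1) (by omega) (by omega)
          have h5 : ((j - 1 : ℕ) : ℤ) - (k : ℤ) = (j : ℤ) - ((k + 1 : ℕ) : ℤ) := by omega
          rwa [h5] at h4
        · refine hd _ fun i hi1 hi2 => ?_
          have h4 := ih i hi1 hi2
          have h5 : (j : ℤ) - ((k + 1 : ℕ) : ℤ) + (i : ℤ) = (i : ℤ) - (k : ℤ) := by omega
          rwa [h5]
    have hB : ∀ k : ℕ, ∀ j : ℕ, 1 ≤ j → j ≤ M → ev z (φ x ^ ((j : ℤ) + (k : ℤ))) w = 1 := by
      intro k
      induction k with
      | zero =>
        intro j h1 h2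
        rw [Nat.cast_zero, add_zero]
        exact h0 j h1 h2
      | succ k ih =>
        intro j h1 h2
        rcases Nat.lt_or_ge j M with h3 | h3
        · have h4 := ih (j + 1) (by omega) (by omega)
          have h5 : ((j + 1 : ℕ) : ℤ) + (k : ℤ) = (j : ℤ) + ((k + 1 : ℕ) : ℤ) := by omega
          rwa [h5] at h4
        · refine hu _ fun i hi1 hi2 => ?_
          have h4 := ih (M + 1 - i) (by omega) (by omega)
          have h5 : (j : ℤ) + ((k + 1 : ℕ) : ℤ) - (i : ℤ) = ((M + 1 - i : ℕ) : ℤ) + (k : ℤ) := by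
            omega
          rwa [h5]
    have hall : ∀ n : ℤ, ev z (φ x ^ n) w = 1 := by
      intro n
      rcases le_or_gt n 0 with hn | hn
      · refine hd n fun j h1 h2 => ?_
        have h3 := hA n.natAbs j h1 h2
        have h4 : (j : ℤ) - (n.natAbs : ℤ) = n + (j : ℤ) := by omega
        rwa [h4] at h3
      · rcases Nat.lt_or_ge M n.natAbs with h1 | h1
        · refine hu n fun j h2 h3 => ?_
          have h4 := hB (n.natAbs - (M + 1)) (M + 1 - j) (by omega) (by omega)
          have h5 : ((M + 1 - j : ℕ) : ℤ) + ((n.natAbs - (M + 1) : ℕ) : ℤ) = n - (j : ℤ) := by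
            omega
          rwa [h5] at h4
        · have h2 := h0 n.natAbs (by omega) h1
          have h3 : (n.natAbs : ℤ) = n := by omega
          rwa [h3] at h2
    intro s hs
    obtain ⟨n, rfl⟩ := Subgroup.mem_zpowers_iff.mp hs
    rw [map_zpow]
    exact hall n

theorem tame_mul {G : Type} [Group G] {S S' : Set G} (hS : Tame L S) (hS' : Tame L S') :
    Tame L (S * S') := by
  classical
  intro ι _ w
  let Z : ι → FreeGroup (Option (Option ι)) := fun i => FreeGroup.of (some (some i))
  let Y : FreeGroup (Option (Option ι)) := FreeGroup.of none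
  let C : FreeGroup (Option (Option ι)) := FreeGroup.of (some none)
  have key1 : ∀ (H : Type) [Group H] (z : ι → H) (c y : H),
      ev (fun o : Option ι => o.elim c z) y (ev Z (Y * C) w) = ev z (y * c) w := by
    intro H _ z c y
    rw [Tame_map_ev, map_mul]
    have h1 : ev (fun o : Option ι => o.elim c z) y Y = y := by simp [ev, Y]
    have h2 : ev (fun o : Option ι => o.elim c z) y C = c := by simp [ev, C]
    have h3 : (fun i => ev (fun o : Option ι => o.elim c z) y (Z i)) = z := by
      funext i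
      simp [ev, Z]
    rw [h1, h2, h3]
  have key2 : ∀ (H : Type) [Group H] (z : ι → H) (c y : H),
      ev (fun o : Option ι => o.elim c z) y (ev Z (C * Y) w) = ev z (c * y) w := by
    intro H _ z c y
    rw [Tame_map_ev, map_mul]
    have h1 : ev (fun o : Option ι => o.elim c z) y Y = y := by simp [ev, Y]
    have h2 : ev (fun o : Option ι => o.elim c z) y C = c := by simp [ev, C]
    have h3 : (fun i => ev (fun o : Option ι => o.elim c z) y (Z i)) = z := by
      funext i
      simp [ev, Z]
    rw [h1, h2, h3]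
  obtain ⟨E₁, hE₁, h₁⟩ := hS (Option ι) (ev Z (Y * C) w)
  obtain ⟨E₂, hE₂, h₂⟩ := hS' (Option ι) (ev Z (C * Y) w)
  refine ⟨E₁ * E₂, ?_, ?_⟩
  · rw [Finset.coe_mul]
    exact Set.mul_subset_mul hE₁ hE₂
  · intro H _ hH φ z he s hs
    obtain ⟨a, ha, b, hb, rfl⟩ := Set.mem_mul.mp hs
    have h3 : ∀ e ∈ E₁, ev z (φ e * φ b) w = 1 := by
      intro e he1
      have h4 := h₂ H hH φ (fun o : Option ι => o.elim (φ e) z) (fun e' he' => by
        rw [key2, ← map_mul]
        exact he _ (Finset.mul_mem_mul he1 he')) b hb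
      rwa [key2] at h4
    have h4 := h₁ H hH φ (fun o : Option ι => o.elim (φ b) z) (fun e he1 => by
      rw [key1]
      exact h3 e he1) a ha
    rw [key1] at h4
    rw [map_mul]
    exact h4

theorem tame_image {G G' : Type} [Group G] [Group G'] (f : G →* G') {S : Set G}
    (hS : Tame L S) : Tame L (f '' S) := by
  classical
  intro ι _ w
  obtain ⟨E, hE, h⟩ := hS ι w
  refine ⟨E.image f, ?_, ?_⟩
  · rw [Finset.coe_image]
    exact Set.image_mono hE
  · intro H _ hH φ z he s hs
    obtain ⟨a, ha, rfl⟩ := hs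
    exact h H hH (φ.comp f) z (fun e he1 => he (f e) (Finset.mem_image_of_mem f he1)) a ha

end Pool.Agent.Helper83.SV
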