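import Pool.Agent.Helper83.SV.WinB

/-!
# SV-7: unipotent actions are nilpotent

`uw_rel`: let `C` be maximal among the normal subgroups with `B ≤ C ≤ A` and `lc C K s ≤ B` for some
`s` (`MaxN.exists_max`). If `C ≠ A`, choose `a ∈ A`, `a ∉ C`. Let `K = normalClosure t`, `t` finite,
`E` the window; the finitely many elements `e k e⁻¹` (`k ∈ t`, `e ∈ E`) commute modulo `C` on `A`
and are unipotent, so one after the other one finds `a ∈ A`, `a ∉ C` with `⁅e k e⁻¹, a⁆ ∈ C` for all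
of them. By the window `⁅g k g⁻¹, a⁆ ∈ C` for all `g`, `k ∈ t`, so `⁅k, a⁆ ∈ C` for all `k ∈ K`. The
subgroup `C' = {a ∈ A : ∀ k ∈ K, ⁅k, a⁆ ∈ C}` is normal, bigger than `C` and
`lc C' K (s + 1) ≤ lc C K s ≤ B`.

`unip_le`: by `uw_rel` with `B = ⊥`, `lc M K s = ⊥`; the last nontrivial `lc M K i` is contained in
`M ⊓ centralizer K`, so by `hstar`, `K ≤ centralizer M`.
-/

namespace Pool.Agent.Helper83.SV

open scoped commutatorElement

theorem lc_normal {Γ : Type} [Group Γ] (A K : Subgroup Γ) (hA : A.Normal) (hK : K.Normal)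
    (n : ℕ) : (lc A K n).Normal := by
  induction n with
  | zero => exact hA
  | succ n ih =>
    have := ih
    have := hK
    exact Subgroup.commutator_normal (lc A K n) K

theorem lc_mono {Γ : Type} [Group Γ] {A A' K K' : Subgroup Γ} (hA : A ≤ A') (hK : K ≤ K')
    (n : ℕ) : lc A K n ≤ lc A' K' n := by
  induction n with
  | zero => exact hA
  | succ n ih => exact Subgroup.commutator_mono ih hK

theorem lc_anti {Γ : Type} [Group Γ] (A K : Subgroup Γ) (hA : A.Normal) (hK : K.Normal)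
    {m n : ℕ} (h : m ≤ n) : lc A K n ≤ lc A K m := by
  have h1 : Antitone (lc A K) := by
    refine antitone_nat_of_succ_le fun i => ?_
    have := lc_normal A K hA hK i
    exact Subgroup.commutator_le_left (lc A K i) K
  exact h1 h

theorem lc_add {Γ : Type} [Group Γ] (A K : Subgroup Γ) (m n : ℕ) :
    lc A K (m + n) = lc (lc A K m) K n := by
  induction n with
  | zero => rfl
  | succ n ih =>
    show ⁅lc A K (m + n), K⁆ = ⁅lc (lc A K m) K n, K⁆
    rw [ih]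

/-- if `y` commutes with `a` and `⁅y, x⁆` with the conjugate of `a` by `x`, then `y` commutes with
`⁅x, a⁆` -/
private theorem uw_comm {Q : Type} [Group Q] {x y a : Q} (h1 : Commute y a)
    (h2 : Commute ⁅y, x⁆ (x * a * x⁻¹)) : Commute y ⁅x, a⁆ := by
  have h3 : Commute y (x * a * x⁻¹) := by
    have e1 : y * (x * a * x⁻¹) * y⁻¹ = ⁅y, x⁆ * (x * (y * a * y⁻¹) * x⁻¹) * ⁅y, x⁆⁻¹ := by
      simp only [commutatorElement_def]
      group
    have e2 : y * a * y⁻¹ = a := by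
      rw [h1.eq, mul_inv_cancel_right]
    have e3 : ⁅y, x⁆ * (x * a * x⁻¹) * ⁅y, x⁆⁻¹ = x * a * x⁻¹ := by
      rw [h2.eq, mul_inv_cancel_right]
    rw [e2, e3] at e1
    exact mul_inv_eq_iff_eq_mul.1 e1
  have e : ⁅x, a⁆ = x * a * x⁻¹ * a⁻¹ := rfl
  rw [e]
  exact h3.mul_right h1.inv_right

private theorem uw_mem {Γ : Type} [Group Γ] (C : Subgroup Γ) [C.Normal] (x y : Γ) :
    ⁅x, y⁆ ∈ C ↔ Commute (x : Γ ⧸ C) (y : Γ ⧸ C) := by
  rw [← commutatorElement_eq_one_iff_commute]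
  have e : ⁅(x : Γ ⧸ C), (y : Γ ⧸ C)⁆ = ((⁅x, y⁆ : Γ) : Γ ⧸ C) := rfl
  rw [e, QuotientGroup.eq_one_iff]

private theorem ec_succ {Γ : Type} [Group Γ] (x : Γ) (n : ℕ) (y : Γ) :
    ec x (n + 1) y = ⁅x, ec x n y⁆ := by
  unfold ec
  rw [Function.iterate_succ_apply']

/-- the maximal element argument for finitely many elements of `K` -/
private theorem uw_fin {Γ : Type} [Group Γ] (A B C K : Subgroup Γ)
    (hAn : A.Normal) (hCn : C.Normal) (hBC : B ≤ C)
    (hK : ⁅⁅K, K⁆, A⁆ ≤ B) (hu : ∀ k ∈ K, ∃ n : ℕ, ∀ a ∈ A, ec k n a ∈ B)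
    (hex : ∃ a ∈ A, a ∉ C) (T : Finset Γ) (hT : ∀ x ∈ T, x ∈ K) :
    ∃ a ∈ A, a ∉ C ∧ ∀ x ∈ T, ⁅x, a⁆ ∈ C := by
  classical
  have := hCn
  induction T using Finset.induction_on with
  | empty =>
    obtain ⟨a, ha, hC⟩ := hex
    exact ⟨a, ha, hC, fun x hx => absurd hx (Finset.notMem_empty x)⟩
  | insert x T _ ih =>
    obtain ⟨a, ha, hC, hT'⟩ := ih fun y hy => hT y (Finset.mem_insert_of_mem hy)
    have hxK : x ∈ K := hT x (Finset.mem_insert_self x T)
    -- all iterates stay in `A` and commute with `T`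
    have hA : ∀ n, ec x n a ∈ A ∧ ∀ y ∈ T, ⁅y, ec x n a⁆ ∈ C := by
      intro n
      induction n with
      | zero => exact ⟨ha, hT'⟩
      | succ n ihn =>
        rw [ec_succ]
        obtain ⟨h1, h2⟩ := ihn
        have hconj : x * ec x n a * x⁻¹ ∈ A := hAn.conj_mem _ h1 x
        refine ⟨A.mul_mem hconj (A.inv_mem h1), fun y hy => ?_⟩
        have hyK : y ∈ K := hT y (Finset.mem_insert_of_mem hy)
        rw [uw_mem]
        have h3 : Commute (y : Γ ⧸ C) ((ec x n a : Γ) : Γ ⧸ C) := (uw_mem C _ _).1 (h2 y hy)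
        have h4 : ⁅⁅y, x⁆, x * ec x n a * x⁻¹⁆ ∈ C :=
          hBC (hK (Subgroup.commutator_mem_commutator
            (Subgroup.commutator_mem_commutator hyK hxK) hconj))
        have h5 : Commute ⁅(y : Γ ⧸ C), (x : Γ ⧸ C)⁆
            ((x : Γ ⧸ C) * ((ec x n a : Γ) : Γ ⧸ C) * (x : Γ ⧸ C)⁻¹) := (uw_mem C _ _).1 h4
        exact uw_comm h3 h5
    obtain ⟨n, hn⟩ := hu x hxK
    have hP : ∃ n, ec x n a ∈ C := ⟨n, hBC (hn a ha)⟩
    have hmin := Nat.find_spec hP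
    have hlt : ∀ m < Nat.find hP, ec x m a ∉ C := fun m hm => Nat.find_min hP hm
    obtain ⟨m, hm⟩ : ∃ m, Nat.find hP = m + 1 := by
      cases hf : Nat.find hP with
      | zero =>
        rw [hf] at hmin
        exact absurd hmin hC
      | succ m => exact ⟨m, rfl⟩
    rw [hm] at hmin
    refine ⟨ec x m a, (hA m).1, hlt m (by omega), fun y hy => ?_⟩
    rcases Finset.mem_insert.1 hy with rfl | hy'
    · rw [← ec_succ]
      exact hmin
    · exact (hA m).2 y hy'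

theorem uw_rel {Γ : Type} [Group Γ] (hW : Win Γ) (hM : MaxN Γ) (A B K : Subgroup Γ)
    (hAn : A.Normal) (hBn : B.Normal) (hKn : K.Normal) (hBA : B ≤ A)
    (hK : ⁅⁅K, K⁆, A⁆ ≤ B) (hu : ∀ k ∈ K, ∃ n : ℕ, ∀ a ∈ A, ec k n a ∈ B) :
    ∃ s : ℕ, lc A K s ≤ B := by
  classical
  obtain ⟨C, ⟨hCn, hBC, hCA, s, hs⟩, hmax⟩ := MaxN.exists_max hM
    {C : Subgroup Γ | C.Normal ∧ B ≤ C ∧ C ≤ A ∧ ∃ s : ℕ, lc C K s ≤ B}
    (fun N hN => hN.1) ⟨B, hBn, le_refl B, hBA, 0, le_refl B⟩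
  by_cases hCA' : A ≤ C
  · exact ⟨s, (lc_mono hCA' (le_refl K) s).trans hs⟩
  exfalso
  have hex : ∃ a ∈ A, a ∉ C := by
    by_contra hno
    push Not at hno
    exact hCA' hno
  obtain ⟨t, ht⟩ := hM K hKn
  obtain ⟨E, hE⟩ := hW
  have htK : ∀ k ∈ t, k ∈ K := fun k hk => by
    rw [← ht]
    exact Subgroup.subset_normalClosure hk
  obtain ⟨a, haA, haC, haT⟩ := uw_fin A B C K hAn hCn hBC hK hu hex
    (Finset.image (fun p : Γ × Γ => p.1 * p.2 * p.1⁻¹) (E ×ˢ t)) (by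
      intro x hx
      obtain ⟨p, hp, rfl⟩ := Finset.mem_image.1 hx
      exact hKn.conj_mem _ (htK _ (Finset.mem_product.1 hp).2) _)
  have := hCn
  have := hAn
  have := hKn
  have hkt : ∀ k ∈ t, ∀ g : Γ, ⁅a, g * k * g⁻¹⁆ ∈ C := by
    intro k hk
    refine hE C hCn a k fun e he => ?_
    have h1 := haT (e * k * e⁻¹) (Finset.mem_image.2 ⟨(e, k), Finset.mem_product.2 ⟨he, hk⟩, rfl⟩)
    rw [uw_mem] at h1 ⊢
    exact h1.symm
  let C' : Subgroup Γ := A ⊓ (Subgroup.centralizer ((K.map (QuotientGroup.mk' C) :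
    Subgroup (Γ ⧸ C)) : Set (Γ ⧸ C))).comap (QuotientGroup.mk' C)
  have hmem : ∀ b : Γ, b ∈ C' ↔ b ∈ A ∧ ∀ k ∈ K, ⁅k, b⁆ ∈ C := by
    intro b
    constructor
    · rintro ⟨h1, h2⟩
      refine ⟨h1, fun k hk => ?_⟩
      rw [uw_mem]
      exact Subgroup.mem_centralizer_iff.1 h2 _ ⟨k, hk, rfl⟩
    · rintro ⟨h1, h2⟩
      refine ⟨h1, ?_⟩
      refine Subgroup.mem_comap.2 (Subgroup.mem_centralizer_iff.2 ?_)
      rintro _ ⟨k, hk, rfl⟩
      exact (uw_mem C _ _).1 (h2 k hk)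
  have hC'n : C'.Normal := by
    have : (K.map (QuotientGroup.mk' C)).Normal :=
      hKn.map _ (QuotientGroup.mk'_surjective C)
    infer_instance
  have haC' : a ∈ C' := by
    rw [hmem]
    refine ⟨haA, fun k hk => ?_⟩
    rw [← ht] at hk
    have hle : Subgroup.normalClosure (t : Set Γ) ≤
        (Subgroup.centralizer ({(a : Γ ⧸ C)} : Set (Γ ⧸ C))).comap (QuotientGroup.mk' C) := by
      unfold Subgroup.normalClosure
      rw [Subgroup.closure_le]
      intro x hx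
      obtain ⟨k, hk, hkx⟩ := Group.mem_conjugatesOfSet_iff.1 hx
      obtain ⟨g, rfl⟩ := isConj_iff.1 hkx
      refine Subgroup.mem_comap.2 (Subgroup.mem_centralizer_iff.2 ?_)
      intro h hh
      rw [Set.mem_singleton_iff.1 hh]
      exact (uw_mem C _ _).1 (hkt k hk g)
    have h1 := Subgroup.mem_centralizer_iff.1 (hle hk) (a : Γ ⧸ C) rfl
    rw [uw_mem]
    exact h1.symm
  have hCC' : C ≤ C' := by
    intro c hc
    rw [hmem]
    refine ⟨hCA hc, fun k _ => ?_⟩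
    rw [uw_mem]
    have e : (c : Γ ⧸ C) = 1 := (QuotientGroup.eq_one_iff c).2 hc
    rw [e]
    exact Commute.one_right _
  have h1 : lc C' K 1 ≤ C := by
    show ⁅C', K⁆ ≤ C
    rw [Subgroup.commutator_le]
    intro b hb k hk
    have := ((hmem b).1 hb).2 k hk
    rw [uw_mem] at this ⊢
    exact this.symm
  have h2 : lc C' K (1 + s) ≤ B := by
    rw [lc_add]
    exact (lc_mono h1 (le_refl K) s).trans hs
  have h3 := hmax C' ⟨hC'n, hBC.trans hCC', inf_le_left, 1 + s, h2⟩ hCC'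
  rw [h3] at haC'
  exact haC haC'

theorem unip_le {Γ : Type} [Group Γ] (hW : Win Γ) (hM : MaxN Γ) (M : Subgroup Γ)
    (hMn : M.Normal) (hM0 : M ≠ ⊥)
    (hstar : ∀ K : Subgroup Γ, K.Normal → ¬ K ≤ Subgroup.centralizer (M : Set Γ) →
      M ⊓ Subgroup.centralizer (K : Set Γ) = ⊥)
    (K : Subgroup Γ) (hKn : K.Normal) (hK : ⁅⁅K, K⁆, M⁆ = ⊥)
    (hu : ∀ k ∈ K, ∃ n : ℕ, ∀ a ∈ M, ec k n a = 1) :
    K ≤ Subgroup.centralizer (M : Set Γ) := by
  by_contra hno
  have h1 := hstar K hKn hno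
  obtain ⟨s, hs⟩ := uw_rel hW hM M ⊥ K hMn inferInstance hKn bot_le (le_of_eq hK)
    (fun k hk => by
      obtain ⟨n, hn⟩ := hu k hk
      exact ⟨n, fun a ha => Subgroup.mem_bot.2 (hn a ha)⟩)
  have h2 : ∀ n, lc M K n = ⊥ → M = ⊥ := by
    intro n
    induction n with
    | zero => exact id
    | succ n ih =>
      intro h
      apply ih
      rw [eq_bot_iff, ← h1]
      refine le_inf ?_ ?_
      · exact lc_anti M K hMn hKn (Nat.zero_le n)
      · exact Subgroup.commutator_eq_bot_iff_le_centralizer.1 h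
  exact hM0 (h2 s (le_bot_iff.1 hs))

end Pool.Agent.Helper83.SV
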