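import Pool.Agent.Helper83.SV.Defs

/-!
# SV-6: windows

`win_of_tame`: tameness of `univ` for the word `[z₀, y z₁ y⁻¹]`, applied to `Γ → Γ ⧸ N`
(`laws_of_surj`).
`Win.commutator`: `A = normalClosure s`, `B = normalClosure t`: `⁅A, B⁆` is the normal closure of
the finite set of all `[a, e b e⁻¹]`, `a ∈ s`, `b ∈ t`, `e ∈ E`.
-/

namespace Pool.Agent.Helper83.SV

open Pool.Agent.Helper32.SmallVar Pool.Agent.Helper13.PV
open scoped commutatorElement

variable {L : Set (FreeGroup ℕ)}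

theorem WinB_lift {ι Γ Q : Type} [Group Γ] [Group Q] (f : Γ →* Q) (z : ι → Γ)
    (w : FreeGroup ι) : FreeGroup.lift (fun i => f (z i)) w = f (FreeGroup.lift z w) := by
  have h : FreeGroup.lift (fun i => f (z i)) = f.comp (FreeGroup.lift z) := by
    ext i
    simp
  rw [h]
  rfl

def WinB_w : FreeGroup (Option (Fin 2)) :=
  ⁅(FreeGroup.of (some 0) : FreeGroup (Option (Fin 2))),
    (FreeGroup.of none : FreeGroup (Option (Fin 2))) * FreeGroup.of (some 1) *
      (FreeGroup.of none)⁻¹⁆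

theorem WinB_ev {H : Type} [Group H] (u b y : H) :
    ev ![u, b] y WinB_w = ⁅u, y * b * y⁻¹⁆ := by
  unfold WinB_w
  rw [map_commutatorElement]
  simp [ev]

theorem win_of_tame {Γ : Type} [Group Γ] (hΓ : SatisfiesLaws L Γ)
    (h : Tame L (Set.univ : Set Γ)) : Win Γ := by
  obtain ⟨E, _, hE⟩ := h (Fin 2) WinB_w
  refine ⟨E, ?_⟩
  intro N hN u b hu g
  have h1 : SatisfiesLaws L (Γ ⧸ N) :=
    laws_of_surj (QuotientGroup.mk' N) (QuotientGroup.mk'_surjective N) hΓ
  have hev : ∀ y : Γ, ev ![(QuotientGroup.mk' N) u, (QuotientGroup.mk' N) b]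
      ((QuotientGroup.mk' N) y) WinB_w = (QuotientGroup.mk' N) ⁅u, y * b * y⁻¹⁆ := by
    intro y
    rw [WinB_ev, map_commutatorElement]
    simp
  have h2 := hE (Γ ⧸ N) h1 (QuotientGroup.mk' N)
    ![(QuotientGroup.mk' N) u, (QuotientGroup.mk' N) b] (fun e he => by
      rw [hev]
      exact (QuotientGroup.eq_one_iff _).2 (hu e he)) g (Set.mem_univ g)
  rw [hev] at h2
  exact (QuotientGroup.eq_one_iff _).1 h2

theorem Win.of_surj {Γ Q : Type} [Group Γ] [Group Q] (h : Win Γ) (f : Γ →* Q)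
    (hf : Function.Surjective f) : Win Q := by
  classical
  obtain ⟨E, hE⟩ := h
  refine ⟨E.image f, ?_⟩
  intro N hN u b hu g
  obtain ⟨u, rfl⟩ := hf u
  obtain ⟨b, rfl⟩ := hf b
  obtain ⟨g, rfl⟩ := hf g
  have h1 := hE (N.comap f) (hN.comap f) u b (fun e he => by
    rw [Subgroup.mem_comap, map_commutatorElement]
    simpa using hu (f e) (Finset.mem_image_of_mem f he)) g
  rw [Subgroup.mem_comap, map_commutatorElement] at h1
  simpa using h1

theorem HasId.of_surj {D : List Tm} {Γ Q : Type} [Group Γ] [Group Q] (h : HasId D Γ)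
    (f : Γ →* Q) (hf : Function.Surjective f) : HasId D Q := by
  intro b x u
  obtain ⟨b, rfl⟩ := hf b
  obtain ⟨x, rfl⟩ := hf x
  obtain ⟨u, rfl⟩ := hf u
  have hz : (![f b, f x, f u] : Fin 3 → Q) = fun i => f ((![b, x, u] : Fin 3 → Γ) i) := by
    ext i
    fin_cases i <;> rfl
  have h1 : ∀ t : Tm, tv (f b) (f x) (f u) t = f (tv b x u t) := by
    intro t
    unfold tv
    rw [hz, WinB_lift]
    split_ifs <;> simp [map_commutatorElement]
  have h2 : D.map (tv (f b) (f x) (f u)) = (D.map (tv b x u)).map f := by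
    rw [List.map_map]
    exact List.map_congr_left (fun t _ => h1 t)
  rw [h2, ← map_list_prod, ← h b x u, map_commutatorElement]

theorem FGN.of_surj {Γ Q : Type} [Group Γ] [Group Q] (f : Γ →* Q)
    (hf : Function.Surjective f) {N : Subgroup Γ} (h : FGN N) : FGN (N.map f) := by
  classical
  obtain ⟨s, rfl⟩ := h
  refine ⟨s.image f, ?_⟩
  rw [Subgroup.map_normalClosure _ f hf, Finset.coe_image]

theorem MaxN.of_surj {Γ Q : Type} [Group Γ] [Group Q] (h : MaxN Γ) (f : Γ →* Q)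
    (hf : Function.Surjective f) : MaxN Q := by
  intro N hN
  have h1 := (h (N.comap f) (hN.comap f)).of_surj f hf
  rwa [Subgroup.map_comap_eq_self_of_surjective hf] at h1

theorem WinB_comm {Γ : Type} [Group Γ] (N : Subgroup Γ) [N.Normal] (a b : Γ) :
    ⁅a, b⁆ ∈ N ↔ (QuotientGroup.mk' N) b * (QuotientGroup.mk' N) a =
      (QuotientGroup.mk' N) a * (QuotientGroup.mk' N) b := by
  rw [← QuotientGroup.eq_one_iff (N := N)]
  have h : ((⁅a, b⁆ : Γ) : Γ ⧸ N) = ⁅(QuotientGroup.mk' N) a, (QuotientGroup.mk' N) b⁆ :=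
    map_commutatorElement (QuotientGroup.mk' N) a b
  rw [h, commutatorElement_eq_one_iff_mul_comm]
  exact eq_comm

theorem Win.commutator {Γ : Type} [Group Γ] (h : Win Γ) {A B : Subgroup Γ} (hA : FGN A)
    (hB : FGN B) : FGN ⁅A, B⁆ := by
  classical
  obtain ⟨E, hE⟩ := h
  obtain ⟨s, rfl⟩ := hA
  obtain ⟨t, rfl⟩ := hB
  refine ⟨((s ×ˢ t) ×ˢ E).image (fun q => ⁅q.1.1, q.2 * q.1.2 * q.2⁻¹⁆), ?_⟩
  set R : Finset Γ := ((s ×ˢ t) ×ˢ E).image (fun q => ⁅q.1.1, q.2 * q.1.2 * q.2⁻¹⁆) with hR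
  apply le_antisymm
  · apply Subgroup.normalClosure_le_normal
    intro x hx
    rw [hR, Finset.mem_coe, Finset.mem_image] at hx
    obtain ⟨⟨⟨a, b⟩, e⟩, hq, rfl⟩ := hx
    rw [Finset.mem_product, Finset.mem_product] at hq
    exact Subgroup.commutator_mem_commutator (Subgroup.subset_normalClosure hq.1.1)
      (Subgroup.normalClosure_normal.conj_mem _ (Subgroup.subset_normalClosure hq.1.2) e)
  · set N : Subgroup Γ := Subgroup.normalClosure (R : Set Γ) with hN
    have h1 : ∀ a ∈ s, ∀ b ∈ t, ∀ g : Γ, ⁅a, g * b * g⁻¹⁆ ∈ N := by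
      intro a ha b hb g
      apply hE N Subgroup.normalClosure_normal a b _ g
      intro e he
      apply Subgroup.subset_normalClosure
      rw [hR, Finset.mem_coe, Finset.mem_image]
      exact ⟨((a, b), e), by simp [ha, hb, he], rfl⟩
    have h2 : ∀ a ∈ s, ∀ b ∈ t, ∀ g k : Γ, ⁅k * a * k⁻¹, g * b * g⁻¹⁆ ∈ N := by
      intro a ha b hb g k
      have h3 := (Subgroup.normalClosure_normal (s := (R : Set Γ))).conj_mem _
        (h1 a ha b hb (k⁻¹ * g)) k
      have h4 : k * ⁅a, k⁻¹ * g * b * (k⁻¹ * g)⁻¹⁆ * k⁻¹ = ⁅k * a * k⁻¹, g * b * g⁻¹⁆ := by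
        simp only [commutatorElement_def]
        group
      rwa [h4] at h3
    -- first variable
    have h5 : ∀ b ∈ t, ∀ g : Γ, ∀ a ∈ Subgroup.normalClosure (s : Set Γ),
        ⁅a, g * b * g⁻¹⁆ ∈ N := by
      intro b hb g a ha
      have h6 : Subgroup.normalClosure (s : Set Γ) ≤
          (Subgroup.centralizer {(QuotientGroup.mk' N) (g * b * g⁻¹)}).comap
            (QuotientGroup.mk' N) := by
        unfold Subgroup.normalClosure
        rw [Subgroup.closure_le]
        intro x hx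
        obtain ⟨a', ha', hc⟩ := Group.mem_conjugatesOfSet_iff.1 hx
        obtain ⟨k, rfl⟩ := isConj_iff.1 hc
        rw [SetLike.mem_coe, Subgroup.mem_comap, Subgroup.mem_centralizer_iff]
        rintro y rfl
        exact (WinB_comm N _ _).1 (h2 a' ha' b hb g k)
      have h7 := h6 ha
      rw [Subgroup.mem_comap, Subgroup.mem_centralizer_iff] at h7
      exact (WinB_comm N _ _).2 (h7 _ rfl)
    rw [Subgroup.commutator_le]
    intro a ha b hb
    have h8 : Subgroup.normalClosure (t : Set Γ) ≤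
        (Subgroup.centralizer {(QuotientGroup.mk' N) a}).comap (QuotientGroup.mk' N) := by
      unfold Subgroup.normalClosure
      rw [Subgroup.closure_le]
      intro x hx
      obtain ⟨b', hb', hc⟩ := Group.mem_conjugatesOfSet_iff.1 hx
      obtain ⟨k, rfl⟩ := isConj_iff.1 hc
      rw [SetLike.mem_coe, Subgroup.mem_comap, Subgroup.mem_centralizer_iff]
      rintro y rfl
      exact ((WinB_comm N _ _).1 (h5 b' hb' k a ha)).symm
    have h9 := h8 hb
    rw [Subgroup.mem_comap, Subgroup.mem_centralizer_iff] at h9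
    exact (WinB_comm N _ _).2 (h9 _ rfl).symm

theorem WinB_finset {Γ : Type} [Group Γ] {c : Set (Subgroup Γ)}
    (hc : IsChain (· ≤ ·) c) {y : Subgroup Γ} (hy : y ∈ c) (s : Finset Γ)
    (hs : ∀ a ∈ s, ∃ K ∈ c, a ∈ K) : ∃ K ∈ c, ∀ a ∈ s, a ∈ K := by
  classical
  induction s using Finset.induction_on with
  | empty => exact ⟨y, hy, by simp⟩
  | insert a s _ ih =>
    obtain ⟨K, hK, hK'⟩ := ih (fun x hx => hs x (Finset.mem_insert_of_mem hx))
    obtain ⟨K2, hK2, ha⟩ := hs a (Finset.mem_insert_self _ _)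
    rcases hc.total hK hK2 with hle | hle
    · refine ⟨K2, hK2, ?_⟩
      intro x hx
      rcases Finset.mem_insert.1 hx with rfl | hx
      · exact ha
      · exact hle (hK' x hx)
    · refine ⟨K, hK, ?_⟩
      intro x hx
      rcases Finset.mem_insert.1 hx with rfl | hx
      · exact hle ha
      · exact hK' x hx

/-- Every nonempty set of normal subgroups has a maximal element. -/
theorem MaxN.exists_max {Γ : Type} [Group Γ] (h : MaxN Γ) (𝒮 : Set (Subgroup Γ))
    (hn : ∀ N ∈ 𝒮, N.Normal) (hne : 𝒮.Nonempty) :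
    ∃ N ∈ 𝒮, ∀ N' ∈ 𝒮, N ≤ N' → N' = N := by
  obtain ⟨N0, hN0⟩ := hne
  obtain ⟨M, _, hM⟩ := zorn_le_nonempty₀ 𝒮 (by
    intro c hcS hc y hy
    have hdir : DirectedOn (· ≤ ·) c := hc.directedOn
    have hmem : ∀ x : Γ, x ∈ sSup c ↔ ∃ K ∈ c, x ∈ K := fun x =>
      Subgroup.mem_sSup_of_directedOn ⟨y, hy⟩ hdir
    have hnorm : (sSup c).Normal := by
      refine ⟨fun x hx g => ?_⟩
      obtain ⟨K, hK, hxK⟩ := (hmem x).1 hx
      exact (hmem _).2 ⟨K, hK, (hn K (hcS hK)).conj_mem x hxK g⟩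
    obtain ⟨s, hs⟩ := h (sSup c) hnorm
    obtain ⟨K, hK, hsK⟩ := WinB_finset hc hy s (fun a ha => by
      rw [← hmem, ← hs]
      exact Subgroup.subset_normalClosure ha)
    refine ⟨K, hcS hK, ?_⟩
    have hKn : K.Normal := hn K (hcS hK)
    have hle : sSup c ≤ K := by
      rw [← hs]
      exact Subgroup.normalClosure_le_normal (fun a ha => hsK a ha)
    intro z hz
    exact (le_sSup hz).trans hle) N0 hN0
  exact ⟨M, hM.prop, fun N' hN' hle => le_antisymm (hM.le_of_ge hN' hle) hle⟩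

end Pool.Agent.Helper83.SV
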