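import Pool.Agent.Helper83.SV.Defs

/-!
# SV-8: words in `b` and `x` with `b` in an abelian normal subgroup

`word_normal`: `FreeGroup.induction_on`; the word `b` gives `(single 0 1, 0)`, the word `x` gives
`(0, 1)`, the word `u` gives `(0, 0)`; a product `(P, a) (Q, b)` gives
`(P + shift of Q by a, a + b)`, and the inverse of `(P, a)` is `(- shift of P by -a, - a)`; the
shift is `Finsupp.mapDomain (· + a)` or `Finsupp.embDomain`.
-/

namespace Pool.Agent.Helper83.SV

/-- `∏_i (σ ^ i β) ^ (P i)`, `i ∈ ℤ`. -/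
noncomputable def zact {E : Type} [CommGroup E] (P : ℤ →₀ ℤ) (σ : MulAut E) (β : E) : E :=
  P.prod fun i n => ((σ ^ i) β) ^ n

/-- `∏_i (σ ^ i β) ^ (coefficient of Δ at i)`. -/
noncomputable def sact {E : Type} [CommGroup E] (Δ : Polynomial ℤ) (σ : MulAut E) (β : E) : E :=
  ∏ i ∈ Finset.range (Δ.natDegree + 1), ((σ ^ i) β) ^ (Δ.coeff i)

theorem zact_mul {E : Type} [CommGroup E] (P : ℤ →₀ ℤ) (σ : MulAut E) (β β' : E) :
    zact P σ (β * β') = zact P σ β * zact P σ β' := by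
  unfold zact
  rw [← Finsupp.prod_mul]
  refine Finsupp.prod_congr fun i _ => ?_
  rw [map_mul, mul_zpow]

theorem zact_add {E : Type} [CommGroup E] (P Q : ℤ →₀ ℤ) (σ : MulAut E) (β : E) :
    zact (P + Q) σ β = zact P σ β * zact Q σ β := by
  unfold zact
  rw [Finsupp.prod_add_index']
  · intro i; rw [zpow_zero]
  · intro i m n; rw [zpow_add]

theorem zact_single {E : Type} [CommGroup E] (i n : ℤ) (σ : MulAut E) (β : E) :
    zact (Finsupp.single i n) σ β = ((σ ^ i) β) ^ n := by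
  unfold zact
  rw [Finsupp.prod_single_index]
  rw [zpow_zero]

/-- The additive endomorphism of `Additive E` given by `σ`. -/
private noncomputable def word_end {E : Type} [CommGroup E] (σ : MulAut E) :
    Module.End ℤ (Additive E) :=
  (MonoidHom.toAdditive (σ : E ≃* E).toMonoidHom).toIntLinearMap

private theorem word_end_pow {E : Type} [CommGroup E] (σ : MulAut E) (n : ℕ) (β : E) :
    ((word_end σ) ^ n) (Additive.ofMul β) = Additive.ofMul ((σ ^ n) β) := by
  induction n with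
  | zero => rfl
  | succ n ih =>
    rw [pow_succ', Module.End.mul_apply, ih, pow_succ', MulAut.mul_apply]
    rfl

private theorem sact_eq {E : Type} [CommGroup E] (Δ : Polynomial ℤ) (σ : MulAut E) (β : E) :
    Additive.ofMul (sact Δ σ β) = (Polynomial.aeval (word_end σ) Δ) (Additive.ofMul β) := by
  rw [Polynomial.aeval_eq_sum_range, LinearMap.sum_apply]
  unfold sact
  rw [ofMul_prod]
  refine Finset.sum_congr rfl fun i _ => ?_
  rw [LinearMap.smul_apply, word_end_pow]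
  rfl

theorem sact_mul {E : Type} [CommGroup E] (P Q : Polynomial ℤ) (σ : MulAut E) (β : E) :
    sact (P * Q) σ β = sact P σ (sact Q σ β) := by
  apply Additive.ofMul.injective
  rw [sact_eq, sact_eq, sact_eq, map_mul, Module.End.mul_apply]

/-- A nonzero `δ : ℤ →₀ ℤ` becomes a nonzero polynomial after a shift. -/
theorem exists_poly (δ : ℤ →₀ ℤ) (hδ : δ ≠ 0) :
    ∃ (N : ℕ) (p : Polynomial ℤ), p ≠ 0 ∧ ∀ (E : Type) [CommGroup E] (σ : MulAut E) (β : E),
      sact p σ β = zact δ σ ((σ ^ N) β) := by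
  classical
  let N : ℕ := ∑ i ∈ δ.support, i.natAbs
  have hN : ∀ i ∈ δ.support, 0 ≤ i + (N : ℤ) := by
    intro i hi
    have h1 : i.natAbs ≤ N := Finset.single_le_sum (f := fun i : ℤ => i.natAbs)
      (fun _ _ => Nat.zero_le _) hi
    have h2 : -i ≤ (i.natAbs : ℤ) := by omega
    omega
  refine ⟨N, ∑ i ∈ δ.support, Polynomial.monomial (i + (N : ℤ)).toNat (δ i), ?_, ?_⟩
  · obtain ⟨i0, hi0⟩ := Finsupp.support_nonempty_iff.mpr hδ
    intro h
    have h1 := congrArg (fun p : Polynomial ℤ => p.coeff (i0 + (N : ℤ)).toNat) h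
    simp only [Polynomial.finsetSum_coeff, Polynomial.coeff_zero, Polynomial.coeff_monomial] at h1
    rw [Finset.sum_eq_single_of_mem i0 hi0] at h1
    · rw [if_pos rfl] at h1
      exact (Finsupp.mem_support_iff.mp hi0) h1
    · intro j hj hne
      rw [if_neg]
      intro h2
      have h3 := hN j hj
      have h4 := hN i0 hi0
      omega
  · intro E _ σ β
    apply Additive.ofMul.injective
    rw [sact_eq, map_sum, LinearMap.sum_apply]
    unfold zact
    rw [Finsupp.prod, ofMul_prod]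
    refine Finset.sum_congr rfl fun i hi => ?_
    rw [Polynomial.aeval_monomial, Module.End.mul_apply, word_end_pow]
    have h1 : (σ ^ (i + (N : ℤ)).toNat) β = (σ ^ i) ((σ ^ N) β) := by
      rw [← MulAut.mul_apply, ← zpow_natCast, ← zpow_natCast, ← zpow_add,
        Int.toNat_of_nonneg (hN i hi)]
    rw [h1]
    rfl

private theorem word_shift (P : ℤ →₀ ℤ) (a : ℤ) :
    ∃ P' : ℤ →₀ ℤ, ∀ (E : Type) [CommGroup E] (σ : MulAut E) (β : E),
      zact P' σ β = (σ ^ a) (zact P σ β) := by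
  classical
  refine ⟨P.embDomain (addRightEmbedding a), fun E _ σ β => ?_⟩
  unfold zact
  rw [Finsupp.prod_embDomain, Finsupp.prod, Finsupp.prod, map_prod]
  refine Finset.prod_congr rfl fun i _ => ?_
  rw [map_zpow, ← MulAut.mul_apply, ← zpow_add, addRightEmbedding_apply, add_comm]

private theorem word_neg (P : ℤ →₀ ℤ) :
    ∀ (E : Type) [CommGroup E] (σ : MulAut E) (β : E),
      zact (-P) σ β = (zact P σ β)⁻¹ := by
  intro E _ σ β
  rw [eq_inv_iff_mul_eq_one, ← zact_add, neg_add_cancel]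
  exact Finsupp.prod_zero_index

private theorem word_conj {E Γ : Type} [CommGroup E] [Group Γ] (f : E →* Γ) (σ : MulAut E)
    (ξ : Γ) (h : ∀ e, ξ * f e * ξ⁻¹ = f (σ e)) (a : ℤ) (e : E) :
    ξ ^ a * f e = f ((σ ^ a) e) * ξ ^ a := by
  induction a generalizing e with
  | zero => simp
  | succ n ih =>
    have h1 : ∀ e, ξ * f e = f (σ e) * ξ := fun e => by rw [← h e]; group
    rw [zpow_add_one, mul_assoc, h1, ← mul_assoc, ih, zpow_add_one, MulAut.mul_apply, mul_assoc]
  | pred n ih =>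
    have h1 : ∀ e, ξ⁻¹ * f e = f (σ⁻¹ e) * ξ⁻¹ := fun e => by
      have h2 := h (σ⁻¹ e)
      rw [MulAut.apply_inv_self] at h2
      rw [← h2]; group
    rw [zpow_sub_one, mul_assoc, h1, ← mul_assoc, ih, zpow_sub_one, MulAut.mul_apply, mul_assoc]

theorem word_normal (g : FreeGroup (Fin 3)) :
    ∃ (P : ℤ →₀ ℤ) (a : ℤ), ∀ (E Γ : Type) [CommGroup E] [Group Γ] (f : E →* Γ) (σ : MulAut E)
      (ξ : Γ), (∀ e, ξ * f e * ξ⁻¹ = f (σ e)) → ∀ β : E,
        FreeGroup.lift ![f β, ξ, 1] g = f (zact P σ β) * ξ ^ a := by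
  have hinv : ∀ g : FreeGroup (Fin 3), (∃ (P : ℤ →₀ ℤ) (a : ℤ), ∀ (E Γ : Type) [CommGroup E]
      [Group Γ] (f : E →* Γ) (σ : MulAut E) (ξ : Γ), (∀ e, ξ * f e * ξ⁻¹ = f (σ e)) →
        ∀ β : E, FreeGroup.lift ![f β, ξ, 1] g = f (zact P σ β) * ξ ^ a) →
      ∃ (P : ℤ →₀ ℤ) (a : ℤ), ∀ (E Γ : Type) [CommGroup E]
      [Group Γ] (f : E →* Γ) (σ : MulAut E) (ξ : Γ), (∀ e, ξ * f e * ξ⁻¹ = f (σ e)) →
        ∀ β : E, FreeGroup.lift ![f β, ξ, 1] g⁻¹ = f (zact P σ β) * ξ ^ a := by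
    rintro g ⟨P, a, hP⟩
    obtain ⟨P', hP'⟩ := word_shift (-P) (-a)
    refine ⟨P', -a, fun E Γ _ _ f σ ξ h β => ?_⟩
    rw [map_inv, hP E Γ f σ ξ h β, hP', word_neg, ← word_conj f σ ξ h (-a), map_inv]
    group
  induction g using FreeGroup.induction_on with
  | C1 =>
    refine ⟨0, 0, fun E Γ _ _ f σ ξ h β => ?_⟩
    rw [map_one, zpow_zero, mul_one]
    have : zact 0 σ β = 1 := Finsupp.prod_zero_index
    rw [this, map_one]
  | of i =>
    fin_cases i
    · refine ⟨Finsupp.single 0 1, 0, fun E Γ _ _ f σ ξ h β => ?_⟩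
      rw [zact_single]
      simp
    · refine ⟨0, 1, fun E Γ _ _ f σ ξ h β => ?_⟩
      have : zact 0 σ β = 1 := Finsupp.prod_zero_index
      rw [this]
      simp
    · refine ⟨0, 0, fun E Γ _ _ f σ ξ h β => ?_⟩
      have : zact 0 σ β = 1 := Finsupp.prod_zero_index
      rw [this]
      simp
  | inv_of i h => exact hinv _ h
  | mul x y hx hy =>
    obtain ⟨P, a, hP⟩ := hx
    obtain ⟨Q, b, hQ⟩ := hy
    obtain ⟨Q', hQ'⟩ := word_shift Q a
    refine ⟨P + Q', a + b, fun E Γ _ _ f σ ξ h β => ?_⟩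
    rw [map_mul, hP E Γ f σ ξ h β, hQ E Γ f σ ξ h β, zact_add, hQ', map_mul, zpow_add,
      mul_assoc, ← mul_assoc (ξ ^ a), word_conj f σ ξ h a]
    simp only [mul_assoc]

end Pool.Agent.Helper83.SV
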